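import Pool.Agent.H32.HallD.Defs

/-!
# HallD CardSL: the orders of `SL₂` and `SL₃` over a finite field
-/

set_option autoImplicit false

open Matrix

namespace Pool.Agent.H32.HallD

variable {F : Type} [Field F]

theorem card_SL_mul (n : ℕ) [NeZero n] :
    Nat.card (SpecialLinearGroup (Fin n) F) * (Nat.card F - 1) = Nat.card (GL (Fin n) F) := by
  classical
  have h1 := Subgroup.card_mul_index (GeneralLinearGroup.det (n := Fin n) (R := F)).ker
  have hsurj : Function.Surjective (GeneralLinearGroup.det (n := Fin n) (R := F)) := GeneralLinearGroup.det_surjective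
  have h2 : (GeneralLinearGroup.det (n := Fin n) (R := F)).ker.index = Nat.card F - 1 := by
    rw [Subgroup.index_ker, MonoidHom.range_eq_top.mpr hsurj]
    rw [Nat.card_congr (Subgroup.topEquiv (G := Fˣ)).toEquiv, Nat.card_units]
  have h3 : (GeneralLinearGroup.det (n := Fin n) (R := F)).ker = (SpecialLinearGroup.toGL (n := Fin n) (R := F)).range := by
    ext g
    rw [MonoidHom.mem_ker, MonoidHom.mem_range]
    constructor
    · intro hg
      refine ⟨⟨(g : Matrix (Fin n) (Fin n) F), ?_⟩, ?_⟩
      · have h4 := congrArg Units.val hg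
        simpa using h4
      · apply Units.ext
        rfl
    · rintro ⟨h, rfl⟩
      apply Units.ext
      simp
  have h4 : Nat.card (SpecialLinearGroup.toGL (n := Fin n) (R := F)).range = Nat.card (SpecialLinearGroup (Fin n) F) :=
    Nat.card_congr (MonoidHom.ofInjective SpecialLinearGroup.toGL_injective).toEquiv.symm
  rw [h2, h3, h4] at h1
  exact h1

variable [Finite F]

theorem card_SL2 : Nat.card (SpecialLinearGroup (Fin 2) F) = Nat.card F * (Nat.card F ^ 2 - 1) := by
  haveI : Fintype F := Fintype.ofFinite F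
  have h1 := card_SL_mul (F := F) 2
  rw [card_GL_field, Fin.prod_univ_two, ← Nat.card_eq_fintype_card] at h1
  simp only [Fin.val_zero, pow_zero, Fin.val_one, pow_one] at h1
  have hq : 1 < Nat.card F := Finite.one_lt_card
  set q := Nat.card F with hqdef
  have h2 : q ^ 2 - q = q * (q - 1) := by
    rw [Nat.mul_sub, mul_one, pow_two]
  rw [h2] at h1
  have h3 : Nat.card (SpecialLinearGroup (Fin 2) F) * (q - 1) = (q * (q ^ 2 - 1)) * (q - 1) := by
    rw [h1]
    ring
  exact Nat.eq_of_mul_eq_mul_right (by omega) h3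

theorem card_SL3 : Nat.card (SpecialLinearGroup (Fin 3) F) = Nat.card F ^ 3 * (Nat.card F ^ 2 - 1) * (Nat.card F ^ 3 - 1) := by
  haveI : Fintype F := Fintype.ofFinite F
  have h1 := card_SL_mul (F := F) 3
  rw [card_GL_field, Fin.prod_univ_three, ← Nat.card_eq_fintype_card] at h1
  have hv2 : ((2 : Fin 3) : ℕ) = 2 := rfl
  simp only [Fin.val_zero, pow_zero, Fin.val_one, pow_one, hv2] at h1
  have hq : 1 < Nat.card F := Finite.one_lt_card
  set q := Nat.card F with hqdef
  have h2 : q ^ 3 - q = q * (q ^ 2 - 1) := by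
    rw [Nat.mul_sub, mul_one]
    congr 1
    ring
  have h2' : q ^ 3 - q ^ 2 = q ^ 2 * (q - 1) := by
    rw [Nat.mul_sub, mul_one]
    congr 1
  rw [h2, h2'] at h1
  have h3 : Nat.card (SpecialLinearGroup (Fin 3) F) * (q - 1) = (q ^ 3 * (q ^ 2 - 1) * (q ^ 3 - 1)) * (q - 1) := by
    rw [h1]
    ring
  exact Nat.eq_of_mul_eq_mul_right (by omega) h3

end Pool.Agent.H32.HallD
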