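import Pool.Agent.H32.HallD.Part

/-!
# HallD Count: counting the elements in the conjugates of a member of the partition
-/

set_option autoImplicit false

universe u

namespace Pool.Agent.H32.HallD

variable {p : ℕ} {F : Type} [Field F] {L : Type u} [Group L] {C : L → Subgroup L}

/-- the elements `≠ 1` of the conjugates of `C x` -/
def cls (C : L → Subgroup L) (x : L) : Set L := {y | y ≠ 1 ∧ ∃ g, C y = cj g (C x)}

theorem cj_one (A : Subgroup L) : cj 1 A = A := by
  ext z
  rw [mem_cj]
  simp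

theorem cls_self {x : L} (hx : x ≠ 1) : x ∈ cls C x := ⟨hx, 1, (cj_one _).symm⟩

theorem cls_eq {x y : L} (h : y ∈ cls C x) : cls C y = cls C x := by
  obtain ⟨hy, g, hg⟩ := h
  ext z
  constructor
  · rintro ⟨hz, k, hk⟩
    exact ⟨hz, k * g, by rw [hk, hg, cj_cj]⟩
  · rintro ⟨hz, k, hk⟩
    refine ⟨hz, k * g⁻¹, ?_⟩
    rw [hk, hg, cj_cj, inv_mul_cancel_right]

theorem cls_disjoint {x y : L} (hy : y ≠ 1) (h : y ∉ cls C x) : Disjoint (cls C x) (cls C y) := by
  rw [Set.disjoint_left]
  intro z hz hz2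
  apply h
  rw [← cls_eq hz, cls_eq hz2]
  exact cls_self hy

/-- members of the class have members of the partition of the same order -/
theorem card_of_mem_cls {x y : L} (h : y ∈ cls C x) : Nat.card (C y) = Nat.card (C x) := by
  obtain ⟨-, g, hg⟩ := h
  rw [hg, card_cj]

theorem card_cls [Finite L] (h : Pt p F C) {x : L} (hx : x ≠ 1) :
    Nat.card (cls C x) * Nat.card (Subgroup.normalizer (C x : Set L)) = Nat.card L * (Nat.card (C x) - 1) := by
  have hγ : ∀ z : cls C x, ∃ g, C (z : L) = cj g (C x) := fun z => z.2.2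
  choose γ hγ using hγ
  have hz1 : ∀ (g : L) (y : C x), (y : L) ≠ 1 → g * y * g⁻¹ ∈ cls C x := by
    intro g y hy
    refine ⟨conj_ne_one hy, g, ?_⟩
    rw [h.conj g y hy, h.eq_of_mem x y hx hy y.2]
  have e : L × {y : C x // (y : L) ≠ 1} ≃ cls C x × Subgroup.normalizer (C x : Set L) :=
    { toFun := fun a => (⟨a.1 * a.2.1 * a.1⁻¹, hz1 a.1 a.2.1 a.2.2⟩,
        ⟨(γ ⟨a.1 * a.2.1 * a.1⁻¹, hz1 a.1 a.2.1 a.2.2⟩)⁻¹ * a.1, by
          rw [← cj_eq_iff, ← cj_cj]
          have h1 : C (a.1 * a.2.1 * a.1⁻¹ : L) = cj a.1 (C x) := by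
            rw [h.conj a.1 a.2.1 a.2.2, h.eq_of_mem x a.2.1 hx a.2.2 a.2.1.2]
          rw [← h1, hγ ⟨a.1 * a.2.1 * a.1⁻¹, hz1 a.1 a.2.1 a.2.2⟩, cj_cj, inv_mul_cancel, cj_one]⟩)
      invFun := fun b => (γ b.1 * b.2, ⟨⟨(γ b.1 * b.2)⁻¹ * b.1 * (γ b.1 * b.2), by
          have h1 : (b.1 : L) ∈ cj (γ b.1) (C x) := by
            rw [← hγ b.1]
            exact h.mem _
          have h2 : cj (γ b.1 * b.2) (C x) = cj (γ b.1) (C x) := by
            rw [← cj_cj, cj_eq_iff.mpr b.2.2]
          rw [← h2, mem_cj] at h1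
          exact h1⟩, by
          show (γ b.1 * b.2 : L)⁻¹ * b.1 * (γ b.1 * b.2) ≠ 1
          have h2 := conj_ne_one (g := (γ b.1 * b.2 : L)⁻¹) b.1.2.1
          rwa [inv_inv] at h2⟩)
      left_inv := by
        rintro ⟨g, ⟨⟨y, hy⟩, hy1⟩⟩
        have h1 : ∀ k : L, k * (k⁻¹ * g) = g := fun k => by group
        ext
        · simp
        · simp [mul_assoc]
      right_inv := by
        rintro ⟨⟨z, hz⟩, ⟨n, hn⟩⟩
        have h1 : (γ ⟨z, hz⟩ * n) * ((γ ⟨z, hz⟩ * n)⁻¹ * z * (γ ⟨z, hz⟩ * n)) * (γ ⟨z, hz⟩ * n)⁻¹ = z := by group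
        simp only [h1]
        ext
        · rfl
        · simp }
  have h1 := Nat.card_congr e
  rw [Nat.card_prod, Nat.card_prod] at h1
  rw [← h1]
  congr 1
  have h2 : Nat.card {y : C x // (y : L) ≠ 1} = Nat.card {y : C x // y ≠ 1} :=
    Nat.card_congr (Equiv.subtypeEquivRight fun y => by simp)
  rw [h2]
  haveI := Fintype.ofFinite (C x)
  classical
  rw [Nat.card_eq_fintype_card, Nat.card_eq_fintype_card, Fintype.card_subtype_compl]
  simp

/-- three classes which are pairwise different have together less than `|L|` elements, and similarly for fewer classes -/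
theorem card_cls_lt [Finite L] (x : L) : Nat.card (cls C x) + 1 ≤ Nat.card L := by
  have h1 : Nat.card (insert (1 : L) (cls C x) : Set L) = Nat.card (cls C x) + 1 := by
    rw [Nat.card_coe_set_eq, Nat.card_coe_set_eq]
    exact Set.ncard_insert_of_notMem (fun h => h.1 rfl) (Set.toFinite _)
  rw [← h1]
  exact Nat.card_le_card_of_injective Subtype.val Subtype.val_injective

theorem card_cls_two [Finite L] {x y : L} (hy : y ≠ 1) (h : y ∉ cls C x) :
    Nat.card (cls C x) + Nat.card (cls C y) + 1 ≤ Nat.card L := by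
  have h1 : Nat.card (insert (1 : L) (cls C x ∪ cls C y) : Set L) = Nat.card (cls C x) + Nat.card (cls C y) + 1 := by
    rw [Nat.card_coe_set_eq, Nat.card_coe_set_eq, Nat.card_coe_set_eq,
      Set.ncard_insert_of_notMem (by rintro (h | h) <;> exact h.1 rfl) (Set.toFinite _),
      Set.ncard_union_eq (cls_disjoint hy h) (Set.toFinite _) (Set.toFinite _)]
  rw [← h1]
  exact Nat.card_le_card_of_injective Subtype.val Subtype.val_injective

theorem card_cls_three [Finite L] {x y z : L} (hy : y ≠ 1) (hz : z ≠ 1) (h : y ∉ cls C x) (h2 : z ∉ cls C x) (h3 : z ∉ cls C y) :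
    Nat.card (cls C x) + Nat.card (cls C y) + Nat.card (cls C z) + 1 ≤ Nat.card L := by
  have h1 : Nat.card (insert (1 : L) ((cls C x ∪ cls C y) ∪ cls C z) : Set L) =
      Nat.card (cls C x) + Nat.card (cls C y) + Nat.card (cls C z) + 1 := by
    rw [Nat.card_coe_set_eq, Nat.card_coe_set_eq, Nat.card_coe_set_eq, Nat.card_coe_set_eq,
      Set.ncard_insert_of_notMem (by rintro ((h | h) | h) <;> exact h.1 rfl) (Set.toFinite _),
      Set.ncard_union_eq (by
        rw [Set.disjoint_union_left]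
        exact ⟨cls_disjoint hz h2, cls_disjoint hz h3⟩) (Set.toFinite _) (Set.toFinite _),
      Set.ncard_union_eq (cls_disjoint hy h) (Set.toFinite _) (Set.toFinite _)]
  rw [← h1]
  exact Nat.card_le_card_of_injective Subtype.val Subtype.val_injective

theorem card_cls_four [Finite L] {x y z w : L} (hy : y ≠ 1) (hz : z ≠ 1) (hw : w ≠ 1) (h : y ∉ cls C x) (h2 : z ∉ cls C x)
    (h3 : z ∉ cls C y) (h4 : w ∉ cls C x) (h5 : w ∉ cls C y) (h6 : w ∉ cls C z) :
    Nat.card (cls C x) + Nat.card (cls C y) + Nat.card (cls C z) + Nat.card (cls C w) + 1 ≤ Nat.card L := by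
  have h1 : Nat.card (insert (1 : L) (((cls C x ∪ cls C y) ∪ cls C z) ∪ cls C w) : Set L) =
      Nat.card (cls C x) + Nat.card (cls C y) + Nat.card (cls C z) + Nat.card (cls C w) + 1 := by
    rw [Nat.card_coe_set_eq, Nat.card_coe_set_eq, Nat.card_coe_set_eq, Nat.card_coe_set_eq, Nat.card_coe_set_eq,
      Set.ncard_insert_of_notMem (by rintro (((h | h) | h) | h) <;> exact h.1 rfl) (Set.toFinite _),
      Set.ncard_union_eq (by
        rw [Set.disjoint_union_left, Set.disjoint_union_left]
        exact ⟨⟨cls_disjoint hw h4, cls_disjoint hw h5⟩, cls_disjoint hw h6⟩) (Set.toFinite _) (Set.toFinite _),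
      Set.ncard_union_eq (by
        rw [Set.disjoint_union_left]
        exact ⟨cls_disjoint hz h2, cls_disjoint hz h3⟩) (Set.toFinite _) (Set.toFinite _),
      Set.ncard_union_eq (cls_disjoint hy h) (Set.toFinite _) (Set.toFinite _)]
  rw [← h1]
  exact Nat.card_le_card_of_injective Subtype.val Subtype.val_injective

/-- if every element `≠ 1` is in one of the classes, there is equality -/
theorem card_cls_eq_one [Finite L] {x : L} (h : ∀ w : L, w ≠ 1 → w ∈ cls C x) : Nat.card (cls C x) + 1 = Nat.card L := by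
  have h1 : Nat.card (insert (1 : L) (cls C x) : Set L) = Nat.card (cls C x) + 1 := by
    rw [Nat.card_coe_set_eq, Nat.card_coe_set_eq]
    exact Set.ncard_insert_of_notMem (fun h => h.1 rfl) (Set.toFinite _)
  have h2 : (insert (1 : L) (cls C x) : Set L) = Set.univ := by
    ext w
    simp only [Set.mem_insert_iff, Set.mem_univ, iff_true]
    by_cases hw : w = 1
    · exact Or.inl hw
    · exact Or.inr (h w hw)
  rw [← h1, h2]
  exact Nat.card_congr (Equiv.Set.univ L)

theorem card_cls_eq_two [Finite L] {x y : L} (hy : y ≠ 1) (hxy : y ∉ cls C x) (h : ∀ w : L, w ≠ 1 → w ∈ cls C x ∨ w ∈ cls C y) :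
    Nat.card (cls C x) + Nat.card (cls C y) + 1 = Nat.card L := by
  have h1 : Nat.card (insert (1 : L) (cls C x ∪ cls C y) : Set L) = Nat.card (cls C x) + Nat.card (cls C y) + 1 := by
    rw [Nat.card_coe_set_eq, Nat.card_coe_set_eq, Nat.card_coe_set_eq,
      Set.ncard_insert_of_notMem (by rintro (h | h) <;> exact h.1 rfl) (Set.toFinite _),
      Set.ncard_union_eq (cls_disjoint hy hxy) (Set.toFinite _) (Set.toFinite _)]
  have h2 : (insert (1 : L) (cls C x ∪ cls C y) : Set L) = Set.univ := by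
    ext w
    simp only [Set.mem_insert_iff, Set.mem_univ, iff_true]
    by_cases hw : w = 1
    · exact Or.inl hw
    · exact Or.inr (h w hw)
  rw [← h1, h2]
  exact Nat.card_congr (Equiv.Set.univ L)

theorem card_cls_eq_three [Finite L] {x y z : L} (hy : y ≠ 1) (hz : z ≠ 1) (hxy : y ∉ cls C x) (hxz : z ∉ cls C x) (hyz : z ∉ cls C y)
    (h : ∀ w : L, w ≠ 1 → w ∈ cls C x ∨ w ∈ cls C y ∨ w ∈ cls C z) :
    Nat.card (cls C x) + Nat.card (cls C y) + Nat.card (cls C z) + 1 = Nat.card L := by
  have h1 : Nat.card (insert (1 : L) ((cls C x ∪ cls C y) ∪ cls C z) : Set L) =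
      Nat.card (cls C x) + Nat.card (cls C y) + Nat.card (cls C z) + 1 := by
    rw [Nat.card_coe_set_eq, Nat.card_coe_set_eq, Nat.card_coe_set_eq, Nat.card_coe_set_eq,
      Set.ncard_insert_of_notMem (by rintro ((h | h) | h) <;> exact h.1 rfl) (Set.toFinite _),
      Set.ncard_union_eq (by
        rw [Set.disjoint_union_left]
        exact ⟨cls_disjoint hz hxz, cls_disjoint hz hyz⟩) (Set.toFinite _) (Set.toFinite _),
      Set.ncard_union_eq (cls_disjoint hy hxy) (Set.toFinite _) (Set.toFinite _)]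
  have h2 : (insert (1 : L) ((cls C x ∪ cls C y) ∪ cls C z) : Set L) = Set.univ := by
    ext w
    simp only [Set.mem_insert_iff, Set.mem_univ, iff_true, Set.mem_union]
    by_cases hw : w = 1
    · exact Or.inl hw
    · rcases h w hw with h | h | h
      · exact Or.inr (Or.inl (Or.inl h))
      · exact Or.inr (Or.inl (Or.inr h))
      · exact Or.inr (Or.inr h)
  rw [← h1, h2]
  exact Nat.card_congr (Equiv.Set.univ L)

/-- the index of a torus in its normaliser is `1` or `2` -/
theorem SS.card_norm [Finite L] (h : Pt p F C) {x : L} (hx : x ≠ 1) (hs : SS p C x) :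
    Nat.card (Subgroup.normalizer (C x : Set L)) = Nat.card (C x) ∨
      Nat.card (Subgroup.normalizer (C x : Set L)) = 2 * Nat.card (C x) := by
  set N := Subgroup.normalizer (C x : Set L) with hN
  have hle : C x ≤ N := Subgroup.le_normalizer
  by_cases h1 : N ≤ C x
  · left
    rw [le_antisymm h1 hle]
  · right
    obtain ⟨g, hg, hg2⟩ := Set.not_subset.mp h1
    have h2 : (C x).relIndex N = 2 := by
      rw [Subgroup.relIndex_eq_two_iff]
      refine ⟨g, hg, fun b hb => ?_⟩
      by_cases hb2 : b ∈ C x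
      · right
        refine ⟨hb2, fun h3 => hg2 ?_⟩
        have h4 := (C x).mul_mem ((C x).inv_mem hb2) h3
        simpa using h4
      · left
        refine ⟨hs.two b g ((h.mem_norm hx).mp hb) hb2 ((h.mem_norm hx).mp hg) hg2, hb2⟩
    have h3 := Subgroup.card_mul_index ((C x).subgroupOf N)
    have h4 : Nat.card ((C x).subgroupOf N) = Nat.card (C x) := Nat.card_congr (Subgroup.subgroupOfEquivOfLe hle).toEquiv
    have h5 : ((C x).subgroupOf N).index = 2 := h2
    rw [h4, h5] at h3
    rw [← h3, mul_comm]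

end Pool.Agent.H32.HallD
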