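import Pool.Agent.H32.HallD.Defs

/-!
# HallD Crit: a criterion for `D_π`

`dpi_of_normal`: if in every `π`-subgroup every `π ∖ {r}`-subgroup is normal, then `E_π` implies `D_π`.
-/

set_option autoImplicit false

universe u

namespace Pool.Agent.H32.HallD

variable {G : Type u} [Group G]

theorem PiNumber.of_dvd {π : Set ℕ} {m n : ℕ} (h : PiNumber π n) (hm : m ∣ n) : PiNumber π m :=
  fun t ht htm => h t ht (htm.trans hm)

theorem PiPrimeNumber.of_dvd {π : Set ℕ} {m n : ℕ} (h : PiPrimeNumber π n) (hm : m ∣ n) : PiPrimeNumber π m :=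
  fun t ht htm => h t ht (htm.trans hm)

theorem PiNumber.mul {π : Set ℕ} {m n : ℕ} (hm : PiNumber π m) (hn : PiNumber π n) : PiNumber π (m * n) := by
  intro t ht h
  rcases (Nat.Prime.dvd_mul ht).mp h with h | h
  · exact hm t ht h
  · exact hn t ht h

theorem eq_one_of_pi {π : Set ℕ} {n : ℕ} (h1 : PiNumber π n) (h2 : PiPrimeNumber π n) : n = 1 := by
  by_contra hn
  obtain ⟨t, ht, htn⟩ := Nat.exists_prime_and_dvd hn
  exact h2 t ht htn (h1 t ht htn)

theorem PiSubgroup.mono {π : Set ℕ} {L M : Subgroup G} [Finite G] (h : PiSubgroup π M) (hL : L ≤ M) : PiSubgroup π L :=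
  PiNumber.of_dvd h (Subgroup.card_dvd_of_le hL)

/-- the conjugate `g H g⁻¹` -/
def cj (g : G) (H : Subgroup G) : Subgroup G := H.map (MulAut.conj g).toMonoidHom

theorem mem_cj {g x : G} {H : Subgroup G} : x ∈ cj g H ↔ g⁻¹ * x * g ∈ H := by
  unfold cj
  rw [Subgroup.mem_map]
  constructor
  · rintro ⟨y, hy, rfl⟩
    simpa [mul_assoc] using hy
  · intro h
    exact ⟨_, h, by simp [mul_assoc]⟩

theorem card_cj (g : G) (H : Subgroup G) : Nat.card (cj g H) = Nat.card H :=
  Nat.card_congr (H.equivMapOfInjective _ (MulAut.conj g).injective).toEquiv.symm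

theorem index_cj [Finite G] (g : G) (H : Subgroup G) : (cj g H).index = H.index := by
  have h1 := Subgroup.card_mul_index (cj g H)
  have h2 := Subgroup.card_mul_index H
  rw [card_cj, ← h2] at h1
  exact Nat.eq_of_mul_eq_mul_left Nat.card_pos h1

theorem IsHall.cj [Finite G] {π : Set ℕ} {H : Subgroup G} (h : IsHall π H) (g : G) : IsHall π (HallD.cj g H) :=
  ⟨by rw [card_cj]; exact h.card, by rw [index_cj]; exact h.index⟩

theorem cj_cj (g k : G) (H : Subgroup G) : cj g (cj k H) = cj (g * k) H := by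
  ext x
  rw [mem_cj, mem_cj, mem_cj]
  simp [mul_assoc]

theorem cj_mono {g : G} {H L : Subgroup G} (h : H ≤ L) : cj g H ≤ cj g L := Subgroup.map_mono h

/-- a `t`-subgroup lies in a conjugate of every subgroup of index prime to `t` -/
theorem exists_cj_of_pgroup [Finite G] {t : ℕ} (ht : t.Prime) {L H : Subgroup G} (hL : IsPGroup t L) (hH : ¬ t ∣ H.index) :
    ∃ g : G, L ≤ cj g H := by
  haveI : Fact t.Prime := ⟨ht⟩
  haveI : Finite (G ⧸ H) := Quotient.finite _
  obtain ⟨x, hx⟩ := hL.nonempty_fixed_point_of_prime_not_dvd_card (G ⧸ H) (by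
    rw [← Subgroup.index_eq_card]
    exact hH)
  obtain ⟨g, rfl⟩ := QuotientGroup.mk_surjective x
  refine ⟨g, fun l hl => ?_⟩
  rw [mem_cj]
  have h1 := hx ⟨l, hl⟩
  have h2 : ((l * g : G) : G ⧸ H) = (g : G ⧸ H) := h1
  have h3 := QuotientGroup.eq.mp h2.symm
  rw [← mul_assoc] at h3
  exact h3

/-- it suffices that every `π`-subgroup lies in a conjugate of one Hall subgroup -/
theorem dpi_of_cover [Finite G] {π : Set ℕ} {H : Subgroup G} (hH : IsHall π H)
    (h : ∀ L : Subgroup G, PiSubgroup π L → ∃ g : G, L ≤ cj g H) : DPi π G := by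
  have key : ∀ L : Subgroup G, IsHall π L → ∃ g : G, L = cj g H := by
    intro L hL
    obtain ⟨g, hg⟩ := h L hL.card
    refine ⟨g, ?_⟩
    have h1 : L.relIndex (cj g H) = 1 := by
      apply eq_one_of_pi (π := π)
      · exact PiNumber.of_dvd (hH.cj g).card (by
          unfold Subgroup.relIndex
          exact Subgroup.index_dvd_card _)
      · exact PiPrimeNumber.of_dvd hL.index (Subgroup.relIndex_dvd_index_of_le hg)
    exact le_antisymm hg (Subgroup.relIndex_eq_one.mp h1)
  refine ⟨⟨H, hH⟩, ?_, ?_⟩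
  · intro H' L hH' hL
    obtain ⟨g, rfl⟩ := key H' hH'
    obtain ⟨k, rfl⟩ := key L hL
    refine ⟨k * g⁻¹, ?_⟩
    show cj k H = cj (k * g⁻¹) (cj g H)
    rw [cj_cj, inv_mul_cancel_right]
  · intro L hL
    obtain ⟨g, hg⟩ := h L hL
    exact ⟨cj g H, hH.cj g, hg⟩

theorem DPi.cover {π : Set ℕ} [Finite G] (h : DPi π G) {H : Subgroup G} (hH : IsHall π H) {L : Subgroup G} (hL : PiSubgroup π L) :
    ∃ g : G, L ≤ cj g H := by
  obtain ⟨H', hH', hle⟩ := h.2.2 L hL
  obtain ⟨g, hg⟩ := h.2.1 H H' hH hH'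
  exact ⟨g, hle.trans hg.le⟩

/-- the hypothesis of the criterion -/
def NormPi (π : Set ℕ) (r : ℕ) (G : Type u) [Group G] : Prop :=
  ∀ L B : Subgroup G, PiSubgroup π L → B ≤ L → PiSubgroup (π \ {r}) B → ∀ x ∈ L, ∀ b ∈ B, x * b * x⁻¹ ∈ B

theorem NormPi.subgroup {π : Set ℕ} {r : ℕ} (h : NormPi π r G) (K : Subgroup G) : NormPi π r K := by
  intro L B hL hB hBp x hx b hb
  have hc : ∀ M : Subgroup K, Nat.card (M.map K.subtype) = Nat.card M := fun M =>
    Nat.card_congr (M.equivMapOfInjective _ K.subtype_injective).toEquiv.symm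
  have h1 := h (L.map K.subtype) (B.map K.subtype) (by unfold PiSubgroup; rw [hc]; exact hL) (Subgroup.map_mono hB)
    (by unfold PiSubgroup; rw [hc]; exact hBp) x (Subgroup.mem_map_of_mem K.subtype hx) b (Subgroup.mem_map_of_mem K.subtype hb)
  obtain ⟨y, hy, hy2⟩ := h1
  have h2 : y = x * b * x⁻¹ := Subtype.ext hy2
  rw [← h2]
  exact hy

theorem card_comap_mk [Finite G] (B : Subgroup G) [B.Normal] (M : Subgroup (G ⧸ B)) :
    Nat.card (M.comap (QuotientGroup.mk' B)) = Nat.card M * Nat.card B := by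
  have h1 := Subgroup.index_comap_of_surjective M (QuotientGroup.mk'_surjective B)
  have h2 := Subgroup.card_mul_index (M.comap (QuotientGroup.mk' B))
  have h3 := Subgroup.card_mul_index M
  have h4 := Subgroup.card_mul_index B
  rw [h1, ← h4, Subgroup.index_eq_card B, ← h3] at h2
  have h5 : 0 < M.index := Nat.pos_of_ne_zero Subgroup.index_ne_zero_of_finite
  apply Nat.eq_of_mul_eq_mul_right h5
  rw [h2]
  ring

theorem NormPi.quotient {π : Set ℕ} {r : ℕ} [Finite G] (h : NormPi π r G) (B : Subgroup G) [B.Normal] (hB : PiSubgroup (π \ {r}) B) :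
    NormPi π r (G ⧸ B) := by
  have hBπ : PiNumber π (Nat.card B) := fun t ht htB => (hB t ht htB).1
  intro L M hL hM hMp x hx b hb
  obtain ⟨x, rfl⟩ := QuotientGroup.mk_surjective x
  obtain ⟨b, rfl⟩ := QuotientGroup.mk_surjective b
  have h1 := h (L.comap (QuotientGroup.mk' B)) (M.comap (QuotientGroup.mk' B))
    (by unfold PiSubgroup; rw [card_comap_mk]; exact hL.mul hBπ) (Subgroup.comap_mono hM)
    (by unfold PiSubgroup; rw [card_comap_mk]; exact PiNumber.mul hMp hB) x hx b hb
  exact h1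

private theorem crit_aux (π : Set ℕ) (r : ℕ) (n : ℕ) : ∀ (G : Type u) [Group G] [Finite G], Nat.card G = n → NormPi π r G →
    ∀ H L : Subgroup G, IsHall π H → PiSubgroup π L → ∃ g : G, L ≤ cj g H := by
  induction n using Nat.strong_induction_on with
  | _ n ih =>
  intro G _ _ hn hN H L hH hL
  by_cases hr : ∀ t : ℕ, t.Prime → t ∣ Nat.card L → t = r
  · -- `L` is an `r`-group
    by_cases h1 : Nat.card L = 1
    · refine ⟨1, ?_⟩
      rw [Subgroup.card_eq_one.mp h1]
      exact bot_le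
    obtain ⟨t, ht, htL⟩ := Nat.exists_prime_and_dvd h1
    obtain rfl := hr t ht htL
    have hp : IsPGroup t L := by
      haveI : Fact t.Prime := ⟨ht⟩
      rw [IsPGroup.iff_card]
      exact ⟨_, Nat.eq_prime_pow_of_unique_prime_dvd Nat.card_pos.ne' (fun hd hdd => hr _ hd hdd)⟩
    exact exists_cj_of_pgroup ht hp (fun hd => hH.index t ht hd (hL t ht htL))
  push Not at hr
  obtain ⟨t, ht, htL, htr⟩ := hr
  haveI : Fact t.Prime := ⟨ht⟩
  obtain ⟨a, ha⟩ := exists_prime_orderOf_dvd_card' (G := L) t htL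
  set B : Subgroup G := Subgroup.zpowers (a : G) with hBdef
  have hBcard : Nat.card B = t := by
    rw [hBdef, Nat.card_zpowers, Subgroup.orderOf_coe, ha]
  have hBL : B ≤ L := by
    rw [hBdef, Subgroup.zpowers_le]
    exact a.2
  have htπ : t ∈ π := hL t ht htL
  have hBπ : PiSubgroup (π \ {r}) B := by
    intro s hs hsB
    rw [hBcard] at hsB
    obtain rfl := (Nat.prime_dvd_prime_iff_eq hs ht).mp hsB
    exact ⟨htπ, htr⟩
  have hBp : IsPGroup t B := by
    rw [IsPGroup.iff_card]
    exact ⟨1, by rw [hBcard, pow_one]⟩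
  obtain ⟨g₀, hg₀⟩ := exists_cj_of_pgroup ht hBp (fun hd => hH.index t ht hd htπ)
  have hH' : IsHall π (cj g₀ H) := hH.cj g₀
  suffices hs : ∃ g : G, L ≤ cj g (cj g₀ H) by
    obtain ⟨g, hg⟩ := hs
    exact ⟨g * g₀, by rw [← cj_cj]; exact hg⟩
  generalize cj g₀ H = H' at hg₀ hH'
  have hnL : ∀ x ∈ L, ∀ b ∈ B, x * b * x⁻¹ ∈ B := hN L B hL hBL hBπ
  have hnH : ∀ x ∈ H', ∀ b ∈ B, x * b * x⁻¹ ∈ B := hN H' B hH'.card hg₀ hBπ
  have hle : ∀ M : Subgroup G, (∀ x ∈ M, ∀ b ∈ B, x * b * x⁻¹ ∈ B) → M ≤ Subgroup.normalizer B := by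
    intro M hM x hx
    rw [Subgroup.mem_normalizer_iff]
    intro b
    constructor
    · exact hM x hx b
    · intro hb
      have h2 := hM x⁻¹ (M.inv_mem hx) _ hb
      simpa [mul_assoc] using h2
  have hLN := hle L hnL
  have hHN := hle H' hnH
  by_cases hNtop : Subgroup.normalizer (B : Set G) = ⊤
  · -- `B` is normal
    haveI hnorm : B.Normal := Subgroup.normalizer_eq_top_iff.mp hNtop
    have hcard : Nat.card (G ⧸ B) < n := by
      have h1 := Subgroup.card_mul_index B
      rw [hBcard, Subgroup.index_eq_card, hn] at h1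
      have h2 : 0 < Nat.card (G ⧸ B) := Nat.card_pos
      have h3 := ht.two_le
      nlinarith
    have hBker : (QuotientGroup.mk' B).ker = B := QuotientGroup.ker_mk' B
    have hcm : ∀ M : Subgroup G, B ≤ M → (M.map (QuotientGroup.mk' B)).comap (QuotientGroup.mk' B) = M := by
      intro M hM
      rw [Subgroup.comap_map_eq, hBker, sup_eq_left.mpr hM]
    have hHm : IsHall π (H'.map (QuotientGroup.mk' B)) := by
      constructor
      · have h1 := card_comap_mk B (H'.map (QuotientGroup.mk' B))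
        rw [hcm H' hg₀] at h1
        exact PiNumber.of_dvd hH'.card ⟨_, h1⟩
      · have h1 := Subgroup.index_comap_of_surjective (H'.map (QuotientGroup.mk' B)) (QuotientGroup.mk'_surjective B)
        rw [hcm H' hg₀] at h1
        rw [← h1]
        exact hH'.index
    have hLm : PiSubgroup π (L.map (QuotientGroup.mk' B)) := by
      have h1 := card_comap_mk B (L.map (QuotientGroup.mk' B))
      rw [hcm L hBL] at h1
      exact PiNumber.of_dvd hL ⟨_, h1⟩
    obtain ⟨g, hg⟩ := ih _ hcard (G ⧸ B) rfl (hN.quotient B hBπ) _ _ hHm hLm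
    obtain ⟨g, rfl⟩ := QuotientGroup.mk_surjective g
    refine ⟨g, fun l hl => ?_⟩
    have h1 := hg (Subgroup.mem_map_of_mem (QuotientGroup.mk' B) hl)
    rw [mem_cj] at h1
    rw [mem_cj, ← hcm H' hg₀]
    exact h1
  · -- the normaliser is smaller
    have hcard : Nat.card (Subgroup.normalizer (B : Set G)) < n := by
      rw [← hn]
      refine lt_of_le_of_ne (Subgroup.card_le_card_group _) fun h1 => hNtop ?_
      exact Subgroup.eq_top_of_card_eq _ h1
    set N := Subgroup.normalizer (B : Set G) with hNdef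
    have hHs : IsHall π (H'.subgroupOf N) := by
      constructor
      · have h1 : Nat.card (H'.subgroupOf N) = Nat.card H' := Nat.card_congr (Subgroup.subgroupOfEquivOfLe hHN).toEquiv
        rw [h1]
        exact hH'.card
      · exact PiPrimeNumber.of_dvd hH'.index (Subgroup.relIndex_dvd_index_of_le hHN)
    have hLs : PiSubgroup π (L.subgroupOf N) := by
      have h1 : Nat.card (L.subgroupOf N) = Nat.card L := Nat.card_congr (Subgroup.subgroupOfEquivOfLe hLN).toEquiv
      unfold PiSubgroup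
      rw [h1]
      exact hL
    obtain ⟨g, hg⟩ := ih _ hcard N rfl (hN.subgroup N) _ _ hHs hLs
    refine ⟨(g : G), fun l hl => ?_⟩
    have h1 : (⟨l, hLN hl⟩ : N) ∈ L.subgroupOf N := hl
    have h2 := hg h1
    rw [mem_cj] at h2
    rw [mem_cj]
    exact h2

/-- if in every `π`-subgroup every `π ∖ {r}`-subgroup is normal, then `E_π` implies `D_π` -/
theorem dpi_of_normal [Finite G] {π : Set ℕ} {r : ℕ} (hN : NormPi π r G) (hE : EPi π G) : DPi π G := by
  obtain ⟨H, hH⟩ := hE
  exact dpi_of_cover hH fun L hL => crit_aux π r _ G rfl hN H L hH hL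

/-- the general criterion for `(*)_π` -/
theorem star_of_normal [Finite G] {π : Set ℕ} {r : ℕ} (hN : NormPi π r G) (hE : EPi π G) : Star π G :=
  ⟨dpi_of_normal hN hE, fun K hK => dpi_of_normal (hN.subgroup K) hK⟩

end Pool.Agent.H32.HallD
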