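import Mathlib

/-!
# HallD Defs: Hall subgroups, the classes `D_π`, the property `(*)_π`
-/

set_option autoImplicit false

namespace Pool.Agent.H32.HallD

/-- every prime divisor of `n` lies in `π` -/
def PiNumber (π : Set ℕ) (n : ℕ) : Prop := ∀ t : ℕ, t.Prime → t ∣ n → t ∈ π

/-- no prime divisor of `n` lies in `π` -/
def PiPrimeNumber (π : Set ℕ) (n : ℕ) : Prop := ∀ t : ℕ, t.Prime → t ∣ n → t ∉ π

variable {G : Type*} [Group G]

/-- `L` is a `π`-subgroup -/
def PiSubgroup (π : Set ℕ) (L : Subgroup G) : Prop := PiNumber π (Nat.card L)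

/-- `H` is a Hall `π`-subgroup -/
structure IsHall (π : Set ℕ) (H : Subgroup G) : Prop where
  card : PiNumber π (Nat.card H)
  index : PiPrimeNumber π H.index

/-- the subgroups `H` and `L` are conjugate -/
def ConjSub (H L : Subgroup G) : Prop := ∃ g : G, L = H.map (MulAut.conj g).toMonoidHom

/-- `G` has a Hall `π`-subgroup -/
def EPi (π : Set ℕ) (G : Type*) [Group G] : Prop := ∃ H : Subgroup G, IsHall π H

/-- `G` is a `D_π`-group -/
def DPi (π : Set ℕ) (G : Type*) [Group G] : Prop :=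
  (∃ H : Subgroup G, IsHall π H) ∧ (∀ H L : Subgroup G, IsHall π H → IsHall π L → ConjSub H L) ∧
    ∀ L : Subgroup G, PiSubgroup π L → ∃ H : Subgroup G, IsHall π H ∧ L ≤ H

/-- the property `(*)_π` -/
def Star (π : Set ℕ) (G : Type*) [Group G] : Prop :=
  DPi π G ∧ ∀ K : Subgroup G, EPi π K → DPi π K

end Pool.Agent.H32.HallD
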