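import Pool.Agent.H32.HallD.Crit

/-!
# HallD Equi: invariance under isomorphisms
-/

set_option autoImplicit false

universe u v

namespace Pool.Agent.H32.HallD

variable {G : Type u} [Group G] {G' : Type v} [Group G'] {π : Set ℕ}

theorem card_map_equiv (e : G ≃* G') (H : Subgroup G) : Nat.card (H.map (e : G →* G')) = Nat.card H :=
  (Nat.card_congr (H.equivMapOfInjective (e : G →* G') e.injective).toEquiv).symm

theorem IsHall.equiv (e : G ≃* G') {H : Subgroup G} (h : IsHall π H) : IsHall π (H.map (e : G →* G')) := by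
  refine ⟨?_, ?_⟩
  · rw [card_map_equiv]
    exact h.card
  · rw [Subgroup.index_map_equiv]
    exact h.index

theorem EPi.equiv (e : G ≃* G') (h : EPi π G) : EPi π G' := by
  obtain ⟨H, hH⟩ := h
  exact ⟨_, hH.equiv e⟩

theorem DPi.equiv [Finite G] (e : G ≃* G') (h : DPi π G) : DPi π G' := by
  haveI : Finite G' := Finite.of_equiv G e.toEquiv
  obtain ⟨H, hH⟩ := h.1
  refine dpi_of_cover (hH.equiv e) fun L hL => ?_
  have h1 : PiSubgroup π (L.map (e.symm : G' →* G)) := by
    show PiNumber _ _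
    rw [card_map_equiv]
    exact hL
  obtain ⟨g, hg⟩ := h.cover hH h1
  refine ⟨e g, fun x hx => ?_⟩
  have h2 := hg (Subgroup.mem_map_of_mem (e.symm : G' →* G) hx)
  rw [mem_cj] at h2 ⊢
  refine ⟨_, h2, ?_⟩
  show e (g⁻¹ * e.symm x * g) = (e g)⁻¹ * x * e g
  rw [map_mul, map_mul, map_inv, e.apply_symm_apply]

theorem Star.equiv [Finite G] (e : G ≃* G') (h : Star π G) : Star π G' := by
  refine ⟨h.1.equiv e, fun K hK => ?_⟩
  have e1 : (K.map (e.symm : G' →* G)) ≃* K := (K.equivMapOfInjective (e.symm : G' →* G) e.symm.injective).symm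
  have h1 : EPi π (K.map (e.symm : G' →* G)) := hK.equiv e1.symm
  exact (h.2 _ h1).equiv e1

end Pool.Agent.H32.HallD
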