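import Pool.Agent.H32.HallD.NecD

/-!
# HallD FinalB: the classification for `PSL₂`
-/

set_option autoImplicit false

open Matrix
open scoped MatrixGroups

namespace Pool.Agent.H32.HallD

variable {F : Type} [Field F] [Finite F] {π : Set ℕ}

theorem nec (hq : 4 ≤ Nat.card F) (hD : DPi π (PS F)) : Lst π (Nat.card (PS F)) (Nat.card F) := by
  obtain ⟨p, hp'⟩ := CharP.exists F
  haveI hp : Fact p.Prime := ⟨CharP.char_is_prime F p⟩
  by_cases hpπ : p ∈ π
  · exact nec_p hq hpπ hD
  by_cases h2 : 2 ∈ π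
  swap
  · exact nec_odd hpπ h2 hD.1
  have hp2 : p ≠ 2 := by
    rintro rfl
    exact hpπ h2
  obtain ⟨H, hH⟩ := hD.1
  have hSS : ∀ x : H, x ≠ 1 → SS p (C2 F) (x : PS F) := by
    intro x hx
    have hx' : (x : PS F) ≠ 1 := by simpa using hx
    refine ((pt_PS p).type _ hx').resolve_right fun hu => ?_
    exact hpπ (hH.card p hp.out (UN.dvd_card (pt_PS p) hx' hu x.2))
  have hss : ∀ x : H, x ≠ 1 → SS p (res (C2 F) H) x := by
    intro x hx
    refine (((pt_PS p).res H).type x hx).resolve_right fun hu => ?_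
    have hx' : (x : PS F) ≠ 1 := by simpa using hx
    exact hpπ (hH.card p hp.out (UN.dvd_card (pt_PS p) hx' (un_of_res (pt_PS p) hx hu) x.2))
  have hne : Nat.card H ≠ 1 := by
    intro h1
    obtain ⟨v, w, o, hv, hw, ho, e0, e1, e2, hvw⟩ := exists_A4 (F := F) (p := p) (two_ne_zero_of hp2)
    have hv1 : v ≠ 1 := by
      rintro rfl
      apply hvw
      rw [← e1, mul_one, mul_inv_cancel]
    haveI : Fact (Nat.Prime 2) := ⟨Nat.prime_two⟩
    have h3 : orderOf v = 2 := orderOf_eq_prime hv hv1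
    have h4 : 2 ∣ Nat.card (PS F) := by
      have h5 := orderOf_dvd_natCard v
      exact (dvd_of_eq h3.symm).trans h5
    have h5 := hH.dvd Nat.prime_two h2 h4
    rw [h1] at h5
    norm_num at h5
  rcases types ((pt_PS p).res H) hne hss with ⟨x, hx1, hx⟩ | ⟨h6, h5⟩
  · by_cases h3 : 3 ∈ π
    · exact (no_large hp2 h2 h3 hD hH (hss x hx1) hx).elim
    · exact nec_large hpπ h2 h3 hH hx1 (hSS x hx1) hx
  · have h3 : 3 ∈ π := by
      apply hH.card 3 Nat.prime_three
      rcases h6 with h | h | h <;> rw [h] <;> norm_num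
    rcases h6 with h | h | h
    · exact (no_twelve hq hpπ h2 h3 hD hH hss h h5).elim
    · exact (no_big hpπ h2 hD hH (Or.inl h) h5).elim
    · exact (no_big hpπ h2 hD hH (Or.inr h) h5).elim

/-- the isomorphism between `PSL₂` and its image in `PGL₂` -/
theorem exists_iso (F : Type) [Field F] : Nonempty (ProjectiveSpecialLinearGroup (Fin 2) F ≃* PS F) := by
  have e := MonoidHom.ofInjective (ProjectiveSpecialLinearGroup.toPGL_injective (n := Fin 2) (R := F))
  have h : (ProjectiveSpecialLinearGroup.toPGL (n := Fin 2) (R := F)).range = PS F := by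
    ext x
    constructor
    · rintro ⟨A, rfl⟩
      obtain ⟨a, rfl⟩ := QuotientGroup.mk_surjective A
      exact ⟨a, rfl⟩
    · rintro ⟨a, rfl⟩
      exact ⟨QuotientGroup.mk a, rfl⟩
  exact ⟨e.trans (MulEquiv.subgroupCongr h)⟩

/-- the classification for `PSL₂` -/
theorem psl_two (hq : 4 ≤ Nat.card F) (π : Set ℕ) :
    (Star π (ProjectiveSpecialLinearGroup (Fin 2) F) ↔ Lst π (Nat.card (ProjectiveSpecialLinearGroup (Fin 2) F)) (Nat.card F)) ∧
      (DPi π (ProjectiveSpecialLinearGroup (Fin 2) F) ↔ Lst π (Nat.card (ProjectiveSpecialLinearGroup (Fin 2) F)) (Nat.card F)) := by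
  obtain ⟨e⟩ := exists_iso F
  haveI : Finite (ProjectiveSpecialLinearGroup (Fin 2) F) := Finite.of_equiv _ e.symm.toEquiv
  have hc : Nat.card (ProjectiveSpecialLinearGroup (Fin 2) F) = Nat.card (PS F) := Nat.card_congr e.toEquiv
  rw [hc]
  have h1 : DPi π (ProjectiveSpecialLinearGroup (Fin 2) F) → Lst π (Nat.card (PS F)) (Nat.card F) := fun h => nec hq (h.equiv e)
  have h2 : Lst π (Nat.card (PS F)) (Nat.card F) → Star π (ProjectiveSpecialLinearGroup (Fin 2) F) := fun h => (suf hq h).equiv e.symm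
  exact ⟨⟨fun h => h1 h.1, h2⟩, ⟨h1, fun h => (h2 h).1⟩⟩

end Pool.Agent.H32.HallD
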