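import Pool.Agent.H32.HallD.Odd

/-!
# HallD Her: `E_π` implies `D_π` for groups with a partition, if `2 ∉ π` or if `2 ∈ π`, `3, p ∉ π`
-/

set_option autoImplicit false

universe u

namespace Pool.Agent.H32.HallD

variable {p : ℕ} {F : Type} [Field F] {L : Type u} [Group L] {C : L → Subgroup L}

theorem PiSubgroup.odd {π : Set ℕ} (h2 : 2 ∉ π) {M : Subgroup L} (hM : PiSubgroup π M) : Odd (Nat.card M) := by
  rw [← Nat.not_even_iff_odd, even_iff_two_dvd]
  exact fun h => h2 (hM 2 Nat.prime_two h)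

/-- a unipotent element gives a factor `p` of the order -/
theorem UN.dvd_card [Finite L] [hp : Fact p.Prime] (h : Pt p F C) {x : L} (hx : x ≠ 1) (hu : UN p F C x) {M : Subgroup L} (hxM : x ∈ M) :
    p ∣ Nat.card M := by
  obtain ⟨k, hk⟩ := hu.pgp ⟨x, h.mem x⟩
  have h3 : x ^ p ^ k = 1 := congrArg Subtype.val hk
  obtain ⟨j, -, hj⟩ := (Nat.dvd_prime_pow hp.out).mp (orderOf_dvd_of_pow_eq_one h3)
  have hj0 : j ≠ 0 := by
    rintro rfl
    rw [pow_zero, orderOf_eq_one_iff] at hj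
    exact hx hj
  have h1 : p ∣ orderOf x := by
    rw [hj]
    exact dvd_pow_self p hj0
  have h2 : orderOf (⟨x, hxM⟩ : M) = orderOf x := (Subgroup.orderOf_mk x hxM)
  exact h1.trans (h2 ▸ orderOf_dvd_natCard _)

/-- the type of the restriction -/
theorem un_of_res (h : Pt p F C) [hp : Fact p.Prime] {K : Subgroup L} {x : K} (hx : x ≠ 1) (hu : UN p F (res C K) x) : UN p F C (x : L) := by
  have hx' : (x : L) ≠ 1 := by simpa using hx
  refine (h.type _ hx').resolve_left fun hs => ?_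
  obtain ⟨k, hk⟩ := hu.pgp ⟨x, (h.res K).mem x⟩
  have h3 : (x : L) ^ p ^ k = 1 := congrArg (fun z : res C K x => ((z : K) : L)) hk
  have h4 := hs.ord _ (h.mem _)
  have h6 : (orderOf (x : L)).Coprime (p ^ k) := Nat.Coprime.pow_right k h4
  have h7 := Nat.Coprime.eq_one_of_dvd h6 (orderOf_dvd_of_pow_eq_one h3)
  exact hx' (orderOf_eq_one_iff.mp h7)

/-- a subgroup of odd order is commutative or lies in the normaliser of a unipotent member -/
theorem odd_sub [Finite L] [hp : Fact p.Prime] (h : Pt p F C) {M : Subgroup L} (hodd : Odd (Nat.card M)) (hM : M ≠ ⊥) :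
    ∃ x ∈ M, x ≠ 1 ∧ ((∀ y ∈ M, y ∈ C x) ∧ SS p C x ∨ UN p F C x ∧ ∀ g ∈ M, g * x * g⁻¹ ∈ C x) := by
  obtain ⟨x, hx, h1⟩ := odd_type (h.res M) hodd (by
    intro h2
    exact hM (Subgroup.card_eq_one.mp h2))
  have hx' : (x : L) ≠ 1 := by simpa using hx
  refine ⟨x, x.2, hx', ?_⟩
  rcases h1 with ⟨h1, h2⟩ | ⟨h1, h2⟩
  · left
    refine ⟨fun y hy => h2 ⟨y, hy⟩, ?_⟩
    refine (h.type _ hx').resolve_right fun hu => ?_
    obtain ⟨k, hk⟩ := hu.pgp ⟨x, h.mem _⟩
    have h3 : (x : L) ^ p ^ k = 1 := congrArg Subtype.val hk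
    have h4 := h1.ord x ((h.res M).mem x)
    have h5 : x ^ p ^ k = 1 := Subtype.ext h3
    have h6 : (orderOf x).Coprime (p ^ k) := Nat.Coprime.pow_right k h4
    have h7 := Nat.Coprime.eq_one_of_dvd h6 (orderOf_dvd_of_pow_eq_one h5)
    exact hx (orderOf_eq_one_iff.mp h7)
  · right
    exact ⟨un_of_res h hx h1, fun g hg => h2 ⟨g, hg⟩⟩

/-- elements of a torus commute -/
theorem SS.comm {x y z : L} (hs : SS p C x) (hy : y ∈ C x) (hz : z ∈ C x) : y * z = z * y := by
  haveI := hs.cyc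
  letI := IsCyclic.commGroup (α := C x)
  have h1 : (⟨y, hy⟩ * ⟨z, hz⟩ : C x) = ⟨z, hz⟩ * ⟨y, hy⟩ := mul_comm _ _
  exact congrArg Subtype.val h1

theorem normPi_of_cyclic [Finite L] [hp : Fact p.Prime] (h : Pt p F C) {π : Set ℕ} (r : ℕ) (h2 : 2 ∉ π)
    (hpL : ∀ x : L, x ≠ 1 → p ∈ π → SS p C x) : NormPi π r L := by
  intro M B hM hB _ x hx b hb
  by_cases hbot : M = ⊥
  · rw [hbot, Subgroup.mem_bot] at hx
    rw [hx]
    simpa using hb
  obtain ⟨y, hy, hy1, h3⟩ := odd_sub h (hM.odd h2) hbot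
  rcases h3 with ⟨h3, h4⟩ | ⟨h3, -⟩
  · have h5 := h4.comm (h3 x hx) (h3 b (hB hb))
    rw [h5]
    simpa using hb
  · exfalso
    have h4 : p ∈ π := hM p hp.out (h3.dvd_card h hy1 hy)
    exact SS.not_un h hy1 (hpL y hy1 h4) h3

/-- a normal Hall subgroup contains all `π`-subgroups -/
theorem le_of_normal_hall [Finite L] {π : Set ℕ} {H : Subgroup L} [H.Normal] (hH : PiPrimeNumber π H.index) {M : Subgroup L}
    (hM : PiSubgroup π M) : M ≤ H := by
  intro m hm
  have h1 : orderOf (m : L ⧸ H) ∣ orderOf m := orderOf_map_dvd (QuotientGroup.mk' H) m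
  have h2 : orderOf m ∣ Nat.card M := by
    have := orderOf_dvd_natCard (⟨m, hm⟩ : M)
    rwa [Subgroup.orderOf_mk] at this
  have h3 : orderOf (m : L ⧸ H) ∣ H.index := by
    rw [Subgroup.index_eq_card]
    exact orderOf_dvd_natCard _
  have h4 : orderOf (m : L ⧸ H) = 1 := eq_one_of_pi (hM.of_dvd (h1.trans h2)) (hH.of_dvd h3)
  rw [orderOf_eq_one_iff, QuotientGroup.eq_one_iff] at h4
  exact h4

/-- a `π`-subgroup of the normaliser of a unipotent member lies in each Hall subgroup which lies there -/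
theorem le_hall_of_norm [Finite L] (h : Pt p F C) {π : Set ℕ} {x : L} (hx : x ≠ 1) (hu : UN p F C x) {H M : Subgroup L}
    (hH : IsHall π H) (hCH : C x ≤ H) (hHN : ∀ g ∈ H, g * x * g⁻¹ ∈ C x) (hM : PiSubgroup π M) (hMN : ∀ g ∈ M, g * x * g⁻¹ ∈ C x) :
    M ≤ H := by
  set N := Subgroup.normalizer (C x : Set L) with hNdef
  obtain ⟨φ, hφ⟩ : ∃ φ : N →* Fˣ, ∀ g, φ g = 1 ↔ (g : L) ∈ C x := hu.quo
  have hHN' : H ≤ N := fun g hg => (h.mem_norm hx).mpr (hHN g hg)
  have hMN' : M ≤ N := fun g hg => (h.mem_norm hx).mpr (hMN g hg)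
  haveI hnorm : (H.subgroupOf N).Normal := by
    constructor
    intro n hn g
    have h1 : φ (g * n * g⁻¹ * n⁻¹) = 1 := by
      rw [map_mul, map_mul, map_mul, map_inv, map_inv, mul_comm (φ g), mul_assoc (φ n), mul_inv_cancel, mul_one, mul_inv_cancel]
    have h2 : ((g * n * g⁻¹ * n⁻¹ : N) : L) ∈ H := hCH ((hφ _).mp h1)
    have h3 : (g * n * g⁻¹ * n⁻¹ : N) * n ∈ H.subgroupOf N := (H.subgroupOf N).mul_mem h2 hn
    simpa using h3
  have h1 : M.subgroupOf N ≤ H.subgroupOf N := by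
    refine le_of_normal_hall (π := π) (PiPrimeNumber.of_dvd hH.index (Subgroup.relIndex_dvd_index_of_le hHN')) ?_
    have h2 : Nat.card (M.subgroupOf N) = Nat.card M := Nat.card_congr (Subgroup.subgroupOfEquivOfLe hMN').toEquiv
    unfold PiSubgroup
    rw [h2]
    exact hM
  intro m hm
  have h2 : (⟨m, hMN' hm⟩ : N) ∈ M.subgroupOf N := hm
  exact h1 h2

theorem C_cj (h : Pt p F C) {x y g : L} (hy : y ≠ 1) (hx : C y = cj g (C x)) : C (g⁻¹ * y * g) = C x := by
  have h1 := h.conj g⁻¹ y hy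
  rw [inv_inv] at h1
  rw [h1, hx, cj_cj, inv_mul_cancel, cj_one]

/-- heredity for `2 ∉ π` -/
theorem dpi_odd [Finite L] [hp : Fact p.Prime] (h : Pt p F C) {π : Set ℕ} (h2 : 2 ∉ π) (hE : EPi π L) : DPi π L := by
  obtain ⟨H, hH⟩ := hE
  by_cases hun : p ∈ π ∧ ∃ x : L, x ≠ 1 ∧ UN p F C x
  swap
  · have h3 : ∀ x : L, x ≠ 1 → p ∈ π → SS p C x := by
      intro x hx hpp
      exact (h.type x hx).resolve_right fun hu => hun ⟨hpp, x, hx, hu⟩
    exact dpi_of_normal (normPi_of_cyclic h 0 h2 h3) ⟨H, hH⟩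
  obtain ⟨hpp, x, hx, hu⟩ := hun
  obtain ⟨g₀, hg₀⟩ := exists_cj_of_pgroup hp.out hu.pgp (fun hd => hH.index p hp.out hd hpp)
  have hH' := hH.cj g₀
  generalize cj g₀ H = H' at hg₀ hH'
  -- `H'` lies in the normaliser of `C x`
  have hxH : x ∈ H' := hg₀ (h.mem x)
  have hHN : ∀ g ∈ H', g * x * g⁻¹ ∈ C x := by
    have hbot : H' ≠ ⊥ := by
      intro h3
      rw [h3, Subgroup.mem_bot] at hxH
      exact hx hxH
    obtain ⟨y, hy, hy1, h3⟩ := odd_sub h (PiSubgroup.odd h2 hH'.card) hbot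
    rcases h3 with ⟨h3, h4⟩ | ⟨h3, h4⟩
    · exfalso
      have h5 := h3 x hxH
      have h6 := h.eq_of_mem y x hy1 hx h5
      have h7 : y ∈ C x := by rw [h6]; exact h.mem y
      obtain ⟨k, hk⟩ := hu.pgp ⟨y, h7⟩
      have h8 : y ^ p ^ k = 1 := congrArg Subtype.val hk
      have h9 : (orderOf y).Coprime (p ^ k) := Nat.Coprime.pow_right k (h4.ord y (h.mem y))
      have h10 := Nat.Coprime.eq_one_of_dvd h9 (orderOf_dvd_of_pow_eq_one h8)
      exact hy1 (orderOf_eq_one_iff.mp h10)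
    · have h5 := h3.mem_of_un h hy1 hx hu (h4 x hxH)
      have h6 := h.eq_of_mem y x hy1 hx h5
      intro g hg
      have h7 : g ∈ Subgroup.normalizer (C y : Set L) := (h.mem_norm hy1).mpr (h4 g hg)
      rw [← h6] at h7
      exact (h.mem_norm hx).mp h7
  refine dpi_of_cover hH' fun M hM => ?_
  by_cases hbot : M = ⊥
  · exact ⟨1, by rw [hbot]; exact bot_le⟩
  obtain ⟨y, hy, hy1, h3⟩ := odd_sub h (hM.odd h2) hbot
  rcases h3 with ⟨h3, h4⟩ | ⟨h3, h4⟩
  · -- `M` is in a torus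
    have hcard : Nat.card M ≠ 1 := fun h5 => hbot (Subgroup.card_eq_one.mp h5)
    obtain ⟨t, ht, htM⟩ := Nat.exists_prime_and_dvd hcard
    haveI : Fact t.Prime := ⟨ht⟩
    obtain ⟨a, ha⟩ := exists_prime_orderOf_dvd_card' (G := M) t htM
    have ha1 : (a : L) ≠ 1 := by
      intro h5
      have h6 : a = 1 := Subtype.ext h5
      rw [h6, orderOf_one] at ha
      exact ht.one_lt.ne ha
    have hap : IsPGroup t (Subgroup.zpowers (a : L)) := by
      rw [IsPGroup.iff_card]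
      exact ⟨1, by rw [Nat.card_zpowers, Subgroup.orderOf_coe, ha, pow_one]⟩
    obtain ⟨g, hg⟩ := exists_cj_of_pgroup ht hap (fun hd => hH'.index t ht hd (hM t ht htM))
    have hag : g⁻¹ * a * g ∈ H' := mem_cj.mp (hg (Subgroup.mem_zpowers _))
    have hag1 : g⁻¹ * a * g ≠ 1 := by
      have h5 := conj_ne_one (g := g⁻¹) ha1
      rwa [inv_inv] at h5
    have hCa : C (a : L) = C y := h.eq_of_mem y a hy1 ha1 (h3 a a.2)
    refine ⟨g, ?_⟩
    have h5 : cj g⁻¹ M ≤ H' := by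
      refine le_hall_of_norm h hx hu hH' hg₀ hHN (M := cj g⁻¹ M) ?_ ?_
      · unfold PiSubgroup
        rw [card_cj]
        exact hM
      · intro k hk
        rw [mem_cj, inv_inv] at hk
        refine hu.tor _ hag1 (hHN _ hag) k ?_
        have h6 := h.conj g⁻¹ (a : L) ha1
        rw [inv_inv] at h6
        rw [h6, mem_cj, inv_inv, hCa]
        exact h3 _ hk
    intro m hm
    rw [mem_cj]
    apply h5
    rw [mem_cj, inv_inv]
    simpa [mul_assoc] using hm
  · -- `M` is in the normaliser of a unipotent member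
    obtain ⟨-, g, hg⟩ := hu.conj h hx hy1 h3
    refine ⟨g, ?_⟩
    have h5 : cj g⁻¹ M ≤ H' := by
      refine le_hall_of_norm h hx hu hH' hg₀ hHN (M := cj g⁻¹ M) ?_ ?_
      · unfold PiSubgroup
        rw [card_cj]
        exact hM
      · intro k hk
        rw [mem_cj, inv_inv] at hk
        have h6 : g * k * g⁻¹ ∈ Subgroup.normalizer (C y : Set L) := (h.mem_norm hy1).mpr (h4 _ hk)
        rw [← cj_eq_iff, hg, cj_cj] at h6
        have h7 : cj g⁻¹ (cj (g * k * g⁻¹ * g) (C x)) = C x := by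
          rw [h6, cj_cj, inv_mul_cancel, cj_one]
        rw [cj_cj] at h7
        have h8 : g⁻¹ * (g * k * g⁻¹ * g) = k := by group
        rw [h8, cj_eq_iff] at h7
        exact (h.mem_norm hx).mp h7
    intro m hm
    rw [mem_cj]
    apply h5
    rw [mem_cj, inv_inv]
    simpa [mul_assoc] using hm

/-- heredity for `2 ∈ π`, `3, p ∉ π` -/
theorem normPi_two [Finite L] [hp : Fact p.Prime] (h : Pt p F C) {π : Set ℕ} (h3 : 3 ∉ π) (hpp : p ∉ π) : NormPi π 2 L := by
  intro M B hM hB hBπ g hg b hb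
  by_cases hbot : M = ⊥
  · rw [hbot, Subgroup.mem_bot] at hg
    rw [hg]
    simpa using hb
  have hss : ∀ x : M, x ≠ 1 → SS p (res C M) x := by
    intro x hx
    refine ((h.res M).type x hx).resolve_right fun hu => ?_
    have h4 := un_of_res h hx hu
    have hx' : (x : L) ≠ 1 := by simpa using hx
    exact hpp (hM p hp.out (h4.dvd_card h hx' x.2))
  rcases types (h.res M) (fun h4 => hbot (Subgroup.card_eq_one.mp h4)) hss with ⟨x, hx, hcard⟩ | ⟨hcard, -⟩
  swap
  · exfalso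
    apply h3
    apply hM 3 Nat.prime_three
    rcases hcard with h4 | h4 | h4 <;> rw [h4] <;> norm_num
  have hs := hss x hx
  -- the index is at most two
  have hidx : (res C M x).index ≤ 2 := by
    have h4 := Subgroup.card_mul_index (res C M x)
    have h5 : 0 < Nat.card (res C M x) := Nat.card_pos
    by_contra hc
    have h6 : Nat.card (res C M x) * 3 ≤ Nat.card (res C M x) * (res C M x).index := Nat.mul_le_mul_left _ (by omega)
    omega
  haveI hnormal : (res C M x).Normal := by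
    have h4 : (res C M x).index = 1 ∨ (res C M x).index = 2 := by
      have h5 : (res C M x).index ≠ 0 := Subgroup.index_ne_zero_of_finite
      omega
    rcases h4 with h4 | h4
    · rw [Subgroup.index_eq_one] at h4
      rw [h4]
      infer_instance
    · exact Subgroup.normal_of_index_eq_two h4
  have hxn : ∀ k : M, k * x * k⁻¹ ∈ res C M x := fun k => hnormal.conj_mem x ((h.res M).mem x) k
  have hbM : b ∈ M := hB hb
  have hbC : (⟨b, hbM⟩ : M) ∈ res C M x := by
    by_contra hc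
    have h4 := hs.sq ⟨b, hbM⟩ (hxn _) hc
    have h5 : b * b = 1 := congrArg Subtype.val h4
    have hb1 : b ≠ 1 := by
      rintro rfl
      exact hc (res C M x).one_mem
    have h6 : orderOf b = 2 := orderOf_eq_prime (by rw [pow_two]; exact h5) hb1
    have h7 : 2 ∣ Nat.card B := by
      have h8 := orderOf_dvd_natCard (⟨b, hb⟩ : B)
      rwa [Subgroup.orderOf_mk, h6] at h8
    exact (hBπ 2 Nat.prime_two h7).2 rfl
  by_cases hgC : (⟨g, hg⟩ : M) ∈ res C M x
  · have h4 := hs.comm hgC hbC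
    have h5 : g * b = b * g := congrArg Subtype.val h4
    rw [h5]
    simpa using hb
  · have h4 : g * g = 1 := congrArg Subtype.val (hs.sq ⟨g, hg⟩ (hxn _) hgC)
    have h5 : (⟨g, hg⟩ * ⟨b, hbM⟩ : M) ∉ res C M x := fun h6 => hgC (by
      have h7 := (res C M x).mul_mem h6 ((res C M x).inv_mem hbC)
      rw [mul_inv_cancel_right] at h7
      exact h7)
    have h6 : (g * b) * (g * b) = 1 := congrArg Subtype.val (hs.sq _ (hxn _) h5)
    have h7 : g⁻¹ = g := inv_eq_of_mul_eq_one_left h4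
    have h8 : g * b * g⁻¹ = b⁻¹ := by
      rw [h7]
      exact eq_inv_of_mul_eq_one_left (by rw [← h6]; group)
    rw [h8]
    exact B.inv_mem hb

/-- if `π` has no prime divisor of the order but `r` -/
theorem normPi_one [Finite L] {π : Set ℕ} {r : ℕ} (h : ∀ t : ℕ, t.Prime → t ∣ Nat.card L → t ∈ π → t = r) : NormPi π r L := by
  intro M B _ _ hB x _ b hb
  have h1 : Nat.card B = 1 := by
    by_contra hc
    obtain ⟨t, ht, htB⟩ := Nat.exists_prime_and_dvd hc
    have h2 := hB t ht htB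
    exact h2.2 (h t ht (htB.trans (Subgroup.card_subgroup_dvd_card B)) h2.1)
  rw [Subgroup.card_eq_one] at h1
  rw [h1, Subgroup.mem_bot] at hb ⊢
  rw [hb]
  simp

/-- the heredity theorem -/
theorem star_of_pt [Finite L] [hp : Fact p.Prime] (h : Pt p F C) {π : Set ℕ} (hπ : 2 ∉ π ∨ 3 ∉ π ∧ p ∉ π) (hE : EPi π L) : Star π L := by
  have key : ∀ K : Subgroup L, EPi π K → DPi π K := by
    intro K hK
    rcases hπ with h2 | ⟨h3, h4⟩
    · exact dpi_odd (h.res K) h2 hK
    · exact dpi_of_normal (normPi_two (h.res K) h3 h4) hK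
  refine ⟨?_, key⟩
  rcases hπ with h2 | ⟨h3, h4⟩
  · exact dpi_odd h h2 hE
  · exact dpi_of_normal (normPi_two h h3 h4) hE

end Pool.Agent.H32.HallD
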