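import Pool.Agent.H32.HallD.Defs

/-!
# HallD Lst: the list for `PSL₂`
-/

set_option autoImplicit false

namespace Pool.Agent.H32.HallD

/-- the list for a group of order `n` over a field with `q` elements -/
def Lst (π : Set ℕ) (n q : ℕ) : Prop :=
  (∀ s t : ℕ, s.Prime → t.Prime → s ∈ π → t ∈ π → s ∣ n → t ∣ n → s = t) ∨
  (∀ t : ℕ, t.Prime → t ∣ n → t ∈ π) ∨
  (2 ∉ π ∧ ∀ t : ℕ, t.Prime → t ∈ π → t ∣ n → t ∣ q * (q - 1)) ∨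
  (2 ∉ π ∧ ∀ t : ℕ, t.Prime → t ∈ π → t ∣ n → t ∣ q + 1) ∨
  (2 ∈ π ∧ 3 ∉ π ∧ (∀ t : ℕ, t.Prime → t ∈ π → ¬ t ∣ q) ∧
    ((q % 4 = 1 ∧ ∀ t : ℕ, t.Prime → t ∈ π → t ∣ n → t ∣ q - 1) ∨ (q % 4 = 3 ∧ ∀ t : ℕ, t.Prime → t ∈ π → t ∣ n → t ∣ q + 1)))

end Pool.Agent.H32.HallD
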