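import Pool.Agent.H32.HallD.Part

/-!
# HallD MatA: commuting `2 × 2` matrices
-/

set_option autoImplicit false

open Matrix

namespace Pool.Agent.H32.HallD

variable {F : Type} [Field F]

/-- a matrix is a scalar matrix -/
def IsScal (B : Matrix (Fin 2) (Fin 2) F) : Prop := B 0 1 = 0 ∧ B 1 0 = 0 ∧ B 0 0 = B 1 1

theorem isScal_iff {B : Matrix (Fin 2) (Fin 2) F} : IsScal B ↔ ∃ c : F, B = c • (1 : Matrix (Fin 2) (Fin 2) F) := by
  constructor
  · rintro ⟨h1, h2, h3⟩
    refine ⟨B 0 0, ?_⟩
    ext i j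
    fin_cases i <;> fin_cases j <;> simp [h1, h2, h3]
  · rintro ⟨c, rfl⟩
    refine ⟨?_, ?_, ?_⟩ <;> simp

theorem comm_form {A B : Matrix (Fin 2) (Fin 2) F} (hB : ¬ IsScal B) (h : A * B = B * A) :
    ∃ a b : F, A = a • (1 : Matrix (Fin 2) (Fin 2) F) + b • B := by
  have e00 := congrFun (congrFun h 0) 0
  have e01 := congrFun (congrFun h 0) 1
  have e10 := congrFun (congrFun h 1) 0
  simp only [Matrix.mul_apply, Fin.sum_univ_two] at e00 e01 e10
  by_cases h1 : B 0 1 = 0
  · by_cases h2 : B 1 0 = 0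
    · have h3 : B 0 0 - B 1 1 ≠ 0 := fun h3 => hB ⟨h1, h2, sub_eq_zero.mp h3⟩
      rw [h1] at e01
      rw [h2] at e10
      have h4 : A 0 1 = 0 := by
        have : A 0 1 * (B 0 0 - B 1 1) = 0 := by linear_combination -e01
        exact (mul_eq_zero.mp this).resolve_right h3
      have h5 : A 1 0 = 0 := by
        have : A 1 0 * (B 0 0 - B 1 1) = 0 := by linear_combination e10
        exact (mul_eq_zero.mp this).resolve_right h3
      refine ⟨A 0 0 - (A 0 0 - A 1 1) / (B 0 0 - B 1 1) * B 0 0, (A 0 0 - A 1 1) / (B 0 0 - B 1 1), ?_⟩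
      ext i j
      fin_cases i <;> fin_cases j
      · simp
      · simp [h1, h4]
      · simp [h2, h5]
      · simp
        field_simp
        ring
    · refine ⟨A 0 0 - A 1 0 / B 1 0 * B 0 0, A 1 0 / B 1 0, ?_⟩
      ext i j
      fin_cases i <;> fin_cases j
      · simp
      · simp [h1]
        rw [h1] at e00
        have : A 0 1 * B 1 0 = 0 := by linear_combination e00
        exact (mul_eq_zero.mp this).resolve_right h2
      · simp
        field_simp
      · simp
        field_simp
        linear_combination e10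
  · refine ⟨A 0 0 - A 0 1 / B 0 1 * B 0 0, A 0 1 / B 0 1, ?_⟩
    ext i j
    fin_cases i <;> fin_cases j
    · simp
    · simp
      field_simp
    · simp
      field_simp
      linear_combination -e00
    · simp
      field_simp
      linear_combination -e01

theorem form_unique {B : Matrix (Fin 2) (Fin 2) F} (hB : ¬ IsScal B) {a b a' b' : F}
    (h : a • (1 : Matrix (Fin 2) (Fin 2) F) + b • B = a' • (1 : Matrix (Fin 2) (Fin 2) F) + b' • B) : a = a' ∧ b = b' := by
  have hb : b = b' := by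
    by_contra hc
    apply hB
    have h1 : (b - b') • B = (a' - a) • (1 : Matrix (Fin 2) (Fin 2) F) := by
      rw [sub_smul, sub_smul]
      have h2 := sub_eq_zero.mpr h
      rw [sub_eq_sub_iff_add_eq_add, add_comm, h, add_comm]
    refine isScal_iff.mpr ⟨(b - b')⁻¹ * (a' - a), ?_⟩
    rw [mul_smul, ← h1, smul_smul, inv_mul_cancel₀ (sub_ne_zero.mpr hc), one_smul]
  refine ⟨?_, hb⟩
  rw [hb] at h
  have h0 : a • (1 : Matrix (Fin 2) (Fin 2) F) = a' • (1 : Matrix (Fin 2) (Fin 2) F) := add_right_cancel h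
  have h1 := congrFun (congrFun h0 0) 0
  simpa using h1

theorem comm_trans {A B D : Matrix (Fin 2) (Fin 2) F} (hB : ¬ IsScal B) (h : A * B = B * A) (h2 : D * B = B * D) : A * D = D * A := by
  obtain ⟨a, b, rfl⟩ := comm_form hB h
  obtain ⟨c, d, rfl⟩ := comm_form hB h2
  simp only [add_mul, mul_add, smul_mul_assoc, mul_smul_comm, one_mul, mul_one, smul_add, smul_smul]
  rw [mul_comm c a, mul_comm c b, mul_comm d a, mul_comm d b]
  abel

theorem sq_form (B : Matrix (Fin 2) (Fin 2) F) : B * B = (-B.det) • (1 : Matrix (Fin 2) (Fin 2) F) + B.trace • B := by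
  ext i j
  fin_cases i <;> fin_cases j <;> simp [Matrix.mul_apply, Fin.sum_univ_two, Matrix.det_fin_two, Matrix.trace_fin_two] <;> ring

theorem mul_form (B : Matrix (Fin 2) (Fin 2) F) (a b c d : F) :
    (a • (1 : Matrix (Fin 2) (Fin 2) F) + b • B) * (c • (1 : Matrix (Fin 2) (Fin 2) F) + d • B) =
      (a * c - b * d * B.det) • (1 : Matrix (Fin 2) (Fin 2) F) + (a * d + b * c + b * d * B.trace) • B := by
  ext i j
  fin_cases i <;> fin_cases j <;> simp [Matrix.mul_apply, Fin.sum_univ_two, Matrix.det_fin_two, Matrix.trace_fin_two] <;> ring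

theorem det_form (B : Matrix (Fin 2) (Fin 2) F) (a b : F) :
    (a • (1 : Matrix (Fin 2) (Fin 2) F) + b • B).det = a ^ 2 + a * b * B.trace + b ^ 2 * B.det := by
  simp [Matrix.det_fin_two, Matrix.trace_fin_two]
  ring

theorem trace_form (B : Matrix (Fin 2) (Fin 2) F) (a b : F) :
    (a • (1 : Matrix (Fin 2) (Fin 2) F) + b • B).trace = 2 * a + b * B.trace := by
  simp [Matrix.trace_fin_two]
  ring

end Pool.Agent.H32.HallD
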