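import Pool.Agent.H32.HallD.MatA

/-!
# HallD MatB: the partition of `PGL₂`
-/

set_option autoImplicit false

open Matrix
open scoped MatrixGroups

namespace Pool.Agent.H32.HallD

variable {F : Type} [Field F]

/-- the matrix of an element of `GL₂` -/
abbrev mt (g : GL (Fin 2) F) : Matrix (Fin 2) (Fin 2) F := (g : Matrix (Fin 2) (Fin 2) F)

/-- the projection -/
abbrev pm : GL (Fin 2) F →* PGL(2, F) := ProjGenLinGroup.mk

theorem pm_eq_one {g : GL (Fin 2) F} : pm g = 1 ↔ IsScal (mt g) := by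
  rw [ProjGenLinGroup.mk_eq_one, GeneralLinearGroup.mem_center_iff_val_mem_range_scalar, isScal_iff]
  constructor
  · rintro ⟨a, ha⟩
    refine ⟨a, ?_⟩
    refine ha.symm.trans ?_
    ext i j
    simp [Matrix.scalar_apply, Matrix.diagonal_apply, Matrix.one_apply]
  · rintro ⟨a, ha⟩
    refine ⟨a, ?_⟩
    refine Eq.trans ?_ ha.symm
    ext i j
    simp [Matrix.scalar_apply, Matrix.diagonal_apply, Matrix.one_apply]

theorem pm_eq {g h : GL (Fin 2) F} (e : pm g = pm h) : ∃ c : F, c ≠ 0 ∧ mt g = c • mt h := by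
  have h1 : pm (g * h⁻¹) = 1 := by rw [map_mul, map_inv, e, mul_inv_cancel]
  obtain ⟨c, hc⟩ := isScal_iff.mp (pm_eq_one.mp h1)
  have h2 : mt g = c • mt h := by
    have h3 : g = (g * h⁻¹) * h := by group
    have h4 : mt g = mt (g * h⁻¹) * mt h := by
      conv_lhs => rw [h3]
      rfl
    rw [h4, hc, smul_mul_assoc, one_mul]
  refine ⟨c, ?_, h2⟩
  rintro rfl
  rw [zero_smul] at h2
  have h3 : (mt g).det = 0 := by rw [h2]; simp
  have h4 : (mt g).det ≠ 0 := (GeneralLinearGroup.det g).ne_zero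
  exact h4 h3

/-- the member of the partition -/
noncomputable def CP (x : PGL(2, F)) : Subgroup PGL(2, F) :=
  (Subgroup.centralizer {Quotient.out (s := QuotientGroup.leftRel (Subgroup.center (GL (Fin 2) F))) x}).map pm

theorem mt_commute {g h : GL (Fin 2) F} : g * h = h * g ↔ mt g * mt h = mt h * mt g :=
  ⟨fun e => congrArg Units.val e, fun e => Units.ext e⟩

theorem mem_CP {g h : GL (Fin 2) F} : pm h ∈ CP (pm g) ↔ mt h * mt g = mt g * mt h := by
  set g' : GL (Fin 2) F := Quotient.out (s := QuotientGroup.leftRel (Subgroup.center (GL (Fin 2) F))) (pm g) with hg'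
  have hgg : pm g' = pm g := Quotient.out_eq (s := QuotientGroup.leftRel (Subgroup.center (GL (Fin 2) F))) (pm g)
  obtain ⟨c, hc, hcg⟩ := pm_eq hgg
  have hcomm : ∀ k : GL (Fin 2) F, k ∈ Subgroup.centralizer {g'} ↔ mt k * mt g = mt g * mt k := by
    intro k
    rw [Subgroup.mem_centralizer_singleton_iff, mt_commute, hcg, mul_smul_comm, smul_mul_assoc]
    exact ⟨fun e => smul_right_injective _ hc e, fun e => by rw [e]⟩
  unfold CP
  rw [← hg', Subgroup.mem_map]
  constructor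
  · rintro ⟨k, hk, hkh⟩
    rw [hcomm] at hk
    obtain ⟨d, hd, hdk⟩ := pm_eq hkh
    rw [hdk, smul_mul_assoc, mul_smul_comm] at hk
    exact smul_right_injective _ hd hk
  · intro hh
    exact ⟨h, (hcomm h).mpr hh, rfl⟩

theorem nonscal {g : GL (Fin 2) F} (h : pm g ≠ 1) : ¬ IsScal (mt g) := fun h1 => h (pm_eq_one.mpr h1)

theorem CP_mem (x : PGL(2, F)) : x ∈ CP x := by
  obtain ⟨g, rfl⟩ := ProjGenLinGroup.mk_surjective x
  exact mem_CP.mpr rfl

theorem CP_eq_of_mem (x y : PGL(2, F)) (hx : x ≠ 1) (hy : y ≠ 1) (hyx : y ∈ CP x) : CP y = CP x := by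
  obtain ⟨g, rfl⟩ := ProjGenLinGroup.mk_surjective x
  obtain ⟨h, rfl⟩ := ProjGenLinGroup.mk_surjective y
  have h1 := mem_CP.mp hyx
  ext z
  obtain ⟨k, rfl⟩ := ProjGenLinGroup.mk_surjective z
  rw [mem_CP, mem_CP]
  constructor
  · intro h2
    exact comm_trans (nonscal hy) h2 h1.symm
  · intro h2
    exact comm_trans (nonscal hx) h2 h1

theorem CP_conj (g x : PGL(2, F)) (hx : x ≠ 1) : CP (g * x * g⁻¹) = cj g (CP x) := by
  obtain ⟨h, rfl⟩ := ProjGenLinGroup.mk_surjective x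
  obtain ⟨g, rfl⟩ := ProjGenLinGroup.mk_surjective g
  ext z
  obtain ⟨k, rfl⟩ := ProjGenLinGroup.mk_surjective z
  have e1 : (ProjGenLinGroup.mk g * ProjGenLinGroup.mk h * (ProjGenLinGroup.mk g)⁻¹ : PGL(2, F)) = pm (g * h * g⁻¹) := by
    rw [map_mul, map_mul, map_inv]
  have e2 : ((ProjGenLinGroup.mk g)⁻¹ * ProjGenLinGroup.mk k * ProjGenLinGroup.mk g : PGL(2, F)) = pm (g⁻¹ * k * g) := by
    rw [map_mul, map_mul, map_inv]
  rw [mem_cj, e1, e2, mem_CP, mem_CP, ← mt_commute, ← mt_commute]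
  constructor
  · intro h1
    have h2 : g⁻¹ * k * g * h = g⁻¹ * (k * (g * h * g⁻¹)) * g := by group
    rw [h2, h1]
    group
  · intro h1
    have h2 : k * (g * h * g⁻¹) = g * (g⁻¹ * k * g * h) * g⁻¹ := by group
    rw [h2, h1]
    group

/-- elements of `CP x` in terms of matrices -/
theorem CP_form {g : GL (Fin 2) F} (hg : pm g ≠ 1) {y : PGL(2, F)} (hy : y ∈ CP (pm g)) :
    ∃ (h : GL (Fin 2) F) (a b : F), pm h = y ∧ mt h = a • (1 : Matrix (Fin 2) (Fin 2) F) + b • mt g := by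
  obtain ⟨h, rfl⟩ := ProjGenLinGroup.mk_surjective y
  obtain ⟨a, b, hab⟩ := comm_form (nonscal hg) (mem_CP.mp hy)
  exact ⟨h, a, b, rfl, hab⟩

end Pool.Agent.H32.HallD
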