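import Pool.Agent.H32.HallD.MatB

/-!
# HallD MatC: the tori of `PGL₂`
-/

set_option autoImplicit false

open Matrix
open scoped MatrixGroups

namespace Pool.Agent.H32.HallD

variable {F : Type} [Field F]

instance finite_PGL [Finite F] : Finite PGL(2, F) := by
  have : Finite (GL (Fin 2) F ⧸ Subgroup.center (GL (Fin 2) F)) := inferInstance
  exact this

/-- eigenvalues -/
theorem exists_eig (B : Matrix (Fin 2) (Fin 2) F) : ∃ l m : AlgebraicClosure F,
    l + m = algebraMap F (AlgebraicClosure F) B.trace ∧ l * m = algebraMap F (AlgebraicClosure F) B.det := by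
  set t := algebraMap F (AlgebraicClosure F) B.trace
  set d := algebraMap F (AlgebraicClosure F) B.det
  obtain ⟨l, hl⟩ := IsAlgClosed.exists_root (Polynomial.X ^ 2 - Polynomial.C t * Polynomial.X + Polynomial.C d : Polynomial (AlgebraicClosure F))
    (by
      have h1 : (Polynomial.X ^ 2 - Polynomial.C t * Polynomial.X + Polynomial.C d : Polynomial (AlgebraicClosure F)).degree = 2 := by
        compute_degree!
      rw [h1]
      norm_num)
  refine ⟨l, t - l, by ring, ?_⟩
  have h1 : l ^ 2 - t * l + d = 0 := by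
    simpa [Polynomial.IsRoot] using hl
  linear_combination -h1

variable {g : GL (Fin 2) F} {E : Type} [Field E] [Algebra F E] {l m : E}

theorem det_ne_zero' (h : GL (Fin 2) F) : (mt h).det ≠ 0 := (GeneralLinearGroup.det h).ne_zero

/-- the eigenvalue of a matrix which commutes with `g` -/
theorem exists_ev (hg : pm g ≠ 1) (h1 : l + m = algebraMap F E (mt g).trace) (h2 : l * m = algebraMap F E (mt g).det) :
    ∃ e : Subgroup.centralizer {g} →* Eˣ, ∀ (h : Subgroup.centralizer {g}) (a b : F),
      mt (h : GL (Fin 2) F) = a • (1 : Matrix (Fin 2) (Fin 2) F) + b • mt g →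
        (e h : E) = algebraMap F E a + algebraMap F E b * l := by
  have hB := nonscal hg
  have hco : ∀ h : Subgroup.centralizer {g}, ∃ ab : F × F, mt (h : GL (Fin 2) F) = ab.1 • (1 : Matrix (Fin 2) (Fin 2) F) + ab.2 • mt g := by
    intro h
    have h3 := (Subgroup.mem_centralizer_singleton_iff).mp h.2
    obtain ⟨a, b, hab⟩ := comm_form hB (mt_commute.mp h3)
    exact ⟨(a, b), hab⟩
  choose co hco using hco
  have hne : ∀ h, algebraMap F E (co h).1 + algebraMap F E (co h).2 * l ≠ 0 := by
    intro h h3
    have h4 := det_form (mt g) (co h).1 (co h).2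
    rw [← hco h] at h4
    have h5 := congrArg (algebraMap F E) h4
    have h6 : algebraMap F E ((co h).1 ^ 2 + (co h).1 * (co h).2 * (mt g).trace + (co h).2 ^ 2 * (mt g).det) =
        (algebraMap F E (co h).1 + algebraMap F E (co h).2 * l) * (algebraMap F E (co h).1 + algebraMap F E (co h).2 * m) := by
      simp only [map_add, map_mul, map_pow, ← h1, ← h2]
      ring
    rw [h6, h3, zero_mul, map_eq_zero] at h5
    exact det_ne_zero' _ h5
  have hev : ∀ (h : Subgroup.centralizer {g}) (a b : F), mt (h : GL (Fin 2) F) = a • (1 : Matrix (Fin 2) (Fin 2) F) + b • mt g →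
      (co h).1 = a ∧ (co h).2 = b := by
    intro h a b hab
    rw [hco h] at hab
    exact form_unique hB hab
  refine ⟨MonoidHom.mk' (fun h => Units.mk0 _ (hne h)) ?_, ?_⟩
  · intro h k
    apply Units.ext
    simp only [Units.val_mk0, Units.val_mul]
    have h3 : mt ((h * k : Subgroup.centralizer {g}) : GL (Fin 2) F) = mt (h : GL (Fin 2) F) * mt (k : GL (Fin 2) F) := rfl
    rw [hco h, hco k, mul_form] at h3
    obtain ⟨e1, e2⟩ := hev _ _ _ h3
    rw [e1, e2]
    simp only [map_add, map_mul, map_sub, ← h1, ← h2]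
    ring
  · intro h a b hab
    obtain ⟨e1, e2⟩ := hev h a b hab
    simp only [MonoidHom.mk'_apply, Units.val_mk0]
    rw [e1, e2]

/-- the torus is embedded in the multiplicative group of a field -/
theorem exists_theta (hg : pm g ≠ 1) (h1 : l + m = algebraMap F E (mt g).trace) (h2 : l * m = algebraMap F E (mt g).det) (hlm : l ≠ m) :
    ∃ θ : CP (pm g) →* Eˣ, Function.Injective θ := by
  have hB := nonscal hg
  obtain ⟨e1, he1⟩ := exists_ev hg h1 h2
  obtain ⟨e2, he2⟩ := exists_ev (l := m) (m := l) hg (by rw [add_comm]; exact h1) (by rw [mul_comm]; exact h2)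
  let ψ : Subgroup.centralizer {g} →* Eˣ := e1 * e2⁻¹
  have hψ : ∀ h, ψ h = 1 ↔ pm (h : GL (Fin 2) F) = 1 := by
    intro h
    have h3 := (Subgroup.mem_centralizer_singleton_iff).mp h.2
    obtain ⟨a, b, hab⟩ := comm_form hB (mt_commute.mp h3)
    have h4 : ψ h = 1 ↔ e1 h = e2 h := by
      show e1 h * (e2 h)⁻¹ = 1 ↔ _
      exact mul_inv_eq_one
    rw [h4, Units.ext_iff, he1 h a b hab, he2 h a b hab, pm_eq_one, hab]
    constructor
    · intro h5
      have h6 : algebraMap F E b * (l - m) = 0 := by linear_combination h5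
      have h7 := (mul_eq_zero.mp h6).resolve_right (sub_ne_zero.mpr hlm)
      rw [map_eq_zero] at h7
      rw [h7, zero_smul, add_zero]
      exact isScal_iff.mpr ⟨a, rfl⟩
    · intro h5
      obtain ⟨c, hc⟩ := isScal_iff.mp h5
      have h6 : a • (1 : Matrix (Fin 2) (Fin 2) F) + b • mt g = c • (1 : Matrix (Fin 2) (Fin 2) F) + (0 : F) • mt g := by
        rw [hc, zero_smul, add_zero]
      obtain ⟨-, h7⟩ := form_unique hB h6
      rw [h7]
      simp
  let f : Subgroup.centralizer {g} →* CP (pm g) :=
    { toFun := fun h => ⟨pm (h : GL (Fin 2) F), mem_CP.mpr (mt_commute.mp ((Subgroup.mem_centralizer_singleton_iff).mp h.2))⟩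
      map_one' := Subtype.ext (by simp)
      map_mul' := fun a b => Subtype.ext (by simp) }
  have hf : Function.Surjective f := by
    rintro ⟨y, hy⟩
    obtain ⟨h, rfl⟩ := ProjGenLinGroup.mk_surjective y
    exact ⟨⟨h, (Subgroup.mem_centralizer_singleton_iff).mpr (mt_commute.mpr (mem_CP.mp hy))⟩, rfl⟩
  have hker : f.ker ≤ ψ.ker := by
    intro h hh
    rw [MonoidHom.mem_ker] at hh ⊢
    exact (hψ h).mpr (congrArg Subtype.val hh)
  let e := QuotientGroup.quotientKerEquivOfSurjective f hf
  refine ⟨(QuotientGroup.lift f.ker ψ hker).comp e.symm.toMonoidHom, ?_⟩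
  rw [injective_iff_map_eq_one]
  intro y hy
  obtain ⟨h, hh⟩ := QuotientGroup.mk_surjective (e.symm y)
  have h3 : (QuotientGroup.lift f.ker ψ hker) (e.symm y) = 1 := hy
  rw [← hh, QuotientGroup.lift_mk, hψ] at h3
  have h4 : f h = 1 := Subtype.ext h3
  have h5 : (h : Subgroup.centralizer {g} ⧸ f.ker) = 1 := (QuotientGroup.eq_one_iff h).mpr h4
  rw [h5] at hh
  have h6 := congrArg e hh
  rw [map_one, MulEquiv.apply_symm_apply] at h6
  exact h6.symm

/-- conjugation by an element of the normaliser -/
theorem conj_torus (hg : pm g ≠ 1) (h1 : l + m = algebraMap F E (mt g).trace) (h2 : l * m = algebraMap F E (mt g).det) (hlm : l ≠ m)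
    {k : GL (Fin 2) F} (hk : pm k * pm g * (pm k)⁻¹ ∈ CP (pm g)) (hk2 : pm k ∉ CP (pm g)) :
    mt k * mt g = ((mt g).trace • (1 : Matrix (Fin 2) (Fin 2) F) - mt g) * mt k := by
  have hB := nonscal hg
  have e1 : pm k * pm g * (pm k)⁻¹ = pm (k * g * k⁻¹) := by rw [map_mul, map_mul, map_inv]
  rw [e1, mem_CP] at hk
  obtain ⟨a, b, hab⟩ := comm_form hB hk
  have hkk : mt k * mt g = (a • (1 : Matrix (Fin 2) (Fin 2) F) + b • mt g) * mt k := by
    rw [← hab]
    have h3 : k * g = (k * g * k⁻¹) * k := by group
    exact congrArg Units.val h3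
  have hdet : (mt k).det * (mt g).det = (a ^ 2 + a * b * (mt g).trace + b ^ 2 * (mt g).det) * (mt k).det := by
    rw [← det_form, ← Matrix.det_mul, ← Matrix.det_mul, hkk]
  have hdet2 : (mt g).det = a ^ 2 + a * b * (mt g).trace + b ^ 2 * (mt g).det :=
    mul_left_cancel₀ (det_ne_zero' k) (by rw [hdet]; ring)
  have htr : (mt g).trace = 2 * a + b * (mt g).trace := by
    rw [← trace_form, ← hab]
    have h3 : mt (k * g * k⁻¹) = mt k * mt g * mt k⁻¹ := rfl
    rw [h3, Matrix.trace_mul_comm, ← Matrix.mul_assoc]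
    have h4 : mt k⁻¹ * mt k = 1 := by
      have h5 : k⁻¹ * k = 1 := inv_mul_cancel k
      exact congrArg Units.val h5
    rw [h4, Matrix.one_mul]
  have hs : (algebraMap F E a + algebraMap F E b * l) + (algebraMap F E a + algebraMap F E b * m) = l + m := by
    have h3 := congrArg (algebraMap F E) htr
    rw [map_add, map_mul, map_mul, ← h1] at h3
    have h4 : algebraMap F E 2 = 2 := map_ofNat _ 2
    rw [h4] at h3
    linear_combination -h3
  have hpr : (algebraMap F E a + algebraMap F E b * l) * (algebraMap F E a + algebraMap F E b * m) = l * m := by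
    have h3 := congrArg (algebraMap F E) hdet2
    simp only [map_add, map_mul, map_pow, ← h1, ← h2] at h3
    linear_combination -h3
  have hcase : (algebraMap F E a + algebraMap F E b * l - l) * (algebraMap F E a + algebraMap F E b * l - m) = 0 := by
    linear_combination (algebraMap F E a + algebraMap F E b * l) * hs - hpr
  have hlm' : l - m ≠ 0 := sub_ne_zero.mpr hlm
  have hinj : Function.Injective (algebraMap F E) := (algebraMap F E).injective
  rcases mul_eq_zero.mp hcase with h3 | h3
  · exfalso
    have h4 : (algebraMap F E b - 1) * (l - m) = 0 := by linear_combination 2 * h3 - hs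
    have h5 := (mul_eq_zero.mp h4).resolve_right hlm'
    have h6 : b = 1 := hinj (by rw [map_one]; linear_combination h5)
    have h7 : a = 0 := hinj (by
      rw [map_zero]
      rw [h6, map_one] at h3
      linear_combination h3)
    rw [h6, h7, zero_smul, one_smul, zero_add] at hkk
    exact hk2 (mem_CP.mpr hkk)
  · have h4 : (algebraMap F E b + 1) * (l - m) = 0 := by linear_combination 2 * h3 - hs
    have h5 := (mul_eq_zero.mp h4).resolve_right hlm'
    have h6 : b = -1 := hinj (by rw [map_neg, map_one]; linear_combination h5)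
    have h7 : a = (mt g).trace := hinj (by
      rw [← h1]
      rw [h6, map_neg, map_one] at h3
      linear_combination h3)
    rw [hkk, h6, h7, neg_one_smul, sub_eq_add_neg]

theorem ss_of_ne [Finite F] {p : ℕ} [hp : Fact p.Prime] [CharP F p] (hg : pm g ≠ 1) (h1 : l + m = algebraMap F E (mt g).trace)
    (h2 : l * m = algebraMap F E (mt g).det) (hlm : l ≠ m) : SS p CP (pm g) := by
  have hB := nonscal hg
  haveI : CharP E p := charP_of_injective_algebraMap (algebraMap F E).injective p
  obtain ⟨θ, hθ⟩ := exists_theta hg h1 h2 hlm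
  have h2ne : ∀ d : F, d • ((mt g).trace • (1 : Matrix (Fin 2) (Fin 2) F) - mt g) = d • mt g → d = 0 := by
    intro d hd
    by_contra hd0
    have h3 : (mt g).trace • (1 : Matrix (Fin 2) (Fin 2) F) - mt g = mt g := smul_right_injective _ hd0 hd
    have e00 := congrFun (congrFun h3 0) 0
    have e01 := congrFun (congrFun h3 0) 1
    have e10 := congrFun (congrFun h3 1) 0
    have e11 := congrFun (congrFun h3 1) 1
    simp only [Matrix.sub_apply, Matrix.smul_apply, Matrix.one_apply_eq, smul_eq_mul, mul_one, ne_eq, zero_ne_one, not_false_eq_true,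
      Matrix.one_apply_ne, one_ne_zero, mul_zero, zero_sub] at e00 e01 e10 e11
    by_cases h20 : (2 : F) = 0
    · have h4 : (mt g).trace = 0 := by linear_combination e00 + (mt g) 0 0 * h20
      rw [h4, map_zero] at h1
      have h5 : (2 : E) = 0 := by
        have h6 : algebraMap F E 2 = 2 := map_ofNat _ 2
        rw [← h6, h20, map_zero]
      exact hlm (by linear_combination h1 - m * h5)
    · apply hB
      refine ⟨?_, ?_, ?_⟩
      · have h4 : (2 : F) * (mt g) 0 1 = 0 := by linear_combination -e01
        exact (mul_eq_zero.mp h4).resolve_left h20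
      · have h4 : (2 : F) * (mt g) 1 0 = 0 := by linear_combination -e10
        exact (mul_eq_zero.mp h4).resolve_left h20
      · have h4 : (2 : F) * ((mt g) 0 0 - (mt g) 1 1) = 0 := by linear_combination e11 - e00
        exact sub_eq_zero.mp ((mul_eq_zero.mp h4).resolve_left h20)
  refine ⟨?_, ?_, ?_, ?_⟩
  · exact isCyclic_of_subgroup_isDomain ((Units.coeHom E).comp θ) (fun a b hab => hθ (Units.ext hab))
  · intro y hy
    rw [Nat.coprime_comm, Nat.Prime.coprime_iff_not_dvd hp.out]
    intro hd
    have hfin : 0 < orderOf y := orderOf_pos y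
    obtain ⟨j, hj⟩ := hd
    have hj0 : 0 < j := by
      rcases Nat.eq_zero_or_pos j with h3 | h3
      · rw [h3, mul_zero] at hj
        omega
      · exact h3
    set z : CP (pm g) := ⟨y, hy⟩ ^ j with hz
    have hzp : z ^ p = 1 := by
      rw [hz, ← pow_mul, mul_comm, ← hj]
      exact Subtype.ext (pow_orderOf_eq_one y)
    have h3 : (θ z : E) ^ p = 1 := by
      rw [← Units.val_pow_eq_pow_val, ← map_pow, hzp, map_one, Units.val_one]
    have h4 : ((θ z : E) - 1) ^ p = 0 := by
      rw [sub_pow_char, h3, one_pow, sub_self]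
    have h5 : (θ z : E) = 1 := sub_eq_zero.mp (pow_eq_zero_iff hp.out.ne_zero |>.mp h4)
    have h6 : z = 1 := hθ (by rw [map_one]; exact Units.ext h5)
    have h7 : y ^ j = 1 := congrArg Subtype.val h6
    have h8 := orderOf_le_of_pow_eq_one hj0 h7
    have h9 := hp.out.two_le
    nlinarith
  · intro x hx hx2
    obtain ⟨k, rfl⟩ := ProjGenLinGroup.mk_surjective x
    have h3 := conj_torus hg h1 h2 hlm hx hx2
    have h4 : mt k * ((mt g).trace • (1 : Matrix (Fin 2) (Fin 2) F) - mt g) = mt g * mt k := by
      rw [mul_sub, mul_smul_comm, mul_one, h3, sub_mul, smul_mul_assoc, one_mul]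
      abel
    have h5 : mt (k * k) * mt g = mt g * mt (k * k) := by
      show mt k * mt k * mt g = mt g * (mt k * mt k)
      rw [Matrix.mul_assoc, h3, ← Matrix.mul_assoc, h4, Matrix.mul_assoc]
    obtain ⟨c, d, hcd⟩ := comm_form hB h5
    have h6 : mt k * mt (k * k) = mt (k * k) * mt k := by
      show mt k * (mt k * mt k) = mt k * mt k * mt k
      rw [Matrix.mul_assoc]
    rw [hcd, mul_add, add_mul, mul_smul_comm, mul_smul_comm, smul_mul_assoc, smul_mul_assoc, mul_one, one_mul] at h6
    have h7 := add_left_cancel h6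
    rw [h3, ← smul_mul_assoc, ← smul_mul_assoc] at h7
    have h8 : d • ((mt g).trace • (1 : Matrix (Fin 2) (Fin 2) F) - mt g) = d • mt g := by
      have h9 : mt k * mt k⁻¹ = 1 := congrArg Units.val (mul_inv_cancel k)
      have h10 := congrArg (fun M => M * mt k⁻¹) h7
      simpa only [Matrix.mul_assoc, h9, Matrix.mul_one] using h10
    rw [h2ne d h8, zero_smul, add_zero] at hcd
    rw [← map_mul]
    exact pm_eq_one.mpr (isScal_iff.mpr ⟨c, hcd⟩)
  · intro x y hx hx2 hy hy2
    obtain ⟨k, rfl⟩ := ProjGenLinGroup.mk_surjective x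
    obtain ⟨n, rfl⟩ := ProjGenLinGroup.mk_surjective y
    have h3 := conj_torus hg h1 h2 hlm hx hx2
    have h3' := conj_torus hg h1 h2 hlm hy hy2
    have h4 : mt k * ((mt g).trace • (1 : Matrix (Fin 2) (Fin 2) F) - mt g) = mt g * mt k := by
      rw [mul_sub, mul_smul_comm, mul_one, h3, sub_mul, smul_mul_assoc, one_mul]
      abel
    rw [← map_mul]
    rw [mem_CP]
    show mt k * mt n * mt g = mt g * (mt k * mt n)
    rw [Matrix.mul_assoc, h3', ← Matrix.mul_assoc, h4, Matrix.mul_assoc]

end Pool.Agent.H32.HallD
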