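import Pool.Agent.H32.HallD.MatC

/-!
# HallD MatD: the unipotent members; `PGL₂` has a partition
-/

set_option autoImplicit false

open Matrix
open scoped MatrixGroups

namespace Pool.Agent.H32.HallD

variable {F : Type} [Field F]

theorem smul_scal {c : F} {B : Matrix (Fin 2) (Fin 2) F} (hc : c ≠ 0) (h : ¬ IsScal B) : ¬ IsScal (c • B) := by
  intro h1
  apply h
  obtain ⟨h2, h3, h4⟩ := h1
  simp only [Matrix.smul_apply, smul_eq_mul] at h2 h3 h4
  exact ⟨(mul_eq_zero.mp h2).resolve_left hc, (mul_eq_zero.mp h3).resolve_left hc, mul_left_cancel₀ hc h4⟩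

/-- for a double eigenvalue the matrix is `l + N`, `N ^ 2 = 0` -/
theorem exists_nil [Finite F] {B : Matrix (Fin 2) (Fin 2) F} (hB : ¬ IsScal B) {E : Type} [Field E] [Algebra F E] {l : E}
    (h1 : l + l = algebraMap F E B.trace) (h2 : l * l = algebraMap F E B.det) :
    ∃ (c : F) (N : Matrix (Fin 2) (Fin 2) F), B = c • (1 : Matrix (Fin 2) (Fin 2) F) + N ∧ N * N = 0 ∧ N ≠ 0 ∧ B.trace = 2 * c ∧ B.det = c ^ 2 := by
  have hinj : Function.Injective (algebraMap F E) := (algebraMap F E).injective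
  obtain ⟨c, hc⟩ : ∃ c : F, algebraMap F E c = l := by
    by_cases h20 : (2 : F) = 0
    · haveI : Fintype F := Fintype.ofFinite F
      have hch : ringChar F = 2 := by
        haveI : CharP F 2 := CharTwo.of_one_ne_zero_of_two_eq_zero one_ne_zero h20
        exact ringChar.eq_iff.mpr inferInstance
      obtain ⟨c, hc⟩ := FiniteField.isSquare_of_char_two hch B.det
      refine ⟨c, ?_⟩
      have h5 : (2 : E) = 0 := by
        have h6 : algebraMap F E 2 = 2 := map_ofNat _ 2
        rw [← h6, h20, map_zero]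
      rw [hc, map_mul] at h2
      have h3 : (l - algebraMap F E c) * (l - algebraMap F E c) = 0 := by
        linear_combination h2 + (algebraMap F E c * algebraMap F E c - l * algebraMap F E c) * h5
      exact (sub_eq_zero.mp (mul_self_eq_zero.mp h3)).symm
    · refine ⟨B.trace / 2, ?_⟩
      have h5 : (2 : E) ≠ 0 := by
        have h6 : algebraMap F E 2 = 2 := map_ofNat _ 2
        rw [← h6]
        intro h7
        exact h20 (hinj (by rw [h7, map_zero]))
      rw [map_div₀, ← h1]
      have h6 : algebraMap F E 2 = 2 := map_ofNat _ 2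
      rw [h6]
      field_simp
      ring
  have htr : B.trace = 2 * c := hinj (by
    rw [← h1, map_mul, hc]
    have h6 : algebraMap F E 2 = 2 := map_ofNat _ 2
    rw [h6]
    ring)
  have hdet : B.det = c ^ 2 := hinj (by rw [← h2, map_pow, hc]; ring)
  refine ⟨c, B - c • (1 : Matrix (Fin 2) (Fin 2) F), by abel, ?_, ?_, htr, hdet⟩
  · have h3 := sq_form B
    rw [htr, hdet] at h3
    rw [sub_mul, mul_sub, mul_sub, h3, smul_mul_assoc, smul_mul_assoc, mul_smul_comm, one_mul, mul_one, one_mul]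
    ext i j
    simp [Matrix.one_apply]
    split_ifs <;> ring
  · intro h3
    exact hB (isScal_iff.mpr ⟨c, sub_eq_zero.mp h3⟩)

variable {N : Matrix (Fin 2) (Fin 2) F}

theorem nil_trace (hN : N * N = 0) : N.trace = 0 ∧ N.det = 0 := by
  have h1 : N.det = 0 := by
    have h2 : (N * N).det = 0 := by rw [hN]; simp
    rw [Matrix.det_mul] at h2
    exact mul_self_eq_zero.mp h2
  refine ⟨?_, h1⟩
  have h3 := sq_form N
  rw [hN, h1, neg_zero, zero_smul, zero_add] at h3
  rcases smul_eq_zero.mp h3.symm with h4 | h4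
  · exact h4
  · rw [h4]; simp

theorem nil_nonscal (hN : N * N = 0) (h0 : N ≠ 0) : ¬ IsScal N := by
  rintro ⟨h1, h2, h3⟩
  obtain ⟨-, h4⟩ := nil_trace hN
  rw [Matrix.det_fin_two, h1, h2, ← h3] at h4
  have h5 : N 0 0 = 0 := mul_self_eq_zero.mp (by linear_combination h4)
  apply h0
  ext i j
  fin_cases i <;> fin_cases j
  · simpa using h5
  · simpa using h1
  · simpa using h2
  · simpa [h5] using h3.symm

theorem un_of_nil [Finite F] {p : ℕ} [hp : Fact p.Prime] [CharP F p] {g : GL (Fin 2) F} {c : F} (hgN : mt g = c • (1 : Matrix (Fin 2) (Fin 2) F) + N)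
    (hN : N * N = 0) (h0 : N ≠ 0) : UN p F CP (pm g) := by
  have hNs := nil_nonscal hN h0
  obtain ⟨hNt, hNd⟩ := nil_trace hN
  -- commuting with `g` is commuting with `N`
  have hcm : ∀ A : Matrix (Fin 2) (Fin 2) F, A * mt g = mt g * A ↔ A * N = N * A := by
    intro A
    rw [hgN, mul_add, add_mul, mul_smul_comm, smul_mul_assoc, mul_one, one_mul]
    exact ⟨fun h => add_left_cancel h, fun h => by rw [h]⟩
  have hmem : ∀ k : GL (Fin 2) F, pm k ∈ CP (pm g) ↔ mt k * N = N * mt k := fun k => by rw [mem_CP, hcm]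
  have hinv : ∀ k : GL (Fin 2) F, mt k * mt k⁻¹ = 1 := fun k => congrArg Units.val (mul_inv_cancel k)
  have hinv' : ∀ k : GL (Fin 2) F, mt k⁻¹ * mt k = 1 := fun k => congrArg Units.val (inv_mul_cancel k)
  -- the normaliser
  have hnorm : ∀ k : GL (Fin 2) F, pm k * pm g * (pm k)⁻¹ ∈ CP (pm g) ↔ ∃ b : F, b ≠ 0 ∧ mt k * N = b • (N * mt k) := by
    intro k
    have e1 : pm k * pm g * (pm k)⁻¹ = pm (k * g * k⁻¹) := by rw [map_mul, map_mul, map_inv]
    have e2 : mt (k * g * k⁻¹) = c • (1 : Matrix (Fin 2) (Fin 2) F) + mt k * N * mt k⁻¹ := by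
      show mt k * mt g * mt k⁻¹ = _
      rw [hgN, mul_add, add_mul, mul_smul_comm, mul_one, smul_mul_assoc, hinv]
    have e3 : pm (k * g * k⁻¹) ∈ CP (pm g) ↔ (mt k * N * mt k⁻¹) * N = N * (mt k * N * mt k⁻¹) := by
      rw [hmem, e2, add_mul, mul_add, smul_mul_assoc, mul_smul_comm, one_mul, mul_one]
      exact ⟨fun h => add_left_cancel h, fun h => by rw [h]⟩
    rw [e1, e3]
    constructor
    · intro h
      obtain ⟨a, b, hab⟩ := comm_form hNs h
      have h1 : (mt k * N * mt k⁻¹) * (mt k * N * mt k⁻¹) = 0 := by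
        have h2 : (mt k * N * mt k⁻¹) * (mt k * N * mt k⁻¹) = mt k * (N * ((mt k⁻¹ * mt k) * N)) * mt k⁻¹ := by
          simp only [Matrix.mul_assoc]
        rw [h2, hinv', Matrix.one_mul, hN, Matrix.mul_zero, Matrix.zero_mul]
      obtain ⟨h2, h3⟩ := nil_trace h1
      rw [hab, trace_form, hNt, mul_zero, add_zero] at h2
      rw [hab, det_form, hNt, hNd, mul_zero, mul_zero, add_zero, add_zero] at h3
      have h4 : a = 0 := pow_eq_zero_iff (two_ne_zero) |>.mp h3
      rw [h4, zero_smul, zero_add] at hab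
      refine ⟨b, ?_, ?_⟩
      · rintro rfl
        rw [zero_smul] at hab
        apply h0
        have h5 : mt k⁻¹ * (mt k * N * mt k⁻¹) * mt k = N := by
          have h6 : mt k⁻¹ * (mt k * N * mt k⁻¹) * mt k = (mt k⁻¹ * mt k) * N * (mt k⁻¹ * mt k) := by simp only [Matrix.mul_assoc]
          rw [h6, hinv', Matrix.one_mul, Matrix.mul_one]
        rw [← h5, hab, Matrix.mul_zero, Matrix.zero_mul]
      · have h5 : mt k * N = (mt k * N * mt k⁻¹) * mt k := by rw [Matrix.mul_assoc (mt k * N), hinv', Matrix.mul_one]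
        rw [h5, hab, smul_mul_assoc]
    · rintro ⟨b, hb, h⟩
      rw [h, smul_mul_assoc, Matrix.mul_assoc N, hinv, Matrix.mul_one, smul_mul_assoc, mul_smul_comm]
  refine ⟨?_, ?_, ?_, ?_⟩
  · -- a `p`-group
    rintro ⟨y, hy⟩
    obtain ⟨h, rfl⟩ := ProjGenLinGroup.mk_surjective y
    obtain ⟨a, b, hab⟩ := comm_form hNs ((hmem h).mp hy)
    refine ⟨1, Subtype.ext ?_⟩
    show pm h ^ p ^ 1 = 1
    rw [pow_one, ← map_pow, pm_eq_one, isScal_iff]
    refine ⟨a ^ p, ?_⟩
    have h1 : mt (h ^ p) = mt h ^ p := rfl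
    rw [h1, hab]
    have h2 : Commute (a • (1 : Matrix (Fin 2) (Fin 2) F)) (b • N) := by
      show _ * _ = _ * _
      rw [smul_mul_assoc, one_mul, mul_smul_comm, mul_one]
    rw [add_pow_char_of_commute p h2, smul_pow, one_pow, smul_pow]
    have h3 : N ^ p = 0 := by
      obtain ⟨j, hj⟩ : ∃ j, p = 2 + j := ⟨p - 2, by have := hp.out.two_le; omega⟩
      rw [hj, pow_add, pow_two, hN, zero_mul]
    rw [h3, smul_zero, add_zero]
  · -- semiregular action
    intro x hx y hy hy1 hxy
    obtain ⟨k, rfl⟩ := ProjGenLinGroup.mk_surjective x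
    obtain ⟨h, rfl⟩ := ProjGenLinGroup.mk_surjective y
    obtain ⟨a, b, hab⟩ := comm_form hNs ((hmem h).mp hy)
    have e1 : pm k * pm h * (pm k)⁻¹ = pm (k * h * k⁻¹) := by rw [map_mul, map_mul, map_inv]
    have hxy' : pm (k * h * k⁻¹) = pm h := e1 ▸ hxy
    obtain ⟨d, hd, hdh⟩ := pm_eq hxy'
    have hdet : (mt (k * h * k⁻¹)).det = (mt h).det := by
      show (mt k * mt h * mt k⁻¹).det = _
      rw [Matrix.det_mul, Matrix.det_mul, mul_comm, ← mul_assoc, ← Matrix.det_mul, hinv', Matrix.det_one, one_mul]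
    have htr : (mt (k * h * k⁻¹)).trace = (mt h).trace := by
      show (mt k * mt h * mt k⁻¹).trace = _
      rw [Matrix.trace_mul_comm, ← Matrix.mul_assoc, hinv', Matrix.one_mul]
    have hdeth : (mt h).det = a ^ 2 := by rw [hab, det_form, hNt, hNd]; ring
    have htrh : (mt h).trace = 2 * a := by rw [hab, trace_form, hNt]; ring
    have ha0 : a ≠ 0 := by
      rintro rfl
      apply det_ne_zero' h
      rw [hdeth]
      ring
    have hd2 : (d - 1) * (d + 1) = 0 := by
      rw [hdh, Matrix.det_smul, Fintype.card_fin] at hdet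
      have h3 : (d ^ 2 - 1) * (mt h).det = 0 := by linear_combination hdet
      have h4 := (mul_eq_zero.mp h3).resolve_right (det_ne_zero' h)
      linear_combination h4
    have hd1 : d = 1 := by
      rcases mul_eq_zero.mp hd2 with h3 | h3
      · exact sub_eq_zero.mp h3
      · rw [hdh, Matrix.trace_smul, htrh, smul_eq_mul] at htr
        have h4 : d = -1 := by linear_combination h3
        rw [h4] at htr
        have h5 : (4 : F) * a = 0 := by linear_combination -htr
        have h6 := (mul_eq_zero.mp h5).resolve_right ha0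
        have h7 : (2 : F) = 0 := by
          have h8 : (2 : F) * 2 = 0 := by linear_combination h6
          exact mul_self_eq_zero.mp h8
        linear_combination h3 - h7
    rw [hd1, one_smul] at hdh
    have h3 : k * h = h * k := by
      have h4 : k * h * k⁻¹ = h := Units.ext hdh
      calc k * h = (k * h * k⁻¹) * k := by group
        _ = h * k := by rw [h4]
    apply hx
    rw [hmem]
    have h4 := mt_commute.mp h3
    rw [hab, mul_add, add_mul, mul_smul_comm, smul_mul_assoc, mul_one, one_mul] at h4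
    have h5 := add_left_cancel h4
    rw [mul_smul_comm, smul_mul_assoc] at h5
    have hb0 : b ≠ 0 := by
      rintro rfl
      apply hy1
      show pm h = 1
      rw [pm_eq_one, isScal_iff]
      exact ⟨a, by rw [hab, zero_smul, add_zero]⟩
    exact smul_right_injective _ hb0 h5
  · -- the torus in the normaliser
    intro y hy1 hy z hz
    obtain ⟨k, rfl⟩ := ProjGenLinGroup.mk_surjective y
    obtain ⟨n, rfl⟩ := ProjGenLinGroup.mk_surjective z
    obtain ⟨b, hb, hkN⟩ := (hnorm k).mp hy
    obtain ⟨s, t, hst⟩ := comm_form (nonscal hy1) (mem_CP.mp hz)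
    have h1 : N * mt k * N = 0 := by
      have h2 : b • (N * mt k * N) = 0 := by
        rw [← smul_mul_assoc, ← hkN, Matrix.mul_assoc, hN, Matrix.mul_zero]
      exact (smul_eq_zero.mp h2).resolve_left hb
    have h2 : N * mt n * N = 0 := by
      rw [hst, mul_add, add_mul, mul_smul_comm, mul_smul_comm, smul_mul_assoc, smul_mul_assoc, mul_one, hN, h1, smul_zero, smul_zero, add_zero]
    have h3 : N * mt n⁻¹ * N = 0 := by
      have h4 := sq_form (mt n)
      have h5 : mt n⁻¹ * (mt n * mt n) = mt n := by rw [← Matrix.mul_assoc, hinv', Matrix.one_mul]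
      rw [h4, mul_add, mul_smul_comm, mul_smul_comm, mul_one, hinv'] at h5
      have h6 : (mt n).det • mt n⁻¹ = (mt n).trace • (1 : Matrix (Fin 2) (Fin 2) F) - mt n := by
        rw [neg_smul] at h5
        rw [eq_sub_iff_add_eq]
        calc (mt n).det • mt n⁻¹ + mt n = (mt n).det • mt n⁻¹ + (-((mt n).det • mt n⁻¹) + (mt n).trace • (1 : Matrix (Fin 2) (Fin 2) F)) := by
              rw [h5]
          _ = (mt n).trace • (1 : Matrix (Fin 2) (Fin 2) F) := by abel
      have h7 : (mt n).det • (N * mt n⁻¹ * N) = 0 := by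
        have h8 : (mt n).det • (N * mt n⁻¹ * N) = N * ((mt n).det • mt n⁻¹) * N := by
          rw [mul_smul_comm, smul_mul_assoc]
        rw [h8, h6, mul_sub, sub_mul, mul_smul_comm, smul_mul_assoc, mul_one, hN, smul_zero, h2, sub_zero]
      exact (smul_eq_zero.mp h7).resolve_left (det_ne_zero' n)
    have e1 : pm n * pm g * (pm n)⁻¹ = pm (n * g * n⁻¹) := by rw [map_mul, map_mul, map_inv]
    have e2 : mt (n * g * n⁻¹) = c • (1 : Matrix (Fin 2) (Fin 2) F) + mt n * N * mt n⁻¹ := by
      show mt n * mt g * mt n⁻¹ = _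
      rw [hgN, mul_add, add_mul, mul_smul_comm, mul_one, smul_mul_assoc, hinv]
    show pm n * pm g * (pm n)⁻¹ ∈ CP (pm g)
    rw [e1, hmem, e2, add_mul, mul_add, smul_mul_assoc, mul_smul_comm, one_mul, mul_one]
    have h4 : mt n * N * mt n⁻¹ * N = 0 := by
      have h5 : mt n * N * mt n⁻¹ * N = mt n * (N * mt n⁻¹ * N) := by simp only [Matrix.mul_assoc]
      rw [h5, h3, Matrix.mul_zero]
    have h5 : N * (mt n * N * mt n⁻¹) = 0 := by
      have h6 : N * (mt n * N * mt n⁻¹) = N * mt n * N * mt n⁻¹ := by simp only [Matrix.mul_assoc]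
      rw [h6, h2, Matrix.zero_mul]
    rw [h4, h5]
  · -- the quotient
    have hPt : ∀ γ : Subgroup.normalizer (CP (pm g) : Set PGL(2, F)), ∃ b : Fˣ, ∀ k : GL (Fin 2) F, pm k = γ → mt k * N = (b : F) • (N * mt k) := by
      intro γ
      obtain ⟨k, hk⟩ := ProjGenLinGroup.mk_surjective (γ : PGL(2, F))
      have h1 : pm k * pm g * (pm k)⁻¹ ∈ CP (pm g) := by
        have h2 := (Subgroup.mem_normalizer_iff.mp γ.2 (pm g)).mp (CP_mem _)
        rw [← hk] at h2
        exact h2
      obtain ⟨b, hb, hkN⟩ := (hnorm k).mp h1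
      refine ⟨Units.mk0 b hb, fun k' hk' => ?_⟩
      obtain ⟨d, hd, hdk⟩ := pm_eq (hk'.trans hk.symm)
      rw [hdk, smul_mul_assoc, hkN, mul_smul_comm, Units.val_mk0, smul_comm]
    choose φ hφ using hPt
    have huniq : ∀ (k : GL (Fin 2) F) (a b : F), mt k * N = a • (N * mt k) → mt k * N = b • (N * mt k) → a = b := by
      intro k a b h1 h2
      by_contra h3
      have h4 : (a - b) • (N * mt k) = 0 := by rw [sub_smul, ← h1, ← h2, sub_self]
      have h5 := (smul_eq_zero.mp h4).resolve_left (sub_ne_zero.mpr h3)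
      apply h0
      have h6 : N * mt k * mt k⁻¹ = N := by rw [Matrix.mul_assoc, hinv, Matrix.mul_one]
      rw [← h6, h5, Matrix.zero_mul]
    refine ⟨MonoidHom.mk' φ ?_, ?_⟩
    · intro γ δ
      obtain ⟨k, hk⟩ := ProjGenLinGroup.mk_surjective (γ : PGL(2, F))
      obtain ⟨n, hn⟩ := ProjGenLinGroup.mk_surjective (δ : PGL(2, F))
      have h1 := hφ γ k hk
      have h2 := hφ δ n hn
      have h3 := hφ (γ * δ) (k * n) (by
        rw [map_mul, hk, hn]
        rfl)
      apply Units.ext
      refine huniq (k * n) _ _ h3 ?_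
      show mt k * mt n * N = ((φ γ * φ δ : Fˣ) : F) • (N * (mt k * mt n))
      rw [Matrix.mul_assoc, h2, mul_smul_comm, ← Matrix.mul_assoc, h1, smul_mul_assoc, smul_smul, Units.val_mul, mul_comm, Matrix.mul_assoc]
    · intro γ
      obtain ⟨k, hk⟩ := ProjGenLinGroup.mk_surjective (γ : PGL(2, F))
      have h1 := hφ γ k hk
      show φ γ = 1 ↔ _
      rw [← hk]
      show φ γ = 1 ↔ pm k ∈ CP (pm g)
      rw [hmem]
      constructor
      · intro h2
        rw [h2, Units.val_one, one_smul] at h1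
        exact h1
      · intro h2
        apply Units.ext
        refine huniq k _ _ h1 ?_
        rw [Units.val_one, one_smul]
        exact h2

/-- `PGL₂` has a partition -/
theorem pt_PGL [Finite F] (p : ℕ) [hp : Fact p.Prime] [CharP F p] : Pt p F (CP (F := F)) where
  mem := CP_mem
  eq_of_mem := CP_eq_of_mem
  conj := CP_conj
  type x hx := by
    obtain ⟨g, rfl⟩ := ProjGenLinGroup.mk_surjective x
    obtain ⟨l, m, h1, h2⟩ := exists_eig (mt g)
    by_cases hlm : l = m
    · right
      subst hlm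
      obtain ⟨c, N, hgN, hN, h0, -, -⟩ := exists_nil (nonscal hx) h1 h2
      exact un_of_nil hgN hN h0
    · left
      exact ss_of_ne hx h1 h2 hlm

end Pool.Agent.H32.HallD
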