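import Pool.Agent.H32.HallD.MatD
import Pool.Agent.H32.HallD.CardSL

/-!
# HallD MatE: the group `PSL₂` in `PGL₂`, its order, the unipotent elements
-/

set_option autoImplicit false

open Matrix
open scoped MatrixGroups

namespace Pool.Agent.H32.HallD

variable {F : Type} [Field F]

/-- the image of `SL₂` in `PGL₂` -/
abbrev PS (F : Type) [Field F] : Subgroup PGL(2, F) := (SpecialLinearGroup.toPGL (n := Fin 2) (R := F)).range

theorem mem_PS {x : PGL(2, F)} : x ∈ PS F ↔ ∃ g : GL (Fin 2) F, (mt g).det = 1 ∧ pm g = x := by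
  rw [MonoidHom.mem_range]
  constructor
  · rintro ⟨h, rfl⟩
    exact ⟨SpecialLinearGroup.toGL h, h.2, rfl⟩
  · rintro ⟨g, hg, rfl⟩
    refine ⟨⟨mt g, hg⟩, ?_⟩
    show pm (SpecialLinearGroup.toGL ⟨mt g, hg⟩) = pm g
    congr 1
    exact Units.ext rfl

/-- the centre of `SL₂` -/
theorem mem_center_SL2 (A : SpecialLinearGroup (Fin 2) F) : A ∈ Subgroup.center (SpecialLinearGroup (Fin 2) F) ↔ A = 1 ∨ A = -1 := by
  rw [Matrix.SpecialLinearGroup.mem_center_iff]
  constructor
  · rintro ⟨r, hr, hA⟩
    rw [Fintype.card_fin] at hr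
    have h1 : (r - 1) * (r + 1) = 0 := by linear_combination hr
    rcases mul_eq_zero.mp h1 with h2 | h2
    · left
      have h3 : r = 1 := sub_eq_zero.mp h2
      apply Subtype.ext
      rw [← hA, h3]
      simp
    · right
      have h3 : r = -1 := eq_neg_of_add_eq_zero_left h2
      apply Subtype.ext
      rw [← hA, h3]
      ext i j
      fin_cases i <;> fin_cases j <;> simp
  · rintro (rfl | rfl)
    · exact ⟨1, by simp, by simp⟩
    · refine ⟨-1, by simp, ?_⟩
      ext i j
      fin_cases i <;> fin_cases j <;> simp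

theorem card_center_even (h2 : (2 : F) = 0) : Nat.card (Subgroup.center (SpecialLinearGroup (Fin 2) F)) = 1 := by
  have h3 : (-1 : SpecialLinearGroup (Fin 2) F) = 1 := by
    apply Subtype.ext
    have h4 : (-1 : F) = 1 := by linear_combination -h2
    ext i j
    fin_cases i <;> fin_cases j <;> simp [h4]
  rw [Subgroup.card_eq_one]
  ext A
  rw [mem_center_SL2, h3, Subgroup.mem_bot]
  simp

theorem card_center_odd (h2 : (2 : F) ≠ 0) : Nat.card (Subgroup.center (SpecialLinearGroup (Fin 2) F)) = 2 := by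
  have h3 : (-1 : SpecialLinearGroup (Fin 2) F) ≠ 1 := by
    intro h4
    have h5 := congrArg (fun A : SpecialLinearGroup (Fin 2) F => A 0 0) h4
    simp at h5
    apply h2
    linear_combination -h5
  have h4 : ((Subgroup.center (SpecialLinearGroup (Fin 2) F) : Subgroup _) : Set (SpecialLinearGroup (Fin 2) F)) = {1, -1} := by
    ext A
    rw [SetLike.mem_coe, mem_center_SL2]
    simp
  have h5 : Nat.card (Subgroup.center (SpecialLinearGroup (Fin 2) F)) = ({1, -1} : Set (SpecialLinearGroup (Fin 2) F)).ncard := by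
    rw [← h4]
    rfl
  rw [h5]
  exact Set.ncard_pair h3.symm

theorem card_PS [Finite F] : Nat.card (PS F) * Nat.card (Subgroup.center (SpecialLinearGroup (Fin 2) F)) = Nat.card F * (Nat.card F ^ 2 - 1) := by
  rw [← card_SL2]
  have h1 := Subgroup.card_mul_index (SpecialLinearGroup.toPGL (n := Fin 2) (R := F)).ker
  rw [Subgroup.index_ker, SpecialLinearGroup.toPGL_ker] at h1
  rw [mul_comm]
  exact h1

/-- the matrix `1 + b N` -/
theorem exists_unip {N : Matrix (Fin 2) (Fin 2) F} (hN : N * N = 0) (b : F) :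
    ∃ g : GL (Fin 2) F, mt g = 1 + b • N ∧ (mt g).det = 1 := by
  obtain ⟨hNt, hNd⟩ := nil_trace hN
  have hdet : (1 + b • N).det = 1 := by
    have h1 := det_form N 1 b
    rw [one_smul, hNt, hNd] at h1
    rw [h1]
    ring
  refine ⟨GeneralLinearGroup.mkOfDetNeZero (1 + b • N) (by rw [hdet]; exact one_ne_zero), rfl, hdet⟩

theorem unip_inj {N N' : Matrix (Fin 2) (Fin 2) F} (hN : N * N = 0) (hN' : N' * N' = 0) {g h : GL (Fin 2) F} (hg : mt g = 1 + N)
    (hh : mt h = 1 + N') (e : pm g = pm h) : N = N' := by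
  obtain ⟨hNt, hNd⟩ := nil_trace hN
  obtain ⟨hNt', hNd'⟩ := nil_trace hN'
  obtain ⟨c, hc, hch⟩ := pm_eq e
  rw [hg, hh] at hch
  have h1 := congrArg Matrix.det hch
  have h2 := det_form N 1 1
  have h3 := det_form N' 1 1
  rw [one_smul, one_smul, hNt, hNd] at h2
  rw [one_smul, one_smul, hNt', hNd'] at h3
  rw [Matrix.det_smul, h2, h3, Fintype.card_fin] at h1
  have h4 := congrArg Matrix.trace hch
  rw [Matrix.trace_add, Matrix.trace_smul, Matrix.trace_add, hNt, hNt', Matrix.trace_one, Fintype.card_fin, smul_eq_mul] at h4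
  have h5 : (c - 1) * (c + 1) = 0 := by linear_combination -h1
  have hc1 : c = 1 := by
    rcases mul_eq_zero.mp h5 with h6 | h6
    · exact sub_eq_zero.mp h6
    · have h7 : c = -1 := by linear_combination h6
      rw [h7] at h4
      have h8 : (2 : F) * 2 = 0 := by
        push_cast at h4
        linear_combination h4
      have h9 : (2 : F) = 0 := mul_self_eq_zero.mp h8
      linear_combination h6 - h9
  rw [hc1, one_smul] at hch
  exact add_left_cancel hch

section

variable [Finite F] {p : ℕ} [hp : Fact p.Prime] [CharP F p]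

/-- unipotent elements -/
theorem un_form {x : PGL(2, F)} (hx : x ≠ 1) (hu : UN p F CP x) :
    ∃ (g : GL (Fin 2) F) (N : Matrix (Fin 2) (Fin 2) F), pm g = x ∧ mt g = 1 + N ∧ N * N = 0 ∧ N ≠ 0 := by
  obtain ⟨g, rfl⟩ := ProjGenLinGroup.mk_surjective x
  obtain ⟨l, m, h1, h2⟩ := exists_eig (mt g)
  by_cases hlm : l = m
  · subst hlm
    obtain ⟨c, N, hgN, hN, h0, -, hdet⟩ := exists_nil (nonscal hx) h1 h2
    have hc : c ≠ 0 := by
      rintro rfl
      apply det_ne_zero' g
      rw [hdet]
      ring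
    obtain ⟨h, hh, -⟩ := exists_unip (N := N) hN c⁻¹
    refine ⟨h, c⁻¹ • N, ?_, hh, ?_, ?_⟩
    · have h3 : pm (g * h⁻¹) = 1 := by
        rw [pm_eq_one, isScal_iff]
        refine ⟨c, ?_⟩
        have h4 : mt g = c • mt h := by
          rw [hgN, hh, smul_add, smul_smul, mul_inv_cancel₀ hc, one_smul]
        show mt g * mt h⁻¹ = _
        rw [h4, smul_mul_assoc]
        have h5 : mt h * mt h⁻¹ = 1 := congrArg Units.val (mul_inv_cancel h)
        rw [h5]
      rw [map_mul, map_inv, mul_inv_eq_one] at h3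
      exact h3.symm
    · rw [smul_mul_assoc, mul_smul_comm, hN, smul_zero, smul_zero]
    · exact smul_ne_zero (inv_ne_zero hc) h0
  · exact absurd hu (fun hu => SS.not_un (pt_PGL p) hx (ss_of_ne hx h1 h2 hlm) hu)

theorem un_mem_PS {x : PGL(2, F)} (hx : x ≠ 1) (hu : UN p F CP x) : x ∈ PS F := by
  obtain ⟨g, N, rfl, hgN, hN, -⟩ := un_form hx hu
  obtain ⟨h, hh, hdet⟩ := exists_unip hN 1
  rw [one_smul] at hh
  have h1 : g = h := Units.ext (hgN.trans hh.symm)
  rw [h1]
  exact mem_PS.mpr ⟨h, hdet, rfl⟩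

/-- the order of a unipotent member -/
theorem card_unip {x : PGL(2, F)} (hx : x ≠ 1) (hu : UN p F CP x) : Nat.card (CP x) = Nat.card F := by
  obtain ⟨g, N, rfl, hgN, hN, h0⟩ := un_form hx hu
  have hex : ∀ b : F, ∃ h : GL (Fin 2) F, mt h = 1 + b • N ∧ (mt h).det = 1 := fun b => exists_unip hN b
  choose f hf hf2 using hex
  have hmem : ∀ b, pm (f b) ∈ CP (pm g) := by
    intro b
    rw [mem_CP, hf, hgN]
    simp only [mul_add, add_mul, mul_one, one_mul, smul_mul_assoc, mul_smul_comm, hN]
    simp only [smul_zero, add_zero]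
    abel
  refine (Nat.card_congr (Equiv.ofBijective (fun b => (⟨pm (f b), hmem b⟩ : CP (pm g))) ⟨?_, ?_⟩)).symm
  · intro b b' hb
    have h1 : pm (f b) = pm (f b') := congrArg Subtype.val hb
    have h2 := unip_inj (N := b • N) (N' := b' • N) (by rw [smul_mul_assoc, mul_smul_comm, hN, smul_zero, smul_zero])
      (by rw [smul_mul_assoc, mul_smul_comm, hN, smul_zero, smul_zero]) (hf b) (hf b') h1
    exact smul_left_injective _ h0 h2
  · rintro ⟨y, hy⟩
    obtain ⟨h, rfl⟩ := ProjGenLinGroup.mk_surjective y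
    have h1 := mem_CP.mp hy
    rw [hgN, mul_add, add_mul, mul_one, one_mul] at h1
    obtain ⟨a, b, hab⟩ := comm_form (nil_nonscal hN h0) (add_left_cancel h1)
    obtain ⟨hNt, hNd⟩ := nil_trace hN
    have ha : a ≠ 0 := by
      rintro rfl
      apply det_ne_zero' h
      rw [hab, det_form, hNt, hNd]
      ring
    refine ⟨a⁻¹ * b, Subtype.ext ?_⟩
    show pm (f (a⁻¹ * b)) = pm h
    have h3 : pm (h * (f (a⁻¹ * b))⁻¹) = 1 := by
      rw [pm_eq_one, isScal_iff]
      refine ⟨a, ?_⟩
      have h4 : mt h = a • mt (f (a⁻¹ * b)) := by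
        rw [hab, hf, smul_add, smul_smul, ← mul_assoc, mul_inv_cancel₀ ha, one_mul]
      show mt h * mt (f (a⁻¹ * b))⁻¹ = _
      rw [h4, smul_mul_assoc]
      have h5 : mt (f (a⁻¹ * b)) * mt (f (a⁻¹ * b))⁻¹ = 1 := congrArg Units.val (mul_inv_cancel (f (a⁻¹ * b)))
      rw [h5]
    rw [map_mul, map_inv, mul_inv_eq_one] at h3
    exact h3.symm

omit [Finite F] in
/-- the number of nilpotent matrices -/
theorem card_nil : Nat.card {N : Matrix (Fin 2) (Fin 2) F // N * N = 0} = Nat.card F ^ 2 := by
  classical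
  have e : {N : Matrix (Fin 2) (Fin 2) F // N * N = 0} ≃ F × F :=
    { toFun := fun N => if N.1 0 1 = 0 then (N.1 1 0, 0) else (N.1 0 0, N.1 0 1)
      invFun := fun a => ⟨if a.2 = 0 then !![0, 0; a.1, 0] else !![a.1, a.2; -(a.1 ^ 2 / a.2), -a.1], by
        by_cases h : a.2 = 0
        · rw [if_pos h]
          ext i j
          fin_cases i <;> fin_cases j <;> simp [Matrix.mul_apply, Fin.sum_univ_two]
        · rw [if_neg h]
          ext i j
          fin_cases i <;> fin_cases j <;> simp [Matrix.mul_apply, Fin.sum_univ_two] <;> field_simp <;> ring⟩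
      left_inv := by
        rintro ⟨N, hN⟩
        obtain ⟨h1, h2⟩ := nil_trace hN
        rw [Matrix.trace_fin_two] at h1
        rw [Matrix.det_fin_two] at h2
        apply Subtype.ext
        by_cases h : N 0 1 = 0
        · simp only [h, if_true]
          rw [h, zero_mul, sub_zero] at h2
          have h3 : N 1 1 = -N 0 0 := by linear_combination h1
          rw [h3] at h2
          have h4 : N 0 0 = 0 := mul_self_eq_zero.mp (by linear_combination -h2)
          ext i j
          fin_cases i <;> fin_cases j <;> simp [h, h4, h3]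
        · simp only [h, if_false]
          have h3 : N 1 1 = -N 0 0 := by linear_combination h1
          have h4 : N 1 0 = -(N 0 0 ^ 2 / N 0 1) := by
            field_simp
            rw [h3] at h2
            linear_combination -h2
          ext i j
          fin_cases i <;> fin_cases j <;> simp [h3, h4]
      right_inv := by
        rintro ⟨a, b⟩
        by_cases h : b = 0
        · simp [h]
        · simp [h] }
  rw [Nat.card_congr e, Nat.card_prod, pow_two]

end

end Pool.Agent.H32.HallD
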