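import Pool.Agent.H32.HallD.MatE

/-!
# HallD MatF: the orders of the tori of `PSL₂`
-/

set_option autoImplicit false

open Matrix
open scoped MatrixGroups

namespace Pool.Agent.H32.HallD

variable {F : Type} [Field F]

/-- the number of solutions of `a² + a b t + b² = 1` -/
noncomputable def nsol (F : Type) [Field F] (t : F) : ℕ := Nat.card {ab : F × F // ab.1 ^ 2 + ab.1 * ab.2 * t + ab.2 ^ 2 = 1}

theorem nsol_split [Finite F] {l m : F} (hlm : l ≠ m) (h : l * m = 1) : nsol F (l + m) = Nat.card F - 1 := by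
  have hd : l - m ≠ 0 := sub_ne_zero.mpr hlm
  rw [← Nat.card_units]
  refine (Nat.card_congr ?_).symm
  exact
    { toFun := fun s => ⟨(s - (s - (s : F)⁻¹) / (l - m) * l, (s - (s : F)⁻¹) / (l - m)), by
        have hs : (s : F) ≠ 0 := s.ne_zero
        have h1 : ((s : F) - (s - (s : F)⁻¹) / (l - m) * l) ^ 2 + ((s : F) - (s - (s : F)⁻¹) / (l - m) * l) * ((s - (s : F)⁻¹) / (l - m)) * (l + m) +
            ((s - (s : F)⁻¹) / (l - m)) ^ 2 = (((s : F) - (s - (s : F)⁻¹) / (l - m) * l) + (s - (s : F)⁻¹) / (l - m) * l) *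
            (((s : F) - (s - (s : F)⁻¹) / (l - m) * l) + (s - (s : F)⁻¹) / (l - m) * m) := by
          linear_combination (-((s - (s : F)⁻¹) / (l - m)) ^ 2) * h
        show ((s : F) - (s - (s : F)⁻¹) / (l - m) * l) ^ 2 + ((s : F) - (s - (s : F)⁻¹) / (l - m) * l) * ((s - (s : F)⁻¹) / (l - m)) * (l + m) +
            ((s - (s : F)⁻¹) / (l - m)) ^ 2 = 1
        rw [h1]
        have h2 : ((s : F) - (s - (s : F)⁻¹) / (l - m) * l) + (s - (s : F)⁻¹) / (l - m) * l = s := by ring
        have h3 : ((s : F) - (s - (s : F)⁻¹) / (l - m) * l) + (s - (s : F)⁻¹) / (l - m) * m = (s : F)⁻¹ := by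
          have h4 : (s - (s : F)⁻¹) / (l - m) * (l - m) = s - (s : F)⁻¹ := div_mul_cancel₀ _ hd
          linear_combination -h4
        rw [h2, h3, mul_inv_cancel₀ hs]⟩
      invFun := fun ab => Units.mk (ab.1.1 + ab.1.2 * l) (ab.1.1 + ab.1.2 * m) (by
        have h1 := ab.2
        linear_combination h1 + ab.1.2 ^ 2 * h) (by
        have h1 := ab.2
        linear_combination h1 + ab.1.2 ^ 2 * h)
      left_inv := by
        intro s
        apply Units.ext
        show ((s : F) - (s - (s : F)⁻¹) / (l - m) * l) + (s - (s : F)⁻¹) / (l - m) * l = s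
        ring
      right_inv := by
        rintro ⟨⟨a, b⟩, hab⟩
        have h1 : (Units.mk (a + b * l) (a + b * m) (by linear_combination hab + b ^ 2 * h) (by linear_combination hab + b ^ 2 * h) : Fˣ)⁻¹ =
            Units.mk (a + b * m) (a + b * l) (by linear_combination hab + b ^ 2 * h) (by linear_combination hab + b ^ 2 * h) := rfl
        have h2 : (a + b * l)⁻¹ = a + b * m := inv_eq_of_mul_eq_one_right (by linear_combination hab + b ^ 2 * h)
        apply Subtype.ext
        show ((a + b * l) - ((a + b * l) - (a + b * l)⁻¹) / (l - m) * l, ((a + b * l) - (a + b * l)⁻¹) / (l - m)) = (a, b)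
        rw [h2]
        have h3 : ((a + b * l) - (a + b * m)) / (l - m) = b := by
          rw [div_eq_iff hd]
          ring
        rw [h3]
        ext
        · show a + b * l - b * l = a
          ring
        · rfl }

/-- at most two solutions for every `b` -/
theorem nsol_le [Finite F] (t : F) : nsol F t ≤ 2 * Nat.card F := by
  classical
  have h1 : ∀ b : F, ∃ c : F, ∀ a : F, a ^ 2 + a * b * t + b ^ 2 = 1 → a = c ∨ a = -c - b * t := by
    intro b
    by_cases h : ∃ c : F, c ^ 2 + c * b * t + b ^ 2 = 1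
    · obtain ⟨c, hc⟩ := h
      refine ⟨c, fun a ha => ?_⟩
      have h2 : (a - c) * (a + c + b * t) = 0 := by linear_combination ha - hc
      rcases mul_eq_zero.mp h2 with h3 | h3
      · left; exact sub_eq_zero.mp h3
      · right; linear_combination h3
    · push Not at h
      exact ⟨0, fun a ha => absurd ha (h a)⟩
  choose c hc using h1
  have h2 : Nat.card (Bool × F) = 2 * Nat.card F := by rw [Nat.card_prod]; simp
  rw [← h2]
  refine Nat.card_le_card_of_injective (fun ab : {ab : F × F // ab.1 ^ 2 + ab.1 * ab.2 * t + ab.2 ^ 2 = 1} =>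
    (decide (ab.1.1 = c ab.1.2), ab.1.2)) ?_
  rintro ⟨⟨a, b⟩, hab⟩ ⟨⟨a', b'⟩, hab'⟩ h3
  simp only [Prod.mk.injEq, decide_eq_decide] at h3
  obtain ⟨h4, rfl⟩ := h3
  have h5 := hc b a hab
  have h6 := hc b a' hab'
  have h7 : a = a' := by
    by_cases h8 : a = c b
    · rw [h8, h4.mp h8]
    · have h9 : a' ≠ c b := fun h10 => h8 (h4.mpr h10)
      rw [h5.resolve_left h8, h6.resolve_left h9]
  exact Subtype.ext (Prod.ext h7 rfl)

/-- no root in `F` -/
theorem nsol_nonsplit [Finite F] {t : F} (hr : ∀ l : F, l ^ 2 - t * l + 1 ≠ 0) : nsol F t = Nat.card F + 1 := by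
  classical
  haveI : Fintype F := Fintype.ofFinite F
  -- a matrix with the given trace and determinant `1`
  set B : Matrix (Fin 2) (Fin 2) F := !![0, -1; 1, t] with hBdef
  have hBt : B.trace = t := by simp [hBdef, Matrix.trace_fin_two]
  have hBd : B.det = 1 := by simp [hBdef, Matrix.det_fin_two]
  have hBs : ¬ IsScal B := by
    rintro ⟨-, h2, -⟩
    simp [hBdef] at h2
  let g : GL (Fin 2) F := GeneralLinearGroup.mkOfDetNeZero B (by rw [hBd]; exact one_ne_zero)
  have hg : mt g = B := rfl
  set Z := Subgroup.centralizer {g} with hZ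
  have hform : ∀ h : Z, ∃ ab : F × F, mt (h : GL (Fin 2) F) = ab.1 • (1 : Matrix (Fin 2) (Fin 2) F) + ab.2 • B := by
    intro h
    have h3 := (Subgroup.mem_centralizer_singleton_iff).mp h.2
    obtain ⟨a, b, hab⟩ := comm_form hBs (hg ▸ mt_commute.mp h3)
    exact ⟨(a, b), hab⟩
  have hdet : ∀ a b : F, (a • (1 : Matrix (Fin 2) (Fin 2) F) + b • B).det = a ^ 2 + a * b * t + b ^ 2 := by
    intro a b
    rw [det_form, hBt, hBd]
    ring
  have hne : ∀ a b : F, (a, b) ≠ 0 → a ^ 2 + a * b * t + b ^ 2 ≠ 0 := by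
    intro a b hab h
    by_cases hb : b = 0
    · rw [hb] at h
      have h2 : a = 0 := by
        have h3 : a ^ 2 = 0 := by linear_combination h
        exact pow_eq_zero_iff (two_ne_zero) |>.mp h3
      exact hab (by rw [h2, hb]; rfl)
    · apply hr (-(a / b))
      field_simp
      linear_combination h
  -- the order of `Z`
  choose co hco using hform
  have hcard : Nat.card Z = Nat.card F ^ 2 - 1 := by
    have e : Z ≃ {ab : F × F // ab ≠ 0} :=
      Equiv.ofBijective (fun h => ⟨co h, by
        intro h2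
        have h3 := hco h
        rw [h2] at h3
        apply det_ne_zero' (h : GL (Fin 2) F)
        rw [h3, hdet]
        simp⟩) ⟨by
        intro h k hk
        have h2 : co h = co k := congrArg Subtype.val hk
        apply Subtype.ext
        apply Units.ext
        show mt (h : GL (Fin 2) F) = mt (k : GL (Fin 2) F)
        rw [hco h, hco k, h2], by
        rintro ⟨⟨a, b⟩, hab⟩
        have h2 : (a • (1 : Matrix (Fin 2) (Fin 2) F) + b • B).det ≠ 0 := by
          rw [hdet]
          exact hne a b hab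
        let k : GL (Fin 2) F := GeneralLinearGroup.mkOfDetNeZero _ h2
        have hk : mt k = a • (1 : Matrix (Fin 2) (Fin 2) F) + b • B := rfl
        have hkZ : k ∈ Z := by
          rw [hZ, Subgroup.mem_centralizer_singleton_iff, mt_commute, hk, hg]
          rw [add_mul, mul_add, smul_mul_assoc, smul_mul_assoc, mul_smul_comm, mul_smul_comm, one_mul, mul_one]
        refine ⟨⟨k, hkZ⟩, Subtype.ext ?_⟩
        have h3 := hco ⟨k, hkZ⟩
        have h4 := form_unique hBs (h3.symm.trans hk)
        exact Prod.ext h4.1 h4.2⟩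
    rw [Nat.card_congr e, Nat.card_eq_fintype_card, Fintype.card_subtype_compl]
    simp [pow_two]
  -- the determinant
  let δ : Z →* Fˣ := GeneralLinearGroup.det.comp Z.subtype
  have hδ : ∀ h : Z, (δ h : F) = (mt (h : GL (Fin 2) F)).det := fun h => rfl
  have hker : Nat.card δ.ker = nsol F t := by
    refine Nat.card_congr (Equiv.ofBijective (fun h : δ.ker => (⟨co h.1, by
      have h2 : (δ h.1 : F) = 1 := by rw [MonoidHom.mem_ker.mp h.2]; rfl
      rw [hδ, hco, hdet] at h2
      exact h2⟩ : {ab : F × F // ab.1 ^ 2 + ab.1 * ab.2 * t + ab.2 ^ 2 = 1})) ⟨?_, ?_⟩)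
    · intro h k hk
      have h2 : co h.1 = co k.1 := congrArg Subtype.val hk
      apply Subtype.ext
      apply Subtype.ext
      apply Units.ext
      show mt (h.1 : GL (Fin 2) F) = mt (k.1 : GL (Fin 2) F)
      rw [hco h.1, hco k.1, h2]
    · rintro ⟨⟨a, b⟩, hab⟩
      simp only at hab
      have h2 : (a • (1 : Matrix (Fin 2) (Fin 2) F) + b • B).det ≠ 0 := by
        rw [hdet, hab]
        exact one_ne_zero
      let k : GL (Fin 2) F := GeneralLinearGroup.mkOfDetNeZero _ h2
      have hk : mt k = a • (1 : Matrix (Fin 2) (Fin 2) F) + b • B := rfl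
      have hkZ : k ∈ Z := by
        rw [hZ, Subgroup.mem_centralizer_singleton_iff, mt_commute, hk, hg]
        rw [add_mul, mul_add, smul_mul_assoc, smul_mul_assoc, mul_smul_comm, mul_smul_comm, one_mul, mul_one]
      have hkker : (⟨k, hkZ⟩ : Z) ∈ δ.ker := by
        rw [MonoidHom.mem_ker]
        apply Units.ext
        rw [hδ]
        show (mt k).det = 1
        rw [hk, hdet, hab]
      refine ⟨⟨⟨k, hkZ⟩, hkker⟩, Subtype.ext ?_⟩
      have h3 := hco ⟨k, hkZ⟩
      have h4 := form_unique hBs (h3.symm.trans hk)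
      exact Prod.ext h4.1 h4.2
  have h1 := Subgroup.card_mul_index δ.ker
  rw [hker, Subgroup.index_ker, hcard] at h1
  obtain ⟨j, hj⟩ : Nat.card δ.range ∣ Nat.card Fˣ := Subgroup.card_subgroup_dvd_card _
  rw [Nat.card_units] at hj
  have hq : 1 < Nat.card F := Finite.one_lt_card
  obtain ⟨r, hr2⟩ : ∃ r, Nat.card F = r + 2 := ⟨Nat.card F - 2, by omega⟩
  have h2 := nsol_le (F := F) t
  rw [hr2] at h1 h2 hj ⊢
  have h3 : (r + 2) ^ 2 - 1 = (r + 1) * (r + 3) := by
    have : (r + 2) ^ 2 = (r + 1) * (r + 3) + 1 := by ring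
    omega
  have h4 : r + 2 - 1 = r + 1 := by omega
  rw [h3] at h1
  rw [h4] at hj
  have hrange : 0 < Nat.card δ.range := Nat.card_pos
  have h5 : nsol F t = j * (r + 3) := by
    have h6 : Nat.card δ.range * nsol F t = Nat.card δ.range * (j * (r + 3)) := by
      rw [mul_comm, h1, hj]
      ring
    exact Nat.eq_of_mul_eq_mul_left hrange h6
  rw [h5] at h2 ⊢
  have hj0 : j ≠ 0 := by
    rintro rfl
    rw [mul_zero] at hj
    omega
  have hj1 : j < 2 := by
    by_contra hc
    have h6 : 2 * (r + 3) ≤ j * (r + 3) := Nat.mul_le_mul_right _ (by omega)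
    omega
  have hj2 : j = 1 := by omega
  rw [hj2]
  ring

/-- the order of a torus of `PSL₂` -/
theorem card_tor [Finite F] {p : ℕ} [hp : Fact p.Prime] [CharP F p] {x : PS F} (hx : x ≠ 1) (hs : SS p (res CP (PS F)) x) :
    Nat.card (res CP (PS F) x) * Nat.card (Subgroup.center (SpecialLinearGroup (Fin 2) F)) = Nat.card F - 1 ∨
      Nat.card (res CP (PS F) x) * Nat.card (Subgroup.center (SpecialLinearGroup (Fin 2) F)) = Nat.card F + 1 := by
  obtain ⟨x, ⟨g, rfl⟩⟩ := x
  have hg : pm (SpecialLinearGroup.toGL g) ≠ 1 := fun h => hx (Subtype.ext h)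
  have hB := nonscal hg
  set B : Matrix (Fin 2) (Fin 2) F := mt (SpecialLinearGroup.toGL g) with hBdef
  have hdet1 : B.det = 1 := g.2
  set Z := Subgroup.centralizer ({g} : Set (SpecialLinearGroup (Fin 2) F)) with hZ
  have hZmem : ∀ h : SpecialLinearGroup (Fin 2) F, h ∈ Z ↔ (h : Matrix (Fin 2) (Fin 2) F) * B = B * h := by
    intro h
    rw [hZ, Subgroup.mem_centralizer_singleton_iff]
    constructor
    · intro h2
      exact congrArg Subtype.val h2
    · intro h2
      exact Subtype.ext h2
  -- the order of `Z`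
  have hcardZ : Nat.card Z = nsol F B.trace := by
    have hform : ∀ h : Z, ∃ ab : F × F, ((h : SpecialLinearGroup (Fin 2) F) : Matrix (Fin 2) (Fin 2) F) = ab.1 • (1 : Matrix (Fin 2) (Fin 2) F) + ab.2 • B := by
      intro h
      obtain ⟨a, b, hab⟩ := comm_form hB ((hZmem _).mp h.2)
      exact ⟨(a, b), hab⟩
    choose co hco using hform
    have hdet : ∀ a b : F, (a • (1 : Matrix (Fin 2) (Fin 2) F) + b • B).det = a ^ 2 + a * b * B.trace + b ^ 2 := by
      intro a b
      rw [det_form, hdet1]
      ring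
    refine Nat.card_congr (Equiv.ofBijective (fun h : Z => (⟨co h, by
      have h2 := (h : SpecialLinearGroup (Fin 2) F).2
      rw [hco h, hdet] at h2
      exact h2⟩ : {ab : F × F // ab.1 ^ 2 + ab.1 * ab.2 * B.trace + ab.2 ^ 2 = 1})) ⟨?_, ?_⟩)
    · intro h k hk
      have h2 : co h = co k := congrArg Subtype.val hk
      apply Subtype.ext
      apply Subtype.ext
      rw [hco h, hco k, h2]
    · rintro ⟨⟨a, b⟩, hab⟩
      simp only at hab
      have h2 : (a • (1 : Matrix (Fin 2) (Fin 2) F) + b • B).det = 1 := by rw [hdet, hab]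
      let k : SpecialLinearGroup (Fin 2) F := ⟨_, h2⟩
      have hk : (k : Matrix (Fin 2) (Fin 2) F) = a • (1 : Matrix (Fin 2) (Fin 2) F) + b • B := rfl
      have hkZ : k ∈ Z := by
        rw [hZmem, hk]
        rw [add_mul, mul_add, smul_mul_assoc, smul_mul_assoc, mul_smul_comm, mul_smul_comm, one_mul, mul_one]
      refine ⟨⟨k, hkZ⟩, Subtype.ext ?_⟩
      have h3 := hco ⟨k, hkZ⟩
      have h4 := form_unique hB (h3.symm.trans hk)
      exact Prod.ext h4.1 h4.2
  -- the map to the torus
  have hcard : Nat.card (res CP (PS F) ⟨SpecialLinearGroup.toPGL g, ⟨g, rfl⟩⟩) * Nat.card (Subgroup.center (SpecialLinearGroup (Fin 2) F)) = Nat.card Z := by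
    let f : Z →* PS F := (SpecialLinearGroup.toPGL (n := Fin 2) (R := F)).rangeRestrict.comp Z.subtype
    have hrange : f.range = res CP (PS F) ⟨SpecialLinearGroup.toPGL g, ⟨g, rfl⟩⟩ := by
      ext y
      constructor
      · rintro ⟨h, rfl⟩
        rw [mem_res]
        show pm (SpecialLinearGroup.toGL (h : SpecialLinearGroup (Fin 2) F)) ∈ CP (pm (SpecialLinearGroup.toGL g))
        rw [mem_CP]
        exact (hZmem _).mp h.2
      · intro hy
        obtain ⟨y, ⟨k, rfl⟩⟩ := y
        rw [mem_res] at hy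
        have h2 : pm (SpecialLinearGroup.toGL k) ∈ CP (pm (SpecialLinearGroup.toGL g)) := hy
        rw [mem_CP] at h2
        exact ⟨⟨k, (hZmem k).mpr h2⟩, rfl⟩
    have hker : Nat.card f.ker = Nat.card (Subgroup.center (SpecialLinearGroup (Fin 2) F)) := by
      have h2 : f.ker = (Subgroup.center (SpecialLinearGroup (Fin 2) F)).subgroupOf Z := by
        ext h
        rw [MonoidHom.mem_ker, Subgroup.mem_subgroupOf, ← SpecialLinearGroup.toPGL_ker, MonoidHom.mem_ker]
        exact ⟨fun h3 => congrArg Subtype.val h3, fun h3 => Subtype.ext h3⟩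
      rw [h2]
      exact Nat.card_congr (Subgroup.subgroupOfEquivOfLe (Subgroup.center_le_centralizer _)).toEquiv
    have h1 := Subgroup.card_mul_index f.ker
    rw [Subgroup.index_ker, hrange, hker] at h1
    rw [mul_comm]
    exact h1
  rw [hcard, hcardZ]
  by_cases hroot : ∃ l : F, l ^ 2 - B.trace * l + 1 = 0
  · left
    obtain ⟨l, hl⟩ := hroot
    have h1 : l + (B.trace - l) = B.trace := by ring
    have h2 : l * (B.trace - l) = 1 := by linear_combination -hl
    have hne : l ≠ B.trace - l := by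
      intro h3
      have h4 : l + l = algebraMap F F B.trace := by
        show l + l = B.trace
        linear_combination h3
      have h5 : l * l = algebraMap F F B.det := by
        show l * l = B.det
        rw [hdet1, ← h2, ← h3]
      obtain ⟨c, N, hgN, hN, h0, -, -⟩ := exists_nil hB h4 h5
      have hu : UN p F CP (pm (SpecialLinearGroup.toGL g)) := un_of_nil hgN hN h0
      obtain ⟨k, hk⟩ := hu.pgp ⟨pm (SpecialLinearGroup.toGL g), CP_mem _⟩
      have h6 : (pm (SpecialLinearGroup.toGL g)) ^ p ^ k = 1 := congrArg Subtype.val hk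
      have h7 : (⟨SpecialLinearGroup.toPGL g, ⟨g, rfl⟩⟩ : PS F) ^ p ^ k = 1 := Subtype.ext h6
      have h8 := hs.ord _ (((pt_PGL p).res (PS F)).mem _)
      have h9 := Nat.Coprime.eq_one_of_dvd (Nat.Coprime.pow_right k h8) (orderOf_dvd_of_pow_eq_one h7)
      exact hx (orderOf_eq_one_iff.mp h9)
    have h6 := nsol_split hne h2
    rw [h1] at h6
    exact h6
  · right
    push Not at hroot
    exact nsol_nonsplit hroot

end Pool.Agent.H32.HallD
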