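import Pool.Agent.H32.HallD.MatF
import Pool.Agent.H32.HallD.Her

/-!
# HallD MatG: counting in `PSL₂`
-/

set_option autoImplicit false

open Matrix
open scoped MatrixGroups

namespace Pool.Agent.H32.HallD

variable {F : Type} [Field F] [Finite F] {p : ℕ} [hp : Fact p.Prime] [CharP F p]

/-- the partition of `PSL₂` -/
noncomputable abbrev C2 (F : Type) [Field F] : PS F → Subgroup (PS F) := res CP (PS F)

theorem pt_PS (p : ℕ) [Fact p.Prime] [CharP F p] : Pt p F (C2 F) := (pt_PGL p).res (PS F)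

theorem un_res {x : PS F} (hx : x ≠ 1) (hu : UN p F CP (x : PGL(2, F))) : UN p F (C2 F) x := by
  have hx' : (x : PGL(2, F)) ≠ 1 := by simpa using hx
  refine ((pt_PS p).type x hx).resolve_left fun hs => ?_
  obtain ⟨k, hk⟩ := hu.pgp ⟨x, CP_mem _⟩
  have h3 : (x : PGL(2, F)) ^ p ^ k = 1 := congrArg Subtype.val hk
  have h5 : x ^ p ^ k = 1 := Subtype.ext h3
  have h4 := hs.ord x ((pt_PS p).mem x)
  have h7 := Nat.Coprime.eq_one_of_dvd (Nat.Coprime.pow_right k h4) (orderOf_dvd_of_pow_eq_one h5)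
  exact hx (orderOf_eq_one_iff.mp h7)

theorem un_of_mem {x y : PGL(2, F)} (hx : x ≠ 1) (hu : UN p F CP x) (hy : y ≠ 1) (hyx : y ∈ CP x) : UN p F CP y := by
  refine ((pt_PGL p).type y hy).resolve_left fun hs => ?_
  obtain ⟨k, hk⟩ := hu.pgp ⟨y, hyx⟩
  have h3 : y ^ p ^ k = 1 := congrArg Subtype.val hk
  have h4 := hs.ord y (CP_mem y)
  have h7 := Nat.Coprime.eq_one_of_dvd (Nat.Coprime.pow_right k h4) (orderOf_dvd_of_pow_eq_one h3)
  exact hy (orderOf_eq_one_iff.mp h7)

/-- the order of the unipotent members -/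
theorem card_C2_un {x : PS F} (hx : x ≠ 1) (hu : UN p F (C2 F) x) : Nat.card (C2 F x) = Nat.card F := by
  have hx' : (x : PGL(2, F)) ≠ 1 := by simpa using hx
  have hu' := un_of_res (pt_PGL p) hx hu
  rw [← card_unip hx' hu']
  have hle : CP (x : PGL(2, F)) ≤ PS F := by
    intro y hy
    by_cases hy1 : y = 1
    · rw [hy1]; exact (PS F).one_mem
    · exact un_mem_PS hy1 (un_of_mem hx' hu' hy1 hy)
  exact Nat.card_congr (Subgroup.subgroupOfEquivOfLe hle).toEquiv

/-- there is a unipotent element -/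
theorem exists_un : ∃ x : PS F, x ≠ 1 ∧ UN p F (C2 F) x := by
  have hN : (!![0, 1; 0, 0] : Matrix (Fin 2) (Fin 2) F) * !![0, 1; 0, 0] = 0 := by
    ext i j
    fin_cases i <;> fin_cases j <;> simp
  have h0 : (!![0, 1; 0, 0] : Matrix (Fin 2) (Fin 2) F) ≠ 0 := by
    intro h
    have := congrFun (congrFun h 0) 1
    simp at this
  obtain ⟨g, hg, hdet⟩ := exists_unip hN 1
  rw [one_smul] at hg
  have hx : pm g ≠ 1 := by
    intro h
    obtain ⟨c, hc⟩ := isScal_iff.mp (pm_eq_one.mp h)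
    rw [hg] at hc
    have := congrFun (congrFun hc 0) 1
    simp at this
  have hu : UN p F CP (pm g) := un_of_nil (c := 1) (by rw [one_smul]; exact hg) hN h0
  refine ⟨⟨pm g, mem_PS.mpr ⟨g, hdet, rfl⟩⟩, fun h => hx (congrArg Subtype.val h), un_res (fun h => hx (congrArg Subtype.val h)) hu⟩

/-- the number of unipotent elements -/
theorem card_cls_un {u : PS F} (hu1 : u ≠ 1) (hu : UN p F (C2 F) u) : Nat.card (cls (C2 F) u) + 1 = Nat.card F ^ 2 := by
  classical
  have h1 : ∀ y : PS F, y ∈ cls (C2 F) u ↔ y ≠ 1 ∧ UN p F CP (y : PGL(2, F)) := by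
    intro y
    constructor
    · rintro ⟨hy, g, hg⟩
      refine ⟨hy, un_of_res (pt_PGL p) hy ?_⟩
      refine ((pt_PS p).type y hy).resolve_left fun hs => ?_
      have h2 : IsPGroup p (C2 F y) := by
        rw [hg]
        exact hu.pgp.map _
      obtain ⟨k, hk⟩ := h2 ⟨y, (pt_PS p).mem y⟩
      have h3 : y ^ p ^ k = 1 := congrArg Subtype.val hk
      have h7 := Nat.Coprime.eq_one_of_dvd (Nat.Coprime.pow_right k (hs.ord y ((pt_PS p).mem y))) (orderOf_dvd_of_pow_eq_one h3)
      exact hy (orderOf_eq_one_iff.mp h7)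
    · rintro ⟨hy, hv⟩
      exact hu.conj (pt_PS p) hu1 hy (un_res hy hv)
  have hex : ∀ N : {N : Matrix (Fin 2) (Fin 2) F // N * N = 0}, ∃ g : GL (Fin 2) F, mt g = 1 + N.1 ∧ (mt g).det = 1 := by
    intro N
    obtain ⟨g, hg, hd⟩ := exists_unip N.2 1
    rw [one_smul] at hg
    exact ⟨g, hg, hd⟩
  choose f hf hf2 using hex
  have hinj : Function.Injective (fun N => pm (f N)) := by
    intro N N' h
    exact Subtype.ext (unip_inj N.2 N'.2 (hf N) (hf N') h)
  have hzero : pm (f ⟨0, by simp⟩) = 1 := by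
    rw [pm_eq_one, isScal_iff]
    exact ⟨1, by rw [hf, one_smul, add_zero]⟩
  have h2 : Nat.card {N : Matrix (Fin 2) (Fin 2) F // N * N = 0} = Nat.card (insert (1 : PS F) (cls (C2 F) u) : Set (PS F)) := by
    refine Nat.card_congr (Equiv.ofBijective (fun N => ⟨⟨pm (f N), mem_PS.mpr ⟨f N, hf2 N, rfl⟩⟩, ?_⟩) ⟨?_, ?_⟩)
    · by_cases hN : N.1 = 0
      · left
        have h3 : N = ⟨0, by simp⟩ := Subtype.ext hN
        apply Subtype.ext
        show pm (f N) = 1
        rw [h3, hzero]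
      · right
        rw [h1]
        have h3 : pm (f N) ≠ 1 := by
          intro h4
          have h5 : pm (f N) = pm (f ⟨0, by simp⟩) := by rw [h4, hzero]
          exact hN (congrArg Subtype.val (hinj h5))
        exact ⟨fun h4 => h3 (congrArg Subtype.val h4), un_of_nil (c := 1) (by rw [one_smul]; exact hf N) N.2 hN⟩
    · intro N N' h
      exact hinj (congrArg (fun z : (insert (1 : PS F) (cls (C2 F) u) : Set (PS F)) => ((z : PS F) : PGL(2, F))) h)
    · rintro ⟨y, hy⟩
      rcases hy with hy | hy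
      · refine ⟨⟨0, by simp⟩, ?_⟩
        apply Subtype.ext
        apply Subtype.ext
        show pm (f _) = ((y : PS F) : PGL(2, F))
        rw [hzero, hy]
        rfl
      · obtain ⟨hy1, hv⟩ := (h1 y).mp hy
        have hy' : (y : PGL(2, F)) ≠ 1 := by simpa using hy1
        obtain ⟨g, N, hgy, hgN, hN, -⟩ := un_form hy' hv
        refine ⟨⟨N, hN⟩, ?_⟩
        apply Subtype.ext
        apply Subtype.ext
        show pm (f _) = (y : PGL(2, F))
        rw [← hgy]
        congr 1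
        apply Units.ext
        exact (hf ⟨N, hN⟩).trans hgN.symm
  have h3 : Nat.card (insert (1 : PS F) (cls (C2 F) u) : Set (PS F)) = Nat.card (cls (C2 F) u) + 1 := by
    rw [Nat.card_coe_set_eq, Nat.card_coe_set_eq]
    exact Set.ncard_insert_of_notMem (fun h => h.1 rfl) (Set.toFinite _)
  rw [← h3, ← h2, card_nil]

end Pool.Agent.H32.HallD
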