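import Pool.Agent.H32.HallD.MatG

/-!
# HallD MatH: the tori of `PSL₂`
-/

set_option autoImplicit false

open Matrix
open scoped MatrixGroups

namespace Pool.Agent.H32.HallD

variable {F : Type} [Field F] [Finite F] {p : ℕ} [hp : Fact p.Prime] [CharP F p]

/-- `e`, the order of the centre of `SL₂` -/
noncomputable abbrev eZ (F : Type) [Field F] : ℕ := Nat.card (Subgroup.center (SpecialLinearGroup (Fin 2) F))

omit [Finite F] in
theorem eZ_cases : eZ F = 1 ∨ eZ F = 2 := by
  by_cases h : (2 : F) = 0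
  · left
    exact card_center_even h
  · right
    exact card_center_odd h

theorem card_large (hq : 4 ≤ Nat.card F) : Nat.card F ^ 2 + 3 * Nat.card F < Nat.card (PS F) := by
  have h1 := card_PS (F := F)
  obtain ⟨r, hr⟩ : ∃ r, Nat.card F = r + 4 := ⟨Nat.card F - 4, by omega⟩
  have h2 : Nat.card F ^ 2 - 1 = (r + 3) * (r + 5) := by
    rw [hr]
    have : (r + 4) ^ 2 = (r + 3) * (r + 5) + 1 := by ring
    omega
  rw [h2] at h1
  rw [hr] at h1 ⊢
  have h3 : Nat.card (PS F) * eZ F ≤ 2 * Nat.card (PS F) := by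
    rcases eZ_cases (F := F) with h | h <;> rw [h] <;> omega
  have h4 : (r + 4) * ((r + 3) * (r + 5)) ≤ 2 * Nat.card (PS F) := by
    rw [← h1]
    exact h3
  nlinarith [h4]

/-- the number of elements of the class of a torus -/
theorem tsize {x : PS F} (hx : x ≠ 1) (hs : SS p (C2 F) x) :
    (Nat.card (C2 F x) * eZ F = Nat.card F - 1 ∧
      (Nat.card (cls (C2 F) x) + (Nat.card F ^ 2 + Nat.card F) = Nat.card (PS F) ∨
        2 * Nat.card (cls (C2 F) x) + (Nat.card F ^ 2 + Nat.card F) = Nat.card (PS F))) ∨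
    (Nat.card (C2 F x) * eZ F = Nat.card F + 1 ∧
      (Nat.card (cls (C2 F) x) + Nat.card F ^ 2 = Nat.card (PS F) + Nat.card F ∨
        2 * Nat.card (cls (C2 F) x) + Nat.card F ^ 2 = Nat.card (PS F) + Nat.card F)) := by
  have h1 := card_PS (F := F)
  have hq : 1 < Nat.card F := Finite.one_lt_card
  obtain ⟨r, hr⟩ : ∃ r, Nat.card F = r + 1 := ⟨Nat.card F - 1, by omega⟩
  have h2 : Nat.card F ^ 2 - 1 = r * (r + 2) := by
    rw [hr]
    have : (r + 1) ^ 2 = r * (r + 2) + 1 := by ring
    omega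
  rw [h2, hr] at h1
  have he : 0 < eZ F := Nat.card_pos
  have hsz := SS.size (pt_PS p) hx hs
  rcases card_tor hx hs with h3 | h3
  · left
    refine ⟨h3, ?_⟩
    have h3' : Nat.card (C2 F x) * eZ F = r := by
      have h4 : Nat.card (C2 F x) * eZ F = Nat.card F - 1 := h3
      rw [h4, hr]
      rfl
    have hn : Nat.card (PS F) = Nat.card (C2 F x) * ((r + 1) * (r + 2)) := by
      have h5 : Nat.card (PS F) * eZ F = Nat.card (C2 F x) * ((r + 1) * (r + 2)) * eZ F := by
        rw [h1]
        nth_rw 2 [← h3']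
        ring
      exact Nat.eq_of_mul_eq_mul_right he h5
    have hc0 : 0 < Nat.card (C2 F x) := Nat.card_pos
    rcases hsz with ⟨b, hb1, hb2⟩ | ⟨b, hb1, hb2⟩
    · left
      have h6 : b = (r + 1) * (r + 2) := Nat.eq_of_mul_eq_mul_left hc0 (by rw [← hb1, hn])
      rw [hr]
      have h7 : (r + 1) ^ 2 + (r + 1) = (r + 1) * (r + 2) := by ring
      rw [h7, ← h6]
      exact hb2
    · right
      have h6 : 2 * b = (r + 1) * (r + 2) := by
        apply Nat.eq_of_mul_eq_mul_left hc0
        rw [← hn, hb1]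
        ring
      rw [hr]
      have h7 : (r + 1) ^ 2 + (r + 1) = (r + 1) * (r + 2) := by ring
      rw [h7, ← h6]
      exact hb2
  · right
    refine ⟨h3, ?_⟩
    have h3' : Nat.card (C2 F x) * eZ F = r + 2 := by
      have h4 : Nat.card (C2 F x) * eZ F = Nat.card F + 1 := h3
      rw [h4, hr]
    have hn : Nat.card (PS F) = Nat.card (C2 F x) * ((r + 1) * r) := by
      have h5 : Nat.card (PS F) * eZ F = Nat.card (C2 F x) * ((r + 1) * r) * eZ F := by
        rw [h1, ← h3']
        ring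
      exact Nat.eq_of_mul_eq_mul_right he h5
    have hc0 : 0 < Nat.card (C2 F x) := Nat.card_pos
    rcases hsz with ⟨b, hb1, hb2⟩ | ⟨b, hb1, hb2⟩
    · left
      have h6 : b = (r + 1) * r := Nat.eq_of_mul_eq_mul_left hc0 (by rw [← hb1, hn])
      rw [hr]
      have h7 : (r + 1) ^ 2 = (r + 1) * r + (r + 1) := by ring
      rw [h7, ← h6, ← add_assoc, hb2]
    · right
      have h6 : 2 * b = (r + 1) * r := by
        apply Nat.eq_of_mul_eq_mul_left hc0
        rw [← hn, hb1]
        ring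
      rw [hr]
      have h7 : (r + 1) ^ 2 = (r + 1) * r + (r + 1) := by ring
      rw [h7, ← h6, ← add_assoc, hb2]

theorem not_mem_cls_un {u y : PS F} (hu : UN p F (C2 F) u) (hy : y ≠ 1) (hs : SS p (C2 F) y) : y ∉ cls (C2 F) u := by
  rintro ⟨-, g, hg⟩
  have h2 : IsPGroup p (C2 F y) := by
    rw [hg]
    exact hu.pgp.map _
  obtain ⟨k, hk⟩ := h2 ⟨y, (pt_PS p).mem y⟩
  have h3 : y ^ p ^ k = 1 := congrArg Subtype.val hk
  have h7 := Nat.Coprime.eq_one_of_dvd (Nat.Coprime.pow_right k (hs.ord y ((pt_PS p).mem y))) (orderOf_dvd_of_pow_eq_one h3)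
  exact hy (orderOf_eq_one_iff.mp h7)

/-- there is a torus of order `(q - 1) / e` -/
theorem exists_split (hq : 4 ≤ Nat.card F) : ∃ x : PS F, x ≠ 1 ∧ SS p (C2 F) x ∧ Nat.card (C2 F x) * eZ F = Nat.card F - 1 := by
  by_contra hcon
  push Not at hcon
  obtain ⟨u, hu1, hu⟩ := exists_un (F := F) (p := p)
  have hU := card_cls_un hu1 hu
  have hL := card_large (F := F) hq
  by_cases hx : ∃ x : PS F, x ≠ 1 ∧ SS p (C2 F) x
  · obtain ⟨x, hx1, hx⟩ := hx
    have hxu := not_mem_cls_un hu hx1 hx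
    have hT := tsize hx1 hx
    have hn := hcon x hx1 hx
    have h2 := card_cls_two hx1 hxu
    by_cases hy : ∃ y : PS F, y ≠ 1 ∧ SS p (C2 F) y ∧ y ∉ cls (C2 F) x
    · obtain ⟨y, hy1, hy, hyx⟩ := hy
      have hyu := not_mem_cls_un hu hy1 hy
      have hT' := tsize hy1 hy
      have hn' := hcon y hy1 hy
      have h3 := card_cls_three hx1 hy1 hxu hyu hyx
      rcases hT with ⟨h4, -⟩ | ⟨-, h4⟩
      · exact hn h4
      rcases hT' with ⟨h5, -⟩ | ⟨-, h5⟩
      · exact hn' h5
      omega
    · push Not at hy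
      have h3 := card_cls_eq_two hx1 hxu (by
        intro w hw
        rcases (pt_PS p).type w hw with h | h
        · exact Or.inr (hy w hw h)
        · exact Or.inl (hu.conj (pt_PS p) hu1 hw h))
      rcases hT with ⟨h4, -⟩ | ⟨-, h4⟩
      · exact hn h4
      omega
  · push Not at hx
    have h3 := card_cls_eq_one (x := u) (by
      intro w hw
      rcases (pt_PS p).type w hw with h | h
      · exact absurd h (hx w hw)
      · exact hu.conj (pt_PS p) hu1 hw h)
    omega

/-- there is a torus of order `(q + 1) / e` -/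
theorem exists_nonsplit (hq : 4 ≤ Nat.card F) : ∃ x : PS F, x ≠ 1 ∧ SS p (C2 F) x ∧ Nat.card (C2 F x) * eZ F = Nat.card F + 1 := by
  by_contra hcon
  push Not at hcon
  obtain ⟨u, hu1, hu⟩ := exists_un (F := F) (p := p)
  have hU := card_cls_un hu1 hu
  have hL := card_large (F := F) hq
  by_cases hx : ∃ x : PS F, x ≠ 1 ∧ SS p (C2 F) x
  · obtain ⟨x, hx1, hx⟩ := hx
    have hxu := not_mem_cls_un hu hx1 hx
    have hT := tsize hx1 hx
    have hn := hcon x hx1 hx
    have h2 := card_cls_two hx1 hxu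
    rcases hT with ⟨-, hT⟩ | ⟨h4, -⟩
    swap
    · exact hn h4
    by_cases hy : ∃ y : PS F, y ≠ 1 ∧ SS p (C2 F) y ∧ y ∉ cls (C2 F) x
    · obtain ⟨y, hy1, hy, hyx⟩ := hy
      have hyu := not_mem_cls_un hu hy1 hy
      have hT' := tsize hy1 hy
      have hn' := hcon y hy1 hy
      rcases hT' with ⟨-, hT'⟩ | ⟨h4, -⟩
      swap
      · exact hn' h4
      by_cases hz : ∃ z : PS F, z ≠ 1 ∧ SS p (C2 F) z ∧ z ∉ cls (C2 F) x ∧ z ∉ cls (C2 F) y
      · obtain ⟨z, hz1, hz, hzx, hzy⟩ := hz
        have hzu := not_mem_cls_un hu hz1 hz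
        have hT'' := tsize hz1 hz
        have hn'' := hcon z hz1 hz
        rcases hT'' with ⟨-, hT''⟩ | ⟨h4, -⟩
        swap
        · exact hn'' h4
        have h3 := card_cls_four hx1 hy1 hz1 hxu hyu hyx hzu hzx hzy
        omega
      · push Not at hz
        have h3 := card_cls_eq_three hx1 hy1 hxu hyu hyx (by
          intro w hw
          rcases (pt_PS p).type w hw with h | h
          · by_cases hwx : w ∈ cls (C2 F) x
            · exact Or.inr (Or.inl hwx)
            · exact Or.inr (Or.inr (hz w hw h hwx))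
          · exact Or.inl (hu.conj (pt_PS p) hu1 hw h))
        omega
    · push Not at hy
      have h3 := card_cls_eq_two hx1 hxu (by
        intro w hw
        rcases (pt_PS p).type w hw with h | h
        · exact Or.inr (hy w hw h)
        · exact Or.inl (hu.conj (pt_PS p) hu1 hw h))
      omega
  · push Not at hx
    have h3 := card_cls_eq_one (x := u) (by
      intro w hw
      rcases (pt_PS p).type w hw with h | h
      · exact absurd h (hx w hw)
      · exact hu.conj (pt_PS p) hu1 hw h)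
    omega

/-- the normaliser of a torus is twice as large -/
theorem norm_torus (hq : 4 ≤ Nat.card F) {x : PS F} (hx : x ≠ 1) (hs : SS p (C2 F) x) :
    Nat.card (Subgroup.normalizer ((C2 F x : Subgroup (PS F)) : Set (PS F))) = 2 * Nat.card (C2 F x) := by
  obtain ⟨u, hu1, hu⟩ := exists_un (F := F) (p := p)
  have hU := card_cls_un hu1 hu
  have hL := card_large (F := F) hq
  have hT := tsize hx hs
  have hxu := not_mem_cls_un hu hx hs
  have h2 := card_cls_two hx hxu
  have hQ : 4 * Nat.card F ≤ Nat.card F ^ 2 := by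
    rw [pow_two]
    exact Nat.mul_le_mul_right _ hq
  refine (SS.card_norm (pt_PS p) hx hs).resolve_left fun hN => ?_
  have hc := card_cls (pt_PS p) hx
  rw [hN] at hc
  have hc2 : 2 ≤ Nat.card (C2 F x) := two_le_card (pt_PS p) hx
  -- the class is large
  obtain ⟨c, hcc⟩ : ∃ c, Nat.card (C2 F x) = c + 1 := ⟨Nat.card (C2 F x) - 1, by omega⟩
  rw [hcc, Nat.add_sub_cancel] at hc
  have hn0 : 0 < Nat.card (PS F) := Nat.card_pos
  have hlarge : Nat.card (PS F) ≤ 2 * Nat.card (cls (C2 F) x) := by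
    by_contra hlt
    push Not at hlt
    have h3 : 2 * (Nat.card (cls (C2 F) x) * (c + 1)) < Nat.card (PS F) * (c + 1) := by
      have := Nat.mul_lt_mul_of_pos_right hlt (show 0 < c + 1 by omega)
      nlinarith [this]
    rw [hc] at h3
    have h4 : 2 * (Nat.card (PS F) * c) = Nat.card (PS F) * (2 * c) := by ring
    rw [h4] at h3
    have h5 := Nat.lt_of_mul_lt_mul_left h3
    omega
  rcases hT with ⟨hT1, hT⟩ | ⟨-, hT⟩
  · obtain ⟨y, hy1, hy, hyc⟩ := exists_nonsplit (F := F) (p := p) hq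
    have hyu := not_mem_cls_un hu hy1 hy
    have hyx : y ∉ cls (C2 F) x := by
      intro h
      have h3 := card_of_mem_cls h
      rw [h3] at hyc
      have h4 : Nat.card (C2 F x) * eZ F = Nat.card F - 1 := hT1
      omega
    have h3 := card_cls_three hx hy1 hxu hyu hyx
    rcases tsize hy1 hy with ⟨h4, -⟩ | ⟨-, h4⟩
    · omega
    · omega
  · omega

/-- the normaliser of a unipotent member -/
theorem norm_unip {u : PS F} (hu1 : u ≠ 1) (hu : UN p F (C2 F) u) :
    Nat.card (Subgroup.normalizer ((C2 F u : Subgroup (PS F)) : Set (PS F))) * (Nat.card F + 1) = Nat.card (PS F) := by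
  have hU := card_cls_un hu1 hu
  have hc := card_cls (pt_PS p) hu1
  rw [card_C2_un hu1 hu] at hc
  have hq : 1 < Nat.card F := Finite.one_lt_card
  obtain ⟨r, hr⟩ : ∃ r, Nat.card F = r + 1 := ⟨Nat.card F - 1, by omega⟩
  rw [hr] at hU hc ⊢
  have h1 : Nat.card (cls (C2 F) u) = r * (r + 2) := by
    have : (r + 1) ^ 2 = r * (r + 2) + 1 := by ring
    omega
  rw [h1, Nat.add_sub_cancel] at hc
  have hr0 : 0 < r := by omega
  apply Nat.eq_of_mul_eq_mul_left hr0
  calc r * (Nat.card (Subgroup.normalizer ((C2 F u : Subgroup (PS F)) : Set (PS F))) * (r + 1 + 1)) =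
      r * (r + 2) * Nat.card (Subgroup.normalizer ((C2 F u : Subgroup (PS F)) : Set (PS F))) := by ring
    _ = Nat.card (PS F) * r := hc
    _ = r * Nat.card (PS F) := by ring

end Pool.Agent.H32.HallD
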