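import Pool.Agent.H32.HallD.MatG

/-!
# HallD MatI: two unipotent subgroups generate `PSL₂`
-/

set_option autoImplicit false

open Matrix
open scoped MatrixGroups

namespace Pool.Agent.H32.HallD

variable {F : Type} [Field F]

/-- `PS F` is normal -/
theorem PS_conj {x : PGL(2, F)} (hx : x ∈ PS F) (k : PGL(2, F)) : k * x * k⁻¹ ∈ PS F := by
  obtain ⟨g, hg, rfl⟩ := mem_PS.mp hx
  obtain ⟨k, rfl⟩ := ProjGenLinGroup.mk_surjective k
  refine mem_PS.mpr ⟨k * g * k⁻¹, ?_, ?_⟩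
  · have h1 : mt (k * g * k⁻¹) = mt k * mt g * mt k⁻¹ := rfl
    rw [h1, Matrix.det_mul, Matrix.det_mul, hg, mul_one, ← Matrix.det_mul]
    have h2 : mt k * mt k⁻¹ = 1 := congrArg Units.val (mul_inv_cancel k)
    rw [h2, Matrix.det_one]
  · rw [map_mul, map_mul, map_inv]

theorem det_up (b : F) : (!![1, b; 0, 1] : Matrix (Fin 2) (Fin 2) F).det ≠ 0 := by
  rw [Matrix.det_fin_two_of]
  simp

theorem det_lo (c : F) : (!![1, 0; c, 1] : Matrix (Fin 2) (Fin 2) F).det ≠ 0 := by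
  rw [Matrix.det_fin_two_of]
  simp

/-- the elementary matrices generate -/
theorem genS {K : Subgroup PGL(2, F)} (hU : ∀ (b : F) (g : GL (Fin 2) F), mt g = !![1, b; 0, 1] → pm g ∈ K)
    (hL : ∀ (c : F) (g : GL (Fin 2) F), mt g = !![1, 0; c, 1] → pm g ∈ K) : PS F ≤ K := by
  have key : ∀ g : GL (Fin 2) F, (mt g).det = 1 → mt g 1 0 ≠ 0 → pm g ∈ K := by
    intro g hg hc
    rw [Matrix.det_fin_two] at hg
    let u1 : GL (Fin 2) F := GeneralLinearGroup.mkOfDetNeZero _ (det_up ((mt g 0 0 - 1) / mt g 1 0))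
    let l : GL (Fin 2) F := GeneralLinearGroup.mkOfDetNeZero _ (det_lo (mt g 1 0))
    let u2 : GL (Fin 2) F := GeneralLinearGroup.mkOfDetNeZero _ (det_up ((mt g 1 1 - 1) / mt g 1 0))
    have h1 : g = u1 * l * u2 := by
      apply Units.ext
      show mt g = (!![1, (mt g 0 0 - 1) / mt g 1 0; 0, 1] * !![1, 0; mt g 1 0, 1]) * !![1, (mt g 1 1 - 1) / mt g 1 0; 0, 1]
      rw [Matrix.mul_fin_two, Matrix.mul_fin_two]
      ext i j
      fin_cases i <;> fin_cases j
      · show mt g 0 0 = _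
        simp
        field_simp
        ring
      · show mt g 0 1 = _
        simp
        field_simp
        linear_combination -hg
      · show mt g 1 0 = _
        simp
      · show mt g 1 1 = _
        simp
        field_simp
        ring
    rw [h1, map_mul, map_mul]
    exact K.mul_mem (K.mul_mem (hU _ u1 rfl) (hL _ l rfl)) (hU _ u2 rfl)
  intro x hx
  obtain ⟨g, hg, rfl⟩ := mem_PS.mp hx
  by_cases hc : mt g 1 0 = 0
  · let l : GL (Fin 2) F := GeneralLinearGroup.mkOfDetNeZero _ (det_lo (1 : F))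
    have hl : mt l = !![1, 0; 1, 1] := rfl
    have ha : mt g 0 0 ≠ 0 := by
      intro h0
      rw [Matrix.det_fin_two, h0, hc] at hg
      simp at hg
    have h1 : pm (l * g) ∈ K := by
      apply key
      · have h2 : mt (l * g) = mt l * mt g := rfl
        rw [h2, Matrix.det_mul, hg, hl, Matrix.det_fin_two_of]
        simp
      · have h2 : mt (l * g) = mt l * mt g := rfl
        rw [h2, hl, Matrix.mul_apply, Fin.sum_univ_two, hc]
        simpa using ha
    rw [map_mul] at h1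
    have h3 := K.mul_mem (K.inv_mem (hL _ l hl)) h1
    rw [inv_mul_cancel_left] at h3
    exact h3
  · exact key g hg hc

/-- the standard form of a nilpotent matrix -/
theorem nil_std {N : Matrix (Fin 2) (Fin 2) F} (hN : N * N = 0) (h0 : N ≠ 0) : ∃ Q : GL (Fin 2) F, N * mt Q = mt Q * !![0, 1; 0, 0] := by
  obtain ⟨ht, hd⟩ := nil_trace hN
  rw [Matrix.trace_fin_two] at ht
  rw [Matrix.det_fin_two] at hd
  by_cases h10 : N 1 0 = 0
  · have h00 : N 0 0 = 0 := by
      have h1 : N 0 0 * N 0 0 = 0 := by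
        rw [h10, mul_zero, sub_zero] at hd
        linear_combination (N 0 0) * ht - hd
      exact mul_self_eq_zero.mp h1
    have h11 : N 1 1 = 0 := by linear_combination ht - h00
    have h01 : N 0 1 ≠ 0 := by
      intro h01
      apply h0
      ext i j
      fin_cases i <;> fin_cases j
      · exact h00
      · exact h01
      · exact h10
      · exact h11
    have hdet : (!![N 0 1, 0; 0, 1] : Matrix (Fin 2) (Fin 2) F).det ≠ 0 := by
      rw [Matrix.det_fin_two_of]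
      simpa using h01
    refine ⟨GeneralLinearGroup.mkOfDetNeZero _ hdet, ?_⟩
    show N * !![N 0 1, 0; 0, 1] = !![N 0 1, 0; 0, 1] * !![0, 1; 0, 0]
    rw [Matrix.mul_fin_two]
    ext i j
    rw [Matrix.mul_apply, Fin.sum_univ_two]
    fin_cases i <;> fin_cases j <;> simp [h00, h10, h11]
  · have hdet : (!![N 0 0, 1; N 1 0, 0] : Matrix (Fin 2) (Fin 2) F).det ≠ 0 := by
      rw [Matrix.det_fin_two_of]
      simpa using h10
    refine ⟨GeneralLinearGroup.mkOfDetNeZero _ hdet, ?_⟩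
    show N * !![N 0 0, 1; N 1 0, 0] = !![N 0 0, 1; N 1 0, 0] * !![0, 1; 0, 0]
    rw [Matrix.mul_fin_two]
    ext i j
    rw [Matrix.mul_apply, Fin.sum_univ_two]
    fin_cases i <;> fin_cases j
    · show N 0 0 * N 0 0 + N 0 1 * N 1 0 = N 0 0 * 0 + 1 * 0
      linear_combination (N 0 0) * ht - hd
    · show N 0 0 * 1 + N 0 1 * 0 = N 0 0 * 1 + 1 * 0
      ring
    · show N 1 0 * N 0 0 + N 1 1 * N 1 0 = N 1 0 * 0 + 0 * 0
      linear_combination (N 1 0) * ht
    · show N 1 0 * 1 + N 1 1 * 0 = N 1 0 * 1 + 0 * 0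
      ring

/-- the standard form of two nilpotent matrices -/
theorem nil_std_two {N M : Matrix (Fin 2) (Fin 2) F} (hN : N * N = 0) (h0 : N ≠ 0) (hM : M * M = 0) (hNM : N * M ≠ M * N) :
    ∃ (Q : GL (Fin 2) F) (z : F), z ≠ 0 ∧ N * mt Q = mt Q * !![0, 1; 0, 0] ∧ M * mt Q = mt Q * !![0, 0; z, 0] := by
  obtain ⟨Q, hQ⟩ := nil_std hN h0
  have hQQ : mt Q * mt Q⁻¹ = 1 := congrArg Units.val (mul_inv_cancel Q)
  have hQQ' : mt Q⁻¹ * mt Q = 1 := congrArg Units.val (inv_mul_cancel Q)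
  set M1 : Matrix (Fin 2) (Fin 2) F := mt Q⁻¹ * M * mt Q with hM1
  have e1 : mt Q * M1 = M * mt Q := by
    rw [hM1, ← mul_assoc, ← mul_assoc, hQQ, one_mul]
  have hM1n : M1 * M1 = 0 := by
    calc M1 * M1 = mt Q⁻¹ * (M * (mt Q * mt Q⁻¹) * M) * mt Q := by
          rw [hM1]
          simp only [mul_assoc]
      _ = 0 := by rw [hQQ, mul_one, hM, mul_zero, zero_mul]
  have hcomm : M1 * !![0, 1; 0, 0] ≠ !![0, 1; 0, 0] * M1 := by
    intro h
    apply hNM
    have e2 : N = mt Q * !![0, 1; 0, 0] * mt Q⁻¹ := by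
      rw [← hQ, mul_assoc, hQQ, mul_one]
    have e3 : M = mt Q * M1 * mt Q⁻¹ := by
      rw [e1, mul_assoc, hQQ, mul_one]
    calc N * M = mt Q * (!![0, 1; 0, 0] * M1) * mt Q⁻¹ := by
          rw [e2, e3]
          calc mt Q * !![0, 1; 0, 0] * mt Q⁻¹ * (mt Q * M1 * mt Q⁻¹) = mt Q * !![0, 1; 0, 0] * (mt Q⁻¹ * mt Q) * M1 * mt Q⁻¹ := by
                simp only [mul_assoc]
            _ = _ := by rw [hQQ', mul_one]; simp only [mul_assoc]
      _ = mt Q * (M1 * !![0, 1; 0, 0]) * mt Q⁻¹ := by rw [h]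
      _ = M * N := by
          nth_rw 1 [e3]
          nth_rw 1 [e2]
          symm
          calc mt Q * M1 * mt Q⁻¹ * (mt Q * !![0, 1; 0, 0] * mt Q⁻¹) = mt Q * M1 * (mt Q⁻¹ * mt Q) * !![0, 1; 0, 0] * mt Q⁻¹ := by
                simp only [mul_assoc]
            _ = _ := by rw [hQQ', mul_one]; simp only [mul_assoc]
  obtain ⟨ht, hd⟩ := nil_trace hM1n
  rw [Matrix.trace_fin_two] at ht
  rw [Matrix.det_fin_two] at hd
  have hz : M1 1 0 ≠ 0 := by
    intro h10
    apply hcomm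
    have h00 : M1 0 0 = 0 := by
      have h1 : M1 0 0 * M1 0 0 = 0 := by
        rw [h10, mul_zero, sub_zero] at hd
        linear_combination (M1 0 0) * ht - hd
      exact mul_self_eq_zero.mp h1
    have h11 : M1 1 1 = 0 := by linear_combination ht - h00
    ext i j
    rw [Matrix.mul_apply, Fin.sum_univ_two, Matrix.mul_apply, Fin.sum_univ_two]
    fin_cases i <;> fin_cases j <;> simp [h00, h10, h11]
  let R : GL (Fin 2) F := GeneralLinearGroup.mkOfDetNeZero _ (det_up (M1 0 0 / M1 1 0))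
  have hR : mt R = !![1, M1 0 0 / M1 1 0; 0, 1] := rfl
  refine ⟨Q * R, M1 1 0, hz, ?_, ?_⟩
  · show N * (mt Q * mt R) = mt Q * mt R * !![0, 1; 0, 0]
    rw [← mul_assoc, hQ, mul_assoc, mul_assoc, hR]
    congr 1
    rw [Matrix.mul_fin_two, Matrix.mul_fin_two]
    ext i j
    fin_cases i <;> fin_cases j <;> simp
  · show M * (mt Q * mt R) = mt Q * mt R * !![0, 0; M1 1 0, 0]
    rw [← mul_assoc, ← e1, mul_assoc (mt Q) M1, mul_assoc (mt Q) (mt R), hR]
    congr 1
    rw [Matrix.mul_fin_two]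
    ext i j
    rw [Matrix.mul_apply, Fin.sum_univ_two]
    fin_cases i <;> fin_cases j
    · show M1 0 0 * 1 + M1 0 1 * 0 = 1 * 0 + M1 0 0 / M1 1 0 * M1 1 0
      field_simp
      ring
    · show M1 0 0 * (M1 0 0 / M1 1 0) + M1 0 1 * 1 = 1 * 0 + M1 0 0 / M1 1 0 * 0
      field_simp
      linear_combination (M1 0 0) * ht - hd
    · show M1 1 0 * 1 + M1 1 1 * 0 = 0 * 0 + 1 * M1 1 0
      ring
    · show M1 1 0 * (M1 0 0 / M1 1 0) + M1 1 1 * 1 = 0 * 0 + 1 * 0
      field_simp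
      linear_combination ht

theorem gen_nil {K : Subgroup PGL(2, F)} {N M : Matrix (Fin 2) (Fin 2) F} (hN : N * N = 0) (h0 : N ≠ 0) (hM : M * M = 0) (hNM : N * M ≠ M * N)
    (hKN : ∀ (b : F) (g : GL (Fin 2) F), mt g = 1 + b • N → pm g ∈ K) (hKM : ∀ (b : F) (g : GL (Fin 2) F), mt g = 1 + b • M → pm g ∈ K) :
    PS F ≤ K := by
  obtain ⟨Q, z, hz, hQN, hQM⟩ := nil_std_two hN h0 hM hNM
  have hQQ : mt Q * mt Q⁻¹ = 1 := congrArg Units.val (mul_inv_cancel Q)
  have h1 : PS F ≤ cj (pm Q)⁻¹ K := by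
    apply genS
    · intro b g hg
      rw [mem_cj, inv_inv]
      have h2 : pm Q * pm g * (pm Q)⁻¹ = pm (Q * g * Q⁻¹) := by rw [map_mul, map_mul, map_inv]
      rw [h2]
      apply hKN b
      show mt Q * mt g * mt Q⁻¹ = _
      have h3 : (!![1, b; 0, 1] : Matrix (Fin 2) (Fin 2) F) = 1 + b • !![0, 1; 0, 0] := by
        ext i j
        fin_cases i <;> fin_cases j <;> simp
      rw [hg, h3, mul_add, mul_one, mul_smul_comm, ← hQN, add_mul, hQQ, smul_mul_assoc, mul_assoc, hQQ, mul_one]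
    · intro c g hg
      rw [mem_cj, inv_inv]
      have h2 : pm Q * pm g * (pm Q)⁻¹ = pm (Q * g * Q⁻¹) := by rw [map_mul, map_mul, map_inv]
      rw [h2]
      apply hKM (c / z)
      show mt Q * mt g * mt Q⁻¹ = _
      have h3 : (!![1, 0; c, 1] : Matrix (Fin 2) (Fin 2) F) = 1 + (c / z) • !![0, 0; z, 0] := by
        ext i j
        fin_cases i <;> fin_cases j <;> simp [hz]
      rw [hg, h3, mul_add, mul_one, mul_smul_comm, ← hQM, add_mul, hQQ, smul_mul_assoc, mul_assoc, hQQ, mul_one]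
  intro x hx
  have h2 := h1 (PS_conj hx (pm Q)⁻¹)
  rw [mem_cj, inv_inv] at h2
  have h3 : pm Q * ((pm Q)⁻¹ * x * pm Q) * (pm Q)⁻¹ = x := by group
  rw [h3] at h2
  exact h2

section

variable [Finite F] {p : ℕ} [hp : Fact p.Prime] [CharP F p]

/-- the elements `1 + b N` lie in the unipotent member -/
theorem mem_C2_unip {u : PS F} {g : GL (Fin 2) F} {N : Matrix (Fin 2) (Fin 2) F} (hg : pm g = (u : PGL(2, F))) (hgN : mt g = 1 + N) (hN : N * N = 0)
    (b : F) {h : GL (Fin 2) F} (hh : mt h = 1 + b • N) : ∃ hp : pm h ∈ PS F, (⟨pm h, hp⟩ : PS F) ∈ C2 F u := by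
  have h1 : pm h ∈ PS F := by
    obtain ⟨k, hk, hk2⟩ := exists_unip hN b
    have h2 : h = k := Units.ext (hh.trans hk.symm)
    rw [h2]
    exact mem_PS.mpr ⟨k, hk2, rfl⟩
  refine ⟨h1, ?_⟩
  rw [mem_res]
  show pm h ∈ CP (u : PGL(2, F))
  rw [← hg, mem_CP, hgN, hh]
  simp only [mul_add, add_mul, mul_one, one_mul, smul_mul_assoc, mul_smul_comm, hN]
  simp only [smul_zero, add_zero]
  abel

/-- a subgroup of `PSL₂` which contains a unipotent member and does not normalise it is everything -/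
theorem gen_C2 {H : Subgroup (PS F)} {u : PS F} (hu1 : u ≠ 1) (hu : UN p F (C2 F) u) (hC : C2 F u ≤ H) {h : PS F} (hh : h ∈ H)
    (hn : h * u * h⁻¹ ∉ C2 F u) : H = ⊤ := by
  have hu1' : (u : PGL(2, F)) ≠ 1 := by simpa using hu1
  obtain ⟨g, N, hg, hgN, hN, h0⟩ := un_form hu1' (un_of_res (pt_PGL p) hu1 hu)
  obtain ⟨k, hk⟩ := ProjGenLinGroup.mk_surjective (h : PGL(2, F))
  have hkk : mt k * mt k⁻¹ = 1 := congrArg Units.val (mul_inv_cancel k)
  have hkk' : mt k⁻¹ * mt k = 1 := congrArg Units.val (inv_mul_cancel k)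
  set M : Matrix (Fin 2) (Fin 2) F := mt k * N * mt k⁻¹ with hM
  have hMM : M * M = 0 := by
    calc M * M = mt k * (N * (mt k⁻¹ * mt k) * N) * mt k⁻¹ := by
          rw [hM]
          simp only [mul_assoc]
      _ = 0 := by rw [hkk', mul_one, hN, mul_zero, zero_mul]
  have hgk : mt (k * g * k⁻¹) = 1 + M := by
    show mt k * mt g * mt k⁻¹ = _
    rw [hgN, mul_add, mul_one, add_mul, hkk]
  have hv : pm (k * g * k⁻¹) = ((h * u * h⁻¹ : PS F) : PGL(2, F)) := by
    show _ = (h : PGL(2, F)) * (u : PGL(2, F)) * (h : PGL(2, F))⁻¹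
    rw [← hk, ← hg, map_mul, map_mul, map_inv]
  have hNM : N * M ≠ M * N := by
    intro hc
    apply hn
    rw [mem_res, ← hv]
    show pm (k * g * k⁻¹) ∈ CP (u : PGL(2, F))
    rw [← hg, mem_CP, hgk, hgN]
    simp only [mul_add, add_mul, mul_one, one_mul, hc]
    abel
  have hCv : C2 F (h * u * h⁻¹) ≤ H := by
    rw [(pt_PS p).conj h u hu1]
    intro x hx
    rw [mem_cj] at hx
    have h1 := H.mul_mem (H.mul_mem hh (hC hx)) (H.inv_mem hh)
    have h2 : h * (h⁻¹ * x * h) * h⁻¹ = x := by group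
    rw [h2] at h1
    exact h1
  have hle : PS F ≤ H.map (PS F).subtype := by
    refine gen_nil hN h0 hMM hNM ?_ ?_
    · intro b g' hg'
      obtain ⟨h1, h2⟩ := mem_C2_unip hg hgN hN b hg'
      exact ⟨_, hC h2, rfl⟩
    · intro b g' hg'
      obtain ⟨h1, h2⟩ := mem_C2_unip hv hgk hMM b hg'
      exact ⟨_, hCv h2, rfl⟩
  rw [eq_top_iff]
  intro x _
  obtain ⟨y, hy, hxy⟩ := hle x.2
  have h1 : y = x := Subtype.ext hxy
  rw [← h1]
  exact hy

end

end Pool.Agent.H32.HallD
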