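import Pool.Agent.H32.HallD.MatG

/-!
# HallD MatJ: a subgroup `A₄` of `PSL₂`
-/

set_option autoImplicit false

open Matrix
open scoped MatrixGroups

universe u

namespace Pool.Agent.H32.HallD

section

variable {G : Type u} [Group G] [Finite G] {π : Set ℕ}

theorem pi_sup {K W : Subgroup G} (h : W ≤ Subgroup.normalizer (K : Set G)) (hK : PiSubgroup π K) (hW : PiSubgroup π W) :
    PiSubgroup π (W ⊔ K) := by
  have h1 : Nat.card (W ⊔ K : Subgroup G) = Nat.card K * K.relIndex (W ⊔ K) := by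
    rw [← Subgroup.relIndex_bot_left, ← Subgroup.relIndex_bot_left]
    exact (Subgroup.relIndex_mul_relIndex _ _ _ bot_le le_sup_right).symm
  have h2 : K.relIndex (W ⊔ K) = K.relIndex W := by
    haveI := Subgroup.normal_subgroupOf_of_le_normalizer h
    haveI := Subgroup.normal_subgroupOf_sup_of_le_normalizer h
    have h3 := Nat.card_congr (QuotientGroup.quotientInfEquivProdNormalizerQuotient W K h).toEquiv
    rw [Subgroup.relIndex, Subgroup.relIndex, Subgroup.index_eq_card, Subgroup.index_eq_card]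
    exact h3.symm
  show PiNumber _ _
  rw [h1, h2]
  exact PiNumber.mul hK (PiNumber.of_dvd hW (Subgroup.relIndex_dvd_card _ _))

theorem pi_zpowers {x : G} {t : ℕ} (ht : t.Prime) (hπ : t ∈ π) (hx : x ^ t = 1) : PiSubgroup π (Subgroup.zpowers x) := by
  show PiNumber _ _
  rw [Nat.card_zpowers]
  intro s hs hd
  have h1 : s ∣ t := hd.trans (orderOf_dvd_of_pow_eq_one hx)
  rw [(Nat.prime_dvd_prime_iff_eq hs ht).mp h1]
  exact hπ

/-- three elements which generate a group of order dividing twelve -/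
theorem pi_A4 {v w o : G} (h2 : 2 ∈ π) (h3 : 3 ∈ π) (hv : v ^ 2 = 1) (hw : w ^ 2 = 1) (ho : o ^ 3 = 1) (hc : w * v * w⁻¹ = v)
    (e1 : o * v * o⁻¹ = w) (e2 : o * w * o⁻¹ = v * w) : ∃ L : Subgroup G, PiSubgroup π L ∧ v ∈ L ∧ o ∈ L := by
  have hV : PiSubgroup π (Subgroup.zpowers w ⊔ Subgroup.zpowers v) := by
    refine pi_sup ?_ (pi_zpowers Nat.prime_two h2 hv) (pi_zpowers Nat.prime_two h2 hw)
    rw [Subgroup.zpowers_le, ← cj_eq_iff]
    show (Subgroup.zpowers v).map (MulAut.conj w).toMonoidHom = Subgroup.zpowers v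
    rw [MonoidHom.map_zpowers]
    congr 1
  have hn : o ∈ Subgroup.normalizer ((Subgroup.zpowers w ⊔ Subgroup.zpowers v : Subgroup G) : Set G) := by
    rw [← cj_eq_iff]
    apply Subgroup.eq_of_le_of_card_ge
    · show (Subgroup.zpowers w ⊔ Subgroup.zpowers v).map (MulAut.conj o).toMonoidHom ≤ _
      rw [Subgroup.map_sup, MonoidHom.map_zpowers, MonoidHom.map_zpowers, sup_le_iff, Subgroup.zpowers_le, Subgroup.zpowers_le]
      have hwm : w ∈ Subgroup.zpowers w ⊔ Subgroup.zpowers v := Subgroup.mem_sup_left (Subgroup.mem_zpowers w)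
      have hvm : v ∈ Subgroup.zpowers w ⊔ Subgroup.zpowers v := Subgroup.mem_sup_right (Subgroup.mem_zpowers v)
      constructor
      · show o * w * o⁻¹ ∈ _
        rw [e2]
        exact Subgroup.mul_mem _ hvm hwm
      · show o * v * o⁻¹ ∈ _
        rw [e1]
        exact hwm
    · rw [card_cj]
  refine ⟨Subgroup.zpowers o ⊔ (Subgroup.zpowers w ⊔ Subgroup.zpowers v), ?_, ?_, ?_⟩
  · refine pi_sup ?_ hV (pi_zpowers Nat.prime_three h3 ho)
    rw [Subgroup.zpowers_le]
    exact hn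
  · exact Subgroup.mem_sup_right (Subgroup.mem_sup_right (Subgroup.mem_zpowers v))
  · exact Subgroup.mem_sup_left (Subgroup.mem_zpowers o)

end

section

variable {F : Type} [Field F]

theorem pm_of_smul {g h : GL (Fin 2) F} {c : F} (e : mt g = c • mt h) : pm g = pm h := by
  have h1 : pm (g * h⁻¹) = 1 := by
    rw [pm_eq_one, isScal_iff]
    refine ⟨c, ?_⟩
    show mt g * mt h⁻¹ = _
    rw [e, smul_mul_assoc]
    have h2 : mt h * mt h⁻¹ = 1 := congrArg Units.val (mul_inv_cancel h)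
    rw [h2]
  rw [map_mul, map_inv, mul_inv_eq_one] at h1
  exact h1

/-- the group `A₄` in `PSL₂` -/
theorem exists_A4 [Finite F] {p : ℕ} [hp : Fact p.Prime] [CharP F p] (h2 : (2 : F) ≠ 0) :
    ∃ v w o : PS F, v ^ 2 = 1 ∧ w ^ 2 = 1 ∧ o ^ 3 = 1 ∧ w * v * w⁻¹ = v ∧ o * v * o⁻¹ = w ∧ o * w * o⁻¹ = v * w ∧ v ≠ w := by
  haveI : NeZero p := ⟨hp.out.ne_zero⟩
  obtain ⟨a', b', hab'⟩ := CharP.sq_add_sq F p (-1)
  obtain ⟨a, b, hab⟩ : ∃ a b : F, a ^ 2 + b ^ 2 = -1 := ⟨a', b', by rw [hab']; simp⟩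
  have hd4 : (!![1 + a + b, 1 + b - a; -1 + b - a, 1 - a - b] : Matrix (Fin 2) (Fin 2) F).det = 4 := by
    rw [Matrix.det_fin_two_of]
    linear_combination -2 * hab
  have h4 : (4 : F) ≠ 0 := by
    have h5 : (4 : F) = 2 * 2 := by norm_num
    rw [h5]
    exact mul_ne_zero h2 h2
  have hdi : (!![0, 1; -1, 0] : Matrix (Fin 2) (Fin 2) F).det = 1 := by
    rw [Matrix.det_fin_two_of]
    ring
  have hdj : (!![a, b; b, -a] : Matrix (Fin 2) (Fin 2) F).det = 1 := by
    rw [Matrix.det_fin_two_of]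
    linear_combination -hab
  obtain ⟨gi, hi⟩ : ∃ g : GL (Fin 2) F, mt g = !![0, 1; -1, 0] := ⟨GeneralLinearGroup.mkOfDetNeZero _ (by rw [hdi]; exact one_ne_zero), rfl⟩
  obtain ⟨gj, hj⟩ : ∃ g : GL (Fin 2) F, mt g = !![a, b; b, -a] := ⟨GeneralLinearGroup.mkOfDetNeZero _ (by rw [hdj]; exact one_ne_zero), rfl⟩
  obtain ⟨gh, hh⟩ : ∃ g : GL (Fin 2) F, mt g = !![1 + a + b, 1 + b - a; -1 + b - a, 1 - a - b] :=
    ⟨GeneralLinearGroup.mkOfDetNeZero _ (by rw [hd4]; exact h4), rfl⟩
  -- the relations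
  have r1 : pm (gi * gi) = 1 := by
    rw [pm_eq_one, isScal_iff]
    refine ⟨-1, ?_⟩
    show mt gi * mt gi = _
    rw [hi, Matrix.mul_fin_two]
    ext i j
    fin_cases i <;> fin_cases j <;> simp
  have r2 : pm (gj * gj) = 1 := by
    rw [pm_eq_one, isScal_iff]
    refine ⟨-1, ?_⟩
    show mt gj * mt gj = _
    rw [hj, Matrix.mul_fin_two]
    ext i j
    fin_cases i <;> fin_cases j
    · show a * a + b * b = (-1) * 1
      linear_combination hab
    · show a * b + b * -a = (-1) * 0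
      ring
    · show b * a + -a * b = (-1) * 0
      ring
    · show b * b + -a * -a = (-1) * 1
      linear_combination hab
  have hsq : mt gh * mt gh = (2 : F) • mt gh - (4 : F) • 1 := by
    rw [hh, Matrix.mul_fin_two]
    ext i j
    fin_cases i <;> fin_cases j
    · show (1 + a + b) * (1 + a + b) + (1 + b - a) * (-1 + b - a) = 2 * (1 + a + b) - 4 * 1
      linear_combination 2 * hab
    · show (1 + a + b) * (1 + b - a) + (1 + b - a) * (1 - a - b) = 2 * (1 + b - a) - 4 * 0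
      ring
    · show (-1 + b - a) * (1 + a + b) + (1 - a - b) * (-1 + b - a) = 2 * (-1 + b - a) - 4 * 0
      ring
    · show (-1 + b - a) * (1 + b - a) + (1 - a - b) * (1 - a - b) = 2 * (1 - a - b) - 4 * 1
      linear_combination 2 * hab
  have r3 : pm (gh * gh * gh) = 1 := by
    rw [pm_eq_one, isScal_iff]
    refine ⟨-8, ?_⟩
    show mt gh * mt gh * mt gh = _
    rw [hsq, sub_mul, smul_mul_assoc, smul_mul_assoc, one_mul, hsq]
    rw [smul_sub, smul_smul, smul_smul, sub_right_comm, ← sub_smul]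
    have e1 : (2 * 2 - 4 : F) = 0 := by norm_num
    have e2 : (2 * 4 : F) = 8 := by norm_num
    rw [e1, zero_smul, zero_sub, e2, neg_smul]
  have r4 : gh * gi = gj * gh := by
    apply Units.ext
    show mt gh * mt gi = mt gj * mt gh
    rw [hh, hi, hj, Matrix.mul_fin_two, Matrix.mul_fin_two]
    ext i j
    fin_cases i <;> fin_cases j
    · show (1 + a + b) * 0 + (1 + b - a) * -1 = a * (1 + a + b) + b * (-1 + b - a)
      linear_combination -hab
    · show (1 + a + b) * 1 + (1 + b - a) * 0 = a * (1 + b - a) + b * (1 - a - b)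
      linear_combination hab
    · show (-1 + b - a) * 0 + (1 - a - b) * -1 = b * (1 + a + b) + -a * (-1 + b - a)
      linear_combination -hab
    · show (-1 + b - a) * 1 + (1 - a - b) * 0 = b * (1 + b - a) + -a * (1 - a - b)
      linear_combination -hab
  have r5 : gh * gj = gi * gj * gh := by
    apply Units.ext
    show mt gh * mt gj = mt gi * mt gj * mt gh
    rw [hh, hi, hj, Matrix.mul_fin_two, Matrix.mul_fin_two, Matrix.mul_fin_two]
    ext i j
    fin_cases i <;> fin_cases j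
    · show (1 + a + b) * a + (1 + b - a) * b = (0 * a + 1 * b) * (1 + a + b) + (0 * b + 1 * -a) * (-1 + b - a)
      ring
    · show (1 + a + b) * b + (1 + b - a) * -a = (0 * a + 1 * b) * (1 + b - a) + (0 * b + 1 * -a) * (1 - a - b)
      ring
    · show (-1 + b - a) * a + (1 - a - b) * b = (-1 * a + 0 * b) * (1 + a + b) + (-1 * b + 0 * -a) * (-1 + b - a)
      ring
    · show (-1 + b - a) * b + (1 - a - b) * -a = (-1 * a + 0 * b) * (1 + b - a) + (-1 * b + 0 * -a) * (1 - a - b)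
      ring
  have r6 : pm (gj * gi) = pm (gi * gj) := by
    apply pm_of_smul (c := -1)
    show mt gj * mt gi = (-1 : F) • (mt gi * mt gj)
    rw [hi, hj, Matrix.mul_fin_two, Matrix.mul_fin_two]
    ext i j
    fin_cases i <;> fin_cases j
    · show a * 0 + b * -1 = (-1) * (0 * a + 1 * b)
      ring
    · show a * 1 + b * 0 = (-1) * (0 * b + 1 * -a)
      ring
    · show b * 0 + -a * -1 = (-1) * (-1 * a + 0 * b)
      ring
    · show b * 1 + -a * 0 = (-1) * (-1 * b + 0 * -a)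
      ring
  have hne : pm gi ≠ pm gj := by
    intro h
    obtain ⟨c, -, hc⟩ := pm_eq h
    rw [hi, hj] at hc
    have h01 : (1 : F) = c * b := congrFun (congrFun hc 0) 1
    have h10 : (-1 : F) = c * b := congrFun (congrFun hc 1) 0
    apply h2
    linear_combination h01 - h10
  -- membership
  have mi : pm gi ∈ PS F := mem_PS.mpr ⟨gi, by rw [hi, hdi], rfl⟩
  have mj : pm gj ∈ PS F := mem_PS.mpr ⟨gj, by rw [hj, hdj], rfl⟩
  have mh : pm gh ∈ PS F := by
    have hdet : ((2 : F)⁻¹ • mt gh).det = 1 := by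
      rw [Matrix.det_smul, hh, hd4, Fintype.card_fin]
      field_simp
      norm_num
    obtain ⟨g', hg'⟩ : ∃ g : GL (Fin 2) F, mt g = (2 : F)⁻¹ • mt gh := ⟨GeneralLinearGroup.mkOfDetNeZero _ (by rw [hdet]; exact one_ne_zero), rfl⟩
    exact mem_PS.mpr ⟨g', by rw [hg', hdet], pm_of_smul hg'⟩
  refine ⟨⟨_, mi⟩, ⟨_, mj⟩, ⟨_, mh⟩, ?_, ?_, ?_, ?_, ?_, ?_, ?_⟩
  · apply Subtype.ext
    show (pm gi) ^ 2 = 1
    rw [pow_two, ← map_mul, r1]
  · apply Subtype.ext
    show (pm gj) ^ 2 = 1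
    rw [pow_two, ← map_mul, r2]
  · apply Subtype.ext
    show (pm gh) ^ 3 = 1
    rw [pow_succ, pow_two, ← map_mul, ← map_mul, r3]
  · apply Subtype.ext
    show pm gj * pm gi * (pm gj)⁻¹ = pm gi
    rw [← map_mul, r6, map_mul, mul_inv_cancel_right]
  · apply Subtype.ext
    show pm gh * pm gi * (pm gh)⁻¹ = pm gj
    rw [← map_mul, r4, map_mul, mul_inv_cancel_right]
  · apply Subtype.ext
    show pm gh * pm gj * (pm gh)⁻¹ = pm gi * pm gj
    rw [← map_mul, r5, map_mul, mul_inv_cancel_right, map_mul]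
  · intro h
    exact hne (congrArg Subtype.val h)

end

end Pool.Agent.H32.HallD
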