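import Pool.Agent.H32.HallD.PiPart
import Pool.Agent.H32.HallD.CardSL

/-!
# HallD MonA: the monomial subgroups `Mon μ = D(μ) : 3` of `SL₃`
-/

set_option autoImplicit false

open Matrix

namespace Pool.Agent.H32.HallD

variable {F : Type} [Field F]

/-- the special linear group of degree three -/
abbrev SL3 (F : Type) [Field F] := SpecialLinearGroup (Fin 3) F

/-- the matrix -/
def sm (A : SL3 F) : Matrix (Fin 3) (Fin 3) F := A.1

theorem sm_mul (A B : SL3 F) : sm (A * B) = sm A * sm B := rfl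

theorem sm_one : sm (1 : SL3 F) = 1 := rfl

theorem sm_inv_mul (A : SL3 F) : sm A⁻¹ * sm A = 1 := by
  rw [← sm_mul, inv_mul_cancel, sm_one]

theorem sm_inj {A B : SL3 F} (h : sm A = sm B) : A = B := Subtype.ext h

theorem sm_det (A : SL3 F) : (sm A).det = 1 := A.2

/-- the matrix with rows `d i e_{i+k}` -/
def mm (k : Fin 3) (d : Fin 3 → F) : Matrix (Fin 3) (Fin 3) F := Matrix.of fun i j => if j = i + k then d i else 0

theorem mm_apply (k : Fin 3) (d : Fin 3 → F) (i j : Fin 3) : mm k d i j = if j = i + k then d i else 0 := rfl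

theorem mm_mul (k l : Fin 3) (d e : Fin 3 → F) : mm k d * mm l e = mm (k + l) (fun i => d i * e (i + k)) := by
  ext i j
  rw [Matrix.mul_apply, mm_apply]
  rw [Finset.sum_eq_single (i + k)]
  · rw [mm_apply, mm_apply, if_pos rfl]
    by_cases h : j = i + k + l
    · rw [if_pos h, if_pos (by rw [h, add_assoc])]
    · rw [if_neg h, if_neg (by rw [← add_assoc]; exact h), mul_zero]
  · intro m _ hm
    rw [mm_apply, if_neg hm, zero_mul]
  · intro h
    exact absurd (Finset.mem_univ _) h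

theorem mm_one : mm 0 (fun _ => (1 : F)) = 1 := by
  ext i j
  rw [mm_apply, Matrix.one_apply, add_zero]
  by_cases h : i = j
  · rw [if_pos h, if_pos h.symm]
  · rw [if_neg h, if_neg (fun h2 => h h2.symm)]

theorem det_mm (k : Fin 3) (d : Fin 3 → F) : (mm k d).det = d 0 * d 1 * d 2 := by
  rw [Matrix.det_fin_three]
  have h01 : (1 : Fin 3) + 1 = 2 := rfl
  have h02 : (1 : Fin 3) + 2 = 0 := rfl
  have h03 : (2 : Fin 3) + 1 = 0 := rfl
  have h04 : (2 : Fin 3) + 2 = 1 := rfl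
  fin_cases k <;> simp [mm_apply, h01, h02, h03, h04] <;> ring

theorem mm_inj {k l : Fin 3} {d e : Fin 3 → F} (hd : ∀ i, d i ≠ 0) (h : mm k d = mm l e) : k = l ∧ d = e := by
  have h1 : k = l := by
    have h2 := congrFun (congrFun h 0) (0 + k)
    rw [mm_apply, mm_apply, if_pos rfl] at h2
    by_contra hkl
    rw [if_neg (by rw [zero_add, zero_add]; exact hkl)] at h2
    exact hd 0 h2
  refine ⟨h1, ?_⟩
  subst h1
  ext i
  have h2 := congrFun (congrFun h i) (i + k)
  rw [mm_apply, mm_apply, if_pos rfl, if_pos rfl] at h2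
  exact h2

/-- the monomial group -/
def Mon (μ : Subgroup Fˣ) : Subgroup (SL3 F) where
  carrier := {A | ∃ (k : Fin 3) (d : Fin 3 → Fˣ), (∀ i, d i ∈ μ) ∧ sm A = mm k (fun i => (d i : F))}
  mul_mem' := by
    rintro A B ⟨k, d, hd, hA⟩ ⟨l, e, he, hB⟩
    refine ⟨k + l, fun i => d i * e (i + k), fun i => μ.mul_mem (hd i) (he _), ?_⟩
    rw [sm_mul, hA, hB, mm_mul]
    rfl
  one_mem' := ⟨0, fun _ => 1, fun _ => μ.one_mem, by rw [sm_one]; exact mm_one.symm⟩
  inv_mem' := by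
    rintro A ⟨k, d, hd, hA⟩
    refine ⟨-k, fun i => (d (i + -k))⁻¹, fun i => μ.inv_mem (hd _), ?_⟩
    have h1 : sm A * mm (-k) (fun i => (((d (i + -k))⁻¹ : Fˣ) : F)) = 1 := by
      rw [hA, mm_mul, add_neg_cancel, ← mm_one]
      congr 1
      ext i
      rw [add_neg_cancel_right]
      exact Units.mul_inv (d i)
    have h2 : sm A⁻¹ * sm A = 1 := by
      exact sm_inv_mul A
    calc sm A⁻¹ = sm A⁻¹ * (sm A * mm (-k) (fun i => (((d (i + -k))⁻¹ : Fˣ) : F))) := by
          rw [h1, mul_one]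
      _ = mm (-k) (fun i => (((d (i + -k))⁻¹ : Fˣ) : F)) := by
          rw [← mul_assoc, h2, one_mul]

theorem mem_Mon {μ : Subgroup Fˣ} {A : SL3 F} :
    A ∈ Mon μ ↔ ∃ (k : Fin 3) (d : Fin 3 → Fˣ), (∀ i, d i ∈ μ) ∧ sm A = mm k (fun i => (d i : F)) := Iff.rfl

/-- the diagonal group -/
def Dg (F : Type) [Field F] : Subgroup (SL3 F) where
  carrier := {A | ∃ d : Fin 3 → Fˣ, sm A = mm 0 (fun i => (d i : F))}
  mul_mem' := by
    rintro A B ⟨d, hA⟩ ⟨e, hB⟩
    refine ⟨fun i => d i * e i, ?_⟩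
    rw [sm_mul, hA, hB, mm_mul, add_zero]
    congr 1
    ext i
    rw [add_zero]
    rfl
  one_mem' := ⟨fun _ => 1, by rw [sm_one]; exact mm_one.symm⟩
  inv_mem' := by
    rintro A ⟨d, hA⟩
    refine ⟨fun i => (d i)⁻¹, ?_⟩
    have h1 : sm A * mm 0 (fun i => (((d i)⁻¹ : Fˣ) : F)) = 1 := by
      rw [hA, mm_mul, add_zero, ← mm_one]
      congr 1
      ext i
      rw [add_zero]
      exact Units.mul_inv (d i)
    have h2 : sm A⁻¹ * sm A = 1 := by
      exact sm_inv_mul A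
    calc sm A⁻¹ = sm A⁻¹ * (sm A * mm 0 (fun i => (((d i)⁻¹ : Fˣ) : F))) := by
          rw [h1, mul_one]
      _ = mm 0 (fun i => (((d i)⁻¹ : Fˣ) : F)) := by
          rw [← mul_assoc, h2, one_mul]

theorem mem_Dg {A : SL3 F} : A ∈ Dg F ↔ ∃ d : Fin 3 → Fˣ, sm A = mm 0 (fun i => (d i : F)) := Iff.rfl

theorem mem_Dg_of_zero {A : SL3 F} (h : ∀ i j, i ≠ j → sm A i j = 0) : A ∈ Dg F := by
  have hdet : sm A 0 0 * sm A 1 1 * sm A 2 2 = 1 := by
    have h1 := sm_det A
    rw [Matrix.det_fin_three] at h1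
    have e1 := h 0 1 (by decide)
    have e2 := h 0 2 (by decide)
    have e3 := h 1 0 (by decide)
    have e4 := h 1 2 (by decide)
    have e5 := h 2 0 (by decide)
    have e6 := h 2 1 (by decide)
    simp only [e1, e2, e3, e4, e5, e6] at h1
    linear_combination h1
  have h0 : ∀ i, sm A i i ≠ 0 := by
    intro i hi
    fin_cases i
    · simp only [Fin.zero_eta] at hi
      rw [hi] at hdet
      simp at hdet
    · simp only [Fin.mk_one] at hi
      rw [hi] at hdet
      simp at hdet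
    · simp only [Fin.reduceFinMk] at hi
      rw [hi] at hdet
      simp at hdet
  refine ⟨fun i => Units.mk0 (sm A i i) (h0 i), ?_⟩
  ext i j
  rw [mm_apply, add_zero]
  by_cases hij : j = i
  · rw [if_pos hij, hij]
    rfl
  · rw [if_neg hij]
    exact h i j (fun h2 => hij h2.symm)

/-- the order of the monomial group -/
theorem card_Mon (μ : Subgroup Fˣ) : Nat.card (Mon μ) = 3 * Nat.card μ ^ 2 := by
  have hdet : ∀ (k : Fin 3) (a b : Fˣ), (mm k (fun i => ((![a, b, (a * b)⁻¹] i : Fˣ) : F))).det = 1 := by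
    intro k a b
    rw [det_mm]
    have h1 : ((a * b * (a * b)⁻¹ : Fˣ) : F) = 1 := by rw [mul_inv_cancel]; rfl
    exact h1
  have hmem : ∀ x : Fin 3 × μ × μ, (⟨mm x.1 (fun i => ((![(x.2.1 : Fˣ), x.2.2, ((x.2.1 : Fˣ) * x.2.2)⁻¹] i : Fˣ) : F)), hdet _ _ _⟩ : SL3 F) ∈ Mon μ := by
    rintro ⟨k, a, b⟩
    refine ⟨k, ![(a : Fˣ), b, ((a : Fˣ) * b)⁻¹], ?_, rfl⟩
    intro i
    fin_cases i
    · exact a.2
    · exact b.2
    · exact μ.inv_mem (μ.mul_mem a.2 b.2)
  have h1 : Nat.card (Fin 3 × μ × μ) = Nat.card (Mon μ) := by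
    refine Nat.card_congr (Equiv.ofBijective (fun x => (⟨_, hmem x⟩ : Mon μ)) ⟨?_, ?_⟩)
    · rintro ⟨k, a, b⟩ ⟨l, c, d⟩ h
      have h2 := congrArg (fun A : Mon μ => sm (A : SL3 F)) h
      obtain ⟨h3, h4⟩ := mm_inj (fun i => Units.ne_zero _) h2
      have h5 := congrFun h4 0
      have h6 := congrFun h4 1
      have h7 : a = c := Subtype.ext (Units.ext h5)
      have h8 : b = d := Subtype.ext (Units.ext h6)
      rw [h7, h8]
      have h9 : k = l := h3
      rw [h9]
    · rintro ⟨A, k, d, hd, hA⟩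
      refine ⟨(k, ⟨d 0, hd 0⟩, ⟨d 1, hd 1⟩), ?_⟩
      apply Subtype.ext
      apply Subtype.ext
      show mm k _ = sm A
      rw [hA]
      congr 1
      ext i
      have h2 := sm_det A
      rw [hA, det_mm] at h2
      have h3 : d 0 * d 1 * d 2 = 1 := Units.ext h2
      fin_cases i
      · rfl
      · rfl
      · show (((d 0 * d 1)⁻¹ : Fˣ) : F) = d 2
        rw [inv_eq_of_mul_eq_one_right h3]
  rw [← h1, Nat.card_prod, Nat.card_prod, Nat.card_eq_fintype_card, Fintype.card_fin, pow_two]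

end Pool.Agent.H32.HallD
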