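import Pool.Agent.H32.HallD.MonA

/-!
# HallD MonB: the monomial group over the `π`-part is a Hall subgroup; `π`-subgroups of the full monomial group
-/

set_option autoImplicit false

open Matrix

namespace Pool.Agent.H32.HallD

variable {F : Type} [Field F]

/-- the `π`-part of the multiplicative group -/
def muPi (π : Set ℕ) (F : Type) [Field F] : Subgroup Fˣ := piPart π ⊤ (fun x _ y _ => mul_comm x y)

theorem mem_muPi {π : Set ℕ} {x : Fˣ} : x ∈ muPi π F ↔ PiNumber π (orderOf x) :=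
  ⟨fun h => h.2, fun h => ⟨Subgroup.mem_top x, h⟩⟩

theorem card_muPi [Finite F] (π : Set ℕ) : ∃ m : ℕ, Nat.card (muPi π F) * m = Nat.card F - 1 ∧ PiNumber π (Nat.card (muPi π F)) ∧ PiPrimeNumber π m := by
  refine ⟨(muPi π F).index, ?_, card_piPart π _ _, ?_⟩
  · rw [Subgroup.card_mul_index, Nat.card_units]
  · have h1 := relIndex_piPart π (⊤ : Subgroup Fˣ) (fun x _ y _ => mul_comm x y)
    rw [Subgroup.relIndex_top_right] at h1
    exact h1

theorem hall_Mon [Finite F] {s : ℕ} (hs : s.Prime) (h5 : 5 ≤ s) (hsq : s ∣ Nat.card F - 1)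
    (h9 : Nat.card F % 9 = 2 ∨ Nat.card F % 9 = 4 ∨ Nat.card F % 9 = 5 ∨ Nat.card F % 9 = 7) : IsHall {3, s} (Mon (muPi {3, s} F)) := by
  obtain ⟨m, hm, h1, h2⟩ := card_muPi (F := F) {3, s}
  have hq : 1 < Nat.card F := Finite.one_lt_card
  obtain ⟨r, hr⟩ : ∃ r, Nat.card F = r + 1 := ⟨Nat.card F - 1, by omega⟩
  have h3m : ¬ 3 ∣ m := fun h => h2 3 Nat.prime_three h (Or.inl rfl)
  have hsm : ¬ s ∣ m := fun h => h2 s hs h (Or.inr rfl)
  refine ⟨?_, ?_⟩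
  · rw [card_Mon]
    have h3 : PiNumber {3, s} 3 := by
      intro t ht hd
      exact Or.inl ((Nat.prime_dvd_prime_iff_eq ht Nat.prime_three).mp hd)
    rw [pow_two]
    exact h3.mul (h1.mul h1)
  · have h4 := Subgroup.card_mul_index (Mon (muPi {3, s} F))
    rw [card_Mon, card_SL3, hr] at h4
    rw [hr] at hm hsq h9
    have e1 : (r + 1) ^ 2 - 1 = r * (r + 2) := by
      have : (r + 1) ^ 2 = r * (r + 2) + 1 := by ring
      omega
    have e2 : (r + 1) ^ 3 - 1 = r * (r ^ 2 + 3 * r + 3) := by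
      have : (r + 1) ^ 3 = r * (r ^ 2 + 3 * r + 3) + 1 := by ring
      omega
    have e3 : r + 1 - 1 = r := by omega
    rw [e1, e2] at h4
    rw [e3] at hm hsq
    set μ := Nat.card (muPi {3, s} F) with hμ
    have hμ0 : 0 < μ := Nat.card_pos
    have h6 : 3 * (Mon (muPi {3, s} F)).index = (r + 1) ^ 3 * m ^ 2 * ((r + 2) * (r ^ 2 + 3 * r + 3)) := by
      have h7 : μ ^ 2 * (3 * (Mon (muPi {3, s} F)).index) = μ ^ 2 * ((r + 1) ^ 3 * m ^ 2 * ((r + 2) * (r ^ 2 + 3 * r + 3))) := by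
        calc μ ^ 2 * (3 * (Mon (muPi {3, s} F)).index) = 3 * μ ^ 2 * (Mon (muPi {3, s} F)).index := by ring
          _ = (r + 1) ^ 3 * (r * (r + 2)) * (r * (r ^ 2 + 3 * r + 3)) := h4
          _ = (r + 1) ^ 3 * ((μ * m) * (r + 2)) * ((μ * m) * (r ^ 2 + 3 * r + 3)) := by rw [hm]
          _ = μ ^ 2 * ((r + 1) ^ 3 * m ^ 2 * ((r + 2) * (r ^ 2 + 3 * r + 3))) := by ring
      exact Nat.eq_of_mul_eq_mul_left (by positivity) h7
    intro t ht hd htπ
    rcases htπ with rfl | htπ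
    · have h7 : 9 ∣ (r + 1) ^ 3 * m ^ 2 * ((r + 2) * (r ^ 2 + 3 * r + 3)) := by
        rw [← h6]
        exact mul_dvd_mul_left 3 hd
      have hc1 : Nat.Coprime 3 (r + 1) := by
        rw [Nat.Prime.coprime_iff_not_dvd Nat.prime_three]
        omega
      have hc2 : Nat.Coprime 3 m := (Nat.Prime.coprime_iff_not_dvd Nat.prime_three).mpr h3m
      have hc3 : Nat.Coprime (3 ^ 2) ((r + 1) ^ 3 * m ^ 2) := Nat.Coprime.mul_right (Nat.Coprime.pow _ _ hc1) (Nat.Coprime.pow _ _ hc2)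
      have h8 : 9 ∣ (r + 2) * (r ^ 2 + 3 * r + 3) := hc3.dvd_of_dvd_mul_left h7
      have h10 : ((r + 2) * (r ^ 2 + 3 * r + 3)) % 9 = ((r % 9 + 2) * ((r % 9) ^ 2 + 3 * (r % 9) + 3)) % 9 := by
        simp [Nat.mul_mod, Nat.add_mod, Nat.pow_mod]
      have h11 : r % 9 = 1 ∨ r % 9 = 3 ∨ r % 9 = 4 ∨ r % 9 = 6 := by omega
      rw [Nat.dvd_iff_mod_eq_zero, h10] at h8
      rcases h11 with h | h | h | h <;> rw [h] at h8 <;> norm_num at h8
    · have hts : t = s := htπ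
      subst hts
      have h7 : t ∣ (r + 1) ^ 3 * m ^ 2 * ((r + 2) * (r ^ 2 + 3 * r + 3)) := by
        rw [← h6]
        exact Dvd.dvd.mul_left hd 3
      rcases (Nat.Prime.dvd_mul ht).mp h7 with h8 | h8
      · rcases (Nat.Prime.dvd_mul ht).mp h8 with h9' | h9'
        · have h10 := ht.dvd_of_dvd_pow h9'
          have h11 : t ∣ 1 := (Nat.dvd_add_right hsq).mp h10
          exact ht.one_lt.ne' (Nat.dvd_one.mp h11)
        · exact hsm (ht.dvd_of_dvd_pow h9')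
      · rcases (Nat.Prime.dvd_mul ht).mp h8 with h9' | h9'
        · have h11 : t ∣ 2 := (Nat.dvd_add_right hsq).mp h9'
          have := Nat.le_of_dvd (by norm_num) h11
          omega
        · have h12 : t ∣ r ^ 2 + 3 * r := Dvd.dvd.add (Dvd.dvd.pow hsq (by norm_num)) (Dvd.dvd.mul_left hsq 3)
          have h11 : t ∣ 3 := (Nat.dvd_add_right h12).mp h9'
          have := Nat.le_of_dvd (by norm_num) h11
          omega

/-- powers of diagonal matrices -/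
theorem sm_pow_Dg {A : SL3 F} {d : Fin 3 → Fˣ} (h : sm A = mm 0 (fun i => (d i : F))) (n : ℕ) :
    sm (A ^ n) = mm 0 (fun i => (((d i) ^ n : Fˣ) : F)) := by
  induction n with
  | zero =>
    rw [pow_zero, sm_one, ← mm_one]
    congr 1
    ext i
    rw [pow_zero]
    rfl
  | succ n ih =>
    rw [pow_succ, sm_mul, ih, h, mm_mul, add_zero]
    congr 1
    ext i
    rw [add_zero, pow_succ]
    rfl

theorem mem_Mon_of_Dg {π : Set ℕ} {A : SL3 F} (hA : A ∈ Dg F) (h : PiNumber π (orderOf A)) : A ∈ Mon (muPi π F) := by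
  obtain ⟨d, hd⟩ := hA
  refine ⟨0, d, ?_, hd⟩
  intro i
  rw [mem_muPi]
  refine h.of_dvd (orderOf_dvd_of_pow_eq_one ?_)
  have h1 := sm_pow_Dg hd (orderOf A)
  rw [pow_orderOf_eq_one, sm_one, ← mm_one] at h1
  obtain ⟨-, h2⟩ := mm_inj (fun _ => one_ne_zero) h1
  exact Units.ext (congrFun h2 i).symm

/-- the shift of a monomial matrix -/
def Sh (k : Fin 3) (A : SL3 F) : Prop := ∃ d : Fin 3 → Fˣ, sm A = mm k (fun i => (d i : F))

theorem Sh.mul {k l : Fin 3} {A B : SL3 F} (hA : Sh k A) (hB : Sh l B) : Sh (k + l) (A * B) := by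
  obtain ⟨d, hA⟩ := hA
  obtain ⟨e, hB⟩ := hB
  refine ⟨fun i => d i * e (i + k), ?_⟩
  rw [sm_mul, hA, hB, mm_mul]
  rfl

theorem Sh.mem {k : Fin 3} {A : SL3 F} (hA : Sh k A) : A ∈ Mon (⊤ : Subgroup Fˣ) := by
  obtain ⟨d, hA⟩ := hA
  exact ⟨k, d, fun i => Subgroup.mem_top _, hA⟩

theorem Sh.of_mem {μ : Subgroup Fˣ} {A : SL3 F} (hA : A ∈ Mon μ) : ∃ k, Sh k A := by
  obtain ⟨k, d, -, h⟩ := hA
  exact ⟨k, d, h⟩

theorem Sh.unique {k l : Fin 3} {A : SL3 F} (h1 : Sh k A) (h2 : Sh l A) : k = l := by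
  obtain ⟨d, h1⟩ := h1
  obtain ⟨e, h2⟩ := h2
  exact (mm_inj (fun i => Units.ne_zero _) (h1.symm.trans h2)).1

theorem sh_one : Sh 0 (1 : SL3 F) := ⟨fun _ => 1, by rw [sm_one]; exact mm_one.symm⟩

theorem Sh.inv {k : Fin 3} {A : SL3 F} (hA : Sh k A) : Sh (-k) A⁻¹ := by
  obtain ⟨l, hl⟩ := Sh.of_mem ((Mon (⊤ : Subgroup Fˣ)).inv_mem hA.mem)
  have h1 := hA.mul hl
  rw [mul_inv_cancel] at h1
  have h2 := h1.unique sh_one
  have h3 : l = -k := by
    rw [eq_neg_iff_add_eq_zero, add_comm]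
    exact h2
  rw [← h3]
  exact hl

theorem Dg_comm {A B : SL3 F} (hA : A ∈ Dg F) (hB : B ∈ Dg F) : A * B = B * A := by
  obtain ⟨d, hA⟩ := hA
  obtain ⟨e, hB⟩ := hB
  apply sm_inj
  rw [sm_mul, sm_mul, hA, hB, mm_mul, mm_mul, add_zero]
  congr 1
  ext i
  rw [add_zero, mul_comm]

end Pool.Agent.H32.HallD
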