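import Pool.Agent.H32.HallD.MonB

/-!
# HallD MonC: a `π`-subgroup of the full monomial group is conjugate to a subgroup of `Mon μ`, `μ` the `π`-part
-/

set_option autoImplicit false

open Matrix

namespace Pool.Agent.H32.HallD

variable {F : Type} [Field F] [Finite F]

theorem pi_order {π : Set ℕ} {G : Type*} [Group G] [Finite G] {M : Subgroup G} (hM : PiSubgroup π M) {x : G} (hx : x ∈ M) : PiNumber π (orderOf x) := by
  refine PiNumber.of_dvd hM ?_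
  have h1 := orderOf_dvd_natCard (⟨x, hx⟩ : M)
  rwa [← Subgroup.orderOf_coe] at h1

/-- the `π'`-part as a power -/
theorem exists_part {π : Set ℕ} (h3 : 3 ∈ π) : ∃ N : ℕ, (∀ x : Fˣ, x * (x ^ N)⁻¹ ∈ muPi π F) ∧ ∀ x : Fˣ, (3 : ℕ).Coprime (orderOf (x ^ N)) := by
  obtain ⟨m, hm, h1, h2⟩ := card_muPi (F := F) π
  set μ := Nat.card (muPi π F) with hμ
  have hco : Nat.Coprime μ m := coprime_of_pi h1 h2
  obtain ⟨N, hN1, hN2⟩ := Nat.chineseRemainder hco 0 1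
  have hx : ∀ x : Fˣ, x ^ (μ * m) = 1 := by
    intro x
    rw [hm, ← Nat.card_units]
    exact pow_card_eq_one'
  refine ⟨N, ?_, ?_⟩
  · intro x
    rw [mem_muPi]
    refine h1.of_dvd (orderOf_dvd_of_pow_eq_one ?_)
    rw [mul_pow, inv_pow, ← pow_mul, mul_comm N, pow_mul]
    have h4 : orderOf (x ^ μ) ∣ m := orderOf_dvd_of_pow_eq_one (by rw [← pow_mul]; exact hx x)
    have h5 : (x ^ μ) ^ N = x ^ μ := by
      have h6 : (x ^ μ) ^ N = (x ^ μ) ^ 1 := pow_eq_pow_iff_modEq.mpr (hN2.of_dvd h4)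
      rw [h6, pow_one]
    rw [h5, mul_inv_cancel]
  · intro x
    have h4 : orderOf (x ^ N) ∣ m := by
      apply orderOf_dvd_of_pow_eq_one
      obtain ⟨j, hj⟩ := (Nat.modEq_zero_iff_dvd.mp hN1)
      rw [← pow_mul, hj, mul_right_comm, pow_mul, hx, one_pow]
    rw [Nat.Prime.coprime_iff_not_dvd Nat.prime_three]
    intro h5
    exact h2 3 Nat.prime_three (h5.trans h4) h3

theorem conj_Mon {π : Set ℕ} (h3 : 3 ∈ π) {M : Subgroup (SL3 F)} (hM : PiSubgroup π M) (hle : M ≤ Mon (⊤ : Subgroup Fˣ)) :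
    ∃ t, M ≤ cj t (Mon (muPi π F)) := by
  have hMD : ∀ x ∈ M, x ∈ Dg F → x ∈ Mon (muPi π F) := fun x hx hxD => mem_Mon_of_Dg hxD (pi_order hM hx)
  by_cases hD : ∀ x ∈ M, x ∈ Dg F
  · refine ⟨1, fun x hx => ?_⟩
    rw [mem_cj, inv_one, one_mul, mul_one]
    exact hMD x hx (hD x hx)
  push Not at hD
  obtain ⟨g, hgM, hgD⟩ := hD
  obtain ⟨g1, hg1M, hg1⟩ : ∃ g1 ∈ M, Sh 1 g1 := by
    obtain ⟨k, hk⟩ := Sh.of_mem (hle hgM)
    have h4 : k = 0 ∨ k = 1 ∨ k = 2 := by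
      fin_cases k <;> simp
    rcases h4 with rfl | rfl | rfl
    · exact absurd hk hgD
    · exact ⟨g, hgM, hk⟩
    · exact ⟨g * g, M.mul_mem hgM hgM, hk.mul hk⟩
  obtain ⟨d, hd⟩ := hg1
  have hdet : d 0 * d 1 * d 2 = 1 := by
    have h4 := sm_det g1
    rw [hd, det_mm] at h4
    exact Units.ext h4
  obtain ⟨N, hN1, hN2⟩ := exists_part (F := F) h3
  obtain ⟨j, hj⟩ := exists_pow_eq_self_of_coprime (hN2 (d 0 * d 0 * d 1))
  obtain ⟨w, hw⟩ : ∃ w : Fˣ, w = (d 0 * d 0 * d 1) ^ N := ⟨_, rfl⟩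
  rw [← hw] at hj
  obtain ⟨l, hl⟩ : ∃ l : Fˣ, l = (w ^ j)⁻¹ := ⟨_, rfl⟩
  have hw3 : w ^ j * w ^ j * w ^ j = w := by
    calc w ^ j * w ^ j * w ^ j = (w ^ 3) ^ j := by
          rw [← pow_mul, ← pow_add, ← pow_add]
          congr 1
          ring
      _ = w := hj
  have hl3 : l * l * l * w = 1 := by
    rw [hl, ← mul_inv, ← mul_inv, hw3, inv_mul_cancel]
  have he : (d 0) ^ N * (d 1) ^ N * (d 2) ^ N = 1 := by
    rw [← mul_pow, ← mul_pow, hdet, one_pow]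
  set t : Fin 3 → Fˣ := ![l, l * (d 0) ^ N, l * (d 0) ^ N * (d 1) ^ N] with ht
  have hT : (mm 0 (fun i => (t i : F))).det = 1 := by
    rw [det_mm]
    have h4 : t 0 * t 1 * t 2 = 1 := by
      show l * (l * (d 0) ^ N) * (l * (d 0) ^ N * (d 1) ^ N) = 1
      rw [← hl3, hw, mul_pow, mul_pow]
      ac_rfl
    exact congrArg Units.val h4
  have hh : (mm 1 (fun i => ((d i * (d i ^ N)⁻¹ : Fˣ) : F))).det = 1 := by
    rw [det_mm]
    have h4 : (d 0 * (d 0 ^ N)⁻¹) * (d 1 * (d 1 ^ N)⁻¹) * (d 2 * (d 2 ^ N)⁻¹) = 1 := by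
      calc (d 0 * (d 0 ^ N)⁻¹) * (d 1 * (d 1 ^ N)⁻¹) * (d 2 * (d 2 ^ N)⁻¹) = (d 0 * d 1 * d 2) * (d 0 ^ N * d 1 ^ N * d 2 ^ N)⁻¹ := by
            rw [mul_inv, mul_inv]
            ac_rfl
        _ = 1 := by rw [hdet, he, inv_one, mul_one]
    exact congrArg Units.val h4
  set T : SL3 F := ⟨mm 0 (fun i => (t i : F)), hT⟩ with hTdef
  set h : SL3 F := ⟨mm 1 (fun i => ((d i * (d i ^ N)⁻¹ : Fˣ) : F)), hh⟩ with hhdef
  have hTD : T ∈ Dg F := ⟨t, rfl⟩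
  have hhμ : h ∈ Mon (muPi π F) := ⟨1, fun i => d i * (d i ^ N)⁻¹, fun i => hN1 (d i), rfl⟩
  have hstep : ∀ i, t i * d i = d i * (d i ^ N)⁻¹ * t (i + 1) := by
    intro i
    fin_cases i
    · show l * d 0 = d 0 * (d 0 ^ N)⁻¹ * (l * (d 0) ^ N)
      calc l * d 0 = d 0 * l * ((d 0 ^ N)⁻¹ * d 0 ^ N) := by rw [inv_mul_cancel, mul_one, mul_comm]
        _ = _ := by ac_rfl
    · show l * (d 0) ^ N * d 1 = d 1 * (d 1 ^ N)⁻¹ * (l * (d 0) ^ N * (d 1) ^ N)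
      calc l * (d 0) ^ N * d 1 = l * (d 0) ^ N * d 1 * ((d 1 ^ N)⁻¹ * d 1 ^ N) := by rw [inv_mul_cancel, mul_one]
        _ = _ := by ac_rfl
    · show l * (d 0) ^ N * (d 1) ^ N * d 2 = d 2 * (d 2 ^ N)⁻¹ * l
      have h5 : (d 2 ^ N)⁻¹ = d 0 ^ N * d 1 ^ N := inv_eq_of_mul_eq_one_left he
      rw [h5]
      ac_rfl
  have hTg : T * g1 * T⁻¹ = h := by
    rw [mul_inv_eq_iff_eq_mul]
    apply sm_inj
    rw [sm_mul, sm_mul, hd]
    show mm 0 (fun i => (t i : F)) * _ = mm 1 (fun i => ((d i * (d i ^ N)⁻¹ : Fˣ) : F)) * mm 0 (fun i => (t i : F))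
    rw [mm_mul, mm_mul, zero_add, add_zero]
    congr 1
    ext i
    rw [add_zero]
    exact congrArg Units.val (hstep i)
  have hpow : ∀ k : Fin 3, ∃ c ∈ M, Sh k c ∧ T * c * T⁻¹ ∈ Mon (muPi π F) := by
    intro k
    fin_cases k
    · refine ⟨1, M.one_mem, sh_one, ?_⟩
      rw [mul_one, mul_inv_cancel]
      exact (Mon _).one_mem
    · refine ⟨g1, hg1M, ⟨d, hd⟩, ?_⟩
      rw [hTg]
      exact hhμ
    · refine ⟨g1 * g1, M.mul_mem hg1M hg1M, Sh.mul ⟨d, hd⟩ ⟨d, hd⟩, ?_⟩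
      have h4 : T * (g1 * g1) * T⁻¹ = h * h := by
        rw [← hTg]
        group
      rw [h4]
      exact (Mon _).mul_mem hhμ hhμ
  refine ⟨T⁻¹, fun x hx => ?_⟩
  rw [mem_cj, inv_inv]
  obtain ⟨k, hk⟩ := Sh.of_mem (hle hx)
  obtain ⟨c, hc, hck, hcT⟩ := hpow k
  have hy : x * c⁻¹ ∈ Dg F := by
    have h4 := hk.mul hck.inv
    rw [add_neg_cancel] at h4
    exact h4
  have hyM : x * c⁻¹ ∈ M := M.mul_mem hx (M.inv_mem hc)
  have h5 : T * (x * c⁻¹) * T⁻¹ = x * c⁻¹ := by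
    rw [Dg_comm hTD hy, mul_inv_cancel_right]
  have h6 : T * x * T⁻¹ = (x * c⁻¹) * (T * c * T⁻¹) := by
    rw [← h5]
    group
  rw [h6]
  exact (Mon _).mul_mem (hMD _ hyM hy) hcT

end Pool.Agent.H32.HallD
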