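import Pool.Agent.H32.HallD.MonC

/-!
# HallD MonD: normalisers of diagonal subgroups of `SL₃`
-/

set_option autoImplicit false

open Matrix

namespace Pool.Agent.H32.HallD

variable {F : Type} [Field F]

theorem perm_three : ∀ τ : Fin 3 → Fin 3, (∀ j, ∃ i, τ i = j) → (∃ k, ∀ i, τ i = i + k) ∨ ∀ i, τ (τ i) = i := by
  decide

/-- the entries of `y g = g x` for diagonal `x`, `y` -/
theorem entry_eq {x y g : SL3 F} {d e : Fin 3 → Fˣ} (hx : sm x = mm 0 (fun i => (d i : F))) (hy : sm y = mm 0 (fun i => (e i : F)))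
    (h : g * x * g⁻¹ = y) (i j : Fin 3) : (e i : F) * sm g i j = sm g i j * d j := by
  have h1 : y * g = g * x := by
    rw [← h]
    group
  have h2 := congrArg sm h1
  rw [sm_mul, sm_mul, hx, hy] at h2
  have h3 := congrFun (congrFun h2 i) j
  rw [Matrix.mul_apply, Matrix.mul_apply] at h3
  rw [Finset.sum_eq_single i, Finset.sum_eq_single j] at h3
  · rw [mm_apply, mm_apply, add_zero, if_pos rfl, add_zero, if_pos rfl] at h3
    exact h3
  · intro m _ hm
    rw [mm_apply, add_zero, if_neg (fun h4 => hm h4.symm), mul_zero]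
  · intro h4
    exact absurd (Finset.mem_univ _) h4
  · intro m _ hm
    rw [mm_apply, add_zero, if_neg hm, zero_mul]
  · intro h4
    exact absurd (Finset.mem_univ _) h4

theorem mono_of_distinct [Finite F] {M : Subgroup (SL3 F)} (hodd : Odd (Nat.card M)) {x : SL3 F} {d : Fin 3 → Fˣ}
    (hx : sm x = mm 0 (fun i => (d i : F))) (hd : Function.Injective d) (h : ∀ g ∈ M, g * x * g⁻¹ ∈ Dg F) : M ≤ Mon (⊤ : Subgroup Fˣ) := by
  intro g hg
  obtain ⟨e, he⟩ := h g hg
  have hent := entry_eq hx he rfl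
  have hrow : ∀ i, ∃ j, sm g i j ≠ 0 := by
    intro i
    by_contra hc
    push Not at hc
    have h1 := Matrix.det_eq_zero_of_row_eq_zero i hc
    rw [sm_det] at h1
    exact one_ne_zero h1
  choose τ hτ using hrow
  have huniq : ∀ i j, sm g i j ≠ 0 → j = τ i := by
    intro i j hij
    have h1 := hent i j
    have h2 := hent i (τ i)
    rw [mul_comm] at h1 h2
    have h3 : (e i : F) = d j := mul_left_cancel₀ hij h1
    have h4 : (e i : F) = d (τ i) := mul_left_cancel₀ (hτ i) h2
    exact hd (Units.ext (h3.symm.trans h4))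
  have hsurj : ∀ j, ∃ i, τ i = j := by
    intro j
    have h1 : ∃ i, sm g i j ≠ 0 := by
      by_contra hc
      push Not at hc
      have h1 := Matrix.det_eq_zero_of_column_eq_zero j hc
      rw [sm_det] at h1
      exact one_ne_zero h1
    obtain ⟨i, hi⟩ := h1
    exact ⟨i, (huniq i j hi).symm⟩
  rcases perm_three τ hsurj with ⟨k, hk⟩ | hττ
  · refine ⟨k, fun i => Units.mk0 (sm g i (τ i)) (hτ i), fun i => Subgroup.mem_top _, ?_⟩
    ext i j
    rw [mm_apply]
    by_cases hj : j = i + k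
    · rw [if_pos hj, hj, Units.val_mk0, hk]
    · rw [if_neg hj]
      by_contra hc
      exact hj ((huniq i j hc).trans (hk i))
  · have h1 : g ^ 2 ∈ Dg F := by
      apply mem_Dg_of_zero
      intro i j hij
      rw [pow_two, sm_mul, Matrix.mul_apply]
      apply Finset.sum_eq_zero
      intro m _
      by_cases hm : m = τ i
      · by_cases hm2 : j = τ m
        · exact absurd (by rw [hm2, hm, hττ]) hij
        · have h2 : sm g m j = 0 := by
            by_contra hc
            exact hm2 (huniq m j hc)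
          rw [h2, mul_zero]
      · have h2 : sm g i m = 0 := by
          by_contra hc
          exact hm (huniq i m hc)
        rw [h2, zero_mul]
    have h2 : (2 : ℕ).Coprime (orderOf g) := by
      have h3 : orderOf g ∣ Nat.card M := by
        have h4 := orderOf_dvd_natCard (⟨g, hg⟩ : M)
        rwa [← Subgroup.orderOf_coe] at h4
      exact Nat.Coprime.coprime_dvd_right h3 (Nat.coprime_two_left.mpr hodd)
    obtain ⟨m, hm⟩ := exists_pow_eq_self_of_coprime h2
    have h5 : g ∈ Dg F := by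
      rw [← hm]
      exact (Dg F).pow_mem h1 m
    obtain ⟨c, hc⟩ := h5
    exact ⟨0, c, fun i => Subgroup.mem_top _, hc⟩

/-- if all elements of `S` have two equal entries, then always the same two -/
theorem same_pair {S : Subgroup (SL3 F)} (hS : S ≤ Dg F) {s : ℕ} (hs : s.Prime) (h5 : 5 ≤ s) (hSs : IsPGroup s S)
    (hco : ∀ x ∈ S, ∀ d : Fin 3 → Fˣ, sm x = mm 0 (fun i => (d i : F)) → ¬ Function.Injective d)
    {x : SL3 F} (hx : x ∈ S) (hx1 : x ≠ 1) {d : Fin 3 → Fˣ} (hd : sm x = mm 0 (fun i => (d i : F))) (h01 : d 0 = d 1) :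
    d 0 ≠ d 2 ∧ ∀ y ∈ S, ∀ e : Fin 3 → Fˣ, sm y = mm 0 (fun i => (e i : F)) → e 0 = e 1 := by
  obtain ⟨n, hn⟩ := hSs ⟨x, hx⟩
  have hn' : x ^ s ^ n = 1 := congrArg Subtype.val hn
  have hdn : ∀ i, (d i) ^ s ^ n = 1 := by
    intro i
    have h1 := sm_pow_Dg hd (s ^ n)
    rw [hn', sm_one, ← mm_one] at h1
    exact Units.ext (congrFun (mm_inj (fun _ => one_ne_zero) h1).2 i).symm
  have hdet : d 0 * d 1 * d 2 = 1 := by
    have h1 := sm_det x
    rw [hd, det_mm] at h1
    exact Units.ext h1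
  have hcop : ∀ (t : ℕ), t.Prime → t < 5 → ∀ u : Fˣ, u ^ s ^ n = 1 → u ^ t = 1 → u = 1 := by
    intro t ht ht5 u hu1 hu2
    have h1 : orderOf u ∣ Nat.gcd (s ^ n) t := Nat.dvd_gcd (orderOf_dvd_of_pow_eq_one hu1) (orderOf_dvd_of_pow_eq_one hu2)
    have h2 : Nat.gcd (s ^ n) t = 1 := Nat.Coprime.pow_left n ((Nat.coprime_primes hs ht).mpr (by omega))
    rw [h2, Nat.dvd_one, orderOf_eq_one_iff] at h1
    exact h1
  have h02 : d 0 ≠ d 2 := by
    intro h02
    have h1 : d 0 ^ 3 = 1 := by
      rw [← hdet, ← h01, ← h02]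
      rw [pow_succ, pow_two]
    have h2 := hcop 3 Nat.prime_three (by norm_num) (d 0) (hdn 0) h1
    apply hx1
    apply sm_inj
    rw [hd, sm_one, ← mm_one]
    congr 1
    ext i
    fin_cases i
    · show ((d 0 : Fˣ) : F) = 1
      rw [h2]
      rfl
    · show ((d 1 : Fˣ) : F) = 1
      rw [← h01, h2]
      rfl
    · show ((d 2 : Fˣ) : F) = 1
      rw [← h02, h2]
      rfl
  refine ⟨h02, ?_⟩
  intro y hy e he
  by_contra h01'
  -- `c = d 0 / d 2`
  obtain ⟨c, hc⟩ : ∃ c : Fˣ, d 0 = c * d 2 := ⟨d 0 * (d 2)⁻¹, by rw [inv_mul_cancel_right]⟩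
  have hc1 : c ≠ 1 := by
    rintro rfl
    exact h02 (by rw [hc, one_mul])
  have hcn : c ^ s ^ n = 1 := by
    have h1 := hdn 0
    rw [hc, mul_pow, hdn 2, mul_one] at h1
    exact h1
  have hc2 : c ^ 2 ≠ 1 := fun h => hc1 (hcop 2 Nat.prime_two (by norm_num) c hcn h)
  have hk : ∀ k : ℕ, c ^ k * e 0 = e 2 ∨ c ^ k * e 1 = e 2 := by
    intro k
    have h1 : x ^ k * y ∈ S := S.mul_mem (S.pow_mem hx k) hy
    have h2 : sm (x ^ k * y) = mm 0 (fun i => (((d i) ^ k * e i : Fˣ) : F)) := by
      rw [sm_mul, sm_pow_Dg hd, he, mm_mul, add_zero]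
      congr 1
      ext i
      rw [add_zero]
      rfl
    have h3 := hco _ h1 _ h2
    by_contra hcon
    push Not at hcon
    apply h3
    have key : ∀ u v : Fˣ, d 0 ^ k * u = d 2 ^ k * v → c ^ k * u = v := by
      intro u v huv
      rw [hc, mul_pow, mul_assoc, mul_comm (d 2 ^ k), ← mul_assoc, mul_comm (d 2 ^ k) v] at huv
      exact mul_right_cancel huv
    have n01 : d 0 ^ k * e 0 ≠ d 1 ^ k * e 1 := by
      intro h4
      rw [← h01] at h4
      exact h01' (mul_left_cancel h4)
    have n02 : d 0 ^ k * e 0 ≠ d 2 ^ k * e 2 := fun h4 => hcon.1 (key _ _ h4)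
    have n12 : d 1 ^ k * e 1 ≠ d 2 ^ k * e 2 := fun h4 => hcon.2 (key _ _ (by rw [h01]; exact h4))
    intro i j hij
    fin_cases i <;> fin_cases j
    · rfl
    · exact absurd hij n01
    · exact absurd hij n02
    · exact absurd hij.symm n01
    · rfl
    · exact absurd hij n12
    · exact absurd hij.symm n02
    · exact absurd hij.symm n12
    · rfl
  have k0 := hk 0
  have k1 := hk 1
  have k2 := hk 2
  rw [pow_zero, one_mul, one_mul] at k0
  rw [pow_one] at k1
  have a1 : ∀ u v : Fˣ, u = v → c * u = v → False := by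
    intro u v h1 h2
    apply hc1
    rw [h1] at h2
    exact mul_eq_right.mp h2
  have a2 : ∀ u v : Fˣ, u = v → c ^ 2 * u = v → False := by
    intro u v h1 h2
    apply hc2
    rw [h1] at h2
    exact mul_eq_right.mp h2
  have a3 : ∀ u v : Fˣ, c * u = v → c ^ 2 * u = v → False := by
    intro u v h1 h2
    apply a1 (c * u) v h1
    rw [← mul_assoc, ← pow_two]
    exact h2
  rcases k0 with k0 | k0 <;> rcases k1 with k1 | k1
  · exact a1 _ _ k0 k1
  · rcases k2 with k2 | k2
    · exact a2 _ _ k0 k2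
    · exact a3 _ _ k1 k2
  · rcases k2 with k2 | k2
    · exact a3 _ _ k1 k2
    · exact a2 _ _ k0 k2
  · exact a1 _ _ k0 k1

/-- an element which maps `diag(a, a, b)` to a similar element commutes with it -/
theorem commute_of_pair {x y g : SL3 F} {d e : Fin 3 → Fˣ} (hx : sm x = mm 0 (fun i => (d i : F))) (hy : sm y = mm 0 (fun i => (e i : F)))
    (h : g * x * g⁻¹ = y) (hd : d 0 = d 1) (he : e 0 = e 1) : g * x = x * g := by
  have hent := entry_eq hx hy h
  have h0 : e 0 = d 0 := by
    by_contra hne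
    have hz : ∀ u : F, (e 0 : F) * u = u * d 0 → u = 0 := by
      intro u hu
      by_contra hu0
      apply hne
      rw [mul_comm] at hu
      exact Units.ext (mul_left_cancel₀ hu0 hu)
    have z00 := hz _ (hent 0 0)
    have z01 := hz (sm g 0 1) (by rw [hd]; exact hent 0 1)
    have z10 := hz (sm g 1 0) (by rw [he]; exact hent 1 0)
    have z11 := hz (sm g 1 1) (by rw [he]; nth_rw 1 [hd]; exact hent 1 1)
    have hdet := sm_det g
    rw [Matrix.det_fin_three, z00, z01, z10, z11] at hdet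
    simp at hdet
  have hdet1 : d 0 * d 1 * d 2 = 1 := by
    have h1 := sm_det x
    rw [hx, det_mm] at h1
    exact Units.ext h1
  have hdet2 : e 0 * e 1 * e 2 = 1 := by
    have h1 := sm_det y
    rw [hy, det_mm] at h1
    exact Units.ext h1
  have h1 : e 1 = d 1 := by rw [← he, h0, hd]
  have h2 : e 2 = d 2 := by
    rw [← hdet1, h0, h1] at hdet2
    exact mul_left_cancel hdet2
  have hxy : y = x := by
    apply sm_inj
    rw [hx, hy]
    congr 1
    ext i
    fin_cases i
    · exact congrArg Units.val h0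
    · exact congrArg Units.val h1
    · exact congrArg Units.val h2
  rw [hxy] at h
  exact mul_inv_eq_iff_eq_mul.mp h

end Pool.Agent.H32.HallD
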