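import Pool.Agent.H32.HallD.MonD

/-!
# HallD MonE: the centraliser of `diag(a, a, b)`
-/

set_option autoImplicit false

open Matrix

namespace Pool.Agent.H32.HallD

variable {F : Type} [Field F]

/-- the elements of the centraliser of `diag(a, a, b)` -/
theorem mem_cent {x g : SL3 F} {d : Fin 3 → Fˣ} (hx : sm x = mm 0 (fun i => (d i : F))) (h01 : d 0 = d 1) (h02 : d 0 ≠ d 2) :
    g ∈ Subgroup.centralizer ({x} : Set (SL3 F)) ↔ sm g 0 2 = 0 ∧ sm g 1 2 = 0 ∧ sm g 2 0 = 0 ∧ sm g 2 1 = 0 := by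
  rw [Subgroup.mem_centralizer_singleton_iff]
  have hne : (d 0 : F) ≠ d 2 := fun h => h02 (Units.ext h)
  constructor
  · intro h
    have h1 : g * x * g⁻¹ = x := by rw [h, mul_inv_cancel_right]
    have hent := entry_eq hx hx h1
    have hz : ∀ u : F, (d 0 : F) * u = u * d 2 → u = 0 := by
      intro u hu
      by_contra hu0
      apply hne
      rw [mul_comm] at hu
      exact mul_left_cancel₀ hu0 hu
    refine ⟨hz _ (hent 0 2), hz _ (by rw [h01]; exact hent 1 2), hz _ ?_, hz _ ?_⟩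
    · rw [mul_comm, mul_comm (sm g 2 0)]
      rw [mul_comm]
      have h2 := hent 2 0
      rw [mul_comm] at h2 ⊢
      rw [h2, mul_comm]
    · have h2 := hent 2 1
      rw [← h01] at h2
      rw [mul_comm, ← h2, mul_comm]
  · rintro ⟨h1, h2, h3, h4⟩
    apply sm_inj
    rw [sm_mul, sm_mul, hx]
    have hd1 : (d 1 : F) = d 0 := congrArg Units.val h01.symm
    ext i j
    rw [Matrix.mul_apply, Matrix.mul_apply, Fin.sum_univ_three, Fin.sum_univ_three]
    fin_cases i <;> fin_cases j <;> simp [mm_apply, h1, h2, h3, h4, hd1, mul_comm]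

/-- the order of the diagonal group -/
theorem card_Dg : Nat.card (Dg F) = Nat.card Fˣ ^ 2 := by
  have hdet : ∀ a b : Fˣ, (mm 0 (fun i => ((![a, b, (a * b)⁻¹] i : Fˣ) : F))).det = 1 := by
    intro a b
    rw [det_mm]
    have h1 : ((a * b * (a * b)⁻¹ : Fˣ) : F) = 1 := by rw [mul_inv_cancel]; rfl
    exact h1
  have h1 : Nat.card (Fˣ × Fˣ) = Nat.card (Dg F) := by
    refine Nat.card_congr (Equiv.ofBijective (fun x => (⟨⟨_, hdet x.1 x.2⟩, ⟨_, rfl⟩⟩ : Dg F)) ⟨?_, ?_⟩)
    · rintro ⟨a, b⟩ ⟨c, d⟩ h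
      have h2 := congrArg (fun A : Dg F => sm (A : SL3 F)) h
      obtain ⟨-, h4⟩ := mm_inj (fun i => Units.ne_zero _) h2
      have h7 : a = c := Units.ext (congrFun h4 0)
      have h8 : b = d := Units.ext (congrFun h4 1)
      rw [h7, h8]
    · rintro ⟨A, d, hA⟩
      refine ⟨(d 0, d 1), ?_⟩
      apply Subtype.ext
      apply sm_inj
      show mm 0 _ = sm A
      rw [hA]
      congr 1
      ext i
      have h2 := sm_det A
      rw [hA, det_mm] at h2
      have h3 : d 0 * d 1 * d 2 = 1 := Units.ext h2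
      fin_cases i
      · rfl
      · rfl
      · show (((d 0 * d 1)⁻¹ : Fˣ) : F) = d 2
        rw [inv_eq_of_mul_eq_one_right h3]
  rw [← h1, Nat.card_prod, pow_two]

/-- the order of the centraliser -/
theorem card_cent {x : SL3 F} {d : Fin 3 → Fˣ} (hx : sm x = mm 0 (fun i => (d i : F))) (h01 : d 0 = d 1) (h02 : d 0 ≠ d 2) :
    Nat.card (Subgroup.centralizer ({x} : Set (SL3 F))) = Nat.card (GL (Fin 2) F) := by
  symm
  have hdet : ∀ A : GL (Fin 2) F, (A : Matrix (Fin 2) (Fin 2) F).det ≠ 0 := by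
    intro A h
    have h1 := (GeneralLinearGroup.det A).ne_zero
    exact h1 h
  let B : GL (Fin 2) F → Matrix (Fin 3) (Fin 3) F := fun A =>
    !![(A : Matrix (Fin 2) (Fin 2) F) 0 0, (A : Matrix (Fin 2) (Fin 2) F) 0 1, 0;
      (A : Matrix (Fin 2) (Fin 2) F) 1 0, (A : Matrix (Fin 2) (Fin 2) F) 1 1, 0; 0, 0, ((A : Matrix (Fin 2) (Fin 2) F).det)⁻¹]
  have hB : ∀ A, (B A).det = 1 := by
    intro A
    have h1 := hdet A
    have h2 : (B A).det = (A : Matrix (Fin 2) (Fin 2) F).det * ((A : Matrix (Fin 2) (Fin 2) F).det)⁻¹ := by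
      rw [Matrix.det_fin_three]
      nth_rw 1 [Matrix.det_fin_two]
      simp [B]
      ring
    rw [h2, mul_inv_cancel₀ h1]
  have hmem : ∀ A, (⟨B A, hB A⟩ : SL3 F) ∈ Subgroup.centralizer ({x} : Set (SL3 F)) := by
    intro A
    exact (mem_cent (g := (⟨B A, hB A⟩ : SL3 F)) hx h01 h02).mpr ⟨rfl, rfl, rfl, rfl⟩
  refine Nat.card_congr (Equiv.ofBijective (fun A => (⟨⟨B A, hB A⟩, hmem A⟩ : Subgroup.centralizer ({x} : Set (SL3 F)))) ⟨?_, ?_⟩)
  · intro A A' h
    have h2 : B A = B A' := congrArg (fun y : Subgroup.centralizer ({x} : Set (SL3 F)) => sm (y : SL3 F)) h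
    apply Units.ext
    ext i j
    fin_cases i <;> fin_cases j
    · exact congrFun (congrFun h2 0) 0
    · exact congrFun (congrFun h2 0) 1
    · exact congrFun (congrFun h2 1) 0
    · exact congrFun (congrFun h2 1) 1
  · rintro ⟨g, hg⟩
    obtain ⟨h1, h2, h3, h4⟩ := (mem_cent hx h01 h02).mp hg
    have h5 := sm_det g
    rw [Matrix.det_fin_three, h1, h2, h3, h4] at h5
    have h6 : (!![sm g 0 0, sm g 0 1; sm g 1 0, sm g 1 1] : Matrix (Fin 2) (Fin 2) F).det * sm g 2 2 = 1 := by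
      rw [Matrix.det_fin_two]
      show (sm g 0 0 * sm g 1 1 - sm g 0 1 * sm g 1 0) * sm g 2 2 = 1
      linear_combination h5
    have h7 : (!![sm g 0 0, sm g 0 1; sm g 1 0, sm g 1 1] : Matrix (Fin 2) (Fin 2) F).det ≠ 0 := by
      intro h8
      rw [h8, zero_mul] at h6
      exact zero_ne_one h6
    refine ⟨GeneralLinearGroup.mkOfDetNeZero _ h7, ?_⟩
    apply Subtype.ext
    apply sm_inj
    show B _ = sm g
    have h8 : (!![sm g 0 0, sm g 0 1; sm g 1 0, sm g 1 1] : Matrix (Fin 2) (Fin 2) F).det⁻¹ = sm g 2 2 := inv_eq_of_mul_eq_one_right h6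
    ext i j
    fin_cases i <;> fin_cases j
    · rfl
    · rfl
    · exact h1.symm
    · rfl
    · rfl
    · exact h2.symm
    · exact h3.symm
    · exact h4.symm
    · exact h8

/-- the diagonal group has index prime to three in the centraliser -/
theorem index_cent [Finite F] (hq : Nat.card F % 3 = 1) {x : SL3 F} {d : Fin 3 → Fˣ} (hx : sm x = mm 0 (fun i => (d i : F))) (h01 : d 0 = d 1)
    (h02 : d 0 ≠ d 2) : ¬ 3 ∣ ((Dg F).subgroupOf (Subgroup.centralizer ({x} : Set (SL3 F)))).index := by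
  haveI : Fintype F := Fintype.ofFinite F
  have hle : Dg F ≤ Subgroup.centralizer ({x} : Set (SL3 F)) := by
    intro y hy
    rw [Subgroup.mem_centralizer_singleton_iff]
    exact Dg_comm hy ⟨d, hx⟩
  have h1 := Subgroup.card_mul_index ((Dg F).subgroupOf (Subgroup.centralizer ({x} : Set (SL3 F))))
  rw [card_cent hx h01 h02, card_GL_field, Fin.prod_univ_two, ← Nat.card_eq_fintype_card] at h1
  rw [Nat.card_congr (Subgroup.subgroupOfEquivOfLe hle).toEquiv, card_Dg, Nat.card_units] at h1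
  simp only [Fin.val_zero, pow_zero, Fin.val_one, pow_one] at h1
  have hq1 : 1 < Nat.card F := Finite.one_lt_card
  obtain ⟨r, hr⟩ : ∃ r, Nat.card F = r + 1 := ⟨Nat.card F - 1, by omega⟩
  rw [hr] at h1 hq hq1
  have e1 : (r + 1) ^ 2 - 1 = r * (r + 2) := by
    have : (r + 1) ^ 2 = r * (r + 2) + 1 := by ring
    omega
  have e2 : (r + 1) ^ 2 - (r + 1) = r * (r + 1) := by
    have : (r + 1) ^ 2 = r * (r + 1) + (r + 1) := by ring
    omega
  have e3 : r + 1 - 1 = r := by omega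
  rw [e1, e2, e3] at h1
  have h2 : ((Dg F).subgroupOf (Subgroup.centralizer ({x} : Set (SL3 F)))).index = (r + 2) * (r + 1) := by
    have h3 : r ^ 2 * ((Dg F).subgroupOf (Subgroup.centralizer ({x} : Set (SL3 F)))).index = r ^ 2 * ((r + 2) * (r + 1)) := by
      rw [h1]
      ring
    exact Nat.eq_of_mul_eq_mul_left (by have : 0 < r := by omega
                                        positivity) h3
  rw [h2]
  intro h3
  rcases (Nat.Prime.dvd_mul Nat.prime_three).mp h3 with h4 | h4 <;> omega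

/-- the central elements -/
theorem cent_comm {x y g : SL3 F} {d e : Fin 3 → Fˣ} (hx : sm x = mm 0 (fun i => (d i : F))) (h01 : d 0 = d 1) (h02 : d 0 ≠ d 2)
    (hy : sm y = mm 0 (fun i => (e i : F))) (he : e 0 = e 1) (hg : g ∈ Subgroup.centralizer ({x} : Set (SL3 F))) : g * y = y * g := by
  obtain ⟨h1, h2, h3, h4⟩ := (mem_cent hx h01 h02).mp hg
  apply sm_inj
  rw [sm_mul, sm_mul, hy]
  have he1 : (e 1 : F) = e 0 := congrArg Units.val he.symm
  ext i j
  rw [Matrix.mul_apply, Matrix.mul_apply, Fin.sum_univ_three, Fin.sum_univ_three]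
  fin_cases i <;> fin_cases j <;> simp [mm_apply, h1, h2, h3, h4, he1, mul_comm]

end Pool.Agent.H32.HallD
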