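import Pool.Agent.H32.HallD.MonE

/-!
# HallD MonF: `π = {3, s}`: every `π`-subgroup of `SL₃(q)`, `q = 4, 7 mod 9`, `5 ≤ s ∣ q - 1`, is conjugate to a subgroup of `Mon μ`
-/

set_option autoImplicit false

open Matrix

namespace Pool.Agent.H32.HallD

variable {F : Type} [Field F] [Finite F]

theorem conj_ne_one' {G : Type*} [Group G] {g x : G} (hx : x ≠ 1) : g * x * g⁻¹ ≠ 1 := by
  intro h
  exact hx (conj_eq_one_iff.mp h)

omit [Finite F] in
theorem Mon_cube {μ : Subgroup Fˣ} {A : SL3 F} (hA : A ∈ Mon μ) : A ^ 3 ∈ Dg F := by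
  obtain ⟨k, hk⟩ := Sh.of_mem hA
  have h1 := (hk.mul hk).mul hk
  have h2 : k + k + k = 0 := by
    fin_cases k <;> rfl
  rw [h2] at h1
  have h3 : A ^ 3 = A * A * A := by rw [pow_succ, pow_two]
  rw [h3]
  exact h1

/-- an `s`-element of the monomial group is diagonal -/
theorem Dg_of_Mon {μ : Subgroup Fˣ} {A : SL3 F} (hA : A ∈ Mon μ) (h : (3 : ℕ).Coprime (orderOf A)) : A ∈ Dg F := by
  obtain ⟨m, hm⟩ := exists_pow_eq_self_of_coprime h
  rw [← hm]
  exact (Dg F).pow_mem (Mon_cube hA) m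

/-- the order of `SL₃` is not divisible by `81` -/
theorem not_dvd_card (h9 : Nat.card F % 9 = 4 ∨ Nat.card F % 9 = 7) : ¬ 81 ∣ Nat.card (SL3 F) := by
  rw [card_SL3]
  have hq1 : 1 < Nat.card F := Finite.one_lt_card
  obtain ⟨a, ha⟩ : ∃ a, Nat.card F = 3 * a + 1 := ⟨Nat.card F / 3, by omega⟩
  rw [ha] at h9 ⊢
  have e1 : (3 * a + 1) ^ 2 - 1 = 3 * a * (3 * a + 2) := by
    have : (3 * a + 1) ^ 2 = 3 * a * (3 * a + 2) + 1 := by ring
    omega
  have e2 : (3 * a + 1) ^ 3 - 1 = 9 * (a * (3 * a ^ 2 + 3 * a + 1)) := by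
    have : (3 * a + 1) ^ 3 = 9 * (a * (3 * a ^ 2 + 3 * a + 1)) + 1 := by ring
    omega
  rw [e1, e2]
  intro h
  have h1 : 27 * 3 ∣ 27 * ((3 * a + 1) ^ 3 * (a * (3 * a + 2)) * (a * (3 * a ^ 2 + 3 * a + 1))) := by
    refine h.trans (dvd_of_eq ?_)
    ring
  have h2 := Nat.dvd_of_mul_dvd_mul_left (by norm_num) h1
  have ha3 : ¬ 3 ∣ a := by omega
  rcases (Nat.Prime.dvd_mul Nat.prime_three).mp h2 with h3 | h3
  · rcases (Nat.Prime.dvd_mul Nat.prime_three).mp h3 with h4 | h4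
    · have h5 := Nat.prime_three.dvd_of_dvd_pow h4
      omega
    · rcases (Nat.Prime.dvd_mul Nat.prime_three).mp h4 with h5 | h5
      · exact ha3 h5
      · omega
  · rcases (Nat.Prime.dvd_mul Nat.prime_three).mp h3 with h4 | h4
    · exact ha3 h4
    · have h5 : 3 * a ^ 2 + 3 * a + 1 = 3 * (a ^ 2 + a) + 1 := by ring
      omega

/-- there is a central element of order three -/
theorem exists_center (h9 : Nat.card F % 3 = 1) : ∃ z : SL3 F, orderOf z = 3 ∧ ∀ g : SL3 F, g * z = z * g := by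
  haveI : Fact (Nat.Prime 3) := ⟨Nat.prime_three⟩
  have hq1 : 1 < Nat.card F := Finite.one_lt_card
  have h1 : 3 ∣ Nat.card Fˣ := by
    rw [Nat.card_units]
    omega
  obtain ⟨a, ha⟩ := exists_prime_orderOf_dvd_card' 3 h1
  have ha3 : a ^ 3 = 1 := by rw [← ha, pow_orderOf_eq_one]
  have ha3' : a * a * a = 1 := by rw [← ha3, pow_succ, pow_two]
  have hdet : (mm 0 (fun _ => (a : F))).det = 1 := by
    rw [det_mm]
    exact congrArg Units.val ha3'
  obtain ⟨z, hz⟩ : ∃ z : SL3 F, sm z = mm 0 (fun _ => (a : F)) := ⟨⟨_, hdet⟩, rfl⟩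
  refine ⟨z, ?_, ?_⟩
  · apply orderOf_eq_prime
    · apply sm_inj
      have h2 := sm_pow_Dg (d := fun _ => a) hz 3
      rw [h2, sm_one, ← mm_one]
      congr 1
      ext i
      rw [ha3]
      rfl
    · intro h2
      rw [h2, sm_one, ← mm_one] at hz
      obtain ⟨-, h3⟩ := mm_inj (fun _ => one_ne_zero) hz
      have h4 : a = 1 := Units.ext (congrFun h3 0).symm
      rw [h4, orderOf_one] at ha
      norm_num at ha
  · intro g
    apply sm_inj
    rw [sm_mul, sm_mul, hz]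
    ext i j
    rw [Matrix.mul_apply, Matrix.mul_apply, Fin.sum_univ_three, Fin.sum_univ_three]
    fin_cases i <;> fin_cases j <;> simp [mm_apply, mul_comm]

/-- the configuration: a normal diagonal Sylow `s`-subgroup all whose elements have two equal entries -/
structure Cfg (s k : ℕ) (M S : Subgroup (SL3 F)) : Prop where
  pi : PiSubgroup {3, s} M
  le : S ≤ M
  diag : S ≤ Dg F
  pgp : IsPGroup s S
  norm : ∀ g ∈ M, ∀ x ∈ S, g * x * g⁻¹ ∈ S
  card : Nat.card M = Nat.card S * 3 ^ k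
  pair : ∀ x ∈ S, ∀ d : Fin 3 → Fˣ, sm x = mm 0 (fun i => (d i : F)) → ¬ Function.Injective d

theorem Cfg.conj_pair (hq : Nat.card F % 3 = 1) {s k : ℕ} (hs : s.Prime) (h5 : 5 ≤ s) {M S : Subgroup (SL3 F)} (h : Cfg s k M S)
    {x : SL3 F} (hx : x ∈ S) (hx1 : x ≠ 1) {d : Fin 3 → Fˣ} (hd : sm x = mm 0 (fun i => (d i : F))) (h01 : d 0 = d 1) :
    ∃ g, M ≤ cj g (Mon (muPi {3, s} F)) := by
  haveI : Fact (Nat.Prime 3) := ⟨Nat.prime_three⟩
  haveI : Fact (Nat.Prime s) := ⟨hs⟩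
  obtain ⟨h02, hall⟩ := same_pair h.diag hs h5 h.pgp h.pair hx hx1 hd h01
  set Z := Subgroup.centralizer ({x} : Set (SL3 F)) with hZ
  have hMZ : M ≤ Z := by
    intro g hg
    obtain ⟨e, he⟩ := h.diag (h.norm g hg x hx)
    rw [hZ, Subgroup.mem_centralizer_singleton_iff]
    exact commute_of_pair hd he rfl h01 (hall _ (h.norm g hg x hx) e he)
  obtain ⟨K, hK⟩ := Sylow.exists_subgroup_card_pow_prime (G := M) 3 (n := k) (by rw [h.card]; exact Dvd.intro_left _ rfl)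
  set Q : Subgroup (SL3 F) := K.map M.subtype with hQ
  have hQc : Nat.card Q = 3 ^ k := by
    rw [← hK]
    exact Nat.card_congr (K.equivMapOfInjective M.subtype M.subtype_injective).symm.toEquiv
  have hQM : Q ≤ M := by
    rintro y ⟨z, -, rfl⟩
    exact z.2
  have hQZ : IsPGroup 3 (Q.subgroupOf Z) := by
    apply IsPGroup.of_card (n := k)
    rw [← hQc]
    exact Nat.card_congr (Subgroup.subgroupOfEquivOfLe (hQM.trans hMZ)).toEquiv
  obtain ⟨z, hz⟩ := exists_cj_of_pgroup Nat.prime_three hQZ (index_cent hq hd h01 h02)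
  have h1 : Q ≤ cj (z : SL3 F) (Dg F) := by
    intro y hy
    have h2 : (⟨y, hMZ (hQM hy)⟩ : Z) ∈ Q.subgroupOf Z := hy
    have h3 := hz h2
    rw [mem_cj] at h3 ⊢
    exact h3
  have h2 : S ≤ cj (z : SL3 F) (Dg F) := by
    intro y hy
    obtain ⟨e, he⟩ := h.diag hy
    have h3 := cent_comm hd h01 h02 he (hall y hy e he) z.2
    rw [mem_cj]
    have h4 : (z : SL3 F)⁻¹ * y * z = y := by
      rw [mul_assoc, ← h3, inv_mul_cancel_left]
    rw [h4]
    exact h.diag hy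
  have h3 : S ⊔ Q = M := by
    apply Subgroup.eq_of_le_of_card_ge (sup_le h.le hQM)
    rw [h.card]
    apply Nat.le_of_dvd Nat.card_pos
    have h4 : Nat.Coprime (Nat.card S) (3 ^ k) := by
      obtain ⟨n, hn⟩ := IsPGroup.iff_card.mp h.pgp
      rw [hn]
      exact Nat.Coprime.pow _ _ ((Nat.coprime_primes hs Nat.prime_three).mpr (by omega))
    refine h4.mul_dvd_of_dvd_of_dvd (Subgroup.card_dvd_of_le le_sup_left) ?_
    rw [← hQc]
    exact Subgroup.card_dvd_of_le le_sup_right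
  refine ⟨z, fun g hg => ?_⟩
  have h4 : g ∈ cj (z : SL3 F) (Dg F) := (sup_le h2 h1) (by rw [h3]; exact hg)
  rw [mem_cj] at h4 ⊢
  apply mem_Mon_of_Dg h4
  have h5' : orderOf ((z : SL3 F)⁻¹ * g * z) = orderOf g := by
    have h6 := MulEquiv.orderOf_eq (MulAut.conj (z : SL3 F)⁻¹) g
    rw [MulAut.conj_apply, inv_inv] at h6
    exact h6
  rw [h5']
  exact pi_order h.pi hg

omit [Finite F] in
/-- the cyclic permutation -/
theorem exists_shift : ∃ c : SL3 F, (∀ x (d : Fin 3 → Fˣ), sm x = mm 0 (fun i => (d i : F)) → sm (c * x * c⁻¹) = mm 0 (fun i => (d (i + 1) : F))) ∧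
    ∀ x (d : Fin 3 → Fˣ), sm x = mm 0 (fun i => (d i : F)) → sm (c⁻¹ * x * c) = mm 0 (fun i => (d (i - 1) : F)) := by
  have hdet : (mm 1 (fun _ => (1 : F))).det = 1 := by
    rw [det_mm]
    ring
  obtain ⟨c, hc⟩ : ∃ c : SL3 F, sm c = mm 1 (fun _ => (1 : F)) := ⟨⟨_, hdet⟩, rfl⟩
  have hcc : mm 1 (fun _ => (1 : F)) * sm c⁻¹ = 1 := by
    rw [← hc, ← sm_mul, mul_inv_cancel, sm_one]
  have hcc' : sm c⁻¹ * mm 1 (fun _ => (1 : F)) = 1 := by
    rw [← hc]
    exact sm_inv_mul c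
  refine ⟨c, ?_, ?_⟩
  · intro x d hd
    have h1 : mm 1 (fun _ => (1 : F)) * mm 0 (fun i => (d i : F)) = mm 0 (fun i => (d (i + 1) : F)) * mm 1 (fun _ => (1 : F)) := by
      rw [mm_mul, mm_mul, add_zero, zero_add]
      congr 1
      ext i
      rw [one_mul, mul_one]
    rw [sm_mul, sm_mul, hc, hd, h1, mul_assoc, hcc, mul_one]
  · intro x d hd
    have h1 : mm 0 (fun i => (d i : F)) * mm 1 (fun _ => (1 : F)) = mm 1 (fun _ => (1 : F)) * mm 0 (fun i => (d (i - 1) : F)) := by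
      rw [mm_mul, mm_mul, add_zero, zero_add]
      congr 1
      ext i
      rw [one_mul, mul_one, add_sub_cancel_right]
    rw [sm_mul, sm_mul, hc, hd, mul_assoc, h1, ← mul_assoc, hcc', one_mul]

omit [Finite F] in
theorem cj_inv_le {g c : SL3 F} {M H : Subgroup (SL3 F)} (h : cj c M ≤ cj g H) : M ≤ cj (c⁻¹ * g) H := by
  rw [← cj_cj]
  intro x hx
  rw [mem_cj, inv_inv]
  apply h
  rw [mem_cj]
  have h1 : c⁻¹ * (c * x * c⁻¹) * c = x := by group
  rw [h1]
  exact hx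

theorem Cfg.cj {s k : ℕ} {M S : Subgroup (SL3 F)} (h : Cfg s k M S) {c : SL3 F}
    (hc : ∀ x (d : Fin 3 → Fˣ), sm x = mm 0 (fun i => (d i : F)) → sm (c * x * c⁻¹) = mm 0 (fun i => (d (i + 1) : F)))
    (hc' : ∀ x (d : Fin 3 → Fˣ), sm x = mm 0 (fun i => (d i : F)) → sm (c⁻¹ * x * c) = mm 0 (fun i => (d (i - 1) : F))) :
    Cfg s k (HallD.cj c M) (HallD.cj c S) where
  pi := by
    show PiNumber _ _
    rw [card_cj]
    exact h.pi
  le := cj_mono h.le
  diag := by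
    intro x hx
    rw [mem_cj] at hx
    obtain ⟨d, hd⟩ := h.diag hx
    have h1 := hc _ d hd
    have h2 : c * (c⁻¹ * x * c) * c⁻¹ = x := by group
    rw [h2] at h1
    exact ⟨_, h1⟩
  pgp := h.pgp.map _
  norm := by
    intro g hg x hx
    rw [mem_cj] at hg hx ⊢
    have h1 := h.norm _ hg _ hx
    have h2 : c⁻¹ * g * c * (c⁻¹ * x * c) * (c⁻¹ * g * c)⁻¹ = c⁻¹ * (g * x * g⁻¹) * c := by group
    rw [← h2]
    exact h1
  card := by
    rw [card_cj, card_cj]
    exact h.card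
  pair := by
    intro x hx d hd hi
    rw [mem_cj] at hx
    have h1 := hc' x d hd
    exact h.pair _ hx _ h1 (hi.comp (sub_left_injective))

theorem Cfg.conj (hq : Nat.card F % 3 = 1) {s k : ℕ} (hs : s.Prime) (h5 : 5 ≤ s) {M S : Subgroup (SL3 F)} (h : Cfg s k M S) (hS : S ≠ ⊥) :
    ∃ g, M ≤ HallD.cj g (Mon (muPi {3, s} F)) := by
  obtain ⟨x, hx, hx1⟩ : ∃ x ∈ S, x ≠ 1 := by
    by_contra hc
    push Not at hc
    exact hS ((Subgroup.eq_bot_iff_forall S).mpr hc)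
  obtain ⟨d, hd⟩ := h.diag hx
  obtain ⟨c, hc, hc'⟩ := exists_shift (F := F)
  have key : ∀ (M S : Subgroup (SL3 F)), Cfg s k M S → ∀ x ∈ S, x ≠ 1 → ∀ d : Fin 3 → Fˣ, sm x = mm 0 (fun i => (d i : F)) → d 1 = d 2 →
      ∃ g, M ≤ HallD.cj g (Mon (muPi {3, s} F)) := by
    intro M S h x hx hx1 d hd h12
    have h1 : c * x * c⁻¹ ∈ HallD.cj c S := by
      rw [mem_cj]
      have h2 : c⁻¹ * (c * x * c⁻¹) * c = x := by group
      rw [h2]
      exact hx
    obtain ⟨g, hg⟩ := (h.cj hc hc').conj_pair hq hs h5 h1 (conj_ne_one' hx1) (hc x d hd) h12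
    exact ⟨_, cj_inv_le hg⟩
  by_cases h01 : d 0 = d 1
  · exact h.conj_pair hq hs h5 hx hx1 hd h01
  by_cases h12 : d 1 = d 2
  · exact key M S h x hx hx1 d hd h12
  have h02 : d 2 = d 0 := by
    by_contra h02
    apply h.pair x hx d hd
    intro i j hij
    fin_cases i <;> fin_cases j
    · rfl
    · exact absurd hij h01
    · exact absurd hij.symm h02
    · exact absurd hij.symm h01
    · rfl
    · exact absurd hij h12
    · exact absurd hij h02
    · exact absurd hij.symm h12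
    · rfl
  have h1 : c * x * c⁻¹ ∈ HallD.cj c S := by
    rw [mem_cj]
    have h2 : c⁻¹ * (c * x * c⁻¹) * c = x := by group
    rw [h2]
    exact hx
  obtain ⟨g, hg⟩ := key _ _ (h.cj hc hc') _ h1 (conj_ne_one' hx1) _ (hc x d hd) h02
  exact ⟨_, cj_inv_le hg⟩

end Pool.Agent.H32.HallD
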