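import Pool.Agent.H32.HallD.PiPart

/-!
# HallD SylN: a normal Sylow subgroup
-/

set_option autoImplicit false

universe u

namespace Pool.Agent.H32.HallD

theorem pow_of_pi {n s : ℕ} (hn : n ≠ 0) (h : PiNumber {3, s} n) (hsn : ¬ s ∣ n) : ∃ k, n = 3 ^ k := by
  refine ⟨_, Nat.eq_prime_pow_of_unique_prime_dvd hn (p := 3) ?_⟩
  intro t ht hd
  rcases h t ht hd with h1 | h1
  · exact h1
  · have h2 : t = s := h1
    rw [h2] at hd
    exact absurd hd hsn

theorem sylow_normal {G : Type u} [Group G] [Finite G] {s : ℕ} (hs : s.Prime) (h5 : 5 ≤ s) (hG : PiNumber {3, s} (Nat.card G))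
    {z : G} (hz : orderOf z = 3) (hzc : ∀ g : G, g * z = z * g) (h81 : ¬ 81 ∣ Nat.card G) :
    ∃ S : Subgroup G, S.Normal ∧ IsPGroup s S ∧ ∃ k, Nat.card G = Nat.card S * 3 ^ k := by
  haveI : Fact (Nat.Prime s) := ⟨hs⟩
  obtain ⟨P⟩ : Nonempty (Sylow s G) := inferInstance
  -- the number of Sylow subgroups
  have hn1 : Nat.card (Sylow s G) ≡ 1 [MOD s] := card_sylow_modEq_one s G
  have hn0 : Nat.card (Sylow s G) ≠ 0 := Nat.card_pos.ne'
  have hnd : 3 * Nat.card (Sylow s G) ∣ Nat.card G := by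
    rw [P.card_eq_index_normalizer]
    have h1 : z ∈ Subgroup.normalizer ((P : Subgroup G) : Set G) := by
      rw [Subgroup.mem_normalizer_iff]
      intro x
      have h2 : z * x * z⁻¹ = x := by
        rw [← hzc, mul_inv_cancel_right]
      rw [h2]
    have h3 : 3 ∣ Nat.card (Subgroup.normalizer ((P : Subgroup G) : Set G)) := by
      have h4 := orderOf_dvd_natCard (⟨z, h1⟩ : Subgroup.normalizer ((P : Subgroup G) : Set G))
      rw [← Subgroup.orderOf_coe] at h4
      have h5 : orderOf z = 3 := hz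
      exact (dvd_of_eq h5.symm).trans h4
    have h6 := mul_dvd_mul_right h3 (Subgroup.normalizer ((P : Subgroup G) : Set G)).index
    rw [Subgroup.card_mul_index] at h6
    exact h6
  have hndS : ¬ s ∣ Nat.card (Sylow s G) := by
    intro h
    have h1 : 0 ≡ 1 [MOD s] := (Nat.modEq_zero_iff_dvd.mpr h).symm.trans hn1
    have h2 := (Nat.modEq_zero_iff_dvd.mp h1.symm)
    exact hs.one_lt.ne' (Nat.dvd_one.mp h2)
  obtain ⟨j, hj⟩ := pow_of_pi hn0 (hG.of_dvd ((Dvd.intro_left _ rfl).trans hnd)) hndS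
  have hj2 : j ≤ 2 := by
    by_contra hc
    have h1 : 81 ∣ 3 * Nat.card (Sylow s G) := by
      rw [hj]
      have h2 : 3 ^ 4 ∣ 3 * 3 ^ j := by
        rw [← pow_succ']
        exact pow_dvd_pow 3 (by omega)
      have h3 : (3 : ℕ) ^ 4 = 81 := by norm_num
      rw [h3] at h2
      exact h2
    exact h81 (h1.trans hnd)
  have hone : Nat.card (Sylow s G) = 1 := by
    have h1 : s ∣ Nat.card (Sylow s G) - 1 := (Nat.modEq_iff_dvd' (Nat.one_le_iff_ne_zero.mpr hn0)).mp hn1.symm
    rw [hj] at h1 ⊢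
    have h2 : j = 0 ∨ j = 1 ∨ j = 2 := by omega
    rcases h2 with rfl | rfl | rfl
    · norm_num
    · have h3 : s ∣ 2 := by
        norm_num at h1
        exact h1
      have := Nat.le_of_dvd (by norm_num) h3
      omega
    · have h3 : s ∣ 2 ^ 3 := by
        norm_num at h1 ⊢
        exact h1
      have h4 := hs.dvd_of_dvd_pow h3
      have := Nat.le_of_dvd (by norm_num) h4
      omega
  have hPn : (P : Subgroup G).Normal := by
    rw [← Subgroup.normalizer_eq_top_iff, ← Subgroup.index_eq_one]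
    have h1 := P.card_eq_index_normalizer
    rw [hone] at h1
    exact h1.symm
  refine ⟨P, hPn, P.2, ?_⟩
  obtain ⟨k, hk⟩ := pow_of_pi Subgroup.index_ne_zero_of_finite (hG.of_dvd (Subgroup.index_dvd_card _)) P.not_dvd_index
  exact ⟨k, by rw [← hk, Subgroup.card_mul_index]⟩

/-- a quotient by a normal `π`-subgroup -/
theorem dpi_quotient {G : Type u} [Group G] [Finite G] {π : Set ℕ} (Z : Subgroup G) [Z.Normal] (hZ : PiSubgroup π Z) {H : Subgroup G}
    (hH : IsHall π H) (h : ∀ L : Subgroup G, PiSubgroup π L → ∃ g, L ≤ cj g H) : DPi π (G ⧸ Z) := by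
  have hH' : IsHall π (H.map (QuotientGroup.mk' Z)) := by
    refine ⟨hH.card.of_dvd (Subgroup.card_map_dvd _ _), hH.index.of_dvd (Subgroup.index_map_dvd _ (QuotientGroup.mk'_surjective Z))⟩
  refine dpi_of_cover hH' fun L hL => ?_
  have h1 : PiSubgroup π (L.comap (QuotientGroup.mk' Z)) := by
    show PiNumber _ _
    rw [card_comap_mk]
    exact PiNumber.mul hL hZ
  obtain ⟨g, hg⟩ := h _ h1
  refine ⟨QuotientGroup.mk' Z g, fun x hx => ?_⟩
  obtain ⟨y, rfl⟩ := QuotientGroup.mk'_surjective Z x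
  have h2 := hg (show y ∈ L.comap (QuotientGroup.mk' Z) from hx)
  rw [mem_cj] at h2 ⊢
  exact ⟨g⁻¹ * y * g, h2, rfl⟩

end Pool.Agent.H32.HallD
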