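import Pool.Agent.H32.HallD.MonF
import Pool.Agent.H32.HallD.SylN

/-!
# HallD MonG: `SL₃(q)` and `PSL₃(q)`, `q = 4, 7 mod 9`, are `D_π`-groups for `π = {3, s}`, `5 ≤ s ∣ q - 1`
-/

set_option autoImplicit false

open Matrix

namespace Pool.Agent.H32.HallD

variable {F : Type} [Field F] [Finite F]

/-- the conjugacy theorem for subgroups with a normal Sylow `s`-subgroup -/
theorem conj_of_normal (h9 : Nat.card F % 9 = 4 ∨ Nat.card F % 9 = 7) {s : ℕ} (hs : s.Prime) (h5 : 5 ≤ s) (hsq : s ∣ Nat.card F - 1)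
    {M S0 : Subgroup (SL3 F)} (hM : PiSubgroup {3, s} M) (hS0M : S0 ≤ M) (hS0n : ∀ g ∈ M, ∀ x ∈ S0, g * x * g⁻¹ ∈ S0) (hSs : IsPGroup s S0)
    {k : ℕ} (hcard : Nat.card M = Nat.card S0 * 3 ^ k) :
    ∃ g, M ≤ cj g (Mon (muPi {3, s} F)) := by
  have hq3 : Nat.card F % 3 = 1 := by omega
  have hHall := hall_Mon hs h5 hsq (by omega)
  have h3i : ¬ 3 ∣ (Mon (muPi {3, s} F)).index := fun h => hHall.index 3 Nat.prime_three h (Or.inl rfl)
  have hsi : ¬ s ∣ (Mon (muPi {3, s} F)).index := fun h => hHall.index s hs h (Or.inr rfl)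
  obtain ⟨g, hg⟩ := exists_cj_of_pgroup hs hSs hsi
  have hPi : PiSubgroup {3, s} (cj g⁻¹ M) := by
    show PiNumber _ _
    rw [card_cj]
    exact hM
  have hback : ∀ H : Subgroup (SL3 F), (∃ h, cj g⁻¹ M ≤ cj h H) → ∃ h, M ≤ cj h H := by
    rintro H ⟨h, hh⟩
    exact ⟨_, cj_inv_le hh⟩
  by_cases hbot : S0 = ⊥
  · have h1 : Nat.card M = 3 ^ k := by
      rw [hcard, hbot, Subgroup.card_bot, one_mul]
    exact exists_cj_of_pgroup Nat.prime_three (IsPGroup.of_card h1) h3i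
  apply hback
  have hSMon : cj g⁻¹ S0 ≤ Mon (muPi {3, s} F) := by
    intro x hx
    rw [mem_cj] at hx
    have h1 := hg hx
    rw [mem_cj] at h1
    have h2 : g⁻¹ * (g⁻¹⁻¹ * x * g⁻¹) * g = x := by group
    rw [h2] at h1
    exact h1
  have hSp : IsPGroup s (cj g⁻¹ S0) := hSs.map _
  have hSD : cj g⁻¹ S0 ≤ Dg F := by
    intro x hx
    apply Dg_of_Mon (hSMon hx)
    obtain ⟨n, hn⟩ := hSp ⟨x, hx⟩
    have hn' : x ^ s ^ n = 1 := congrArg Subtype.val hn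
    have h1 : orderOf x ∣ s ^ n := orderOf_dvd_of_pow_eq_one hn'
    exact Nat.Coprime.coprime_dvd_right h1 (Nat.Coprime.pow_right n ((Nat.coprime_primes Nat.prime_three hs).mpr (by omega)))
  have hnorm : ∀ a ∈ cj g⁻¹ M, ∀ x ∈ cj g⁻¹ S0, a * x * a⁻¹ ∈ cj g⁻¹ S0 := by
    intro a ha x hx
    rw [mem_cj] at ha hx ⊢
    have h1 := hS0n _ ha _ hx
    have h2 : g⁻¹⁻¹ * a * g⁻¹ * (g⁻¹⁻¹ * x * g⁻¹) * (g⁻¹⁻¹ * a * g⁻¹)⁻¹ = g⁻¹⁻¹ * (a * x * a⁻¹) * g⁻¹ := by group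
    rw [h2] at h1
    exact h1
  have hodd : Odd (Nat.card (cj g⁻¹ M)) := by
    rw [← Nat.not_even_iff_odd, even_iff_two_dvd]
    intro h
    rcases hPi 2 Nat.prime_two h with h1 | h1
    · norm_num at h1
    · have h2 : 2 = s := h1
      omega
  by_cases hinj : ∃ x ∈ cj g⁻¹ S0, ∃ d : Fin 3 → Fˣ, sm x = mm 0 (fun i => (d i : F)) ∧ Function.Injective d
  · obtain ⟨x, hx, d, hd, hdi⟩ := hinj
    exact conj_Mon (Or.inl rfl) hPi (mono_of_distinct hodd hd hdi (fun a ha => hSD (hnorm a ha x hx)))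
  push Not at hinj
  have hCfg : Cfg s k (cj g⁻¹ M) (cj g⁻¹ S0) :=
    { pi := hPi
      le := cj_mono hS0M
      diag := hSD
      pgp := hSp
      norm := hnorm
      card := by rw [card_cj, card_cj]; exact hcard
      pair := hinj }
  refine hCfg.conj hq3 hs h5 ?_
  intro h
  apply hbot
  rw [← Subgroup.card_eq_one] at h ⊢
  rw [card_cj] at h
  exact h

/-- the conjugacy theorem for subgroups which contain the centre -/
theorem conj_center (h9 : Nat.card F % 9 = 4 ∨ Nat.card F % 9 = 7) {s : ℕ} (hs : s.Prime) (h5 : 5 ≤ s) (hsq : s ∣ Nat.card F - 1)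
    {M : Subgroup (SL3 F)} (hM : PiSubgroup {3, s} M) {z : SL3 F} (hz : orderOf z = 3) (hzc : ∀ g : SL3 F, g * z = z * g) (hzM : z ∈ M) :
    ∃ g, M ≤ cj g (Mon (muPi {3, s} F)) := by
  have h1 : orderOf (⟨z, hzM⟩ : M) = 3 := by
    have h2 := Subgroup.orderOf_coe (⟨z, hzM⟩ : M)
    exact h2.symm.trans hz
  have h2 : ∀ g : M, g * ⟨z, hzM⟩ = ⟨z, hzM⟩ * g := fun g => Subtype.ext (hzc g)
  have h3 : ¬ 81 ∣ Nat.card M := fun h => not_dvd_card h9 (h.trans (Subgroup.card_subgroup_dvd_card M))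
  obtain ⟨S, hSn, hSs, k, hk⟩ := sylow_normal hs h5 hM h1 h2 h3
  refine conj_of_normal h9 hs h5 hsq (S0 := S.map M.subtype) hM ?_ ?_ (hSs.map _) (k := k) ?_
  · rintro y ⟨w, -, rfl⟩
    exact w.2
  · rintro g hg x ⟨w, hw, rfl⟩
    have h4 := hSn.conj_mem w hw (⟨g, hg⟩ : M)
    exact Subgroup.mem_map_of_mem M.subtype h4
  · rw [hk, Nat.card_congr (S.equivMapOfInjective M.subtype M.subtype_injective).toEquiv]

/-- the conjugacy theorem -/
theorem conj_SL3 (h9 : Nat.card F % 9 = 4 ∨ Nat.card F % 9 = 7) {s : ℕ} (hs : s.Prime) (h5 : 5 ≤ s) (hsq : s ∣ Nat.card F - 1)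
    {L : Subgroup (SL3 F)} (hL : PiSubgroup {3, s} L) : ∃ g, L ≤ cj g (Mon (muPi {3, s} F)) := by
  obtain ⟨z, hz, hzc⟩ := exists_center (F := F) (by omega)
  haveI : (Subgroup.zpowers z).Normal := by
    refine ⟨fun x hx g => ?_⟩
    obtain ⟨n, rfl⟩ := hx
    have h1 : g * z ^ n * g⁻¹ = z ^ n := by
      have h2 : Commute g z := hzc g
      rw [(h2.zpow_right n).eq, mul_inv_cancel_right]
    rw [h1]
    exact ⟨n, rfl⟩
  have hM : PiSubgroup {3, s} (L ⊔ Subgroup.zpowers z) := by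
    have h1 : Nat.card (L ⊔ Subgroup.zpowers z : Subgroup (SL3 F)) = Nat.card (Subgroup.zpowers z) * (Subgroup.zpowers z).relIndex (L ⊔ Subgroup.zpowers z) := by
      rw [← Subgroup.relIndex_bot_left, ← Subgroup.relIndex_bot_left]
      exact (Subgroup.relIndex_mul_relIndex _ _ _ bot_le le_sup_right).symm
    show PiNumber _ _
    rw [h1, Subgroup.relIndex_sup_right, Nat.card_zpowers, hz]
    refine PiNumber.mul ?_ (PiNumber.of_dvd hL (Subgroup.relIndex_dvd_card _ _))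
    intro t ht hd
    exact Or.inl ((Nat.prime_dvd_prime_iff_eq ht Nat.prime_three).mp hd)
  obtain ⟨g, hg⟩ := conj_center h9 hs h5 hsq hM hz hzc (Subgroup.mem_sup_right (Subgroup.mem_zpowers z))
  exact ⟨g, le_sup_left.trans hg⟩

/-- the centre is a `{3, s}`-group -/
theorem pi_center (s : ℕ) : PiSubgroup {3, s} (Subgroup.center (SL3 F)) := by
  intro t ht hd
  haveI : Fact t.Prime := ⟨ht⟩
  obtain ⟨x, hx⟩ := exists_prime_orderOf_dvd_card' t hd
  have h1 : (x : SL3 F) ^ 3 = 1 := by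
    obtain ⟨r, hr, hA⟩ := (Matrix.SpecialLinearGroup.mem_center_iff).mp x.2
    rw [Fintype.card_fin] at hr
    apply Subtype.ext
    have h2 : ((x : SL3 F) ^ 3).1 = (x : SL3 F).1 ^ 3 := rfl
    rw [h2]
    have h3 : (x : SL3 F).1 = Matrix.scalar (Fin 3) r := hA.symm
    rw [h3, ← map_pow, hr, map_one]
    rfl
  have h2 : orderOf x ∣ 3 := by
    apply orderOf_dvd_of_pow_eq_one
    exact Subtype.ext h1
  rw [hx] at h2
  exact Or.inl ((Nat.prime_dvd_prime_iff_eq ht Nat.prime_three).mp h2)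

/-- `PSL₃` is a `D_π`-group -/
theorem dpi_PSL3 (h9 : Nat.card F % 9 = 4 ∨ Nat.card F % 9 = 7) {s : ℕ} (hs : s.Prime) (h5 : 5 ≤ s) (hsq : s ∣ Nat.card F - 1) :
    DPi {3, s} (ProjectiveSpecialLinearGroup (Fin 3) F) :=
  dpi_quotient _ (pi_center s) (hall_Mon hs h5 hsq (by omega)) (fun _ hL => conj_SL3 h9 hs h5 hsq hL)

end Pool.Agent.H32.HallD
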