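import Pool.Agent.H32.HallD.MonG
import Pool.Agent.H32.HallD.Equi

/-!
# HallD MonH: `SL₃(q₀)`, `q₀ = 2, 5 mod 9`, is not a `D_π`-group for `π = {3, s}`, `5 ≤ s ∣ q₀ - 1`; it embeds in `PSL₃(q₀²)`
-/

set_option autoImplicit false

open Matrix

namespace Pool.Agent.H32.HallD

section

variable {F : Type} [Field F]

theorem cube_of_shift {k : Fin 3} {A : SL3 F} (h : Sh k A) (hk : k ≠ 0) : A ^ 3 = 1 := by
  obtain ⟨d, hd⟩ := h
  have hdet : d 0 * d 1 * d 2 = 1 := by
    have h1 := sm_det A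
    rw [hd, det_mm] at h1
    exact Units.ext h1
  apply sm_inj
  have h3 : A ^ 3 = A * A * A := by rw [pow_succ, pow_two]
  rw [h3, sm_mul, sm_mul, hd, mm_mul, mm_mul, sm_one, ← mm_one]
  have h4 : k + k + k = 0 := by
    fin_cases k <;> rfl
  rw [h4]
  congr 1
  ext i
  have h5 : d i * d (i + k) * d (i + (k + k)) = 1 := by
    have h6 : ∀ a b c : Fˣ, a * b * c = 1 → b * c * a = 1 := by
      intro a b c habc
      rw [← habc]
      ac_rfl
    have h7 : ∀ a b c : Fˣ, a * b * c = 1 → a * c * b = 1 := by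
      intro a b c habc
      rw [← habc]
      ac_rfl
    have e1 := h6 _ _ _ hdet
    have e2 := h6 _ _ _ e1
    fin_cases k
    · exact absurd rfl hk
    · fin_cases i
      · exact hdet
      · exact e1
      · exact e2
    · fin_cases i
      · exact h7 _ _ _ hdet
      · exact h7 _ _ _ e1
      · exact h7 _ _ _ e2
  exact congrArg Units.val h5

theorem no_order [Finite F] (h3 : Nat.card F % 3 = 2) {s : ℕ} (h5 : 5 ≤ s) {y : SL3 F} (hy : y ∈ Mon (⊤ : Subgroup Fˣ))
    (ho : orderOf y = 3 * s) : False := by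
  obtain ⟨k, hk⟩ := Sh.of_mem hy
  by_cases hk0 : k = 0
  · subst hk0
    obtain ⟨d, hd⟩ := hk
    have h1 : y ^ Nat.card Fˣ = 1 := by
      apply sm_inj
      rw [sm_pow_Dg hd, sm_one, ← mm_one]
      congr 1
      ext i
      rw [pow_card_eq_one']
      rfl
    have h2 : 3 * s ∣ Nat.card F - 1 := by
      rw [← ho, ← Nat.card_units]
      exact orderOf_dvd_of_pow_eq_one h1
    have h4 : 3 ∣ Nat.card F - 1 := (Dvd.intro _ rfl).trans h2
    omega
  · have h1 := cube_of_shift hk hk0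
    have h2 : 3 * s ∣ 3 := by
      rw [← ho]
      exact orderOf_dvd_of_pow_eq_one h1
    have h4 := Nat.le_of_dvd (by norm_num) h2
    omega

theorem exists_bad [Finite F] {s : ℕ} (hs : s.Prime) (h5 : 5 ≤ s) (hsq : s ∣ Nat.card F - 1) : ∃ w : SL3 F, orderOf w = 3 * s := by
  haveI : Fact s.Prime := ⟨hs⟩
  haveI : Fact (Nat.Prime 3) := ⟨Nat.prime_three⟩
  rw [← Nat.card_units] at hsq
  obtain ⟨a, ha⟩ := exists_prime_orderOf_dvd_card' s hsq
  have has : a ^ s = 1 := by rw [← ha, pow_orderOf_eq_one]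
  have hdz : (mm 0 (fun i => ((![a, a, (a * a)⁻¹] i : Fˣ) : F))).det = 1 := by
    rw [det_mm]
    have h1 : ((a * a * (a * a)⁻¹ : Fˣ) : F) = 1 := by rw [mul_inv_cancel]; rfl
    exact h1
  obtain ⟨z, hz⟩ : ∃ z : SL3 F, sm z = mm 0 (fun i => ((![a, a, (a * a)⁻¹] i : Fˣ) : F)) := ⟨⟨_, hdz⟩, rfl⟩
  have hdg : (!![0, -1, 0; 1, -1, 0; 0, 0, 1] : Matrix (Fin 3) (Fin 3) F).det = 1 := by
    rw [Matrix.det_fin_three]
    simp
  obtain ⟨g, hg⟩ : ∃ g : SL3 F, sm g = !![0, -1, 0; 1, -1, 0; 0, 0, 1] := ⟨⟨_, hdg⟩, rfl⟩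
  have hzo : orderOf z = s := by
    apply orderOf_eq_prime
    · apply sm_inj
      rw [sm_pow_Dg hz, sm_one, ← mm_one]
      congr 1
      ext i
      have h1 : (![a, a, (a * a)⁻¹] i : Fˣ) ^ s = 1 := by
        fin_cases i
        · exact has
        · exact has
        · show ((a * a)⁻¹ : Fˣ) ^ s = 1
          rw [inv_pow, mul_pow, has, one_mul, inv_one]
      rw [h1]
      rfl
    · intro h
      rw [h, sm_one, ← mm_one] at hz
      obtain ⟨-, h2⟩ := mm_inj (fun _ => one_ne_zero) hz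
      have h3 : a = 1 := Units.ext (congrFun h2 0).symm
      rw [h3, orderOf_one] at ha
      omega
  have hgo : orderOf g = 3 := by
    apply orderOf_eq_prime
    · apply sm_inj
      have h3 : g ^ 3 = g * g * g := by rw [pow_succ, pow_two]
      rw [h3, sm_mul, sm_mul, hg, sm_one]
      ext i j
      fin_cases i <;> fin_cases j <;> simp [Matrix.mul_apply, Fin.sum_univ_three]
    · intro h
      rw [h, sm_one] at hg
      have h1 := congrFun (congrFun hg 1) 0
      simp at h1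
  have hc : Commute g z := by
    apply sm_inj
    rw [sm_mul, sm_mul, hg, hz]
    ext i j
    rw [Matrix.mul_apply, Matrix.mul_apply, Fin.sum_univ_three, Fin.sum_univ_three]
    fin_cases i <;> fin_cases j <;> simp [mm_apply]
  refine ⟨g * z, ?_⟩
  rw [hc.orderOf_mul_eq_mul_orderOf_of_coprime, hgo, hzo]
  rw [hgo, hzo]
  exact (Nat.coprime_primes Nat.prime_three hs).mpr (by omega)

/-- `SL₃(q₀)` has a Hall subgroup but is not a `D_π`-group -/
theorem not_dpi_SL3 [Finite F] (h9 : Nat.card F % 9 = 2 ∨ Nat.card F % 9 = 5) {s : ℕ} (hs : s.Prime) (h5 : 5 ≤ s) (hsq : s ∣ Nat.card F - 1) :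
    EPi {3, s} (SL3 F) ∧ ¬ DPi {3, s} (SL3 F) := by
  have hH := hall_Mon hs h5 hsq (by omega)
  refine ⟨⟨_, hH⟩, fun h => ?_⟩
  obtain ⟨w, hw⟩ := exists_bad hs h5 hsq
  have hL : PiSubgroup {3, s} (Subgroup.zpowers w) := by
    show PiNumber _ _
    rw [Nat.card_zpowers, hw]
    refine PiNumber.mul ?_ ?_
    · intro t ht hd
      exact Or.inl ((Nat.prime_dvd_prime_iff_eq ht Nat.prime_three).mp hd)
    · intro t ht hd
      exact Or.inr ((Nat.prime_dvd_prime_iff_eq ht hs).mp hd)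
  obtain ⟨g, hg⟩ := h.cover hH hL
  have h1 := hg (Subgroup.mem_zpowers w)
  rw [mem_cj] at h1
  obtain ⟨k, hk⟩ := Sh.of_mem h1
  refine no_order (by omega) h5 hk.mem ?_
  have h6 := MulEquiv.orderOf_eq (MulAut.conj g⁻¹) w
  rw [MulAut.conj_apply, inv_inv] at h6
  exact h6.trans hw

end

/-- the embedding -/
theorem exists_embedding {F₀ F : Type} [Field F₀] [Field F] [Finite F₀] (f : F₀ →+* F) (h3 : Nat.card F₀ % 3 = 2) :
    ∃ ψ : SL3 F₀ →* ProjectiveSpecialLinearGroup (Fin 3) F, Function.Injective ψ := by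
  refine ⟨(QuotientGroup.mk' (Subgroup.center (SpecialLinearGroup (Fin 3) F))).comp (SpecialLinearGroup.map f), ?_⟩
  rw [injective_iff_map_eq_one]
  intro A hA
  have h1 : SpecialLinearGroup.map f A ∈ Subgroup.center (SpecialLinearGroup (Fin 3) F) := by
    rw [← QuotientGroup.eq_one_iff]
    exact hA
  obtain ⟨r, hr, hrA⟩ := (Matrix.SpecialLinearGroup.mem_center_iff).mp h1
  have hent : ∀ i j, f (sm A i j) = if i = j then r else 0 := by
    intro i j
    have h2 := congrFun (congrFun hrA i) j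
    rw [Matrix.scalar_apply, Matrix.diagonal_apply] at h2
    exact h2.symm
  have hoff : ∀ i j, i ≠ j → sm A i j = 0 := by
    intro i j hij
    have h2 := hent i j
    rw [if_neg hij] at h2
    exact f.injective (by rw [h2, map_zero])
  have hdiag : ∀ i, sm A i i = sm A 0 0 := by
    intro i
    apply f.injective
    rw [hent, hent, if_pos rfl, if_pos rfl]
  obtain ⟨d, hd⟩ := mem_Dg_of_zero hoff
  have hd0 : ∀ i, d i = d 0 := by
    intro i
    have h2 := hdiag i
    rw [hd, mm_apply, mm_apply, add_zero, if_pos rfl, add_zero, if_pos rfl] at h2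
    exact Units.ext h2
  have hdet : d 0 * d 1 * d 2 = 1 := by
    have h1 := sm_det A
    rw [hd, det_mm] at h1
    exact Units.ext h1
  have hd3 : d 0 ^ 3 = 1 := by
    rw [hd0 1, hd0 2] at hdet
    rw [pow_succ, pow_two]
    exact hdet
  have hq1 : 1 < Nat.card F₀ := Finite.one_lt_card
  have hone : d 0 = 1 := by
    have h2 : orderOf (d 0) ∣ Nat.gcd 3 (Nat.card F₀ - 1) := by
      apply Nat.dvd_gcd (orderOf_dvd_of_pow_eq_one hd3)
      rw [← Nat.card_units]
      exact orderOf_dvd_natCard _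
    have h4 : Nat.gcd 3 (Nat.card F₀ - 1) = 1 := (Nat.Prime.coprime_iff_not_dvd Nat.prime_three).mpr (by omega)
    rw [h4, Nat.dvd_one, orderOf_eq_one_iff] at h2
    exact h2
  apply sm_inj
  rw [hd, sm_one, ← mm_one]
  congr 1
  ext i
  rw [hd0 i, hone]
  rfl

/-- a subfield of index two -/
theorem exists_subfield {F : Type} [Field F] [Finite F] {q₀ : ℕ} (hq : Nat.card F = q₀ ^ 2) :
    ∃ (F₀ : Type) (_ : Field F₀) (_ : Finite F₀) (_ : F₀ →+* F), Nat.card F₀ = q₀ := by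
  obtain ⟨p, hp⟩ := CharP.exists F
  haveI : Fintype F := Fintype.ofFinite F
  obtain ⟨m, hpp, hm⟩ := FiniteField.card F p
  haveI : Fact p.Prime := ⟨hpp⟩
  letI : Algebra (ZMod p) F := ZMod.algebra F p
  rw [← Nat.card_eq_fintype_card, hq] at hm
  obtain ⟨n, -, hn⟩ := (Nat.dvd_prime_pow hpp).mp (show q₀ ∣ p ^ (m : ℕ) by rw [← hm, pow_two]; exact Dvd.intro _ rfl)
  have hn0 : n ≠ 0 := by
    rintro rfl
    rw [pow_zero] at hn
    rw [hn, one_pow] at hm
    have h1 := m.pos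
    have h2 : 1 < p ^ (m : ℕ) := Nat.one_lt_pow h1.ne' hpp.one_lt
    omega
  have hmn : (m : ℕ) = n * 2 := by
    rw [hn, ← pow_mul] at hm
    exact (Nat.pow_right_injective hpp.two_le hm).symm
  have hF : Module.finrank (ZMod p) F = m := by
    have h1 := FiniteField.pow_finrank_eq_natCard p F
    rw [hq, hm] at h1
    exact Nat.pow_right_injective hpp.two_le h1
  have h2 : Module.finrank (ZMod p) (GaloisField p n) ∣ Module.finrank (ZMod p) F := by
    rw [GaloisField.finrank p hn0, hF, hmn]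
    exact Dvd.intro _ rfl
  obtain ⟨f⟩ := FiniteField.nonempty_algHom_of_finrank_dvd h2
  exact ⟨GaloisField p n, inferInstance, inferInstance, f.toRingHom, by rw [GaloisField.card p n hn0, hn]⟩

/-- the exceptions -/
theorem exceptions {F : Type} [Field F] [Finite F] {q₀ : ℕ} (hq : Nat.card F = q₀ ^ 2) (h9 : q₀ % 9 = 2 ∨ q₀ % 9 = 5) {s : ℕ} (hs : s.Prime)
    (h5 : 5 ≤ s) (hsq : s ∣ q₀ - 1) :
    DPi {3, s} (ProjectiveSpecialLinearGroup (Fin 3) F) ∧ ¬ Star {3, s} (ProjectiveSpecialLinearGroup (Fin 3) F) := by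
  have h1 : Nat.card F % 9 = 4 ∨ Nat.card F % 9 = 7 := by
    rw [hq, Nat.pow_mod]
    rcases h9 with h | h <;> rw [h] <;> norm_num
  have h2 : s ∣ Nat.card F - 1 := by
    rw [hq]
    have h3 : q₀ ^ 2 - 1 = (q₀ + 1) * (q₀ - 1) := by
      have := Nat.sq_sub_sq q₀ 1
      rw [one_pow] at this
      exact this
    rw [h3]
    exact Dvd.dvd.mul_left hsq _
  refine ⟨dpi_PSL3 h1 hs h5 h2, fun h => ?_⟩
  obtain ⟨F₀, _, _, f, hf⟩ := exists_subfield hq
  obtain ⟨ψ, hψ⟩ := exists_embedding f (by rw [hf]; omega)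
  have hf9 : Nat.card F₀ % 9 = 2 ∨ Nat.card F₀ % 9 = 5 := by rw [hf]; exact h9
  obtain ⟨h3, h4⟩ := not_dpi_SL3 hf9 hs h5 (by rw [hf]; exact hsq)
  have e : SL3 F₀ ≃* ψ.range := MonoidHom.ofInjective hψ
  exact h4 ((h.2 _ (h3.equiv e)).equiv e.symm)

end Pool.Agent.H32.HallD
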