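import Pool.Agent.H32.HallD.Crit

/-!
# HallD PiPart: the `π`-part of a commutative subgroup; three existence lemmas for Hall subgroups
-/

set_option autoImplicit false

universe u

namespace Pool.Agent.H32.HallD

variable {G : Type u} [Group G]

/-- the elements of `π`-order of a commutative subgroup -/
def piPart (π : Set ℕ) (A : Subgroup G) (hA : ∀ x ∈ A, ∀ y ∈ A, x * y = y * x) : Subgroup G where
  carrier := {x | x ∈ A ∧ PiNumber π (orderOf x)}
  mul_mem' := by
    rintro x y ⟨hx, hx2⟩ ⟨hy, hy2⟩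
    refine ⟨A.mul_mem hx hy, ?_⟩
    have h1 : Commute x y := hA x hx y hy
    exact (hx2.mul hy2).of_dvd h1.orderOf_mul_dvd_mul_orderOf
  one_mem' := by
    refine ⟨A.one_mem, ?_⟩
    intro t ht hd
    rw [orderOf_one] at hd
    exact absurd (Nat.dvd_one.mp hd) ht.ne_one
  inv_mem' := by
    rintro x ⟨hx, hx2⟩
    refine ⟨A.inv_mem hx, ?_⟩
    rw [orderOf_inv]
    exact hx2

theorem mem_piPart {π : Set ℕ} {A : Subgroup G} {hA : ∀ x ∈ A, ∀ y ∈ A, x * y = y * x} {x : G} :
    x ∈ piPart π A hA ↔ x ∈ A ∧ PiNumber π (orderOf x) := Iff.rfl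

theorem card_piPart [Finite G] (π : Set ℕ) (A : Subgroup G) (hA : ∀ x ∈ A, ∀ y ∈ A, x * y = y * x) :
    PiNumber π (Nat.card (piPart π A hA)) := by
  intro t ht hd
  haveI : Fact t.Prime := ⟨ht⟩
  obtain ⟨x, hx⟩ := exists_prime_orderOf_dvd_card' t hd
  have h1 := x.2.2 t ht
  rw [Subgroup.orderOf_coe, hx] at h1
  exact h1 dvd_rfl

/-- an element of prime order in the quotient -/
theorem exists_pow_mem [Finite G] (B : Subgroup G) [B.Normal] {t : ℕ} (ht : t.Prime) (hd : t ∣ B.index) : ∃ y : G, y ∉ B ∧ y ^ t ∈ B := by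
  haveI : Fact t.Prime := ⟨ht⟩
  rw [Subgroup.index_eq_card] at hd
  obtain ⟨y, hy⟩ := exists_prime_orderOf_dvd_card' t hd
  obtain ⟨y, rfl⟩ := QuotientGroup.mk_surjective y
  refine ⟨y, ?_, ?_⟩
  · intro h
    rw [(QuotientGroup.eq_one_iff y).mpr h, orderOf_one] at hy
    exact ht.ne_one hy.symm
  · rw [← QuotientGroup.eq_one_iff, QuotientGroup.mk_pow, ← hy, pow_orderOf_eq_one]

theorem pi_of_pow {π : Set ℕ} {t : ℕ} (ht : t.Prime) (htπ : t ∈ π) {y : G} (h : PiNumber π (orderOf (y ^ t))) : PiNumber π (orderOf y) := by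
  have h1 : orderOf y ∣ t * orderOf (y ^ t) := by
    apply orderOf_dvd_of_pow_eq_one
    rw [pow_mul, pow_orderOf_eq_one]
  have h2 : PiNumber π t := by
    intro s hs hd
    rw [(Nat.prime_dvd_prime_iff_eq hs ht).mp hd]
    exact htπ
  exact (h2.mul h).of_dvd h1

theorem relIndex_piPart [Finite G] (π : Set ℕ) (A : Subgroup G) (hA : ∀ x ∈ A, ∀ y ∈ A, x * y = y * x) :
    PiPrimeNumber π ((piPart π A hA).relIndex A) := by
  intro t ht hd htπ
  haveI : ((piPart π A hA).subgroupOf A).Normal := by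
    refine ⟨fun x hx g => ?_⟩
    have h1 : g * x * g⁻¹ = x := by
      have h2 : g * x = x * g := Subtype.ext (hA g g.2 x x.2)
      rw [h2, mul_inv_cancel_right]
    rw [h1]
    exact hx
  obtain ⟨y, hy, hyt⟩ := exists_pow_mem ((piPart π A hA).subgroupOf A) ht hd
  apply hy
  rw [Subgroup.mem_subgroupOf] at hyt ⊢
  exact ⟨y.2, pi_of_pow ht htπ hyt.2⟩

theorem piNumber_compl {π : Set ℕ} {n : ℕ} : PiPrimeNumber πᶜ n ↔ PiNumber π n := by
  constructor
  · intro h t ht hd
    by_contra hn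
    exact h t ht hd hn
  · intro h t ht hd hn
    exact hn (h t ht hd)

theorem piPrimeNumber_compl {π : Set ℕ} {n : ℕ} : PiNumber πᶜ n ↔ PiPrimeNumber π n := Iff.rfl

theorem coprime_of_pi {π : Set ℕ} {m n : ℕ} (hm : PiNumber π m) (hn : PiPrimeNumber π n) : m.Coprime n := by
  apply Nat.coprime_of_dvd
  intro t ht h1 h2
  exact hn t ht h2 (hm t ht h1)

/-- a group with a commutative normal subgroup of `π`-index has a Hall `π`-subgroup -/
theorem epi_of_comm_normal [Finite G] {π : Set ℕ} (A : Subgroup G) [hn : A.Normal] (hA : ∀ x ∈ A, ∀ y ∈ A, x * y = y * x)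
    (hi : PiNumber π A.index) : EPi π G := by
  set B := piPart πᶜ A hA with hB
  have hle : B ≤ A := fun x hx => hx.1
  haveI : B.Normal := by
    refine ⟨fun x hx g => ⟨hn.conj_mem x hx.1 g, ?_⟩⟩
    have h1 : orderOf (g * x * g⁻¹) = orderOf x := by
      have h2 := MulEquiv.orderOf_eq (MulAut.conj g) x
      exact h2
    rw [h1]
    exact hx.2
  have h1 : PiPrimeNumber π (Nat.card B) := piPrimeNumber_compl.mp (card_piPart πᶜ A hA)
  have h2 : PiNumber π B.index := by
    rw [← Subgroup.relIndex_mul_index hle]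
    exact (piNumber_compl.mp (relIndex_piPart πᶜ A hA)).mul hi
  obtain ⟨H, hH⟩ := Subgroup.exists_right_complement'_of_coprime (coprime_of_pi h2 h1).symm
  refine ⟨H, ?_, ?_⟩
  · rw [← hH.symm.index_eq_card]
    exact h2
  · rw [hH.index_eq_card]
    exact h1

/-- a group with a homomorphism to a commutative group whose kernel is a `π`-group has a Hall `π`-subgroup -/
theorem epi_of_hom [Finite G] {π : Set ℕ} {A : Type*} [CommGroup A] (f : G →* A) (hk : PiNumber π (Nat.card f.ker)) : EPi π G := by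
  have hc : ∀ x ∈ (⊤ : Subgroup A), ∀ y ∈ (⊤ : Subgroup A), x * y = y * x := fun x _ y _ => mul_comm x y
  refine ⟨(piPart π ⊤ hc).comap f, ?_, ?_⟩
  · intro t ht hd
    haveI : Fact t.Prime := ⟨ht⟩
    obtain ⟨x, hx⟩ := exists_prime_orderOf_dvd_card' t hd
    have h1 : PiNumber π (orderOf (f x)) := x.2.2
    have h3 : orderOf (x : G) = t := by rw [Subgroup.orderOf_coe, hx]
    have h2 : orderOf (f x) ∣ t := by
      rw [← h3]
      exact orderOf_map_dvd f x
    rcases (Nat.dvd_prime ht).mp h2 with h4 | h4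
    · have h5 : (x : G) ∈ f.ker := by
        rw [MonoidHom.mem_ker]
        exact orderOf_eq_one_iff.mp h4
      have h6 : t ∣ Nat.card f.ker := by
        rw [← h3]
        have h7 := orderOf_dvd_natCard (⟨(x : G), h5⟩ : f.ker)
        rwa [← Subgroup.orderOf_coe] at h7
      exact hk t ht h6
    · exact h1 t ht (by rw [h4])
  · intro t ht hd htπ
    obtain ⟨y, hy, hyt⟩ := exists_pow_mem _ ht hd
    apply hy
    refine ⟨Subgroup.mem_top _, ?_⟩
    have h1 : PiNumber π (orderOf (f (y ^ t))) := hyt.2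
    rw [map_pow] at h1
    exact pi_of_pow ht htπ h1

/-- a Hall subgroup of a subgroup of `π'`-index -/
theorem epi_of_subgroup {π : Set ℕ} {K : Subgroup G} (hK : PiPrimeNumber π K.index) (h : EPi π K) : EPi π G := by
  obtain ⟨H, h1, h2⟩ := h
  refine ⟨H.map K.subtype, ?_, ?_⟩
  · rw [Nat.card_congr (H.equivMapOfInjective K.subtype K.subtype_injective).symm.toEquiv]
    exact h1
  · have hle : H.map K.subtype ≤ K := by
      rintro x ⟨y, -, rfl⟩
      exact y.2
    intro t ht hd
    rw [← Subgroup.relIndex_mul_index hle] at hd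
    rcases (Nat.Prime.dvd_mul ht).mp hd with h3 | h3
    · apply h2 t ht
      have h4 : (H.map K.subtype).subgroupOf K = H := Subgroup.comap_map_eq_self_of_injective K.subtype_injective H
      rw [Subgroup.relIndex, h4] at h3
      exact h3
    · exact hK t ht h3

end Pool.Agent.H32.HallD
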