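import Pool.Agent.H32.HallD.MatH
import Pool.Agent.H32.HallD.PiPart
import Pool.Agent.H32.HallD.Lst

/-!
# HallD Suf: the list for `PSL₂`, sufficiency
-/

set_option autoImplicit false

open Matrix
open scoped MatrixGroups

universe u

namespace Pool.Agent.H32.HallD

section

variable {G : Type u} [Group G] [Finite G] {π : Set ℕ}

theorem star_one (h : ∀ s t : ℕ, s.Prime → t.Prime → s ∈ π → t ∈ π → s ∣ Nat.card G → t ∣ Nat.card G → s = t) : Star π G := by
  by_cases hr : ∃ r : ℕ, r.Prime ∧ r ∈ π ∧ r ∣ Nat.card G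
  · obtain ⟨r, hr, hrπ, hrG⟩ := hr
    have h1 : ∀ t : ℕ, t.Prime → t ∣ Nat.card G → t ∈ π → t = r := fun t ht hd htπ => h t r ht hr htπ hrπ hd hrG
    haveI : Fact r.Prime := ⟨hr⟩
    refine star_of_normal (normPi_one h1) ?_
    obtain ⟨P⟩ : Nonempty (Sylow r G) := inferInstance
    refine ⟨P, ?_, ?_⟩
    · intro t ht hd
      obtain ⟨n, hn⟩ := IsPGroup.iff_card.mp P.2
      have hd' : t ∣ Nat.card P := hd
      rw [hn] at hd'
      have h2 : t = r := (Nat.prime_dvd_prime_iff_eq ht hr).mp (ht.dvd_of_dvd_pow hd')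
      rw [h2]
      exact hrπ
    · intro t ht hd htπ
      have h2 := h1 t ht (hd.trans (Subgroup.index_dvd_card _)) htπ
      rw [h2] at hd
      exact P.not_dvd_index hd
  · push Not at hr
    refine star_of_normal (r := 2) (normPi_one fun t ht hd htπ => absurd hd (hr t ht htπ)) ?_
    refine ⟨⊥, ?_, ?_⟩
    · intro t ht hd
      rw [Subgroup.card_bot, Nat.dvd_one] at hd
      exact absurd hd ht.ne_one
    · intro t ht hd htπ
      exact hr t ht htπ (hd.trans (Subgroup.index_dvd_card _))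

theorem dpi_all (h : ∀ t : ℕ, t.Prime → t ∣ Nat.card G → t ∈ π) : DPi π G := by
  refine dpi_of_cover (H := ⊤) ⟨?_, ?_⟩ ?_
  · intro t ht hd
    rw [Subgroup.card_top] at hd
    exact h t ht hd
  · intro t ht hd
    rw [Subgroup.index_top, Nat.dvd_one] at hd
    exact absurd hd ht.ne_one
  · intro L _
    refine ⟨1, fun x _ => ?_⟩
    rw [mem_cj]
    exact Subgroup.mem_top _

theorem star_all (h : ∀ t : ℕ, t.Prime → t ∣ Nat.card G → t ∈ π) : Star π G :=
  ⟨dpi_all h, fun K _ => dpi_all fun t ht hd => h t ht (hd.trans (Subgroup.card_subgroup_dvd_card K))⟩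

end

variable {F : Type} [Field F] [Finite F] {p : ℕ} [hp : Fact p.Prime] [CharP F p] {π : Set ℕ}

theorem card_eq_pow (p : ℕ) [hp : Fact p.Prime] [CharP F p] : ∃ k : ℕ, k ≠ 0 ∧ Nat.card F = p ^ k := by
  haveI : Fintype F := Fintype.ofFinite F
  obtain ⟨m, -, hm⟩ := FiniteField.card F p
  exact ⟨m, m.pos.ne', by rw [Nat.card_eq_fintype_card, hm]⟩

theorem eq_p {t : ℕ} (ht : t.Prime) (h : t ∣ Nat.card F) : t = p := by
  obtain ⟨k, -, hk⟩ := card_eq_pow (F := F) p
  rw [hk] at h
  exact (Nat.prime_dvd_prime_iff_eq ht hp.out).mp (ht.dvd_of_dvd_pow h)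

theorem dvd_card_of_e {t : ℕ} (ht : t.Prime) (ht2 : t ≠ 2) (h : t ∣ Nat.card F * (Nat.card F ^ 2 - 1)) : t ∣ Nat.card (PS F) := by
  rw [← card_PS] at h
  rcases (Nat.Prime.dvd_mul ht).mp h with h1 | h1
  · exact h1
  · rcases eZ_cases (F := F) with h2 | h2
    · have h3 : Nat.card (Subgroup.center (SpecialLinearGroup (Fin 2) F)) = 1 := h2
      rw [h3, Nat.dvd_one] at h1
      exact absurd h1 ht.ne_one
    · have h3 : Nat.card (Subgroup.center (SpecialLinearGroup (Fin 2) F)) = 2 := h2
      rw [h3] at h1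
      exact absurd ((Nat.prime_dvd_prime_iff_eq ht Nat.prime_two).mp h1) ht2

theorem sq_sub (q : ℕ) (hq : 1 ≤ q) : q ^ 2 - 1 = (q - 1) * (q + 1) := by
  obtain ⟨r, rfl⟩ : ∃ r, q = r + 1 := ⟨q - 1, by omega⟩
  have : (r + 1) ^ 2 = r * (r + 2) + 1 := by ring
  rw [this, Nat.add_sub_cancel, Nat.add_sub_cancel]

theorem dvd_two {t q : ℕ} (hq : 1 ≤ q) (h1 : t ∣ q - 1) (h2 : t ∣ q + 1) : t ∣ 2 := by
  have h3 : q + 1 = (q - 1) + 2 := by omega
  rw [h3] at h2
  exact (Nat.dvd_add_right h1).mp h2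

theorem dvd_one_of {t q : ℕ} (h1 : t ∣ q) (h2 : t ∣ q + 1) : t ∣ 1 := (Nat.dvd_add_right h1).mp h2

/-- the commutative member of the partition as a group with a Hall subgroup -/
theorem epi_C2 {x : PS F} (hs : SS p (C2 F) x) : EPi π (C2 F x) := by
  refine epi_of_comm_normal (⊤ : Subgroup (C2 F x)) ?_ ?_
  · intro a _ b _
    exact Subtype.ext (hs.comm a.2 b.2)
  · intro t ht hd
    rw [Subgroup.index_top, Nat.dvd_one] at hd
    exact absurd hd ht.ne_one

/-- the index of a split torus -/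
theorem index_split {x : PS F} (hc : Nat.card (C2 F x) * eZ F = Nat.card F - 1) : (C2 F x).index = Nat.card F * (Nat.card F + 1) := by
  have h1 := card_PS (F := F)
  have hq : 1 < Nat.card F := Finite.one_lt_card
  rw [sq_sub _ hq.le, ← Subgroup.card_mul_index (C2 F x)] at h1
  have he : 0 < eZ F := Nat.card_pos
  have hc0 : 0 < Nat.card (C2 F x) := Nat.card_pos
  have h2 : Nat.card (C2 F x) * eZ F * (C2 F x).index = Nat.card (C2 F x) * eZ F * (Nat.card F * (Nat.card F + 1)) := by
    calc Nat.card (C2 F x) * eZ F * (C2 F x).index = Nat.card (C2 F x) * (C2 F x).index * eZ F := by ring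
      _ = Nat.card F * ((Nat.card F - 1) * (Nat.card F + 1)) := h1
      _ = _ := by rw [hc]; ring
  exact Nat.eq_of_mul_eq_mul_left (Nat.mul_pos hc0 he) h2

/-- the index of a nonsplit torus -/
theorem index_nonsplit {x : PS F} (hc : Nat.card (C2 F x) * eZ F = Nat.card F + 1) : (C2 F x).index = Nat.card F * (Nat.card F - 1) := by
  have h1 := card_PS (F := F)
  have hq : 1 < Nat.card F := Finite.one_lt_card
  rw [sq_sub _ hq.le, ← Subgroup.card_mul_index (C2 F x)] at h1
  have he : 0 < eZ F := Nat.card_pos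
  have hc0 : 0 < Nat.card (C2 F x) := Nat.card_pos
  have h2 : Nat.card (C2 F x) * eZ F * (C2 F x).index = Nat.card (C2 F x) * eZ F * (Nat.card F * (Nat.card F - 1)) := by
    calc Nat.card (C2 F x) * eZ F * (C2 F x).index = Nat.card (C2 F x) * (C2 F x).index * eZ F := by ring
      _ = Nat.card F * ((Nat.card F - 1) * (Nat.card F + 1)) := h1
      _ = _ := by rw [hc]; ring
  exact Nat.eq_of_mul_eq_mul_left (Nat.mul_pos hc0 he) h2

/-- the normaliser of a torus has a Hall `π`-subgroup if `2 ∈ π` -/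
theorem epi_norm (h2 : 2 ∈ π) (hq : 4 ≤ Nat.card F) {x : PS F} (hx : x ≠ 1) (hs : SS p (C2 F) x) :
    EPi π (Subgroup.normalizer ((C2 F x : Subgroup (PS F)) : Set (PS F))) := by
  have hle : C2 F x ≤ Subgroup.normalizer ((C2 F x : Subgroup (PS F)) : Set (PS F)) := Subgroup.le_normalizer
  refine epi_of_comm_normal ((C2 F x).subgroupOf _) ?_ ?_
  · intro a ha b hb
    exact Subtype.ext (hs.comm ha hb)
  · have h1 := Subgroup.card_mul_index ((C2 F x).subgroupOf (Subgroup.normalizer ((C2 F x : Subgroup (PS F)) : Set (PS F))))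
    rw [norm_torus hq hx hs, Nat.card_congr (Subgroup.subgroupOfEquivOfLe hle).toEquiv, mul_comm 2] at h1
    have h3 := Nat.eq_of_mul_eq_mul_left Nat.card_pos h1
    rw [h3]
    intro t ht hd
    rw [(Nat.prime_dvd_prime_iff_eq ht Nat.prime_two).mp hd]
    exact h2

/-- the index of the normaliser of a torus -/
theorem index_norm (hq : 4 ≤ Nat.card F) {x : PS F} (hx : x ≠ 1) (hs : SS p (C2 F) x) :
    (Subgroup.normalizer ((C2 F x : Subgroup (PS F)) : Set (PS F))).index * 2 = (C2 F x).index := by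
  have h1 := Subgroup.card_mul_index (Subgroup.normalizer ((C2 F x : Subgroup (PS F)) : Set (PS F)))
  rw [norm_torus hq hx hs, ← Subgroup.card_mul_index (C2 F x)] at h1
  have h2 : Nat.card (C2 F x) * ((Subgroup.normalizer ((C2 F x : Subgroup (PS F)) : Set (PS F))).index * 2) = Nat.card (C2 F x) * (C2 F x).index := by
    rw [← h1]
    ring
  exact Nat.eq_of_mul_eq_mul_left Nat.card_pos h2

theorem suf (hq : 4 ≤ Nat.card F) (h : Lst π (Nat.card (PS F)) (Nat.card F)) : Star π (PS F) := by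
  obtain ⟨p, hp'⟩ := CharP.exists F
  haveI : Fact p.Prime := ⟨CharP.char_is_prime F p⟩
  have hq1 : 1 ≤ Nat.card F := by omega
  rcases h with h | h | ⟨h2, h⟩ | ⟨h2, h⟩ | ⟨h2, h3, hpq, h⟩
  · exact star_one h
  · exact star_all h
  · refine star_of_pt (pt_PS p) (Or.inl h2) ?_
    have hplus : ∀ t : ℕ, t.Prime → t ∣ Nat.card F + 1 → t ∉ π := by
      intro t ht hd htπ
      have ht2 : t ≠ 2 := by
        rintro rfl
        exact h2 htπ
      have h4 : t ∣ Nat.card (PS F) := by
        apply dvd_card_of_e ht ht2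
        rw [sq_sub _ hq1]
        exact Dvd.dvd.mul_left (Dvd.dvd.mul_left hd _) _
      rcases (Nat.Prime.dvd_mul ht).mp (h t ht htπ h4) with h5 | h5
      · exact ht.ne_one (Nat.dvd_one.mp (dvd_one_of h5 hd))
      · exact ht2 ((Nat.prime_dvd_prime_iff_eq ht Nat.prime_two).mp (dvd_two hq1 h5 hd))
    by_cases hpπ : p ∈ π
    · obtain ⟨u, hu1, hu⟩ := exists_un (F := F) (p := p)
      have hK := norm_unip hu1 hu
      have hidx : (Subgroup.normalizer ((C2 F u : Subgroup (PS F)) : Set (PS F))).index = Nat.card F + 1 := by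
        have h4 := Subgroup.card_mul_index (Subgroup.normalizer ((C2 F u : Subgroup (PS F)) : Set (PS F)))
        rw [← hK] at h4
        exact Nat.eq_of_mul_eq_mul_left Nat.card_pos h4
      refine epi_of_subgroup (K := Subgroup.normalizer ((C2 F u : Subgroup (PS F)) : Set (PS F))) ?_ ?_
      · rw [hidx]
        exact hplus
      · obtain ⟨φ, hφ⟩ := hu.quo
        refine epi_of_hom φ ?_
        have hker : φ.ker = (C2 F u).subgroupOf (Subgroup.normalizer ((C2 F u : Subgroup (PS F)) : Set (PS F))) := by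
          ext g
          rw [MonoidHom.mem_ker, hφ, Subgroup.mem_subgroupOf]
        rw [hker, Nat.card_congr (Subgroup.subgroupOfEquivOfLe Subgroup.le_normalizer).toEquiv, card_C2_un hu1 hu]
        intro t ht hd
        rw [eq_p (p := p) ht hd]
        exact hpπ
    · obtain ⟨x, hx1, hx, hc⟩ := exists_split (F := F) (p := p) hq
      refine epi_of_subgroup (K := C2 F x) ?_ (epi_C2 hx)
      rw [index_split hc]
      intro t ht hd
      rcases (Nat.Prime.dvd_mul ht).mp hd with h4 | h4
      · rw [eq_p (p := p) ht h4]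
        exact hpπ
      · exact hplus t ht h4
  · refine star_of_pt (pt_PS p) (Or.inl h2) ?_
    obtain ⟨x, hx1, hx, hc⟩ := exists_nonsplit (F := F) (p := p) hq
    refine epi_of_subgroup (K := C2 F x) ?_ (epi_C2 hx)
    rw [index_nonsplit hc]
    intro t ht hd htπ
    have ht2 : t ≠ 2 := by
      rintro rfl
      exact h2 htπ
    have h4 : t ∣ Nat.card (PS F) := by
      apply dvd_card_of_e ht ht2
      rw [sq_sub _ hq1, ← mul_assoc]
      exact Dvd.dvd.mul_right hd _
    have h5 := h t ht htπ h4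
    rcases (Nat.Prime.dvd_mul ht).mp hd with h6 | h6
    · exact ht.ne_one (Nat.dvd_one.mp (dvd_one_of h6 h5))
    · exact ht2 ((Nat.prime_dvd_prime_iff_eq ht Nat.prime_two).mp (dvd_two hq1 h6 h5))
  · have hpπ : p ∉ π := by
      intro hpπ
      obtain ⟨k, hk0, hk⟩ := card_eq_pow (F := F) p
      exact hpq p (Fact.out) hpπ (by rw [hk]; exact dvd_pow_self p hk0)
    have hqodd : ¬ 2 ∣ Nat.card F := hpq 2 Nat.prime_two h2
    refine star_of_pt (pt_PS p) (Or.inr ⟨h3, hpπ⟩) ?_
    rcases h with ⟨hq4, h⟩ | ⟨hq4, h⟩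
    · obtain ⟨x, hx1, hx, hc⟩ := exists_split (F := F) (p := p) hq
      refine epi_of_subgroup (K := Subgroup.normalizer ((C2 F x : Subgroup (PS F)) : Set (PS F))) ?_ (epi_norm h2 hq hx1 hx)
      have hi := index_norm hq hx1 hx
      rw [index_split hc] at hi
      intro t ht hd htπ
      by_cases ht2 : t = 2
      · subst ht2
        have h4 : 2 * 2 ∣ Nat.card F * (Nat.card F + 1) := by
          rw [← hi]
          exact mul_dvd_mul_right hd 2
        have h5 : Nat.Coprime 4 (Nat.card F) := by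
          have h6 : Nat.Coprime 2 (Nat.card F) := (Nat.Prime.coprime_iff_not_dvd Nat.prime_two).mpr hqodd
          have h7 := Nat.Coprime.pow_left 2 h6
          exact h7
        have h6 : 4 ∣ Nat.card F + 1 := h5.dvd_of_dvd_mul_left h4
        omega
      · have h4 : t ∣ Nat.card F * (Nat.card F + 1) := by
          rw [← hi]
          exact Dvd.dvd.mul_right hd 2
        have h5 : t ∣ Nat.card F + 1 := ((Nat.Prime.dvd_mul ht).mp h4).resolve_left (hpq t ht htπ)
        have h6 : t ∣ Nat.card (PS F) := by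
          apply dvd_card_of_e ht ht2
          rw [sq_sub _ hq1]
          exact Dvd.dvd.mul_left (Dvd.dvd.mul_left h5 _) _
        exact ht2 ((Nat.prime_dvd_prime_iff_eq ht Nat.prime_two).mp (dvd_two hq1 (h t ht htπ h6) h5))
    · obtain ⟨x, hx1, hx, hc⟩ := exists_nonsplit (F := F) (p := p) hq
      refine epi_of_subgroup (K := Subgroup.normalizer ((C2 F x : Subgroup (PS F)) : Set (PS F))) ?_ (epi_norm h2 hq hx1 hx)
      have hi := index_norm hq hx1 hx
      rw [index_nonsplit hc] at hi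
      intro t ht hd htπ
      by_cases ht2 : t = 2
      · subst ht2
        have h4 : 2 * 2 ∣ Nat.card F * (Nat.card F - 1) := by
          rw [← hi]
          exact mul_dvd_mul_right hd 2
        have h5 : Nat.Coprime 4 (Nat.card F) := by
          have h6 : Nat.Coprime 2 (Nat.card F) := (Nat.Prime.coprime_iff_not_dvd Nat.prime_two).mpr hqodd
          have h7 := Nat.Coprime.pow_left 2 h6
          exact h7
        have h6 : 4 ∣ Nat.card F - 1 := h5.dvd_of_dvd_mul_left h4
        omega
      · have h4 : t ∣ Nat.card F * (Nat.card F - 1) := by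
          rw [← hi]
          exact Dvd.dvd.mul_right hd 2
        have h5 : t ∣ Nat.card F - 1 := ((Nat.Prime.dvd_mul ht).mp h4).resolve_left (hpq t ht htπ)
        have h6 : t ∣ Nat.card (PS F) := by
          apply dvd_card_of_e ht ht2
          rw [sq_sub _ hq1]
          exact Dvd.dvd.mul_left (Dvd.dvd.mul_right h5 _) _
        exact ht2 ((Nat.prime_dvd_prime_iff_eq ht Nat.prime_two).mp (dvd_two hq1 h5 (h t ht htπ h6)))

end Pool.Agent.H32.HallD
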