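import Pool.Agent.H32.HallD.MatI
import Pool.Agent.H32.HallD.MatJ
import Pool.Agent.H32.HallD.Suf

/-!
# HallD NecA: the list for `PSL₂`, necessity: involutions which invert a torus; the case `p ∈ π`
-/

set_option autoImplicit false

open Matrix
open scoped MatrixGroups

universe u

namespace Pool.Agent.H32.HallD

section

variable {G : Type u} [Group G] [Finite G] {π : Set ℕ}

/-- a prime of `π` which divides the order of the group divides the order of a Hall subgroup -/
theorem IsHall.dvd {H : Subgroup G} (hH : IsHall π H) {t : ℕ} (ht : t.Prime) (htπ : t ∈ π) (hd : t ∣ Nat.card G) : t ∣ Nat.card H := by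
  rw [← Subgroup.card_mul_index H] at hd
  exact ((Nat.Prime.dvd_mul ht).mp hd).resolve_right fun h => hH.index t ht h htπ

/-- a dihedral subgroup in a Hall subgroup -/
theorem dihedral_in_hall (hD : DPi π G) {H : Subgroup G} (hH : IsHall π H) (h2 : 2 ∈ π) {i y : G} {t : ℕ} (ht : t.Prime) (htπ : t ∈ π)
    (hi : i * i = 1) (hy : y ^ t = 1) (hiy : i * y * i⁻¹ = y⁻¹) :
    ∃ i' y' : G, i' ∈ H ∧ y' ∈ H ∧ i' * i' = 1 ∧ i' * y' * i'⁻¹ = y'⁻¹ ∧ y' ^ t = 1 ∧ (y' = 1 → y = 1) := by
  have hL : PiSubgroup π (Subgroup.zpowers i ⊔ Subgroup.zpowers y) := by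
    refine pi_sup ?_ (pi_zpowers ht htπ hy) (pi_zpowers Nat.prime_two h2 (by rw [pow_two, hi]))
    rw [Subgroup.zpowers_le, ← cj_eq_iff]
    show (Subgroup.zpowers y).map (MulAut.conj i).toMonoidHom = Subgroup.zpowers y
    rw [MonoidHom.map_zpowers]
    have h1 : (MulAut.conj i).toMonoidHom y = y⁻¹ := hiy
    rw [h1, Subgroup.zpowers_inv]
  obtain ⟨g, hg⟩ := hD.cover hH hL
  have h1 := hg (Subgroup.mem_sup_left (Subgroup.mem_zpowers i))
  have h3 := hg (Subgroup.mem_sup_right (Subgroup.mem_zpowers y))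
  rw [mem_cj] at h1 h3
  refine ⟨_, _, h1, h3, ?_, ?_, ?_, ?_⟩
  · calc g⁻¹ * i * g * (g⁻¹ * i * g) = g⁻¹ * (i * i) * g := by group
      _ = 1 := by rw [hi]; group
  · calc g⁻¹ * i * g * (g⁻¹ * y * g) * (g⁻¹ * i * g)⁻¹ = g⁻¹ * (i * y * i⁻¹) * g := by group
      _ = (g⁻¹ * y * g)⁻¹ := by rw [hiy]; group
  · have h4 := conj_pow (i := t) (a := g⁻¹) (b := y)
    rw [inv_inv] at h4
    rw [h4, hy, mul_one, inv_mul_cancel]
  · intro h4
    have h5 : y = g * (g⁻¹ * y * g) * g⁻¹ := by group
    rw [h5, h4]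
    group

end

variable {F : Type} [Field F] [Finite F] {p : ℕ} [hp : Fact p.Prime] [CharP F p] {π : Set ℕ}

/-- an involution which inverts a torus -/
theorem exists_inv (hq : 4 ≤ Nat.card F) {x : PS F} (hx : x ≠ 1) (hs : SS p (C2 F) x) :
    ∃ i : PS F, i * i = 1 ∧ ∀ y ∈ C2 F x, i * y * i⁻¹ = y⁻¹ := by
  have hN := norm_torus hq hx hs
  have hc : 0 < Nat.card (C2 F x) := Nat.card_pos
  obtain ⟨i, hiN, hiC⟩ : ∃ i ∈ Subgroup.normalizer ((C2 F x : Subgroup (PS F)) : Set (PS F)), i ∉ C2 F x := by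
    by_contra hcon
    push Not at hcon
    have h1 : Nat.card (Subgroup.normalizer ((C2 F x : Subgroup (PS F)) : Set (PS F))) ≤ Nat.card (C2 F x) :=
      Nat.le_of_dvd hc (Subgroup.card_dvd_of_le hcon)
    omega
  have hix := ((pt_PS p).mem_norm hx).mp hiN
  have hii := hs.sq i hix hiC
  refine ⟨i, hii, fun y hy => ?_⟩
  have h1 : i * y ∉ C2 F x := by
    intro h
    apply hiC
    have h2 := (C2 F x).mul_mem h ((C2 F x).inv_mem hy)
    rw [mul_inv_cancel_right] at h2
    exact h2
  have h2 : i * y * x * (i * y)⁻¹ ∈ C2 F x := by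
    have h3 : y * x = x * y := hs.comm hy ((pt_PS p).mem x)
    have h4 : i * y * x * (i * y)⁻¹ = i * x * i⁻¹ := by
      calc i * y * x * (i * y)⁻¹ = i * (y * x) * y⁻¹ * i⁻¹ := by group
        _ = i * x * i⁻¹ := by rw [h3]; group
    rw [h4]
    exact hix
  have h3 := hs.sq _ h2 h1
  have hinv : i⁻¹ = i := inv_eq_of_mul_eq_one_right hii
  rw [hinv]
  exact eq_inv_of_mul_eq_one_left (by rw [← h3]; group)

/-- the necessity of the list if the characteristic belongs to `π` -/
theorem nec_p (hq : 4 ≤ Nat.card F) (hpπ : p ∈ π) (hD : DPi π (PS F)) : Lst π (Nat.card (PS F)) (Nat.card F) := by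
  have hq1 : 1 ≤ Nat.card F := by omega
  obtain ⟨u, hu1, hu⟩ := exists_un (F := F) (p := p)
  obtain ⟨H0, hH0⟩ := hD.1
  obtain ⟨g, hg⟩ := exists_cj_of_pgroup hp.out hu.pgp (fun h => hH0.index p hp.out h hpπ)
  set H := cj g H0 with hHdef
  have hH : IsHall π H := hH0.cj g
  by_cases hN : ∀ h ∈ H, h * u * h⁻¹ ∈ C2 F u
  · -- `H` normalises a unipotent member
    have hHN : H ≤ Subgroup.normalizer ((C2 F u : Subgroup (PS F)) : Set (PS F)) := fun h hh => ((pt_PS p).mem_norm hu1).mpr (hN h hh)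
    have hK := norm_unip hu1 hu
    have hidx : (Subgroup.normalizer ((C2 F u : Subgroup (PS F)) : Set (PS F))).index = Nat.card F + 1 := by
      have h4 := Subgroup.card_mul_index (Subgroup.normalizer ((C2 F u : Subgroup (PS F)) : Set (PS F)))
      rw [← hK] at h4
      exact Nat.eq_of_mul_eq_mul_left Nat.card_pos h4
    have hplus : ∀ t : ℕ, t.Prime → t ∈ π → ¬ t ∣ Nat.card F + 1 := by
      intro t ht htπ hd
      rw [← hidx] at hd
      exact hH.index t ht (hd.trans (Subgroup.index_dvd_of_le hHN)) htπ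
    have hmain : ∀ t : ℕ, t.Prime → t ∈ π → t ∣ Nat.card (PS F) → t ∣ Nat.card F * (Nat.card F - 1) := by
      intro t ht htπ hd
      have h1 := Dvd.dvd.mul_right hd (Nat.card (Subgroup.center (SpecialLinearGroup (Fin 2) F)))
      rw [card_PS, sq_sub _ hq1, ← mul_assoc] at h1
      exact ((Nat.Prime.dvd_mul ht).mp h1).resolve_right (hplus t ht htπ)
    by_cases h2 : 2 ∈ π
    · -- then `p = 2`
      have hqe : 2 ∣ Nat.card F := by
        have h3 := hplus 2 Nat.prime_two h2
        omega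
      have hp2 : 2 = p := eq_p Nat.prime_two hqe
      left
      have key : ∀ t : ℕ, t.Prime → t ∈ π → t ∣ Nat.card (PS F) → t = 2 := by
        intro t ht htπ hd
        by_contra ht2
        have h3 : t ∣ Nat.card F - 1 := by
          rcases (Nat.Prime.dvd_mul ht).mp (hmain t ht htπ hd) with h4 | h4
          · exact absurd ((eq_p (p := p) ht h4).trans hp2.symm) ht2
          · exact h4
        obtain ⟨x, hx1, hx, hc⟩ := exists_split (F := F) (p := p) hq
        have h4 : t ∣ Nat.card (C2 F x) := by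
          rw [← hc] at h3
          rcases (Nat.Prime.dvd_mul ht).mp h3 with h5 | h5
          · exact h5
          · rcases eZ_cases (F := F) with h6 | h6
            · rw [h6, Nat.dvd_one] at h5
              exact absurd h5 ht.ne_one
            · rw [h6] at h5
              exact absurd ((Nat.prime_dvd_prime_iff_eq ht Nat.prime_two).mp h5) ht2
        haveI : Fact t.Prime := ⟨ht⟩
        obtain ⟨y, hy⟩ := exists_prime_orderOf_dvd_card' t h4
        have hyt : (y : PS F) ^ t = 1 := by
          have h5 : y ^ t = 1 := by rw [← hy, pow_orderOf_eq_one]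
          exact congrArg Subtype.val h5
        have hy1 : (y : PS F) ≠ 1 := by
          intro h5
          have h6 : y = 1 := Subtype.ext h5
          rw [h6, orderOf_one] at hy
          exact ht.ne_one hy.symm
        obtain ⟨i, hii, hinv⟩ := exists_inv hq hx1 hx
        obtain ⟨i', y', hi', hy', -, e1, e2, e3⟩ := dihedral_in_hall hD hH h2 ht htπ hii hyt (hinv y y.2)
        have hy'1 : y' ≠ 1 := fun h => hy1 (e3 h)
        obtain ⟨φ, hφ⟩ := hu.quo
        set a : Subgroup.normalizer ((C2 F u : Subgroup (PS F)) : Set (PS F)) := ⟨y', hHN hy'⟩ with ha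
        set b : Subgroup.normalizer ((C2 F u : Subgroup (PS F)) : Set (PS F)) := ⟨i', hHN hi'⟩ with hb
        have f1 : b * a * b⁻¹ = a⁻¹ := Subtype.ext e1
        have f2 : φ a = (φ a)⁻¹ := by
          have f3 := congrArg φ f1
          rw [map_mul, map_mul, map_inv, map_inv, mul_comm (φ b), mul_inv_cancel_right] at f3
          exact f3
        have f3 : (φ a) ^ 2 = 1 := by
          rw [pow_two]
          nth_rw 2 [f2]
          exact mul_inv_cancel _
        have f4 : (φ a) ^ t = 1 := by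
          rw [← map_pow]
          have f5 : a ^ t = 1 := Subtype.ext e2
          rw [f5, map_one]
        have f5 : orderOf (φ a) ∣ Nat.gcd 2 t := Nat.dvd_gcd (orderOf_dvd_of_pow_eq_one f3) (orderOf_dvd_of_pow_eq_one f4)
        have f6 : Nat.gcd 2 t = 1 := (Nat.coprime_primes Nat.prime_two ht).mpr (fun h => ht2 h.symm)
        rw [f6, Nat.dvd_one, orderOf_eq_one_iff, hφ] at f5
        obtain ⟨k, hk⟩ := hu.pgp ⟨y', f5⟩
        have f7 : y' ^ p ^ k = 1 := congrArg Subtype.val hk
        have f8 : orderOf y' ∣ Nat.gcd (p ^ k) t := Nat.dvd_gcd (orderOf_dvd_of_pow_eq_one f7) (orderOf_dvd_of_pow_eq_one e2)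
        have f9 : Nat.gcd (p ^ k) t = 1 := by
          rw [← hp2]
          exact Nat.Coprime.pow_left k f6
        rw [f9, Nat.dvd_one, orderOf_eq_one_iff] at f8
        exact hy'1 f8
      intro s t hs ht hsπ htπ hsd htd
      rw [key s hs hsπ hsd, key t ht htπ htd]
    · right; right; left
      exact ⟨h2, hmain⟩
  · -- `H` is everything
    push Not at hN
    obtain ⟨h, hh, hn⟩ := hN
    have htop := gen_C2 hu1 hu hg hh hn
    right; left
    intro t ht hd
    apply hH.card t ht
    rw [htop, Subgroup.card_top]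
    exact hd

end Pool.Agent.H32.HallD
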