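import Pool.Agent.H32.HallD.NecA

/-!
# HallD NecB: the list for `PSL₂`, necessity: the cases with a Hall subgroup with a large cyclic subgroup
-/

set_option autoImplicit false

open Matrix
open scoped MatrixGroups

universe u

namespace Pool.Agent.H32.HallD

theorem sq_mem_of_card {G : Type u} [Group G] [Finite G] (B : Subgroup G) (h : Nat.card G ≤ 2 * Nat.card B) (g : G) : g * g ∈ B := by
  have h1 := Subgroup.card_mul_index B
  have h2 : B.index ≤ 2 := by
    have h3 : Nat.card B * B.index ≤ Nat.card B * 2 := by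
      rw [h1, mul_comm _ 2]
      exact h
    exact Nat.le_of_mul_le_mul_left h3 Nat.card_pos
  have h3 : B.index ≠ 0 := Subgroup.index_ne_zero_of_finite
  have h4 : B.index = 1 ∨ B.index = 2 := by omega
  rcases h4 with h4 | h4
  · rw [Subgroup.index_eq_one.mp h4]
    exact Subgroup.mem_top _
  · rw [← pow_two]
    exact Subgroup.sq_mem_of_index_two h4 g

theorem card_dvd_two_mul {G : Type u} [Group G] [Finite G] (B : Subgroup G) (h : Nat.card G ≤ 2 * Nat.card B) : Nat.card G ∣ 2 * Nat.card B := by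
  have h1 := Subgroup.card_mul_index B
  have h2 : B.index ≤ 2 := by
    have h3 : Nat.card B * B.index ≤ Nat.card B * 2 := by
      rw [h1, mul_comm _ 2]
      exact h
    exact Nat.le_of_mul_le_mul_left h3 Nat.card_pos
  have h3 : B.index ≠ 0 := Subgroup.index_ne_zero_of_finite
  have h4 : B.index = 1 ∨ B.index = 2 := by omega
  rcases h4 with h4 | h4
  · rw [h4, mul_one] at h1
    rw [← h1]
    exact Dvd.intro_left _ rfl
  · rw [h4, mul_comm] at h1
    rw [h1]

theorem card_res_dvd {L : Type u} [Group L] (C : L → Subgroup L) (M : Subgroup L) (x : M) : Nat.card (res C M x) ∣ Nat.card (C x) :=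
  Subgroup.card_comap_dvd_of_injective _ _ M.subtype_injective

variable {F : Type} [Field F] [Finite F] {p : ℕ} [hp : Fact p.Prime] [CharP F p] {π : Set ℕ}

theorem nec_odd (hpπ : p ∉ π) (h2 : 2 ∉ π) (hE : EPi π (PS F)) : Lst π (Nat.card (PS F)) (Nat.card F) := by
  obtain ⟨H, hH⟩ := hE
  by_cases hb : H = ⊥
  · left
    intro s t hs ht hsπ htπ hsd htd
    have h1 := hH.dvd hs hsπ hsd
    rw [hb, Subgroup.card_bot, Nat.dvd_one] at h1
    exact absurd h1 hs.ne_one
  obtain ⟨x, hxH, hx1, hx | hx⟩ := odd_sub (pt_PS p) (PiSubgroup.odd h2 hH.card) hb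
  · obtain ⟨hall, hs⟩ := hx
    have h1 : Nat.card H ∣ Nat.card (C2 F x) := Subgroup.card_dvd_of_le hall
    have key : ∀ t : ℕ, t.Prime → t ∈ π → t ∣ Nat.card (PS F) → t ∣ Nat.card (C2 F x) := fun t ht htπ hd => (hH.dvd ht htπ hd).trans h1
    rcases card_tor hx1 hs with h3 | h3
    · right; right; left
      refine ⟨h2, fun t ht htπ hd => ?_⟩
      have h4 := Dvd.dvd.mul_right (key t ht htπ hd) (eZ F)
      have h5 : Nat.card (C2 F x) * eZ F = Nat.card F - 1 := h3
      rw [h5] at h4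
      exact Dvd.dvd.mul_left h4 _
    · right; right; right; left
      refine ⟨h2, fun t ht htπ hd => ?_⟩
      have h4 := Dvd.dvd.mul_right (key t ht htπ hd) (eZ F)
      have h5 : Nat.card (C2 F x) * eZ F = Nat.card F + 1 := h3
      rw [h5] at h4
      exact h4
  · exact absurd (hH.card p hp.out (UN.dvd_card (pt_PS p) hx1 hx.1 hxH)) hpπ

omit [Finite F] in
theorem two_ne_zero_of (hp2 : p ≠ 2) : (2 : F) ≠ 0 := by
  intro h
  have h1 : ((2 : ℕ) : F) = 0 := by
    rw [← h]
    norm_num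
  rw [CharP.cast_eq_zero_iff F p] at h1
  exact hp2 ((Nat.prime_dvd_prime_iff_eq hp.out Nat.prime_two).mp h1)

/-- a Hall subgroup has no large commutative subgroup if `2, 3 ∈ π` -/
theorem no_large (hp2 : p ≠ 2) (h2 : 2 ∈ π) (h3 : 3 ∈ π) (hD : DPi π (PS F)) {H : Subgroup (PS F)} (hH : IsHall π H) {x : H} (hs : SS p (res (C2 F) H) x)
    (hc : Nat.card H ≤ 2 * Nat.card (res (C2 F) H x)) : False := by
  obtain ⟨v, w, o, hv, hw, ho, e0, e1, e2, hvw⟩ := exists_A4 (F := F) (p := p) (two_ne_zero_of hp2)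
  obtain ⟨L, hL, hvL, hoL⟩ := pi_A4 h2 h3 hv hw ho e0 e1 e2
  obtain ⟨g, hg⟩ := hD.cover hH hL
  have hv' := hg hvL
  have ho' := hg hoL
  rw [mem_cj] at hv' ho'
  set V : H := ⟨_, hv'⟩ with hV
  set O : H := ⟨_, ho'⟩ with hO
  have hsq := sq_mem_of_card (res (C2 F) H x) hc
  -- the third powers
  have hO3 : O * O * O = 1 := by
    apply Subtype.ext
    show g⁻¹ * o * g * (g⁻¹ * o * g) * (g⁻¹ * o * g) = 1
    have h4 : g⁻¹ * o * g * (g⁻¹ * o * g) * (g⁻¹ * o * g) = g⁻¹ * o ^ 3 * g := by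
      rw [pow_succ, pow_two]
      group
    rw [h4, ho]
    group
  have hov : (o * v) * (o * v) * (o * v) = 1 := by
    have f1 : o * v = w * o := by rw [← e1]; group
    have f2 : o * w = v * w * o := by rw [← e2]; group
    have f3 : w * v = v * w := mul_inv_eq_iff_eq_mul.mp e0
    have f4 : o * (v * w) = v * o := by
      calc o * (v * w) = (o * v) * w := by group
        _ = w * (o * w) := by rw [f1]; group
        _ = (w * v) * w * o := by rw [f2]; group
        _ = v * (w ^ 2) * o := by rw [f3, pow_two]; group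
        _ = v * o := by rw [hw, mul_one]
    calc (o * v) * (o * v) * (o * v) = (w * o) * (w * o) * (w * o) := by rw [f1]
      _ = w * (o * w) * (o * w) * o := by group
      _ = w * (v * w) * (o * (v * w)) * o * o := by rw [f2]; group
      _ = (w * v) * w * v * (o * o * o) := by rw [f4]; group
      _ = v * (w ^ 2) * v * o ^ 3 := by rw [f3, pow_two, pow_succ, pow_two]; group
      _ = v ^ 2 := by rw [hw, ho, mul_one, mul_one, pow_two]
      _ = 1 := hv
  have hOV3 : (O * V) * (O * V) * (O * V) = 1 := by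
    apply Subtype.ext
    show (g⁻¹ * o * g * (g⁻¹ * v * g)) * (g⁻¹ * o * g * (g⁻¹ * v * g)) * (g⁻¹ * o * g * (g⁻¹ * v * g)) = 1
    have h4 : (g⁻¹ * o * g * (g⁻¹ * v * g)) * (g⁻¹ * o * g * (g⁻¹ * v * g)) * (g⁻¹ * o * g * (g⁻¹ * v * g)) = g⁻¹ * ((o * v) * (o * v) * (o * v)) * g := by
      group
    rw [h4, hov]
    group
  have key : ∀ z : H, z * z * z = 1 → z ∈ res (C2 F) H x := by
    intro z hz
    have h4 := (res (C2 F) H x).mul_mem (hsq z) (hsq z)
    have h5 : z * z * (z * z) = z := by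
      rw [← mul_assoc, hz, one_mul]
    rw [h5] at h4
    exact h4
  have m1 := key O hO3
  have m2 := key (O * V) hOV3
  have m3 : V ∈ res (C2 F) H x := by
    have h4 := (res (C2 F) H x).mul_mem ((res (C2 F) H x).inv_mem m1) m2
    rw [inv_mul_cancel_left] at h4
    exact h4
  have h4 := hs.comm m1 m3
  have h5 : g⁻¹ * o * g * (g⁻¹ * v * g) = g⁻¹ * v * g * (g⁻¹ * o * g) := congrArg Subtype.val h4
  apply hvw
  have h6 : o * v = v * o := by
    have h7 : g * (g⁻¹ * o * g * (g⁻¹ * v * g)) * g⁻¹ = g * (g⁻¹ * v * g * (g⁻¹ * o * g)) * g⁻¹ := by rw [h5]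
    have h8 : g * (g⁻¹ * o * g * (g⁻¹ * v * g)) * g⁻¹ = o * v := by group
    have h9 : g * (g⁻¹ * v * g * (g⁻¹ * o * g)) * g⁻¹ = v * o := by group
    rw [h8, h9] at h7
    exact h7
  rw [← e1, h6, mul_inv_cancel_right]

/-- the case `2 ∈ π`, `3 ∉ π` with a large cyclic subgroup -/
theorem nec_large (hpπ : p ∉ π) (h2 : 2 ∈ π) (h3 : 3 ∉ π) {H : Subgroup (PS F)} (hH : IsHall π H) {x : H} (hx : x ≠ 1) (hs : SS p (C2 F) (x : PS F))
    (hc : Nat.card H ≤ 2 * Nat.card (res (C2 F) H x)) : Lst π (Nat.card (PS F)) (Nat.card F) := by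
  have hp2 : p ≠ 2 := by
    rintro rfl
    exact hpπ h2
  have he : eZ F = 2 := card_center_odd (two_ne_zero_of hp2)
  have hx' : (x : PS F) ≠ 1 := by simpa using hx
  have hq1 : 1 ≤ Nat.card F := Nat.card_pos
  have h1 : Nat.card H ∣ 2 * Nat.card (C2 F (x : PS F)) :=
    (card_dvd_two_mul _ hc).trans (Nat.mul_dvd_mul_left 2 (card_res_dvd (C2 F) H x))
  have hpq : ∀ t : ℕ, t.Prime → t ∈ π → ¬ t ∣ Nat.card F := by
    intro t ht htπ hd
    rw [eq_p (p := p) ht hd] at htπ
    exact hpπ htπ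
  have hidx : ¬ 2 ∣ H.index := fun h => hH.index 2 Nat.prime_two h h2
  have hn := card_PS (F := F)
  have he' : Nat.card (Subgroup.center (SpecialLinearGroup (Fin 2) F)) = 2 := he
  rw [he', ← Subgroup.card_mul_index H, sq_sub _ hq1] at hn
  have hqodd := hpq 2 Nat.prime_two h2
  have hH0 : 0 < Nat.card H := Nat.card_pos
  right; right; right; right
  refine ⟨h2, h3, hpq, ?_⟩
  rcases card_tor hx' hs with h4 | h4
  · left
    have h5 : Nat.card (C2 F (x : PS F)) * 2 = Nat.card F - 1 := by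
      rw [he'] at h4
      exact h4
    rw [mul_comm, h5] at h1
    obtain ⟨j, hj⟩ := h1
    refine ⟨?_, fun t ht htπ hd => (hH.dvd ht htπ hd).trans ⟨j, hj⟩⟩
    have h6 : 2 * H.index = Nat.card F * j * (Nat.card F + 1) := by
      apply Nat.eq_of_mul_eq_mul_left hH0
      calc Nat.card H * (2 * H.index) = Nat.card H * H.index * 2 := by ring
        _ = Nat.card F * ((Nat.card F - 1) * (Nat.card F + 1)) := hn
        _ = Nat.card H * (Nat.card F * j * (Nat.card F + 1)) := by rw [hj]; ring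
    by_contra h7
    have h8 : 4 ∣ Nat.card F + 1 := by omega
    have h9 : 2 * 2 ∣ 2 * H.index := by
      rw [h6]
      exact Dvd.dvd.mul_left h8 _
    exact hidx (Nat.dvd_of_mul_dvd_mul_left (by norm_num) h9)
  · right
    have h5 : Nat.card (C2 F (x : PS F)) * 2 = Nat.card F + 1 := by
      rw [he'] at h4
      exact h4
    rw [mul_comm, h5] at h1
    obtain ⟨j, hj⟩ := h1
    refine ⟨?_, fun t ht htπ hd => (hH.dvd ht htπ hd).trans ⟨j, hj⟩⟩
    have h6 : 2 * H.index = Nat.card F * j * (Nat.card F - 1) := by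
      apply Nat.eq_of_mul_eq_mul_left hH0
      calc Nat.card H * (2 * H.index) = Nat.card H * H.index * 2 := by ring
        _ = Nat.card F * ((Nat.card F - 1) * (Nat.card F + 1)) := hn
        _ = Nat.card H * (Nat.card F * j * (Nat.card F - 1)) := by rw [hj]; ring
    by_contra h7
    have h8 : 4 ∣ Nat.card F - 1 := by omega
    have h9 : 2 * 2 ∣ 2 * H.index := by
      rw [h6]
      exact Dvd.dvd.mul_left h8 _
    exact hidx (Nat.dvd_of_mul_dvd_mul_left (by norm_num) h9)

end Pool.Agent.H32.HallD
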