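import Pool.Agent.H32.HallD.NecB

/-!
# HallD NecC: no Hall subgroup of order twelve if `2, 3 ∈ π`
-/

set_option autoImplicit false

open Matrix
open scoped MatrixGroups

namespace Pool.Agent.H32.HallD

variable {F : Type} [Field F] [Finite F] {p : ℕ} [hp : Fact p.Prime] [CharP F p] {π : Set ℕ}

theorem no_twelve (hq : 4 ≤ Nat.card F) (hpπ : p ∉ π) (h2 : 2 ∈ π) (h3 : 3 ∈ π) (hD : DPi π (PS F)) {H : Subgroup (PS F)} (hH : IsHall π H)
    (hss : ∀ x : H, x ≠ 1 → SS p (res (C2 F) H) x) (h12 : Nat.card H = 12) (h5 : ∀ x : H, x ≠ 1 → Nat.card (res (C2 F) H x) ≤ 5) : False := by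
  haveI : Fact (Nat.Prime 3) := ⟨Nat.prime_three⟩
  have h3H : 3 ∣ Nat.card H := by
    rw [h12]
    norm_num
  obtain ⟨x, hx⟩ := exists_prime_orderOf_dvd_card' 3 h3H
  have hx3 : (x : PS F) ^ 3 = 1 := by
    have h6 : x ^ 3 = 1 := by rw [← hx, pow_orderOf_eq_one]
    exact congrArg Subtype.val h6
  have hx1 : (x : PS F) ≠ 1 := by
    intro h6
    have h7 : x = 1 := Subtype.ext h6
    rw [h7, orderOf_one] at hx
    norm_num at hx
  have hs : SS p (C2 F) (x : PS F) := by
    refine ((pt_PS p).type _ hx1).resolve_right fun hu => ?_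
    exact hpπ (hH.card p hp.out (UN.dvd_card (pt_PS p) hx1 hu x.2))
  obtain ⟨i, hii, hinv⟩ := exists_inv hq hx1 hs
  obtain ⟨i', y', hi', hy', e0, e1, e2, e3⟩ := dihedral_in_hall hD hH h2 Nat.prime_three h3 hii hx3 (hinv _ ((pt_PS p).mem _))
  set Y : H := ⟨y', hy'⟩ with hY
  set I : H := ⟨i', hi'⟩ with hI
  have hY1 : Y ≠ 1 := fun h => hx1 (e3 (congrArg Subtype.val h))
  have hY3 : Y ^ 3 = 1 := Subtype.ext e2
  have hIY : I * Y * I⁻¹ = Y⁻¹ := Subtype.ext e1
  have hYo : orderOf Y = 3 := orderOf_eq_prime hY3 hY1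
  have hpt := (pt_PS (F := F) p).res H
  have hYB : Y ∈ res (C2 F) H Y := hpt.mem Y
  have hB3 : Nat.card (res (C2 F) H Y) = 3 := by
    have h6 := h5 Y hY1
    have h7 : 3 ∣ Nat.card (res (C2 F) H Y) := by
      have h8 := orderOf_dvd_natCard (⟨Y, hYB⟩ : res (C2 F) H Y)
      rw [← Subgroup.orderOf_coe] at h8
      exact (dvd_of_eq hYo.symm).trans h8
    have h8 : 0 < Nat.card (res (C2 F) H Y) := Nat.card_pos
    omega
  have hIN : I ∈ Subgroup.normalizer ((res (C2 F) H Y : Subgroup H) : Set H) := by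
    rw [hpt.mem_norm hY1, hIY]
    exact (res (C2 F) H Y).inv_mem hYB
  have hIB : I ∉ res (C2 F) H Y := by
    intro h6
    have h7 := (hss Y hY1).comm h6 hYB
    have h8 : Y = Y⁻¹ := by
      rw [← hIY, h7, mul_inv_cancel_right]
    have h9 : Y * Y = 1 := by
      nth_rw 2 [h8]
      exact mul_inv_cancel Y
    apply hY1
    have h10 : Y ^ 3 = Y * Y * Y := by rw [pow_succ, pow_two]
    rw [h10, h9, one_mul] at hY3
    exact hY3
  have hN6 : Nat.card (Subgroup.normalizer ((res (C2 F) H Y : Subgroup H) : Set H)) = 6 := by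
    rcases SS.card_norm hpt hY1 (hss Y hY1) with h6 | h6
    · exfalso
      have h7 := Subgroup.eq_of_le_of_card_ge (Subgroup.le_normalizer (H := res (C2 F) H Y)) h6.le
      apply hIB
      rw [h7]
      exact hIN
    · rw [h6, hB3]
  have hidx : (Subgroup.normalizer ((res (C2 F) H Y : Subgroup H) : Set H)).index = 2 := by
    have h6 := Subgroup.card_mul_index (Subgroup.normalizer ((res (C2 F) H Y : Subgroup H) : Set H))
    rw [hN6, h12] at h6
    omega
  have hnorm := Subgroup.normal_of_index_eq_two hidx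
  have hB' : Nat.card ((res (C2 F) H Y).subgroupOf (Subgroup.normalizer ((res (C2 F) H Y : Subgroup H) : Set H))) = 3 := by
    rw [← hB3]
    exact Nat.card_congr (Subgroup.subgroupOfEquivOfLe Subgroup.le_normalizer).toEquiv
  have hcube : ∀ z ∈ Subgroup.normalizer ((res (C2 F) H Y : Subgroup H) : Set H), z ^ 3 = 1 → z ∈ res (C2 F) H Y := by
    intro z hz hz3
    have h6 := sq_mem_of_card ((res (C2 F) H Y).subgroupOf (Subgroup.normalizer ((res (C2 F) H Y : Subgroup H) : Set H)))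
      (by rw [hN6, hB']) ⟨z, hz⟩
    have h7 : z * z ∈ res (C2 F) H Y := h6
    have h8 := (res (C2 F) H Y).mul_mem h7 h7
    have h9 : z * z * (z * z) = z := by
      have h10 : z ^ 3 = z * z * z := by rw [pow_succ, pow_two]
      rw [← mul_assoc, ← h10, hz3, one_mul]
    rw [h9] at h8
    exact h8
  have htop : Subgroup.normalizer ((res (C2 F) H Y : Subgroup H) : Set H) = ⊤ := by
    rw [eq_top_iff]
    intro z _
    rw [hpt.mem_norm hY1]
    apply hcube
    · exact hnorm.conj_mem Y (Subgroup.le_normalizer hYB) z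
    · rw [conj_pow, hY3, mul_one, mul_inv_cancel]
  rw [htop, Subgroup.index_top] at hidx
  norm_num at hidx

end Pool.Agent.H32.HallD
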