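import Pool.Agent.H32.HallD.NecC
import Pool.Agent.H32.HallD.Equi

/-!
# HallD NecD: no Hall subgroup of order 24 or 60 if `2, 3 ∈ π`
-/

set_option autoImplicit false

open Matrix
open scoped MatrixGroups

universe u

namespace Pool.Agent.H32.HallD

theorem card_sup_norm {G : Type u} [Group G] {K W : Subgroup G} (h : W ≤ Subgroup.normalizer (K : Set G)) :
    Nat.card (W ⊔ K : Subgroup G) = Nat.card K * K.relIndex W := by
  have h1 : Nat.card (W ⊔ K : Subgroup G) = Nat.card K * K.relIndex (W ⊔ K) := by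
    rw [← Subgroup.relIndex_bot_left, ← Subgroup.relIndex_bot_left]
    exact (Subgroup.relIndex_mul_relIndex _ _ _ bot_le le_sup_right).symm
  have h2 : K.relIndex (W ⊔ K) = K.relIndex W := by
    haveI := Subgroup.normal_subgroupOf_of_le_normalizer h
    haveI := Subgroup.normal_subgroupOf_sup_of_le_normalizer h
    have h3 := Nat.card_congr (QuotientGroup.quotientInfEquivProdNormalizerQuotient W K h).toEquiv
    rw [Subgroup.relIndex, Subgroup.relIndex, Subgroup.index_eq_card, Subgroup.index_eq_card]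
    exact h3.symm
  rw [h1, h2]

section

variable {F : Type} [Field F]

theorem sq_mem_PS (x : PGL(2, F)) : x * x ∈ PS F := by
  obtain ⟨g, rfl⟩ := ProjGenLinGroup.mk_surjective x
  have hd := det_ne_zero' g
  have hdet : ((mt g).det⁻¹ • (mt g * mt g)).det = 1 := by
    rw [Matrix.det_smul, Matrix.det_mul, Fintype.card_fin]
    field_simp
  obtain ⟨g', hg'⟩ : ∃ k : GL (Fin 2) F, mt k = (mt g).det⁻¹ • (mt g * mt g) := ⟨GeneralLinearGroup.mkOfDetNeZero _ (by rw [hdet]; exact one_ne_zero), rfl⟩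
  refine mem_PS.mpr ⟨g', by rw [hg', hdet], ?_⟩
  rw [← map_mul]
  apply pm_of_smul (c := (mt g).det⁻¹)
  exact hg'

theorem exists_not_mem_PS [Finite F] {p : ℕ} [hp : Fact p.Prime] [CharP F p] (hp2 : p ≠ 2) : ∃ x : PGL(2, F), x ∉ PS F := by
  have h1 : ringChar F ≠ 2 := by
    rw [ringChar.eq F p]
    exact hp2
  obtain ⟨a, ha⟩ := FiniteField.exists_nonsquare h1
  have ha0 : a ≠ 0 := by
    rintro rfl
    exact ha ⟨0, by simp⟩
  have hdet : (!![a, 0; 0, 1] : Matrix (Fin 2) (Fin 2) F).det = a := by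
    rw [Matrix.det_fin_two_of]
    simp
  obtain ⟨A, hA⟩ : ∃ k : GL (Fin 2) F, mt k = !![a, 0; 0, 1] := ⟨GeneralLinearGroup.mkOfDetNeZero _ (by rw [hdet]; exact ha0), rfl⟩
  refine ⟨pm A, fun h => ha ?_⟩
  obtain ⟨g, hg, hgA⟩ := mem_PS.mp h
  obtain ⟨c, hc, hcA⟩ := pm_eq hgA
  have h2 := congrArg Matrix.det hcA
  rw [hg, hA, Matrix.det_smul, hdet, Fintype.card_fin] at h2
  refine ⟨c⁻¹, ?_⟩
  have h3 : c⁻¹ * c⁻¹ = c⁻¹ * c⁻¹ * (c ^ 2 * a) := by rw [← h2, mul_one]
  rw [h3]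
  field_simp

theorem mem_map_PS {H : Subgroup (PS F)} {x : PGL(2, F)} : x ∈ H.map (PS F).subtype ↔ ∃ hx : x ∈ PS F, (⟨x, hx⟩ : PS F) ∈ H := by
  constructor
  · rintro ⟨y, hy, rfl⟩
    exact ⟨y.2, hy⟩
  · rintro ⟨hx, h⟩
    exact ⟨_, h, rfl⟩

instance : (PS F).Normal := ⟨fun _ hx g => PS_conj hx g⟩

end

variable {F : Type} [Field F] [Finite F] {p : ℕ} [hp : Fact p.Prime] [CharP F p] {π : Set ℕ}

/-- the Frattini argument -/
theorem frattini (hp2 : p ≠ 2) (hD : DPi π (PS F)) {H : Subgroup (PS F)} (hH : IsHall π H) :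
    ∃ g : PGL(2, F), g ∉ PS F ∧ g ∈ Subgroup.normalizer ((H.map (PS F).subtype : Subgroup PGL(2, F)) : Set PGL(2, F)) := by
  obtain ⟨g0, hg0⟩ := exists_not_mem_PS (F := F) (p := p) hp2
  set α : PS F ≃* PS F := MulAut.conjNormal g0 with hα
  obtain ⟨k, hk⟩ := hD.2.1 H _ hH (hH.equiv α)
  have hkH : ∀ x ∈ H, ∃ y ∈ H, (k : PGL(2, F)) * y * (k : PGL(2, F))⁻¹ = g0 * x * g0⁻¹ := by
    intro x hx
    have h1 : α x ∈ H.map (MulAut.conj k).toMonoidHom := by
      rw [← hk]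
      exact ⟨x, hx, rfl⟩
    obtain ⟨y, hy, hyx⟩ := h1
    refine ⟨y, hy, ?_⟩
    have h2 := congrArg Subtype.val hyx
    have h3 : ((α x : PS F) : PGL(2, F)) = g0 * x * g0⁻¹ := MulAut.conjNormal_apply g0 x
    rw [h3] at h2
    exact h2
  refine ⟨(k : PGL(2, F))⁻¹ * g0, ?_, ?_⟩
  · intro h
    apply hg0
    have h1 := (PS F).mul_mem k.2 h
    rw [mul_inv_cancel_left] at h1
    exact h1
  · rw [← cj_eq_iff]
    apply Subgroup.eq_of_le_of_card_ge
    · intro x hx
      rw [mem_cj] at hx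
      obtain ⟨y, hy, hyx⟩ := hx
      obtain ⟨z, hz, hzy⟩ := hkH y hy
      refine ⟨z, hz, ?_⟩
      have h1 : x = (k : PGL(2, F))⁻¹ * g0 * y * ((k : PGL(2, F))⁻¹ * g0)⁻¹ := by
        have h2 : (y : PGL(2, F)) = ((k : PGL(2, F))⁻¹ * g0)⁻¹ * x * ((k : PGL(2, F))⁻¹ * g0) := hyx
        rw [h2]
        group
      have h3 : (z : PGL(2, F)) = (k : PGL(2, F))⁻¹ * (g0 * y * g0⁻¹) * k := by
        rw [← hzy]
        group
      show (z : PGL(2, F)) = x
      rw [h1, h3]
      group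
    · rw [card_cj]

/-- a `2`-element outside `PSL₂` which normalises the Hall subgroup -/
theorem frattini_two (hp2 : p ≠ 2) (hD : DPi π (PS F)) {H : Subgroup (PS F)} (hH : IsHall π H) :
    ∃ (g : PGL(2, F)) (k : ℕ), g ∉ PS F ∧ g ^ 2 ^ k = 1 ∧ g ∈ Subgroup.normalizer ((H.map (PS F).subtype : Subgroup PGL(2, F)) : Set PGL(2, F)) := by
  obtain ⟨g, hg, hgN⟩ := frattini hp2 hD hH
  have ho : orderOf g ≠ 0 := (orderOf_pos g).ne'
  obtain ⟨k, m, hm, hkm⟩ := Nat.exists_eq_two_pow_mul_odd ho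
  refine ⟨g ^ m, k, ?_, ?_, Subgroup.pow_mem _ hgN m⟩
  · intro h
    obtain ⟨l, rfl⟩ := hm
    rw [pow_succ, pow_mul] at h
    apply hg
    have h1 : (g ^ 2) ^ l ∈ PS F := by
      rw [pow_two]
      exact (PS F).pow_mem (sq_mem_PS g) l
    have h2 := (PS F).mul_mem ((PS F).inv_mem h1) h
    rw [inv_mul_cancel_left] at h2
    exact h2
  · rw [← pow_mul, mul_comm, ← hkm, pow_orderOf_eq_one]

theorem no_big (hpπ : p ∉ π) (h2 : 2 ∈ π) (hD : DPi π (PS F)) {H : Subgroup (PS F)} (hH : IsHall π H)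
    (hcard : Nat.card H = 24 ∨ Nat.card H = 60) (h5 : ∀ x : H, x ≠ 1 → Nat.card (res (C2 F) H x) ≤ 5) : False := by
  have hp2 : p ≠ 2 := by
    rintro rfl
    exact hpπ h2
  obtain ⟨g, k, hg, hgk, hgN⟩ := frattini_two hp2 hD hH
  set H' : Subgroup PGL(2, F) := H.map (PS F).subtype with hH'
  have hcH' : Nat.card H' = Nat.card H := (Nat.card_congr (H.equivMapOfInjective (PS F).subtype (PS F).subtype_injective).toEquiv).symm
  have hle : Subgroup.zpowers g ≤ Subgroup.normalizer (H' : Set PGL(2, F)) := by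
    rw [Subgroup.zpowers_le]
    exact hgN
  set M : Subgroup PGL(2, F) := Subgroup.zpowers g ⊔ H' with hMdef
  have hMπ : PiSubgroup π M := by
    refine pi_sup hle ?_ ?_
    · show PiNumber _ _
      rw [hcH']
      exact hH.card
    · show PiNumber _ _
      rw [Nat.card_zpowers]
      intro t ht hd
      have h6 : t ∣ 2 ^ k := hd.trans (orderOf_dvd_of_pow_eq_one hgk)
      rw [(Nat.prime_dvd_prime_iff_eq ht Nat.prime_two).mp (ht.dvd_of_dvd_pow h6)]
      exact h2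
  have hH'M : H' ≤ M := le_sup_right
  have hgM : g ∈ M := Subgroup.mem_sup_left (Subgroup.mem_zpowers g)
  -- `M ∩ PSL₂ = H`
  have hMPS : ∀ x ∈ M, x ∈ PS F → x ∈ H' := by
    have h6 : H ≤ M.subgroupOf (PS F) := by
      intro x hx
      rw [Subgroup.mem_subgroupOf]
      exact hH'M ⟨x, hx, rfl⟩
    have h7 : PiSubgroup π (M.subgroupOf (PS F)) :=
      PiNumber.of_dvd hMπ (Subgroup.card_comap_dvd_of_injective _ _ (PS F).subtype_injective)
    obtain ⟨l, hl⟩ := hD.cover hH h7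
    have h8 : Nat.card (M.subgroupOf (PS F)) ≤ Nat.card H := by
      rw [← card_cj l H]
      exact Nat.le_of_dvd Nat.card_pos (Subgroup.card_dvd_of_le hl)
    have h9 := Subgroup.eq_of_le_of_card_ge h6 h8
    intro x hx hxP
    have h10 : (⟨x, hxP⟩ : PS F) ∈ H := by
      rw [h9]
      exact hx
    exact ⟨_, h10, rfl⟩
  have hg2 : g * g ∈ H' := hMPS _ (M.mul_mem hgM hgM) (sq_mem_PS g)
  have hgH' : g ∉ H' := by
    intro h
    obtain ⟨h6, -⟩ := mem_map_PS.mp h
    exact hg h6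
  have hrel : H'.relIndex (Subgroup.zpowers g) = 2 := by
    rw [Subgroup.relIndex_eq_two_iff_exists_notMem_and]
    refine ⟨g, Subgroup.mem_zpowers g, hgH', ?_⟩
    rintro b ⟨n, rfl⟩
    have h6 : ∀ j : ℤ, g ^ (2 * j) ∈ H' := by
      intro j
      rw [_root_.zpow_mul]
      have h7 : g ^ (2 : ℤ) = g * g := by
        rw [zpow_two]
      rw [h7]
      exact H'.zpow_mem hg2 j
    rcases Int.even_or_odd' n with ⟨c, hc | hc⟩
    · right
      show g ^ n ∈ H'
      rw [hc]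
      exact h6 c
    · left
      show g ^ n * g ∈ H'
      rw [← _root_.zpow_add_one, hc]
      have h7 : 2 * c + 1 + 1 = 2 * (c + 1) := by ring
      rw [h7]
      exact h6 _
  have hcM : Nat.card M = 2 * Nat.card H := by
    rw [hMdef, card_sup_norm hle, hrel, hcH', mul_comm]
  -- the types
  have hss : ∀ x : M, x ≠ 1 → SS p (res CP M) x := by
    intro x hx
    refine (((pt_PGL p).res M).type x hx).resolve_right fun hu => ?_
    have hx' : (x : PGL(2, F)) ≠ 1 := by simpa using hx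
    exact hpπ (hMπ p hp.out (UN.dvd_card (pt_PGL p) hx' (un_of_res (pt_PGL p) hx hu) x.2))
  rcases types ((pt_PGL p).res M) (by rw [hcM]; omega) hss with ⟨x, hx1, hx⟩ | ⟨h6, -⟩
  swap
  · rw [hcM] at h6
    omega
  set B := res CP M x with hB
  set D : Subgroup M := H'.subgroupOf M with hDdef
  have hDi : D.index = 2 := by
    have h6 := Subgroup.card_mul_index D
    rw [hDdef, Nat.card_congr (Subgroup.subgroupOfEquivOfLe hH'M).toEquiv, hcH', hcM] at h6
    have h7 : Nat.card H * D.index = Nat.card H * 2 := by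
      rw [mul_comm _ 2]
      exact h6
    exact Nat.eq_of_mul_eq_mul_left Nat.card_pos h7
  haveI : D.Normal := Subgroup.normal_of_index_eq_two hDi
  have hDB : Nat.card B ≤ 2 * Nat.card (D.subgroupOf B) := by
    have h6 : D.relIndex B ∣ 2 := (Subgroup.relIndex_dvd_index_of_normal D B).trans (dvd_of_eq hDi)
    have h7 := Nat.le_of_dvd (by norm_num) h6
    have h8 := Subgroup.card_mul_index (D.subgroupOf B)
    have h9 : (D.subgroupOf B).index = D.relIndex B := rfl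
    rw [h9] at h8
    rw [← h8, mul_comm 2]
    exact Nat.mul_le_mul_left _ h7
  have h12 : 12 ≤ Nat.card (D.subgroupOf B) := by
    omega
  obtain ⟨y, hy, hy1⟩ : ∃ y ∈ D.subgroupOf B, y ≠ 1 := by
    by_contra hcon
    push Not at hcon
    have h6 := (Subgroup.eq_bot_iff_forall _).mpr hcon
    rw [h6, Subgroup.card_bot] at h12
    omega
  have hyH : ((y : M) : PGL(2, F)) ∈ H' := hy
  obtain ⟨hyP, hyH2⟩ := mem_map_PS.mp hyH
  set y0 : H := ⟨⟨_, hyP⟩, hyH2⟩ with hy0
  have hy01 : y0 ≠ 1 := by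
    intro h
    apply hy1
    apply Subtype.ext
    apply Subtype.ext
    exact congrArg (fun z : H => ((z : PS F) : PGL(2, F))) h
  have hyM1 : ((y : M) : PGL(2, F)) ≠ 1 := by
    intro h
    apply hy1
    apply Subtype.ext
    apply Subtype.ext
    exact h
  have hx' : (x : PGL(2, F)) ≠ 1 := by simpa using hx1
  have hyB : ((y : M) : PGL(2, F)) ∈ CP (x : PGL(2, F)) := y.2
  have hCP : CP ((y : M) : PGL(2, F)) = CP (x : PGL(2, F)) := (pt_PGL (F := F) p).eq_of_mem _ _ hx' hyM1 hyB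
  have hmem : ∀ z : D.subgroupOf B, ∃ w : res (C2 F) H y0, (((w : H) : PS F) : PGL(2, F)) = (((z : B) : M) : PGL(2, F)) := by
    intro z
    have hzH : (((z : B) : M) : PGL(2, F)) ∈ H' := z.2
    obtain ⟨hzP, hzH2⟩ := mem_map_PS.mp hzH
    refine ⟨⟨⟨⟨_, hzP⟩, hzH2⟩, ?_⟩, rfl⟩
    show (((z : B) : M) : PGL(2, F)) ∈ CP ((y : M) : PGL(2, F))
    rw [hCP]
    exact (z : B).2
  choose f hf using hmem
  have hinj : Function.Injective f := by
    intro z z' h
    have h6 := hf z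
    rw [h, hf z'] at h6
    apply Subtype.ext
    apply Subtype.ext
    apply Subtype.ext
    exact h6.symm
  have h13 := Nat.card_le_card_of_injective f hinj
  have h14 := h5 y0 hy01
  omega

end Pool.Agent.H32.HallD
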