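import Pool.Agent.H32.HallD.Types

/-!
# HallD Odd: unipotent members of the partition are Sylow subgroups; groups of odd order
-/

set_option autoImplicit false

universe u

namespace Pool.Agent.H32.HallD

variable {p : ℕ} {F : Type} [Field F] {L : Type u} [Group L] {C : L → Subgroup L}

/-- a unipotent member is a maximal `p`-subgroup -/
theorem UN.max [Finite L] [hp : Fact p.Prime] (h : Pt p F C) {x : L} (hx : x ≠ 1) (hu : UN p F C x) {Q : Subgroup L} (hQ : IsPGroup p Q)
    (hle : C x ≤ Q) : Q = C x := by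
  have hxQ : x ∈ Q := hle (h.mem x)
  haveI : Nontrivial Q := ⟨⟨⟨x, hxQ⟩, 1, fun h1 => hx (congrArg Subtype.val h1)⟩⟩
  haveI := hQ.center_nontrivial
  obtain ⟨z, hz⟩ := exists_ne (1 : Subgroup.center Q)
  have hz1 : ((z : Q) : L) ≠ 1 := by
    intro h1
    exact hz (Subtype.ext (Subtype.ext h1))
  have hcomm : ∀ q : Q, (q : L) * (z : Q) = (z : Q) * q := by
    intro q
    have h1 := Subgroup.mem_center_iff.mp z.2 q
    exact congrArg Subtype.val h1
  have hzC : ((z : Q) : L) ∈ C x := by
    refine hu.centralizer (h.mem x) hx ?_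
    have h1 := hcomm ⟨x, hxQ⟩
    rw [← h1]
    group
  refine le_antisymm (fun q hq => ?_) hle
  refine hu.centralizer hzC hz1 ?_
  have h1 := hcomm ⟨q, hq⟩
  rw [h1]
  group

theorem UN.not_dvd_index [Finite L] [hp : Fact p.Prime] (h : Pt p F C) {x : L} (hx : x ≠ 1) (hu : UN p F C x) : ¬ p ∣ (C x).index := by
  obtain ⟨Q, hQ⟩ := hu.pgp.exists_le_sylow
  have h1 := hu.max h hx Q.isPGroup' hQ
  rw [← h1]
  exact Q.not_dvd_index

theorem UN.conj [Finite L] [hp : Fact p.Prime] (h : Pt p F C) {x y : L} (hx : x ≠ 1) (hu : UN p F C x) (hy : y ≠ 1) (hv : UN p F C y) :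
    y ∈ cls C x := by
  obtain ⟨g, hg⟩ := exists_cj_of_pgroup hp.out hv.pgp (hu.not_dvd_index h hx)
  refine ⟨hy, g, ?_⟩
  have h1 : IsPGroup p (cj g (C x)) := hu.pgp.map _
  exact (hv.max h hy h1 hg).symm

/-- a `p`-element of the normaliser of a unipotent member is in the member -/
theorem UN.mem_of_un [Finite L] [hp : Fact p.Prime] (h : Pt p F C) {x y : L} (hx : x ≠ 1) (hu : UN p F C x) (hy : y ≠ 1) (hv : UN p F C y)
    (hyN : y * x * y⁻¹ ∈ C x) : y ∈ C x := by
  have h1 : IsPGroup p (Subgroup.zpowers y) := hv.pgp.to_le (by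
    rw [Subgroup.zpowers_le]
    exact h.mem y)
  have h2 : Subgroup.zpowers y ≤ Subgroup.normalizer (C x : Set L) := by
    rw [Subgroup.zpowers_le]
    exact (h.mem_norm hx).mpr hyN
  have h3 : IsPGroup p (C x ⊔ Subgroup.zpowers y : Subgroup L) := hu.pgp.to_sup_of_normal_left' h1 h2
  have h4 := hu.max h hx h3 le_sup_left
  rw [← h4]
  exact Subgroup.mem_sup_right (Subgroup.mem_zpowers y)

/-- groups of odd order: a torus, or a subgroup of the normaliser of a unipotent member -/
theorem odd_type [Finite L] [hp : Fact p.Prime] (h : Pt p F C) (hodd : Odd (Nat.card L)) (hL : Nat.card L ≠ 1) :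
    ∃ x : L, x ≠ 1 ∧ (SS p C x ∧ (∀ y : L, y ∈ C x) ∨ UN p F C x ∧ ∀ g : L, g * x * g⁻¹ ∈ C x) := by
  have hn1 : ∃ x : L, x ≠ 1 := by
    by_contra hc
    push Not at hc
    apply hL
    haveI : Subsingleton L := ⟨fun a b => by rw [hc a, hc b]⟩
    exact Nat.card_unique
  have hoddC : ∀ M : Subgroup L, Odd (Nat.card M) := fun M => hodd.of_dvd_nat (Subgroup.card_subgroup_dvd_card M)
  have hC3 : ∀ x : L, x ≠ 1 → 3 ≤ Nat.card (C x) := by
    intro x hx
    have h1 := two_le_card h hx
    obtain ⟨k, hk⟩ := hoddC (C x)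
    omega
  -- sizes of the classes of tori
  have hSS : ∀ x : L, x ≠ 1 → SS p C x → ∃ b, Nat.card L = Nat.card (C x) * b ∧ Nat.card (cls C x) + b = Nat.card L := by
    intro x hx hs
    rcases hs.size h hx with h1 | ⟨b, hb, -⟩
    · exact h1
    · exfalso
      obtain ⟨k, hk⟩ := hodd
      omega
  have hbig : ∀ x : L, x ≠ 1 → SS p C x → 2 * Nat.card L ≤ 3 * Nat.card (cls C x) := by
    intro x hx hs
    obtain ⟨b, hb, hb2⟩ := hSS x hx hs
    have h1 : 3 * b ≤ Nat.card (C x) * b := Nat.mul_le_mul_right _ (hC3 x hx)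
    omega
  have hpos : 0 < Nat.card L := Nat.card_pos
  by_cases hun : ∃ x : L, x ≠ 1 ∧ UN p F C x
  · obtain ⟨x, hx, hu⟩ := hun
    refine ⟨x, hx, Or.inr ⟨hu, ?_⟩⟩
    set N := Subgroup.normalizer (C x : Set L) with hNdef
    obtain ⟨φ, hφ⟩ : ∃ φ : N →* Fˣ, ∀ g, φ g = 1 ↔ (g : L) ∈ C x := hu.quo
    have hker : Nat.card φ.ker = Nat.card (C x) := by
      have h1 : φ.ker = (C x).subgroupOf N := by
        ext g
        rw [MonoidHom.mem_ker, hφ]
        rfl
      rw [h1]
      exact Nat.card_congr (Subgroup.subgroupOfEquivOfLe Subgroup.le_normalizer).toEquiv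
    have hcardN : Nat.card (C x) * Nat.card φ.range = Nat.card N := by
      have h1 := Subgroup.card_mul_index φ.ker
      rw [hker, Subgroup.index_ker] at h1
      exact h1
    have hcls := card_cls h hx
    rw [← hNdef] at hcls
    suffices hN : Nat.card N = Nat.card L by
      intro g
      have h1 := Subgroup.eq_top_of_card_eq N hN
      have h2 : g ∈ N := by rw [h1]; trivial
      exact (h.mem_norm hx).mp h2
    have hg3 := hC3 x hx
    obtain ⟨d, hd⟩ : Nat.card N ∣ Nat.card L := Subgroup.card_subgroup_dvd_card N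
    have hNpos : 0 < Nat.card N := Nat.card_pos
    have hcls2 : Nat.card (cls C x) + d = d * Nat.card (C x) := by
      rw [hd, mul_comm] at hcls
      have h1 : Nat.card (cls C x) = d * (Nat.card (C x) - 1) :=
        Nat.eq_of_mul_eq_mul_left hNpos (by rw [hcls]; ring)
      obtain ⟨k, hk⟩ : ∃ k, Nat.card (C x) = k + 1 := ⟨Nat.card (C x) - 1, by omega⟩
      rw [h1, hk]
      simp
      ring
    have hnotun : ∀ y : L, y ≠ 1 → y ∉ cls C x → SS p C y := fun y hy hyx =>
      (h.type y hy).resolve_right (fun hv => hyx (hu.conj h hx hy hv))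
    by_contra hNn
    have hd2 : 2 ≤ d := by
      by_contra hc
      have h1 : d = 0 ∨ d = 1 := by omega
      rcases h1 with h1 | h1
      · rw [h1] at hd
        omega
      · rw [h1] at hd
        omega
    haveI : Finite φ.range := by
      have : Finite (Set.range φ) := Set.finite_range φ |>.to_subtype
      exact this
    obtain ⟨w, hw⟩ : ∃ w : φ.range, ∀ z : φ.range, z ∈ Subgroup.zpowers w := (isCyclic_subgroup_units φ.range).exists_generator
    obtain ⟨w₀, hw₀⟩ := w.2
    by_cases hw1 : (w : Fˣ) = 1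
    · -- the quotient is trivial
      have hc1 : Nat.card φ.range = 1 := by
        haveI : Subsingleton φ.range := ⟨fun a b => by
          have h1 : ∀ z : φ.range, z = 1 := by
            intro z
            obtain ⟨k, hk⟩ := hw z
            have h2 : w = 1 := Subtype.ext hw1
            rw [← hk, h2]
            simp
          rw [h1 a, h1 b]⟩
        exact Nat.card_unique
      rw [hc1, mul_one] at hcardN
      obtain ⟨y, hy, hyx⟩ : ∃ y : L, y ≠ 1 ∧ y ∉ cls C x := by
        by_contra hc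
        push Not at hc
        have h3 := card_cls_eq_one hc
        have h4 : Nat.card L = d * Nat.card (C x) := by rw [hd, ← hcardN]; ring
        omega
      have h1 := hbig y hy (hnotun y hy hyx)
      have h2 := card_cls_two hy hyx
      have h4 : Nat.card L = d * Nat.card (C x) := by rw [hd, ← hcardN]; ring
      have h5 : d * 3 ≤ d * Nat.card (C x) := Nat.mul_le_mul_left _ hg3
      omega
    · have hw₀C : (w₀ : L) ∉ C x := fun h1 => hw1 (by rw [← hw₀]; exact (hφ w₀).mpr h1)
      have hw₀1 : (w₀ : L) ≠ 1 := fun h1 => hw₀C (by rw [h1]; exact (C x).one_mem)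
      have hw₀N : (w₀ : L) * x * (w₀ : L)⁻¹ ∈ C x := (h.mem_norm hx).mp w₀.2
      have hw₀S : SS p C (w₀ : L) := (h.type _ hw₀1).resolve_right (fun hv => hw₀C (hu.mem_of_un h hx hw₀1 hv hw₀N))
      have hle : C (w₀ : L) ≤ N := fun g hg => (h.mem_norm hx).mpr (hu.tor _ hw₀1 hw₀N g hg)
      have hw₀x : (w₀ : L) ∉ cls C x := by
        rintro ⟨-, g, hg⟩
        have h1 : IsPGroup p (C (w₀ : L)) := by
          rw [hg]
          exact hu.pgp.map _
        obtain ⟨k, hk⟩ := h1 ⟨(w₀ : L), h.mem _⟩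
        have h3 : (w₀ : L) ^ p ^ k = 1 := congrArg Subtype.val hk
        have h4 := hw₀S.ord (w₀ : L) (h.mem _)
        have h6 : (orderOf (w₀ : L)).Coprime (p ^ k) := Nat.Coprime.pow_right k h4
        have h7 := Nat.Coprime.eq_one_of_dvd h6 (orderOf_dvd_of_pow_eq_one h3)
        exact hw₀1 (orderOf_eq_one_iff.mp h7)
      -- the order of the torus
      have hcard : Nat.card (C (w₀ : L)) = Nat.card φ.range := by
        let ψ : C (w₀ : L) → φ.range := fun g => ⟨φ ⟨g, hle g.2⟩, ⟨⟨g, hle g.2⟩, rfl⟩⟩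
        have hψ : Function.Bijective ψ := by
          constructor
          · intro a b hab
            have h1 : φ ⟨a, hle a.2⟩ = φ ⟨b, hle b.2⟩ := congrArg Subtype.val hab
            have h2 : φ (⟨a, hle a.2⟩ * (⟨b, hle b.2⟩)⁻¹) = 1 := by rw [map_mul, map_inv, h1, mul_inv_cancel]
            have h3 : (a : L) * (b : L)⁻¹ ∈ C x := (hφ _).mp h2
            have h4 : (a : L) * (b : L)⁻¹ ∈ C (w₀ : L) := (C (w₀ : L)).mul_mem a.2 ((C (w₀ : L)).inv_mem b.2)
            by_cases h5 : (a : L) * (b : L)⁻¹ = 1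
            · exact Subtype.ext (mul_inv_eq_one.mp h5)
            · exfalso
              apply hw₀C
              rw [← h.eq_of_mem x _ hx h5 h3, h.eq_of_mem _ _ hw₀1 h5 h4]
              exact h.mem _
          · intro z
            obtain ⟨k, hk⟩ := hw z
            refine ⟨⟨(w₀ : L) ^ k, (C (w₀ : L)).zpow_mem (h.mem _) k⟩, ?_⟩
            apply Subtype.ext
            show φ ⟨(w₀ : L) ^ k, _⟩ = z
            have h1 : (⟨(w₀ : L) ^ k, hle ((C (w₀ : L)).zpow_mem (h.mem _) k)⟩ : N) = w₀ ^ k := rfl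
            rw [h1, map_zpow, hw₀]
            exact congrArg Subtype.val hk
        exact Nat.card_congr (Equiv.ofBijective ψ hψ)
      obtain ⟨b, hb, hb2⟩ := hSS _ hw₀1 hw₀S
      rw [hcard] at hb
      have hc3 : 3 ≤ Nat.card φ.range := by rw [← hcard]; exact hC3 _ hw₀1
      have hbd : b = Nat.card (C x) * d := by
        have h1 : Nat.card φ.range * b = Nat.card φ.range * (Nat.card (C x) * d) := by
          rw [← hb, hd, ← hcardN]
          ring
        exact Nat.eq_of_mul_eq_mul_left (by omega) h1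
      have h9 : 9 * d ≤ Nat.card L := by
        rw [hb, hbd]
        calc 9 * d = 3 * (3 * d) := by ring
          _ ≤ Nat.card φ.range * (Nat.card (C x) * d) := Nat.mul_le_mul hc3 (Nat.mul_le_mul_right _ hg3)
      have hbd2 : b = d * Nat.card (C x) := by rw [hbd]; ring
      obtain ⟨y, hy, hyx, hyw⟩ : ∃ y : L, y ≠ 1 ∧ y ∉ cls C x ∧ y ∉ cls C (w₀ : L) := by
        by_contra hc
        push Not at hc
        have h3 := card_cls_eq_two hw₀1 hw₀x (fun w hw => by
          by_cases h4 : w ∈ cls C x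
          · exact Or.inl h4
          · exact Or.inr (hc w hw h4))
        omega
      have h1 := hbig y hy (hnotun y hy hyx)
      have h2 := card_cls_three hw₀1 hy hw₀x hyx hyw
      omega
  · push Not at hun
    obtain ⟨x, hx⟩ := hn1
    have hs : ∀ y : L, y ≠ 1 → SS p C y := fun y hy => (h.type y hy).resolve_right (hun y hy)
    refine ⟨x, hx, Or.inl ⟨hs x hx, ?_⟩⟩
    obtain ⟨b, hb, hb2⟩ := hSS x hx (hs x hx)
    have hno : ∀ w : L, w ≠ 1 → w ∈ cls C x := by
      intro w hw
      by_contra hc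
      have h1 := card_cls_two hw hc
      have h2 := hbig x hx (hs x hx)
      have h3 := hbig w hw (hs w hw)
      omega
    have h1 := card_cls_eq_one hno
    have h2 : b = 1 := by omega
    rw [h2, mul_one] at hb
    intro y
    rw [Subgroup.eq_top_of_card_eq (C x) hb.symm]
    trivial

end Pool.Agent.H32.HallD
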