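import Pool.Agent.H32.HallD.Crit

/-!
# HallD Part: groups with a partition, as the subgroups of `PGL₂`

`C x` is the member of the partition which contains `x ≠ 1`.  It is either cyclic of order prime to `p` (`SS`) and has
index at most `2` in its normaliser, or a `p`-group (`UN`).
-/

set_option autoImplicit false

universe u

namespace Pool.Agent.H32.HallD

/-- `C x` is a torus -/
structure SS (p : ℕ) {L : Type u} [Group L] (C : L → Subgroup L) (x : L) : Prop where
  cyc : IsCyclic (C x)
  ord : ∀ y ∈ C x, (orderOf y).Coprime p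
  sq : ∀ g : L, g * x * g⁻¹ ∈ C x → g ∉ C x → g * g = 1
  two : ∀ g h : L, g * x * g⁻¹ ∈ C x → g ∉ C x → h * x * h⁻¹ ∈ C x → h ∉ C x → g * h ∈ C x

/-- `C x` is unipotent -/
structure UN (p : ℕ) (F : Type) [Field F] {L : Type u} [Group L] (C : L → Subgroup L) (x : L) : Prop where
  pgp : IsPGroup p (C x)
  free : ∀ g : L, g ∉ C x → ∀ y ∈ C x, y ≠ 1 → g * y * g⁻¹ ≠ y
  tor : ∀ y : L, y ≠ 1 → y * x * y⁻¹ ∈ C x → ∀ g ∈ C y, g * x * g⁻¹ ∈ C x
  quo : ∃ φ : Subgroup.normalizer (C x : Set L) →* Fˣ, ∀ g, φ g = 1 ↔ (g : L) ∈ C x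

/-- the partition -/
structure Pt (p : ℕ) (F : Type) [Field F] {L : Type u} [Group L] (C : L → Subgroup L) : Prop where
  mem : ∀ x, x ∈ C x
  eq_of_mem : ∀ x y, x ≠ 1 → y ≠ 1 → y ∈ C x → C y = C x
  conj : ∀ g x, x ≠ 1 → C (g * x * g⁻¹) = cj g (C x)
  type : ∀ x, x ≠ 1 → SS p C x ∨ UN p F C x

variable {p : ℕ} {F : Type} [Field F] {L : Type u} [Group L] {C : L → Subgroup L}

theorem conj_ne_one {g x : L} (hx : x ≠ 1) : g * x * g⁻¹ ≠ 1 := by
  intro h
  exact hx (conj_eq_one_iff.mp h)

theorem cj_eq_iff {g : L} {A : Subgroup L} : cj g A = A ↔ g ∈ Subgroup.normalizer (A : Set L) := by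
  rw [Subgroup.mem_normalizer_iff]
  constructor
  · intro h x
    constructor
    · intro hx
      rw [← h]
      show g * x * g⁻¹ ∈ cj g A
      rw [mem_cj]
      simpa [mul_assoc] using hx
    · intro hx
      have h1 : g * x * g⁻¹ ∈ cj g A := by rw [h]; exact hx
      rw [mem_cj] at h1
      simpa [mul_assoc] using h1
  · intro h
    ext x
    rw [mem_cj]
    have h1 := h (g⁻¹ * x * g)
    have h2 : g * (g⁻¹ * x * g) * g⁻¹ = x := by group
    rw [h2] at h1
    exact h1

theorem Pt.mem_norm (h : Pt p F C) {x : L} (hx : x ≠ 1) {g : L} :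
    g ∈ Subgroup.normalizer (C x : Set L) ↔ g * x * g⁻¹ ∈ C x := by
  constructor
  · intro hg
    exact (Subgroup.mem_normalizer_iff.mp hg x).mp (h.mem x)
  · intro hg
    rw [← cj_eq_iff, ← h.conj g x hx]
    exact h.eq_of_mem x _ hx (conj_ne_one hx) hg

theorem Pt.mem_comm (h : Pt p F C) {x y : L} (hx : x ≠ 1) (hy : y ≠ 1) : y ∈ C x ↔ C y = C x :=
  ⟨h.eq_of_mem x y hx hy, fun h1 => by rw [← h1]; exact h.mem y⟩

/-- the partition of a subgroup -/
def res (C : L → Subgroup L) (K : Subgroup L) : K → Subgroup K := fun x => (C x).subgroupOf K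

theorem mem_res {K : Subgroup L} {x y : K} : y ∈ res C K x ↔ (y : L) ∈ C x := Iff.rfl

theorem Pt.res (h : Pt p F C) (K : Subgroup L) : Pt p F (HallD.res C K) where
  mem x := h.mem x
  eq_of_mem x y hx hy hyx := by
    have h1 := h.eq_of_mem (x : L) y (by simpa using hx) (by simpa using hy) hyx
    unfold HallD.res
    rw [h1]
  conj g x hx := by
    ext y
    rw [mem_cj, mem_res, mem_res]
    have h1 := h.conj (g : L) (x : L) (by simpa using hx)
    have h2 : ((g * x * g⁻¹ : K) : L) = (g : L) * x * (g : L)⁻¹ := rfl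
    rw [h2, h1, mem_cj]
    rfl
  type x hx := by
    have hx' : (x : L) ≠ 1 := by simpa using hx
    rcases h.type (x : L) hx' with h1 | h1
    · left
      refine ⟨?_, ?_, ?_, ?_⟩
      · have h2 : IsCyclic (C (x : L)) := h1.cyc
        exact isCyclic_of_injective (((K.subtype).comp (HallD.res C K x).subtype).codRestrict (C (x : L)) (fun y => y.2)) (by
          intro a b hab
          have h3 := congrArg (Subtype.val) hab
          exact Subtype.ext (Subtype.ext h3))
      · intro y hy
        rw [← Subgroup.orderOf_coe]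
        exact h1.ord y hy
      · intro g hg hg2
        exact Subtype.ext (h1.sq g hg hg2)
      · intro g k hg hg2 hk hk2
        exact h1.two g k hg hg2 hk hk2
    · right
      refine ⟨?_, ?_, ?_, ?_⟩
      · intro y
        obtain ⟨k, hk⟩ := h1.pgp ⟨((y : K) : L), y.2⟩
        refine ⟨k, ?_⟩
        have h3 := congrArg (Subtype.val) hk
        exact Subtype.ext (Subtype.ext h3)
      · intro g hg y hy hy1 h2
        exact h1.free g hg y hy (by simpa using hy1) (congrArg Subtype.val h2)
      · intro y hy1 hy g hg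
        exact h1.tor y (by simpa using hy1) hy g hg
      · obtain ⟨φ, hφ⟩ := h1.quo
        have hn : ∀ g : Subgroup.normalizer (HallD.res C K x : Set K), ((g : K) : L) ∈ Subgroup.normalizer (C (x : L) : Set L) := by
          intro g
          rw [h.mem_norm hx']
          have h2 := (Subgroup.mem_normalizer_iff.mp g.2 x).mp (h.mem x)
          exact h2
        refine ⟨φ.comp (((K.subtype).comp (Subgroup.normalizer (HallD.res C K x : Set K)).subtype).codRestrict _ hn), ?_⟩
        intro g
        rw [MonoidHom.comp_apply, hφ]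
        rfl

/-- in the unipotent case the centraliser of `x` is contained in `C x` -/
theorem UN.centralizer {x : L} (h : UN p F C x) {y g : L} (hy : y ∈ C x) (hy1 : y ≠ 1) (hg : g * y * g⁻¹ = y) : g ∈ C x := by
  by_contra h1
  exact h.free g h1 y hy hy1 hg

/-- `SS` and `UN` exclude each other -/
theorem SS.not_un (h : Pt p F C) [Fact p.Prime] {x : L} (hx : x ≠ 1) (h1 : SS p C x) (h2 : UN p F C x) : False := by
  obtain ⟨k, hk⟩ := h2.pgp ⟨x, h.mem x⟩
  have h3 : x ^ p ^ k = 1 := congrArg Subtype.val hk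
  have h4 := h1.ord x (h.mem x)
  have h5 : orderOf x ∣ p ^ k := orderOf_dvd_of_pow_eq_one h3
  have h6 : (orderOf x).Coprime (p ^ k) := Nat.Coprime.pow_right k h4
  have h7 : orderOf x = 1 := Nat.Coprime.eq_one_of_dvd h6 h5
  exact hx (orderOf_eq_one_iff.mp h7)

end Pool.Agent.H32.HallD
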