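import Pool.Agent.H32.HallD.Count

/-!
# HallD Types: the finite groups with a partition without unipotent elements
-/

set_option autoImplicit false

universe u

namespace Pool.Agent.H32.HallD

variable {p : ℕ} {F : Type} [Field F] {L : Type u} [Group L] {C : L → Subgroup L}

theorem two_le_card [Finite L] (h : Pt p F C) {x : L} (hx : x ≠ 1) : 2 ≤ Nat.card (C x) := by
  have h3 : 0 < Nat.card (C x) := Nat.card_pos
  have h4 : Nat.card (C x) ≠ 1 := by
    intro h5
    rw [Subgroup.card_eq_one] at h5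
    have h6 := h.mem x
    rw [h5, Subgroup.mem_bot] at h6
    exact hx h6
  omega

/-- the two possible sizes of the class of a torus -/
theorem SS.size [Finite L] (h : Pt p F C) {x : L} (hx : x ≠ 1) (hs : SS p C x) :
    (∃ b, Nat.card L = Nat.card (C x) * b ∧ Nat.card (cls C x) + b = Nat.card L) ∨
      ∃ b, Nat.card L = 2 * (Nat.card (C x) * b) ∧ 2 * Nat.card (cls C x) + 2 * b = Nat.card L := by
  have h1 := card_cls h hx
  have h2 := two_le_card h hx
  obtain ⟨a, ha⟩ : ∃ a, Nat.card (C x) = a + 1 := ⟨Nat.card (C x) - 1, by omega⟩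
  have hdvd := Subgroup.card_subgroup_dvd_card (Subgroup.normalizer (C x : Set L))
  rcases hs.card_norm h hx with h3 | h3
  · left
    rw [h3] at hdvd
    obtain ⟨b, hb⟩ := hdvd
    refine ⟨b, hb, ?_⟩
    rw [h3, hb, ha] at h1
    rw [hb, ha]
    have h4 : Nat.card (cls C x) = b * a := by
      have h5 : (a + 1) * Nat.card (cls C x) = (a + 1) * (b * a) := by
        rw [mul_comm, h1]
        simp
        ring
      exact Nat.eq_of_mul_eq_mul_left (Nat.succ_pos a) h5
    rw [h4]
    ring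
  · right
    rw [h3] at hdvd
    obtain ⟨b, hb⟩ := hdvd
    refine ⟨b, by rw [hb]; ring, ?_⟩
    rw [h3, hb, ha] at h1
    rw [hb, ha]
    have h4 : Nat.card (cls C x) = b * a := by
      have h5 : (2 * (a + 1)) * Nat.card (cls C x) = (2 * (a + 1)) * (b * a) := by
        rw [mul_comm, h1]
        simp
        ring
      exact Nat.eq_of_mul_eq_mul_left (by positivity) h5
    rw [h4]
    ring

private theorem ar2 {k a b a' b' : ℕ} (h1 : a * b = 2 * k) (h2 : a' * b' = 2 * k) (hb : 2 ≤ b) (hb' : 2 ≤ b') (h : b + b' = k + 1) :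
    (k = 3 ∨ k = 6 ∨ k = 15) ∧ a ≤ 5 ∧ a' ≤ 5 := by
  have key : ∀ a b a' b' : ℕ, a * b = 2 * k → a' * b' = 2 * k → 2 ≤ b → 2 ≤ b' → b + b' = k + 1 → 3 ≤ a := by
    intro a b a' b' h1 h2 hb hb' h
    by_contra hc
    have : a = 0 ∨ a = 1 ∨ a = 2 := by omega
    rcases this with rfl | rfl | rfl <;> omega
  have ha := key a b a' b' h1 h2 hb hb' h
  have ha' := key a' b' a b h2 h1 hb' hb (by omega)
  have key2 : ∀ a b a' b' : ℕ, a * b = 2 * k → a' * b' = 2 * k → 3 ≤ a' → b + b' = k + 1 → a = 3 → (k = 3 ∨ k = 6 ∨ k = 15) ∧ a' ≤ 5 := by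
    intro a b a' b' h1 h2 ha' h h3
    subst h3
    have h4 : 3 * b' = k + 3 := by omega
    have h5 : a' * (k + 3) = 6 * k := by
      rw [← h4]
      calc a' * (3 * b') = 3 * (a' * b') := by ring
        _ = 6 * k := by rw [h2]; ring
    have h6 : a' < 6 := by
      by_contra h7
      have h8 : 6 * (k + 3) ≤ a' * (k + 3) := Nat.mul_le_mul_right _ (by omega)
      omega
    refine ⟨?_, by omega⟩
    have : a' = 3 ∨ a' = 4 ∨ a' = 5 := by omega
    rcases this with rfl | rfl | rfl <;> omega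
  by_cases h3 : a = 3
  · obtain ⟨h4, h5⟩ := key2 a b a' b' h1 h2 ha' h h3
    exact ⟨h4, by omega, h5⟩
  by_cases h3' : a' = 3
  · obtain ⟨h4, h5⟩ := key2 a' b' a b h2 h1 ha (by omega) h3'
    exact ⟨h4, h5, by omega⟩
  exfalso
  have h4 : 4 * b ≤ a * b := Nat.mul_le_mul_right _ (by omega)
  have h5 : 4 * b' ≤ a' * b' := Nat.mul_le_mul_right _ (by omega)
  omega

private theorem ar3 {m a b a' b' a'' b'' : ℕ} (h1 : a * b = m) (h2 : a' * b' = m) (h3 : a'' * b'' = m) (ha : 2 ≤ a) (ha' : 2 ≤ a')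
    (ha'' : 2 ≤ a'') (hb : 2 ≤ b) (hb' : 2 ≤ b') (hb'' : 2 ≤ b'') (h : b + b' + b'' = m + 1) :
    (m = 6 ∨ m = 12 ∨ m = 30) ∧ a ≤ 5 ∧ a' ≤ 5 ∧ a'' ≤ 5 := by
  have key : ∀ a b a' b' a'' b'' : ℕ, a * b = m → a' * b' = m → a'' * b'' = m → 2 ≤ b → 2 ≤ b' → 2 ≤ b'' → b + b' + b'' = m + 1 → a = 2 →
      (m = 6 ∨ m = 12 ∨ m = 30) ∧ a' ≤ 5 ∧ a'' ≤ 5 := by
    intro a b a' b' a'' b'' h1 h2 h3 hb hb' hb'' h h4
    subst h4
    obtain ⟨h5, h6, h7⟩ := ar2 (k := b) (a := a') (b := b') (a' := a'') (b' := b'') (by omega) (by omega) hb' hb'' (by omega)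
    exact ⟨by omega, h6, h7⟩
  by_cases e1 : a = 2
  · obtain ⟨h4, h5, h6⟩ := key a b a' b' a'' b'' h1 h2 h3 hb hb' hb'' h e1
    exact ⟨h4, by omega, h5, h6⟩
  by_cases e2 : a' = 2
  · obtain ⟨h4, h5, h6⟩ := key a' b' a b a'' b'' h2 h1 h3 hb' hb hb'' (by omega) e2
    exact ⟨h4, h5, by omega, h6⟩
  by_cases e3 : a'' = 2
  · obtain ⟨h4, h5, h6⟩ := key a'' b'' a b a' b' h3 h1 h2 hb'' hb hb' (by omega) e3
    exact ⟨h4, h5, h6, by omega⟩
  exfalso
  have h4 : 3 * b ≤ a * b := Nat.mul_le_mul_right _ (by omega)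
  have h5 : 3 * b' ≤ a' * b' := Nat.mul_le_mul_right _ (by omega)
  have h6 : 3 * b'' ≤ a'' * b'' := Nat.mul_le_mul_right _ (by omega)
  omega

/-- either there is a cyclic member of the partition of index at most `2`, or the order is `12`, `24` or `60` and the members are small -/
theorem types [Finite L] (h : Pt p F C) (hL : Nat.card L ≠ 1) (hs : ∀ x : L, x ≠ 1 → SS p C x) :
    (∃ x : L, x ≠ 1 ∧ Nat.card L ≤ 2 * Nat.card (C x)) ∨
      ((Nat.card L = 12 ∨ Nat.card L = 24 ∨ Nat.card L = 60) ∧ ∀ x : L, x ≠ 1 → Nat.card (C x) ≤ 5) := by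
  by_cases hD : ∃ x : L, x ≠ 1 ∧ Nat.card L ≤ 2 * Nat.card (C x)
  · exact Or.inl hD
  right
  push Not at hD
  -- lower bound for the classes
  have hlow : ∀ x : L, x ≠ 1 → Nat.card L ≤ 4 * Nat.card (cls C x) := by
    intro x hx
    have h2 := two_le_card h hx
    rcases (hs x hx).size h hx with ⟨b, hb, hb2⟩ | ⟨b, hb, hb2⟩
    · have h3 : 2 * b ≤ Nat.card (C x) * b := Nat.mul_le_mul_right _ h2
      omega
    · have h3 : 2 * b ≤ Nat.card (C x) * b := Nat.mul_le_mul_right _ h2
      omega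
  have hn1 : ∃ x : L, x ≠ 1 := by
    by_contra hc
    push Not at hc
    apply hL
    haveI : Subsingleton L := ⟨fun a b => by rw [hc a, hc b]⟩
    exact Nat.card_unique
  by_cases hA : ∃ x : L, x ≠ 1 ∧ ∃ b, Nat.card L = Nat.card (C x) * b ∧ Nat.card (cls C x) + b = Nat.card L
  · -- there is a class of the first kind
    obtain ⟨x, hx, b, hb, hb2⟩ := hA
    have ha := two_le_card h hx
    have hDx := hD x hx
    have hb3 : 3 ≤ b := by
      by_contra hc
      have h3 : Nat.card (C x) * b ≤ Nat.card (C x) * 2 := Nat.mul_le_mul_left _ (by omega)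
      omega
    obtain ⟨y, hy, hyx⟩ : ∃ y : L, y ≠ 1 ∧ y ∉ cls C x := by
      by_contra hc
      push Not at hc
      have h3 := card_cls_eq_one hc
      omega
    have h2 := card_cls_two hy hyx
    have ha' := two_le_card h hy
    have hDy := hD y hy
    rcases (hs y hy).size h hy with ⟨b', hb', hb2'⟩ | ⟨b', hb', hb2'⟩
    · exfalso
      have h3 : 2 * b' ≤ Nat.card (C y) * b' := Nat.mul_le_mul_right _ ha'
      have h4 : 2 * b ≤ Nat.card (C x) * b := Nat.mul_le_mul_right _ ha
      omega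
    have hb3' : 2 ≤ b' := by
      by_contra hc
      have h3 : Nat.card (C y) * b' ≤ Nat.card (C y) * 1 := Nat.mul_le_mul_left _ (by omega)
      omega
    have hthird : ∀ z : L, z ≠ 1 → z ∉ cls C x → z ∉ cls C y →
        Nat.card (cls C x) + Nat.card (cls C y) + Nat.card (cls C z) + 1 ≤ Nat.card L := fun z hz h3 h4 =>
      card_cls_three hy hz hyx h3 h4
    set a := Nat.card (C x) with hadef
    set a' := Nat.card (C y) with hadef'
    have ha4 : a < 4 := by
      by_contra hc
      have h3 : 4 * b ≤ a * b := Nat.mul_le_mul_right _ (by omega)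
      have h4 : 2 * b' ≤ a' * b' := Nat.mul_le_mul_right _ ha'
      omega
    have ha23 : a = 2 ∨ a = 3 := by omega
    rcases ha23 with ha2 | ha3
    · exfalso
      rw [ha2] at hb
      obtain ⟨z, hz, hzx, hzy⟩ : ∃ z : L, z ≠ 1 ∧ z ∉ cls C x ∧ z ∉ cls C y := by
        by_contra hc
        push Not at hc
        have h3 := card_cls_eq_two hy hyx (fun w hw => by
          by_cases h4 : w ∈ cls C x
          · exact Or.inl h4
          · exact Or.inr (hc w hw h4))
        omega
      have h3 := hthird z hz hzx hzy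
      have h4 := hlow z hz
      have h5 : 2 * b' ≤ a' * b' := Nat.mul_le_mul_right _ ha'
      omega
    · rw [ha3] at hb
      have ha2' : a' < 3 := by
        by_contra hc
        have h3 : 3 * b' ≤ a' * b' := Nat.mul_le_mul_right _ (by omega)
        omega
      have ha2'' : a' = 2 := by omega
      rw [ha2''] at hb'
      have hno : ∀ w : L, w ≠ 1 → w ∈ cls C x ∨ w ∈ cls C y := by
        intro w hw
        by_contra hc
        push Not at hc
        have h3 := hthird w hw hc.1 hc.2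
        have h4 := hlow w hw
        omega
      have h3 := card_cls_eq_two hy hyx hno
      refine ⟨Or.inl (by omega), ?_⟩
      intro w hw
      rcases hno w hw with h4 | h4
      · rw [card_of_mem_cls h4]; omega
      · rw [card_of_mem_cls h4]; omega
  · -- all classes are of the second kind
    push Not at hA
    have hB : ∀ x : L, x ≠ 1 → ∃ b, 2 ≤ b ∧ Nat.card L = 2 * (Nat.card (C x) * b) ∧ 2 * Nat.card (cls C x) + 2 * b = Nat.card L := by
      intro x hx
      rcases (hs x hx).size h hx with ⟨b, hb, hb2⟩ | ⟨b, hb, hb2⟩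
      · exact absurd hb2 (hA x hx b hb)
      · refine ⟨b, ?_, hb, hb2⟩
        by_contra hc
        have h3 : Nat.card (C x) * b ≤ Nat.card (C x) * 1 := Nat.mul_le_mul_left _ (by omega)
        have h4 := hD x hx
        omega
    obtain ⟨x, hx⟩ := hn1
    obtain ⟨b, hb, hb2, hb3⟩ := hB x hx
    obtain ⟨y, hy, hyx⟩ : ∃ y : L, y ≠ 1 ∧ y ∉ cls C x := by
      by_contra hc
      push Not at hc
      have h3 := card_cls_eq_one hc
      have h4 := hD x hx
      omega
    obtain ⟨b', hb', hb2', hb3'⟩ := hB y hy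
    obtain ⟨z, hz, hzx, hzy⟩ : ∃ z : L, z ≠ 1 ∧ z ∉ cls C x ∧ z ∉ cls C y := by
      by_contra hc
      push Not at hc
      have h3 := card_cls_eq_two hy hyx (fun w hw => by
        by_cases h4 : w ∈ cls C x
        · exact Or.inl h4
        · exact Or.inr (hc w hw h4))
      omega
    obtain ⟨b'', hb'', hb2'', hb3''⟩ := hB z hz
    have hno : ∀ w : L, w ≠ 1 → w ∈ cls C x ∨ w ∈ cls C y ∨ w ∈ cls C z := by
      intro w hw
      by_contra hc
      push Not at hc
      have h3 := card_cls_four hy hz hw hyx hzx hzy hc.1 hc.2.1 hc.2.2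
      have h4 := hlow w hw
      have h5 := hlow x hx
      have h6 := hlow y hy
      have h7 := hlow z hz
      omega
    have h3 := card_cls_eq_three hy hz hyx hzx hzy hno
    obtain ⟨h4, h5, h6, h7⟩ := ar3 (m := Nat.card (C x) * b) (a := Nat.card (C x)) (b := b) (a' := Nat.card (C y)) (b' := b')
      (a'' := Nat.card (C z)) (b'' := b'') rfl (by omega) (by omega) (two_le_card h hx) (two_le_card h hy) (two_le_card h hz) hb hb' hb''
      (by omega)
    refine ⟨by omega, ?_⟩
    intro w hw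
    rcases hno w hw with h8 | h8 | h8
    · rw [card_of_mem_cls h8]; exact h5
    · rw [card_of_mem_cls h8]; exact h6
    · rw [card_of_mem_cls h8]; exact h7

end Pool.Agent.H32.HallD
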